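import Pool.Agent.H6.Ab.Model

/-!
# Basic facts: torus action, cones, sections
-/

set_option autoImplicit false

namespace Pool.Agent.H6.Ab

open MvPolynomial

variable {I J M : Type} [AddCommGroup M] {D : I → M} {θ : M}
  {β : J → M} {F : J → MvPolynomial I ℂ} {X : Set (I → ℂ)}

/-- The action of the torus. -/
noncomputable def act (D : I → M) (g : Multiplicative M →* ℂˣ) (x : I → ℂ) : I → ℂ :=
  fun i => (g (Multiplicative.ofAdd (D i)) : ℂ) * x i

lemma sameOrbit_iff {x y : I → ℂ} : SameOrbit D x y ↔ ∃ g, y = act D g x := by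
  constructor
  · rintro ⟨g, hg⟩
    exact ⟨g, funext hg⟩
  · rintro ⟨g, rfl⟩
    exact ⟨g, fun i => rfl⟩

lemma act_zero_iff {g : Multiplicative M →* ℂˣ} {x : I → ℂ} {i : I} :
    act D g x i = 0 ↔ x i = 0 := by
  simp [act]

/-- The one parameter subgroup attached to `r`, at the point `u`. -/
noncomputable def lam (r : M →+ ℤ) (u : ℂˣ) : Multiplicative M →* ℂˣ :=
  (zpowersHom ℂˣ u).comp (AddMonoidHom.toMultiplicative r)

lemma lam_apply (r : M →+ ℤ) (u : ℂˣ) (m : M) :
    ((lam r u (Multiplicative.ofAdd m) : ℂˣ) : ℂ) = (u : ℂ) ^ (r m) := by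
  simp [lam]

lemma act_inv (g : Multiplicative M →* ℂˣ) (x : I → ℂ) : act D g⁻¹ (act D g x) = x := by
  funext i
  simp [act]

lemma act_mul (g h : Multiplicative M →* ℂˣ) (x : I → ℂ) :
    act D g (act D h x) = act D (g * h) x := by
  funext i
  simp [act, mul_assoc]

lemma SameOrbit.refl (x : I → ℂ) : SameOrbit D x x := ⟨1, fun i => by simp⟩

lemma SameOrbit.symm {x y : I → ℂ} (h : SameOrbit D x y) : SameOrbit D y x := by
  rw [sameOrbit_iff] at h ⊢
  obtain ⟨g, rfl⟩ := h
  exact ⟨g⁻¹, (act_inv g x).symm⟩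

lemma SameOrbit.trans {x y z : I → ℂ} (h : SameOrbit D x y) (h' : SameOrbit D y z) :
    SameOrbit D x z := by
  rw [sameOrbit_iff] at h h' ⊢
  obtain ⟨g, rfl⟩ := h
  obtain ⟨g', rfl⟩ := h'
  exact ⟨g' * g, act_mul g' g x⟩

lemma eval_act {G : MvPolynomial I ℂ} {b : M} (hG : IsWeightedHomogeneous D G b)
    (g : Multiplicative M →* ℂˣ) (x : I → ℂ) :
    eval (act D g x) G = (g (Multiplicative.ofAdd b) : ℂ) * eval x G := by
  induction hG using IsWeightedHomogeneous.induction_on with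
  | zero => simp
  | add p q hp hq h1 h2 => rw [map_add, map_add, h1, h2, mul_add]
  | monomial d c hd =>
    subst hd
    rw [eval_monomial, eval_monomial]
    have : (g (Multiplicative.ofAdd (Finsupp.weight D d)) : ℂ) =
        d.prod fun i k => (g (Multiplicative.ofAdd (D i)) : ℂ) ^ k := by
      rw [Finsupp.weight_apply, Finsupp.sum, ofAdd_sum, map_prod, Units.coe_prod, Finsupp.prod]
      refine Finset.prod_congr rfl fun i _ => ?_
      rw [ofAdd_nsmul, map_pow, Units.val_pow_eq_pow_val]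
    rw [this]
    simp only [act, mul_pow, Finsupp.prod, Finset.prod_mul_distrib]
    ring

/-- `X` is invariant under the torus. -/
lemma PreModel.act_mem (hm : PreModel D θ β F X) {x : I → ℂ} (hx : x ∈ X)
    (g : Multiplicative M →* ℂˣ) : act D g x ∈ X := by
  obtain ⟨p, h, hh, hx0, hop⟩ := hm.opn x hx
  apply hop
  · rw [eval_act hh]
    exact mul_ne_zero (Units.ne_zero _) hx0
  · intro j
    rw [eval_act (hm.hom j), hm.zero x hx j, mul_zero]

lemma PreModel.sameOrbit_mem (hm : PreModel D θ β F X) {x y : I → ℂ} (hx : x ∈ X)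
    (h : SameOrbit D x y) : y ∈ X := by
  rw [sameOrbit_iff] at h
  obtain ⟨g, rfl⟩ := h
  exact hm.act_mem hx g

/-- A homogeneous polynomial not vanishing at `x` has a monomial not vanishing at `x`. -/
lemma exists_monomial {G : MvPolynomial I ℂ} {b : M} (hG : IsWeightedHomogeneous D G b)
    {x : I → ℂ} (hx : eval x G ≠ 0) :
    ∃ e : I →₀ ℕ, coeff e G ≠ 0 ∧ Finsupp.weight D e = b ∧ ∀ i, e i ≠ 0 → x i ≠ 0 := by
  rw [eval_eq] at hx
  obtain ⟨e, he, hne⟩ := Finset.exists_ne_zero_of_sum_ne_zero hx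
  have hc : coeff e G ≠ 0 := mem_support_iff.mp he
  refine ⟨e, hc, hG hc, fun i hi h0 => hne ?_⟩
  rw [Finset.prod_eq_zero (i := i) (Finsupp.mem_support_iff.mpr hi), mul_zero]
  rw [h0, zero_pow hi]

lemma map_weight (ν : M →+ ℤ) (e : I →₀ ℕ) :
    ν (Finsupp.weight D e) = e.sum fun i k => (k : ℤ) * ν (D i) := by
  rw [Finsupp.weight_apply, Finsupp.sum, map_sum, Finsupp.sum]
  refine Finset.sum_congr rfl fun i _ => ?_
  rw [map_nsmul, nsmul_eq_mul]

lemma nonneg_weight {ν : M →+ ℤ} {e : I →₀ ℕ} (h : ∀ i, e i ≠ 0 → 0 ≤ ν (D i)) :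
    0 ≤ ν (Finsupp.weight D e) := by
  rw [map_weight]
  exact Finset.sum_nonneg fun i hi =>
    mul_nonneg (Int.natCast_nonneg _) (h i (Finsupp.mem_support_iff.mp hi))

/-- If `ν` is nonnegative on the support of `e` and vanishes on the weight of `e`, it vanishes
on the support of `e`. -/
lemma zero_of_weight_zero {ν : M →+ ℤ} {e : I →₀ ℕ} (h : ∀ i, e i ≠ 0 → 0 ≤ ν (D i))
    (h0 : ν (Finsupp.weight D e) = 0) : ∀ i, e i ≠ 0 → ν (D i) = 0 := by
  intro i hi
  rw [map_weight] at h0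
  have := (Finset.sum_eq_zero_iff_of_nonneg (fun i hi =>
    mul_nonneg (Int.natCast_nonneg _) (h i (Finsupp.mem_support_iff.mp hi)))).mp h0 i
      (Finsupp.mem_support_iff.mpr hi)
  rcases mul_eq_zero.mp this with h1 | h1
  · exact absurd (by exact_mod_cast h1) hi
  · exact h1

lemma NonnegAt.inCone {x : I → ℂ} {ν : M →+ ℤ} (hν : NonnegAt D x ν) {b : M}
    (hb : InCone D {i | x i ≠ 0} b) : 0 ≤ ν b := by
  obtain ⟨m, hm, e, he, hs⟩ := hb
  have h1 : 0 ≤ ν (m • b) := by
    rw [← he]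
    exact nonneg_weight fun i hi => hν i (hs i hi)
  rw [map_nsmul, nsmul_eq_mul] at h1
  have : (0 : ℤ) < m := by exact_mod_cast hm
  by_contra hcon
  push Not at hcon
  nlinarith

/-- functionals are determined by their values on the degrees of the nonzero coordinates -/
lemma PreModel.eq_zero (hm : PreModel D θ β F X) {x : I → ℂ} (hx : x ∈ X) {ν : M →+ ℤ}
    (h : ∀ i, x i ≠ 0 → ν (D i) = 0) : ν = 0 := by
  have h1 : AddSubgroup.closure (D '' {i | x i ≠ 0}) ≤ ν.ker := by
    rw [AddSubgroup.closure_le]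
    rintro _ ⟨i, hi, rfl⟩
    exact h i hi
  rw [hm.gen x hx] at h1
  ext m
  exact h1 (AddSubgroup.mem_top m)

/-- S5 -/
theorem theta_pos (hm : PreModel D θ β F X) {x : I → ℂ} (hx : x ∈ X) {ν : M →+ ℤ}
    (hν : NonnegAt D x ν) (h0 : ν ≠ 0) : 0 < ν θ := by
  obtain ⟨i, hi, hi0⟩ : ∃ i, x i ≠ 0 ∧ ν (D i) ≠ 0 := by
    by_contra hcon
    push Not at hcon
    exact h0 (hm.eq_zero hx hcon)
  obtain ⟨N, hN, e, he, hei, hs⟩ := hm.inter x hx i hi
  have h1 : 0 ≤ ν (N • θ) := by
    rw [← he]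
    exact nonneg_weight fun i hi => hν i (hs i hi)
  have h2 : ν (N • θ) ≠ 0 := by
    intro h3
    rw [← he] at h3
    exact hi0 (zero_of_weight_zero (fun i hi => hν i (hs i hi)) h3 i hei)
  rw [map_nsmul, nsmul_eq_mul] at h1 h2
  by_contra hcon
  push Not at hcon
  have hN' : (0 : ℤ) < N := by exact_mod_cast hN
  rcases hcon.lt_or_eq with h3 | h3
  · nlinarith
  · exact h2 (by rw [h3, mul_zero])

/-! ### sections -/

lemma isSection_poly {G : MvPolynomial I ℂ} {b : M} (hG : IsWeightedHomogeneous D G b) :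
    IsSection D X b (fun x => eval x G) := fun x _ =>
  ⟨b, 0, G, 1, hG, isWeightedHomogeneous_one ℂ D, by simp, by simp, fun y _ _ => by simp⟩

lemma IsSection.congr {b : M} {s s' : (I → ℂ) → ℂ} (hs : IsSection D X b s)
    (h : ∀ x ∈ X, s' x = s x) : IsSection D X b s' := fun x hx => by
  obtain ⟨p, q, G, H, hG, hH, hpq, hx0, hs⟩ := hs x hx
  exact ⟨p, q, G, H, hG, hH, hpq, hx0, fun y hy hy0 => by rw [h y hy, hs y hy hy0]⟩

lemma IsSection.mono {b : M} {s : (I → ℂ) → ℂ} (hs : IsSection D X b s) {C : Set (I → ℂ)}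
    (hC : C ⊆ X) : IsSection D C b s := fun x hx => by
  obtain ⟨p, q, G, H, hG, hH, hpq, hx0, hs⟩ := hs x (hC hx)
  exact ⟨p, q, G, H, hG, hH, hpq, hx0, fun y hy hy0 => hs y (hC hy) hy0⟩

lemma IsSection.mul {b b' : M} {s s' : (I → ℂ) → ℂ} (hs : IsSection D X b s)
    (hs' : IsSection D X b' s') : IsSection D X (b + b') (fun x => s x * s' x) := fun x hx => by
  obtain ⟨p, q, G, H, hG, hH, hpq, hx0, hs⟩ := hs x hx
  obtain ⟨p', q', G', H', hG', hH', hpq', hx0', hs'⟩ := hs' x hx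
  refine ⟨p + p', q + q', G * G', H * H', hG.mul hG', hH.mul hH', ?_, ?_, fun y hy hy0 => ?_⟩
  · rw [hpq, hpq']; abel
  · rw [map_mul]; exact mul_ne_zero hx0 hx0'
  · rw [map_mul] at hy0
    simp only [map_mul]
    rw [hs y hy (left_ne_zero_of_mul hy0), hs' y hy (right_ne_zero_of_mul hy0),
      div_mul_div_comm]

lemma IsSection.one : IsSection D X (0 : M) (fun _ => 1) := fun x _ =>
  ⟨0, 0, 1, 1, isWeightedHomogeneous_one ℂ D, isWeightedHomogeneous_one ℂ D, by simp, by simp,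
    fun y _ _ => by simp⟩

lemma IsSection.pow {b : M} {s : (I → ℂ) → ℂ} (hs : IsSection D X b s) (k : ℕ) :
    IsSection D X (k • b) (fun x => s x ^ k) := by
  induction k with
  | zero =>
    rw [zero_smul]
    exact IsSection.one.congr fun x _ => by simp
  | succ k ih =>
    rw [succ_nsmul]
    exact (ih.mul hs).congr fun x _ => by rw [pow_succ]

lemma IsSection.inv {b : M} {s : (I → ℂ) → ℂ} (hs : IsSection D X b s)
    (h0 : ∀ x ∈ X, s x ≠ 0) : IsSection D X (-b) (fun x => (s x)⁻¹) := fun x hx => by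
  obtain ⟨p, q, G, H, hG, hH, hpq, hx0, hs⟩ := hs x hx
  have hGx : eval x G ≠ 0 := by
    intro h
    apply h0 x hx
    rw [hs x hx hx0, h, zero_div]
  refine ⟨q + q, p + q, H * H, G * H, hH.mul hH, hG.mul hH, ?_, ?_, fun y hy hy0 => ?_⟩
  · rw [hpq]; abel
  · rw [map_mul]; exact mul_ne_zero hGx hx0
  · rw [map_mul] at hy0
    have hGy := left_ne_zero_of_mul hy0
    have hHy := right_ne_zero_of_mul hy0
    simp only [map_mul]
    rw [hs y hy hHy]
    field_simp

/-- Sections transform under the torus by the character of their class. -/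
lemma IsSection.act {b : M} {s : (I → ℂ) → ℂ} (hs : IsSection D X b s) {x : I → ℂ} (hx : x ∈ X)
    (g : Multiplicative M →* ℂˣ) (hgx : act D g x ∈ X) :
    s (act D g x) = (g (Multiplicative.ofAdd b) : ℂ) * s x := by
  obtain ⟨p, q, G, H, hG, hH, hpq, hx0, hs⟩ := hs x hx
  have h1 : eval (Ab.act D g x) H ≠ 0 := by
    rw [eval_act hH]
    exact mul_ne_zero (Units.ne_zero _) hx0
  rw [hs x hx hx0, hs _ hgx h1, eval_act hG, eval_act hH, hpq, ofAdd_add, map_mul]
  have h2 : ((g (Multiplicative.ofAdd q) : ℂˣ) : ℂ) ≠ 0 := Units.ne_zero _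
  rw [Units.val_mul]
  field_simp

/-- S3 -/
theorem semiample_of_coneAll {b : M} (h : ConeAll D X b) : IsSemiample D X b := by
  intro x hx
  obtain ⟨m, hm, e, he, hs⟩ := h x hx
  refine ⟨m, hm, fun y => eval y (monomial e (1 : ℂ)),
    isSection_poly (isWeightedHomogeneous_monomial D e 1 he), ?_⟩
  change eval x (monomial e (1 : ℂ)) ≠ 0
  rw [eval_monomial, one_mul, Finsupp.prod]
  exact Finset.prod_ne_zero_iff.mpr fun i hi =>
    pow_ne_zero _ (hs i (Finsupp.mem_support_iff.mp hi))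

/-- The class of the canonical bundle of the complete intersection (adjunction). -/
def canon {I J M : Type} [Fintype I] [Fintype J] [AddCommGroup M] (D : I → M) (β : J → M) : M :=
  ∑ j, β j - ∑ i, D i

open Classical in
/-- restriction of polynomials to the variables in `p` (the other variables are put to zero) -/
noncomputable def cut {I : Type} (p : I → Prop) :
    MvPolynomial I ℂ →ₐ[ℂ] MvPolynomial {i // p i} ℂ :=
  aeval (fun i => if h : p i then MvPolynomial.X ⟨i, h⟩ else 0)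

/-- The image of `X` under the restriction of coordinates. -/
def restr {I : Type} (p : I → Prop) (X : Set (I → ℂ)) : Set ({i // p i} → ℂ) :=
  {z | ∃ x ∈ X, z = fun i => x i.1}

end Pool.Agent.H6.Ab
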