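import Pool.Agent.H6.Ab.Basic

/-!
# Shifts of nef and semiample classes by units, the unit section
-/

set_option autoImplicit false

namespace Pool.Agent.H6.Ab

open MvPolynomial

variable {I J M : Type} [AddCommGroup M] {D : I → M} {θ : M}
  {β : J → M} {F : J → MvPolynomial I ℂ} {X : Set (I → ℂ)}

lemma IsCurve.subset {C : Set (I → ℂ)} (hC : IsCurve D X C) : C ⊆ X := by
  obtain ⟨S, hS, rfl⟩ := hC.sub
  exact fun x hx => hx.1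

/-- S17 : shift by a unit -/
theorem nef_shift {a δ : M} {u : (I → ℂ) → ℂ} (hu : IsSection D X δ u) (hu0 : ∀ x ∈ X, u x ≠ 0)
    (ha : IsNef D X a) : IsNef D X (a - δ) := by
  rintro C hC ⟨m, hm, s, hs, ⟨x₁, hx₁, hs₁⟩, ⟨x₂, hx₂, hs₂⟩⟩
  have hCX := hC.subset
  refine ha C hC ⟨m, hm, fun x => s x * (u x)⁻¹ ^ m, ?_, ?_, ?_⟩
  · have h1 := hs.mul (((hu.inv hu0).mono hCX).pow m)
    have e : -(m • (a - δ)) + m • -δ = -(m • a) := by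
      rw [smul_sub, smul_neg]
      abel
    rw [e] at h1
    exact h1
  · exact ⟨x₁, hx₁, mul_ne_zero hs₁ (pow_ne_zero _ (inv_ne_zero (hu0 _ (hCX hx₁))))⟩
  · refine ⟨x₂, hx₂, ?_⟩
    beta_reduce
    rw [hs₂, zero_mul]

theorem semiample_shift {a δ : M} {u : (I → ℂ) → ℂ} (hu : IsSection D X δ u)
    (hu0 : ∀ x ∈ X, u x ≠ 0) (ha : IsSemiample D X a) : IsSemiample D X (a + δ) := by
  intro x hx
  obtain ⟨m, hm, s, hs, hsx⟩ := ha x hx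
  refine ⟨m, hm, fun x => s x * u x ^ m, ?_, mul_ne_zero hsx (pow_ne_zero _ (hu0 x hx))⟩
  rw [smul_add]
  exact hs.mul (hu.pow m)

/-- S24 -/
theorem isSection_unit {κ : M} {r : M →+ ℤ} {ψ : I → MvPolynomial I ℂ}
    (hψ : ∀ i, IsWeightedHomogeneous D (ψ i) (D i + r (D i) • κ))
    (hu : ∀ x ∈ X, ∃ u : ℂ, u ≠ 0 ∧ ∀ i, eval x (ψ i) = u ^ (r (D i)).toNat * x i)
    (h1 : ∀ x ∈ X, ∃ i, r (D i) = 1 ∧ x i ≠ 0) :
    ∃ u : (I → ℂ) → ℂ, IsSection D X κ u ∧ ∀ x ∈ X, u x ≠ 0 := by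
  have key : ∀ x : I → ℂ, ∃ u : ℂ, x ∈ X →
      (u ≠ 0 ∧ ∀ i, eval x (ψ i) = u ^ (r (D i)).toNat * x i) := by
    intro x
    by_cases hx : x ∈ X
    · obtain ⟨u, hu'⟩ := hu x hx
      exact ⟨u, fun _ => hu'⟩
    · exact ⟨0, fun h => absurd h hx⟩
  choose u hu' using key
  refine ⟨u, fun x hx => ?_, fun x hx => (hu' x hx).1⟩
  obtain ⟨i, hi, hxi⟩ := h1 x hx
  refine ⟨D i + r (D i) • κ, D i, ψ i, MvPolynomial.X i, hψ i, isWeightedHomogeneous_X ℂ D i,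
    ?_, ?_, fun y hy hy0 => ?_⟩
  · rw [hi, one_smul]
  · rwa [eval_X]
  · rw [eval_X] at hy0 ⊢
    rw [(hu' y hy).2 i, hi, Int.toNat_one, pow_one, mul_div_assoc, div_self hy0, mul_one]

end Pool.Agent.H6.Ab
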