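import Pool.Agent.H6.Ab.CurveFib
import Pool.Agent.H6.Ab.Shift

/-!
# Connected parts
-/

set_option autoImplicit false

namespace Pool.Agent.H6.Ab

open MvPolynomial

variable {I M : Type} [AddCommGroup M] {D : I → M} {V X X₀ : Set (I → ℂ)}

lemma IsSub.le (h : IsSub D V X) : X ⊆ V := by
  obtain ⟨S, hS, rfl⟩ := h
  exact fun x hx => hx.1

lemma IsSub.self : IsSub D V V :=
  ⟨∅, fun P hP => absurd hP (Set.notMem_empty P), by
    ext x
    exact ⟨fun h => ⟨h, fun P hP => absurd hP (Set.notMem_empty P)⟩, fun h => h.1⟩⟩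

lemma IsSub.trans (h : IsSub D X X₀) (h' : IsSub D V X) : IsSub D V X₀ := by
  obtain ⟨S, hS, rfl⟩ := h
  obtain ⟨S', hS', rfl⟩ := h'
  refine ⟨S ∪ S', ?_, ?_⟩
  · rintro P (hP | hP)
    · exact hS P hP
    · exact hS' P hP
  · ext x
    constructor
    · rintro ⟨⟨h1, h2⟩, h3⟩
      exact ⟨h1, fun P hP => hP.elim (h3 P) (h2 P)⟩
    · rintro ⟨h1, h2⟩
      exact ⟨⟨h1, fun P hP => h2 P (Or.inr hP)⟩, fun P hP => h2 P (Or.inl hP)⟩

lemma IsSub.restrict (h : IsSub D V X₀) (h1 : X₀ ⊆ X) (h2 : X ⊆ V) : IsSub D X X₀ := by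
  obtain ⟨S, hS, rfl⟩ := h
  refine ⟨S, hS, ?_⟩
  ext x
  constructor
  · intro hx
    exact ⟨h1 hx, hx.2⟩
  · rintro ⟨hx, h3⟩
    exact ⟨h2 hx, h3⟩

lemma IsSub.union {A B : Set (I → ℂ)} (hA : IsSub D V A) (hB : IsSub D V B) :
    IsSub D V (A ∪ B) := by
  obtain ⟨S, hS, rfl⟩ := hA
  obtain ⟨S', hS', rfl⟩ := hB
  refine ⟨{R | ∃ P ∈ S, ∃ Q ∈ S', R = P * Q}, ?_, ?_⟩
  · rintro R ⟨P, hP, Q, hQ, rfl⟩
    obtain ⟨b, hb⟩ := hS P hP
    obtain ⟨c, hc⟩ := hS' Q hQ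
    exact ⟨b + c, hb.mul hc⟩
  · ext x
    constructor
    · rintro (⟨hx, h⟩ | ⟨hx, h⟩)
      · refine ⟨hx, ?_⟩
        rintro R ⟨P, hP, Q, hQ, rfl⟩
        rw [map_mul, h P hP, zero_mul]
      · refine ⟨hx, ?_⟩
        rintro R ⟨P, hP, Q, hQ, rfl⟩
        rw [map_mul, h Q hQ, mul_zero]
    · rintro ⟨hx, h⟩
      by_cases h1 : ∀ P ∈ S, eval x P = 0
      · exact Or.inl ⟨hx, h1⟩
      · push Not at h1
        obtain ⟨P, hP, hP0⟩ := h1
        refine Or.inr ⟨hx, fun Q hQ => ?_⟩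
        have h2 := h _ ⟨P, hP, Q, hQ, rfl⟩
        rw [map_mul] at h2
        exact (mul_eq_zero.mp h2).resolve_left hP0

/-- Every point of an open and closed part is in a connected one. -/
theorem exists_connected [Finite I] (hX : IsSub D V X) (hX' : IsSub D V (V \ X)) {x : I → ℂ}
    (hx : x ∈ X) : ∃ X₀, X₀ ⊆ X ∧ x ∈ X₀ ∧ IsSub D V X₀ ∧ IsSub D V (V \ X₀) ∧
      ∀ Y Y' : Set (I → ℂ), IsSub D X₀ Y → IsSub D X₀ Y' → Y ∪ Y' = X₀ → Y ∩ Y' = ∅ →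
        Y = ∅ ∨ Y' = ∅ := by
  classical
  set A : Set (Ideal (MvPolynomial I ℂ)) :=
    {a | ∃ C, IsSub D V C ∧ IsSub D V (V \ C) ∧ C ⊆ X ∧ x ∈ C ∧ a = vanId C} with hA
  have hne : A.Nonempty := ⟨vanId X, X, hX, hX', subset_rfl, hx, rfl⟩
  obtain ⟨a, ⟨C, hC, hC', hCX, hxC, rfl⟩, hmax⟩ :=
    set_has_maximal_iff_noetherian.mpr (inferInstance : IsNoetherianRing (MvPolynomial I ℂ)) A hne
  have hmin : ∀ Y : Set (I → ℂ), IsSub D V Y → IsSub D V (V \ Y) → Y ⊆ C → x ∈ Y → Y = C := by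
    intro Y hY hY' hle hxY
    by_contra hne'
    apply hmax (vanId Y) ⟨Y, hY, hY', hle.trans hCX, hxY, rfl⟩
    refine lt_of_le_of_ne (fun P hP x hx => hP x (hle hx)) ?_
    intro heq
    apply hne'
    refine Set.Subset.antisymm hle ?_
    obtain ⟨S, hS, rfl⟩ := hY
    intro z hz
    refine ⟨hC.le hz, fun P hP => ?_⟩
    have h1 : P ∈ vanId {x | x ∈ V ∧ ∀ P ∈ S, eval x P = 0} := fun y hy => hy.2 P hP
    rw [← heq] at h1
    exact h1 z hz
  have key : ∀ Y Y' : Set (I → ℂ), IsSub D C Y → IsSub D C Y' → Y ∪ Y' = C → Y ∩ Y' = ∅ →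
      x ∈ Y → Y' = ∅ := by
    intro Y Y' hY hY' hU hI hxY
    have h1 : IsSub D V Y := hY.trans hC
    have h2 : V \ Y = (V \ C) ∪ Y' := by
      ext z
      constructor
      · rintro ⟨hz, hzY⟩
        by_cases hzC : z ∈ C
        · rw [← hU] at hzC
          exact Or.inr (hzC.resolve_left hzY)
        · exact Or.inl ⟨hz, hzC⟩
      · rintro (⟨hz, hzC⟩ | hz)
        · exact ⟨hz, fun h => hzC (by rw [← hU]; exact Or.inl h)⟩
        · refine ⟨hC.le (by rw [← hU]; exact Or.inr hz), fun h => ?_⟩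
          have h3 : z ∈ Y ∩ Y' := ⟨h, hz⟩
          rw [hI] at h3
          exact h3
    have h3 : IsSub D V (V \ Y) := by
      rw [h2]
      exact hC'.union (hY'.trans hC)
    have h4 := hmin Y h1 h3 (by rw [← hU]; exact Set.subset_union_left) hxY
    rw [Set.eq_empty_iff_forall_notMem]
    intro z hz
    have h5 : z ∈ Y ∩ Y' := ⟨by rw [h4, ← hU]; exact Or.inr hz, hz⟩
    rw [hI] at h5
    exact h5
  refine ⟨C, hCX, hxC, hC, hC', fun Y Y' hY hY' hU hI => ?_⟩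
  have h1 := hxC
  rw [← hU] at h1
  rcases h1 with h | h
  · exact Or.inr (key Y Y' hY hY' hU hI h)
  · exact Or.inl (key Y' Y hY' hY (by rw [Set.union_comm]; exact hU)
      (by rw [Set.inter_comm]; exact hI) h)

/-- Curves in a closed part are curves. -/
lemma IsCurve.of_sub {C : Set (I → ℂ)} (hX₀ : IsSub D X X₀) (hC : IsCurve D X₀ C) :
    IsCurve D X C := by
  refine ⟨hC.sub.trans hX₀, hC.infinite, fun C' hC' hle hne => ?_⟩
  exact hC.minimal C' (hC'.restrict (hle.trans hC.sub.le) hX₀.le) hle hne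

lemma IsNef.of_sub {l : M} (hX₀ : IsSub D X X₀) (h : IsNef D X l) : IsNef D X₀ l :=
  fun C hC => h C (hC.of_sub hX₀)

/-- Sections on an open and closed part extend. -/
lemma exists_extension {b : M} {s : (I → ℂ) → ℂ} (hX₀ : IsSub D X X₀)
    (hX₀' : IsSub D X (X \ X₀)) (hs : IsSection D X₀ b s) :
    ∃ s', IsSection D X b s' ∧ ∀ x ∈ X₀, s' x = s x := by
  classical
  refine ⟨fun x => if x ∈ X₀ then s x else 0, ?_, fun x hx => if_pos hx⟩
  obtain ⟨S, hS, h1⟩ := hX₀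
  obtain ⟨S', hS', h2⟩ := hX₀'
  intro x hx
  by_cases hx₀ : x ∈ X₀
  · obtain ⟨P, hP, hP0⟩ : ∃ P ∈ S', eval x P ≠ 0 := by
      by_contra hcon
      push Not at hcon
      have : x ∈ X \ X₀ := by rw [h2]; exact ⟨hx, hcon⟩
      exact this.2 hx₀
    obtain ⟨c, hc⟩ := hS' P hP
    obtain ⟨p, q, G, H, hG, hH, hpq, hx0, hsy⟩ := hs x hx₀
    refine ⟨p + c, q + c, G * P, H * P, hG.mul hc, hH.mul hc, by rw [hpq]; abel, ?_, ?_⟩
    · rw [map_mul]
      exact mul_ne_zero hx0 hP0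
    · intro y hy hy0
      rw [map_mul] at hy0
      have hyP := right_ne_zero_of_mul hy0
      have hy₀ : y ∈ X₀ := by
        by_contra hcon
        have : y ∈ X \ X₀ := ⟨hy, hcon⟩
        rw [h2] at this
        exact hyP (this.2 P hP)
      beta_reduce
      rw [if_pos hy₀, hsy y hy₀ (left_ne_zero_of_mul hy0), map_mul, map_mul,
        mul_div_mul_right _ _ hyP]
  · obtain ⟨P, hP, hP0⟩ : ∃ P ∈ S, eval x P ≠ 0 := by
      by_contra hcon
      push Not at hcon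
      exact hx₀ (by rw [h1]; exact ⟨hx, hcon⟩)
    obtain ⟨c, hc⟩ := hS P hP
    refine ⟨c + b, c, 0, P, isWeightedHomogeneous_zero _ _ _, hc, rfl, hP0, ?_⟩
    intro y hy hy0
    beta_reduce
    rw [if_neg, map_zero, zero_div]
    intro hy₀
    rw [h1] at hy₀
    exact hy0 (hy₀.2 P hP)

/-- Semiampleness follows from semiampleness on connected parts. -/
theorem semiample_of_parts [Finite I] (hX : IsSub D V X) (hX' : IsSub D V (V \ X)) {l : M}
    (h : ∀ X₀, X₀ ⊆ X → IsSub D V X₀ → IsSub D V (V \ X₀) →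
      (∀ Y Y' : Set (I → ℂ), IsSub D X₀ Y → IsSub D X₀ Y' → Y ∪ Y' = X₀ → Y ∩ Y' = ∅ →
        Y = ∅ ∨ Y' = ∅) → IsSub D X X₀ → IsSemiample D X₀ l) : IsSemiample D X l := by
  intro x hx
  obtain ⟨X₀, h1, h2, h3, h4, h5⟩ := exists_connected hX hX' hx
  have h6 : IsSub D X X₀ := h3.restrict h1 hX.le
  have h7 : IsSub D X (X \ X₀) := by
    obtain ⟨S, hS, hS2⟩ := h4
    refine ⟨S, hS, ?_⟩
    ext z
    constructor
    · rintro ⟨hz, hz0⟩
      have : z ∈ V \ X₀ := ⟨hX.le hz, hz0⟩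
      rw [hS2] at this
      exact ⟨hz, this.2⟩
    · rintro ⟨hz, hz0⟩
      have : z ∈ V \ X₀ := by rw [hS2]; exact ⟨hX.le hz, hz0⟩
      exact ⟨hz, this.2⟩
  obtain ⟨m, hm, s, hs, hsx⟩ := h X₀ h1 h3 h4 h5 h6 x h2
  obtain ⟨s', hs', hss⟩ := exists_extension h6 h7 hs
  exact ⟨m, hm, s', hs', by rw [hss x h2]; exact hsx⟩

end Pool.Agent.H6.Ab
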