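import Pool.Agent.H6.Ab.ExistsCurve

/-!
# Homogeneous polynomials along curves, and the first count
-/

set_option autoImplicit false

namespace Pool.Agent.H6.Ab

open MvPolynomial

variable {I J M : Type} [AddCommGroup M] {D : I → M} {θ : M}
  {β : J → M} {F : J → MvPolynomial I ℂ} {X : Set (I → ℂ)}

lemma zc_natCast (p : Polynomial ℂ) (n : ℕ) : zc p (n : ℤ) = p.coeff n := by
  simp [zc]

lemma zc_neg (p : Polynomial ℂ) {k : ℤ} (hk : k < 0) : zc p k = 0 := by
  rw [zc, if_neg (by omega)]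

lemma zc_zero (k : ℤ) : zc 0 k = 0 := by
  simp [zc]

lemma zc_add (p q : Polynomial ℂ) (k : ℤ) : zc (p + q) k = zc p k + zc q k := by
  unfold zc
  split_ifs <;> simp

lemma zc_C_mul (c : ℂ) (p : Polynomial ℂ) (k : ℤ) : zc (Polynomial.C c * p) k = c * zc p k := by
  unfold zc
  split_ifs <;> simp

/-- `p` has degree at most `a`, with coefficient `α` at `a`. -/
def TopAt (p : Polynomial ℂ) (a : ℤ) (α : ℂ) : Prop := (∀ k : ℤ, a < k → zc p k = 0) ∧ zc p a = α

lemma topAt_zero (a : ℤ) : TopAt 0 a 0 := ⟨fun k _ => zc_zero k, zc_zero a⟩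

lemma TopAt.eq_zero {p : Polynomial ℂ} {a : ℤ} {α : ℂ} (h : TopAt p a α) (ha : a < 0) :
    p = 0 ∧ α = 0 := by
  constructor
  · ext n
    rw [← zc_natCast, h.1 n (by omega), Polynomial.coeff_zero]
  · rw [← h.2, zc_neg p ha]

lemma TopAt.natDegree_le {p : Polynomial ℂ} {a : ℤ} {α : ℂ} (h : TopAt p a α) :
    p.natDegree ≤ a.toNat := by
  rw [Polynomial.natDegree_le_iff_coeff_eq_zero]
  intro N hN
  rw [← zc_natCast]
  exact h.1 N (by omega)

lemma TopAt.mul {p q : Polynomial ℂ} {a b : ℤ} {α β : ℂ} (hp : TopAt p a α) (hq : TopAt q b β) :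
    TopAt (p * q) (a + b) (α * β) := by
  rcases lt_or_ge a 0 with ha | ha
  · obtain ⟨rfl, rfl⟩ := hp.eq_zero ha
    rw [zero_mul, zero_mul]
    exact topAt_zero _
  rcases lt_or_ge b 0 with hb | hb
  · obtain ⟨rfl, rfl⟩ := hq.eq_zero hb
    rw [mul_zero, mul_zero]
    exact topAt_zero _
  have hp1 := hp.natDegree_le
  have hq1 := hq.natDegree_le
  obtain ⟨m, rfl⟩ := Int.eq_ofNat_of_zero_le ha
  obtain ⟨n, rfl⟩ := Int.eq_ofNat_of_zero_le hb
  rw [Int.toNat_natCast] at hp1 hq1
  constructor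
  · intro k hk
    obtain ⟨l, rfl⟩ := Int.eq_ofNat_of_zero_le (by omega : 0 ≤ k)
    rw [zc_natCast]
    apply Polynomial.coeff_eq_zero_of_natDegree_lt
    have := Polynomial.natDegree_mul_le (p := p) (q := q)
    omega
  · rw [← Nat.cast_add, zc_natCast, Polynomial.coeff_mul_add_eq_of_natDegree_le hp1 hq1,
      ← zc_natCast, ← zc_natCast, hp.2, hq.2]

lemma topAt_one : TopAt 1 0 1 := by
  constructor
  · intro k hk
    obtain ⟨l, rfl⟩ := Int.eq_ofNat_of_zero_le hk.le
    rw [zc_natCast, Polynomial.coeff_one, if_neg (by omega)]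
  · have := zc_natCast 1 0
    rw [Nat.cast_zero] at this
    rw [this, Polynomial.coeff_one_zero]

lemma TopAt.pow {p : Polynomial ℂ} {a : ℤ} {α : ℂ} (hp : TopAt p a α) (n : ℕ) :
    TopAt (p ^ n) ((n : ℤ) * a) (α ^ n) := by
  induction n with
  | zero =>
    rw [pow_zero, pow_zero, Nat.cast_zero, zero_mul]
    exact topAt_one
  | succ n ih =>
    rw [pow_succ, pow_succ]
    have h := ih.mul hp
    have e : ((n + 1 : ℕ) : ℤ) * a = (n : ℤ) * a + a := by push_cast; ring
    rw [e]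
    exact h

lemma TopAt.prod {ι : Type} (s : Finset ι) (p : ι → Polynomial ℂ) (a : ι → ℤ) (α : ι → ℂ)
    (h : ∀ i ∈ s, TopAt (p i) (a i) (α i)) :
    TopAt (∏ i ∈ s, p i) (∑ i ∈ s, a i) (∏ i ∈ s, α i) := by
  classical
  induction s using Finset.induction_on with
  | empty => simpa using topAt_one
  | insert i s hi ih =>
    rw [Finset.prod_insert hi, Finset.prod_insert hi, Finset.sum_insert hi]
    exact (h i (Finset.mem_insert_self i s)).mul
      (ih fun j hj => h j (Finset.mem_insert_of_mem hj))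

lemma TopAt.add {p q : Polynomial ℂ} {a : ℤ} {α β : ℂ} (hp : TopAt p a α) (hq : TopAt q a β) :
    TopAt (p + q) a (α + β) :=
  ⟨fun k hk => by rw [zc_add, hp.1 k hk, hq.1 k hk, add_zero], by rw [zc_add, hp.2, hq.2]⟩

lemma TopAt.C_mul {p : Polynomial ℂ} {a : ℤ} {α : ℂ} (hp : TopAt p a α) (c : ℂ) :
    TopAt (Polynomial.C c * p) a (c * α) :=
  ⟨fun k hk => by rw [zc_C_mul, hp.1 k hk, mul_zero], by rw [zc_C_mul, hp.2]⟩

/-- homogeneous polynomials along curves of given class -/
theorem class_aeval {G : MvPolynomial I ℂ} {b : M} (hG : IsWeightedHomogeneous D G b)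
    {ρ : M →+ ℤ} {y : I → Polynomial ℂ} (hy : HasClass D ρ y) :
    (∀ k : ℤ, ρ b < k → zc (aeval y G) k = 0) ∧ zc (aeval y G) (ρ b) = eval (cv D ρ y) G := by
  change TopAt (aeval y G) (ρ b) (eval (cv D ρ y) G)
  induction hG using IsWeightedHomogeneous.induction_on with
  | zero =>
    rw [map_zero, map_zero]
    exact topAt_zero _
  | add p q hp hq h1 h2 =>
    rw [map_add, map_add]
    exact h1.add h2
  | monomial d c hd =>
    subst hd
    rw [eval_monomial, aeval_monomial, Polynomial.algebraMap_eq, map_weight]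
    refine TopAt.C_mul ?_ c
    exact TopAt.prod d.support _ _ _ fun i _ => (TopAt.pow ⟨fun k hk => hy i k hk, rfl⟩ (d i))

/-- S8 -/
theorem count_le [Fintype I] [Fintype J] (hm : PreModel D θ β F X) {r : M →+ ℤ} {x : I → ℂ}
    (hx : x ∈ X) (hrx : NonnegAt D x r) (h0 : r ≠ 0)
    (htriv : ∀ γ : I → Polynomial ℂ, HasClass D r γ → (∀ j, aeval γ (F j) = 0) → evl γ 0 = x →
      ∃ c : ℂ, ∀ i, γ i = Polynomial.C (x i) *
        (1 + Polynomial.C c * Polynomial.X) ^ (r (D i)).toNat) :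
    ∑ i, (r (D i)).toNat ≤ ∑ j, (r (β j)).toNat + 1 := by
  by_contra hcon
  push Not at hcon
  obtain ⟨i₀, hxi, hri⟩ : ∃ i, x i ≠ 0 ∧ 0 < r (D i) := by
    by_contra hne
    push Not at hne
    exact h0 (hm.eq_zero hx fun i hi => le_antisymm (hne i hi) (hrx i hi))
  have hcls : ∀ γ : I → Polynomial ℂ, (∀ i, (γ i).natDegree ≤ (r (D i)).toNat) → evl γ 0 = x →
      HasClass D r γ := by
    intro γ hd he i k hk
    rcases lt_or_ge k 0 with hk0 | hk0
    · exact zc_neg _ hk0
    obtain ⟨n, rfl⟩ := Int.eq_ofNat_of_zero_le hk0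
    rw [zc_natCast]
    have hdi := hd i
    rcases Nat.eq_zero_or_pos n with rfl | hn
    · have hneg : r (D i) < 0 := by simpa using hk
      have hxi0 : x i = 0 := by
        by_contra hne
        have := hrx i hne
        omega
      rw [Polynomial.coeff_zero_eq_eval_zero]
      exact (congrFun he i).trans hxi0
    · apply Polynomial.coeff_eq_zero_of_natDegree_lt
      omega
  obtain ⟨γ, hd, he, hF, h1, i, hi⟩ := exists_curve F x (fun i => (r (D i)).toNat)
    (fun j => (r (β j)).toNat) (hm.zero x hx) (fun γ hd he j =>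
      TopAt.natDegree_le (α := eval (cv D r γ) (F j)) (class_aeval (hm.hom j) (hcls γ hd he)))
    i₀ hcon
  obtain ⟨c, hc⟩ := htriv γ (hcls γ hd he) hF he
  have hc0 : c = 0 := by
    have h2 := h1
    rw [hc i₀, Polynomial.coeff_C_mul] at h2
    have h3 : ((1 + Polynomial.C c * Polynomial.X : Polynomial ℂ) ^ (r (D i₀)).toNat).coeff 1 =
        ((r (D i₀)).toNat : ℂ) * c := by
      have h4 := Polynomial.coeff_derivative
        ((1 + Polynomial.C c * Polynomial.X : Polynomial ℂ) ^ (r (D i₀)).toNat) 0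
      rw [Nat.cast_zero, zero_add, zero_add, mul_one] at h4
      rw [← h4, Polynomial.coeff_zero_eq_eval_zero, Polynomial.derivative_pow]
      simp
    rw [h3] at h2
    have h5 : ((r (D i₀)).toNat : ℂ) ≠ 0 := by
      have : (r (D i₀)).toNat ≠ 0 := by omega
      exact_mod_cast this
    rcases mul_eq_zero.mp h2 with h6 | h6
    · exact absurd h6 hxi
    · exact (mul_eq_zero.mp h6).resolve_left h5
  apply hi
  rw [hc i, hc0]
  simp

end Pool.Agent.H6.Ab
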