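import Mathlib
import Pool.Agent.H6.Ab.Defs

set_option autoImplicit false

/-!
# Finitely generated rational cones are cut out by finitely many functionals (Weyl)
-/

namespace Pool.Agent.H6.Ab

namespace WeylAux

variable {I M : Type} [AddCommGroup M]

lemma inCone_mono {D : I → M} {S T : Set I} (h : S ⊆ T) {b : M} (hb : InCone D S b) :
    InCone D T b := by
  obtain ⟨m, hm, e, he, hS⟩ := hb
  exact ⟨m, hm, e, he, fun i hi => h (hS i hi)⟩

/-- A finitely generated abelian group maps to a free one with torsion kernel. -/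
lemma exists_coords (hM : Module.Finite ℤ M) : ∃ (k : ℕ) (f : M →+ (Fin k → ℤ)),
    ∀ b, f b = 0 → ∃ m : ℕ, 1 ≤ m ∧ m • b = 0 := by
  let T := Submodule.torsion ℤ M
  have hfree : Module.Free ℤ (M ⧸ T) := inferInstance
  let B := Module.finBasis ℤ (M ⧸ T)
  refine ⟨_, (B.equivFun.toLinearMap.comp T.mkQ).toAddMonoidHom, fun b hb => ?_⟩
  have h1 : B.equivFun (T.mkQ b) = 0 := hb
  rw [LinearEquiv.map_eq_zero_iff, Submodule.mkQ_apply, Submodule.Quotient.mk_eq_zero,
    Submodule.mem_torsion_iff] at h1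
  obtain ⟨a, ha⟩ := h1
  have ha0 : (a : ℤ) ≠ 0 := nonZeroDivisors.coe_ne_zero a
  have h2 : (a : ℤ) • b = 0 := ha
  refine ⟨(a : ℤ).natAbs, Nat.one_le_iff_ne_zero.mpr (Int.natAbs_ne_zero.mpr ha0), ?_⟩
  rcases Int.natAbs_eq (a : ℤ) with h3 | h3
  · rw [← natCast_zsmul, ← h3]
    exact h2
  · have h4 : ((a : ℤ).natAbs : ℤ) • b = -((a : ℤ) • b) := by
      rw [← neg_smul]
      congr 1
      omega
    rw [← natCast_zsmul, h4, h2, neg_zero]

lemma inCone_empty (D : I → M) (b : M) : InCone D ∅ b ↔ ∃ m : ℕ, 1 ≤ m ∧ m • b = 0 := by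
  constructor
  · rintro ⟨m, hm, e, he, hS⟩
    have h0 : e = 0 := by
      ext i
      by_contra hi
      exact hS i hi
    rw [h0, map_zero] at he
    exact ⟨m, hm, he.symm⟩
  · rintro ⟨m, hm, h⟩
    exact ⟨m, hm, 0, by rw [map_zero, h], by simp⟩

lemma step (D : I → M) (i : I) (S : Set I) (hi : i ∉ S)
    (ih : ∃ R : Set (M →+ ℤ), R.Finite ∧ ∀ b, InCone D S b ↔ ∀ r ∈ R, 0 ≤ r b) :
    ∃ R : Set (M →+ ℤ), R.Finite ∧ ∀ b, InCone D (insert i S) b ↔ ∀ r ∈ R, 0 ≤ r b := by
  classical
  obtain ⟨R, hR, hRS⟩ := ih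
  refine ⟨{r | r ∈ R ∧ 0 ≤ r (D i)} ∪
    Set.image2 (fun r s : M →+ ℤ => (r (D i)) • s - (s (D i)) • r)
      {r | r ∈ R ∧ 0 < r (D i)} {s | s ∈ R ∧ s (D i) < 0}, ?_, ?_⟩
  · exact (hR.subset fun r hr => hr.1).union
      (Set.Finite.image2 _ (hR.subset fun r hr => hr.1) (hR.subset fun r hr => hr.1))
  · intro b
    constructor
    · rintro ⟨m, hm, e, he, hS⟩
      have hmz : (0 : ℤ) < m := by exact_mod_cast hm
      have hsplit : Finsupp.weight D (e.erase i) + (e i) • D i = m • b := by
        rw [← he]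
        conv_rhs => rw [← Finsupp.erase_add_single i e, map_add]
        rw [Finsupp.weight_single]
      have hcone : InCone D S (m • b - (e i) • D i) := by
        refine ⟨1, le_rfl, e.erase i, ?_, ?_⟩
        · rw [one_smul, ← hsplit]; abel
        · intro k hk
          have hki : k ≠ i := by
            rintro rfl
            exact hk Finsupp.erase_same
          rw [Finsupp.erase_ne hki] at hk
          rcases hS k hk with h1 | h1
          · exact absurd h1 hki
          · exact h1
      have hr : ∀ r ∈ R, ((e i : ℕ) : ℤ) * r (D i) ≤ (m : ℤ) * r b := by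
        intro r hr
        have := (hRS _).1 hcone r hr
        rw [map_sub, map_nsmul, map_nsmul, nsmul_eq_mul, nsmul_eq_mul] at this
        linarith
      have ht : (0 : ℤ) ≤ ((e i : ℕ) : ℤ) := by positivity
      rintro r' (⟨h1, h2⟩ | ⟨r, ⟨h1, h2⟩, s, ⟨h3, h4⟩, rfl⟩)
      · have h3 := hr r' h1
        have h4 : 0 ≤ (m : ℤ) * r' b := le_trans (mul_nonneg ht h2) h3
        exact nonneg_of_mul_nonneg_right h4 hmz
      · have h5 := hr r h1
        have h6 := hr s h3
        simp only [AddMonoidHom.sub_apply, AddMonoidHom.smul_apply, smul_eq_mul]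
        have h7 : 0 ≤ (m : ℤ) * (r (D i) * s b - s (D i) * r b) := by
          have e1 := mul_le_mul_of_nonneg_left h6 h2.le
          have e2 := mul_le_mul_of_nonneg_left h5 (neg_nonneg.2 h4.le)
          nlinarith
        exact nonneg_of_mul_nonneg_right h7 hmz
    · intro hb
      by_cases hA : ∀ s ∈ R, s (D i) < 0 → 0 ≤ s b
      · apply inCone_mono (Set.subset_insert i S)
        rw [hRS]
        intro r hr
        rcases lt_or_ge (r (D i)) 0 with h1 | h1
        · exact hA r hr h1
        · exact hb r (Or.inl ⟨hr, h1⟩)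
      · push Not at hA
        obtain ⟨s₁, hs₁, hs₁', hs₁b⟩ := hA
        obtain ⟨s, ⟨hs, hs'⟩, hmax⟩ := Set.exists_max_image {s | s ∈ R ∧ s (D i) < 0}
          (fun s : M →+ ℤ => ((-(s b) : ℤ) : ℚ) / ((-(s (D i)) : ℤ) : ℚ))
          (hR.subset fun r hr => hr.1) ⟨s₁, hs₁, hs₁'⟩
        have hmax' : ∀ r ∈ R, r (D i) < 0 → r b * s (D i) ≤ s b * r (D i) := by
          intro r hr hr'
          have h1 := hmax r ⟨hr, hr'⟩
          have p1 : (0 : ℚ) < ((-(r (D i)) : ℤ) : ℚ) := by exact_mod_cast neg_pos.2 hr'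
          have p2 : (0 : ℚ) < ((-(s (D i)) : ℤ) : ℚ) := by exact_mod_cast neg_pos.2 hs'
          rw [div_le_div_iff₀ p1 p2] at h1
          have h2 : -(r b) * -(s (D i)) ≤ -(s b) * -(r (D i)) := by exact_mod_cast h1
          linarith
        have hsb : s b < 0 := by
          have h1 := hmax' s₁ hs₁ hs₁'
          by_contra h2
          push Not at h2
          have h3 : 0 < s₁ b * s (D i) := mul_pos_of_neg_of_neg hs₁b hs'
          have h4 : s b * s₁ (D i) ≤ 0 := mul_nonpos_of_nonneg_of_nonpos h2 hs₁'.le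
          linarith
        obtain ⟨m, hm⟩ := Int.eq_ofNat_of_zero_le (neg_nonneg.2 hs'.le)
        obtain ⟨t, ht⟩ := Int.eq_ofNat_of_zero_le (neg_nonneg.2 hsb.le)
        have hcone : InCone D S (m • b - t • D i) := by
          rw [hRS]
          intro r hr
          rw [map_sub, map_nsmul, map_nsmul, nsmul_eq_mul, nsmul_eq_mul]
          have e1 : ((m : ℕ) : ℤ) = -(s (D i)) := hm.symm
          have e2 : ((t : ℕ) : ℤ) = -(s b) := ht.symm
          rw [e1, e2]
          rcases lt_trichotomy (r (D i)) 0 with h1 | h1 | h1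
          · have := hmax' r hr h1
            linarith
          · have h2 := hb r (Or.inl ⟨hr, h1.ge⟩)
            rw [h1]
            nlinarith
          · have h2 := hb _ (Or.inr ⟨r, ⟨hr, h1⟩, s, ⟨hs, hs'⟩, rfl⟩)
            simp only [AddMonoidHom.sub_apply, AddMonoidHom.smul_apply, smul_eq_mul] at h2
            linarith
        obtain ⟨m', hm', e', he', hS'⟩ := hcone
        refine ⟨m' * m, ?_, e' + Finsupp.single i (m' * t), ?_, ?_⟩
        · have : 1 ≤ m := by omega
          exact Nat.mul_pos hm' this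
        · rw [map_add, Finsupp.weight_single, he', smul_sub, mul_smul, mul_smul]
          abel
        · intro k hk
          by_cases hki : k = i
          · exact Or.inl hki
          · right
            apply hS'
            intro h0
            apply hk
            rw [Finsupp.add_apply, h0, Finsupp.single_eq_of_ne hki, add_zero]

end WeylAux

open WeylAux

/-- S1 (Weyl): finitely generated cones are cut out by finitely many functionals. -/
theorem weyl {I M : Type} [Finite I] [AddCommGroup M]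
    (hM : Module.Finite ℤ M) (D : I → M) (S : Set I) :
    ∃ R : Set (M →+ ℤ), R.Finite ∧ ∀ b, InCone D S b ↔ ∀ r ∈ R, 0 ≤ r b := by
  refine Set.Finite.induction_on (motive := fun S _ => ∃ R : Set (M →+ ℤ), R.Finite ∧
    ∀ b, InCone D S b ↔ ∀ r ∈ R, 0 ≤ r b) S (Set.toFinite S) ?_ ?_
  · obtain ⟨k, f, hf⟩ := exists_coords hM
    refine ⟨Set.range (fun j : Fin k => (Pi.evalAddMonoidHom (fun _ => ℤ) j).comp f) ∪
      Set.range (fun j : Fin k => -((Pi.evalAddMonoidHom (fun _ => ℤ) j).comp f)),
      (Set.finite_range _).union (Set.finite_range _), ?_⟩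
    intro b
    rw [inCone_empty]
    constructor
    · rintro ⟨m, hm, hmb⟩ r _
      have h1 : (m : ℤ) * r b = 0 := by rw [← nsmul_eq_mul, ← map_nsmul, hmb, map_zero]
      rcases mul_eq_zero.1 h1 with h2 | h2
      · omega
      · rw [h2]
    · intro h
      apply hf
      funext j
      have h1 := h _ (Or.inl ⟨j, rfl⟩)
      have h2 := h _ (Or.inr ⟨j, rfl⟩)
      simp only [AddMonoidHom.comp_apply, Pi.evalAddMonoidHom_apply, AddMonoidHom.neg_apply] at h1 h2
      rw [Pi.zero_apply]
      linarith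
  · intro i S hi _ ih
    exact step D i S hi ih

end Pool.Agent.H6.Ab
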