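import Pool.Agent.H6.Ab.Basic
import Pool.Agent.H6.Ab.Weyl

/-!
# The extremal functional of maximal slope
-/

set_option autoImplicit false

namespace Pool.Agent.H6.Ab

open MvPolynomial

namespace ExtAux

lemma exists_min_pair {α : Type*} (V : Set α) (hV : V.Nonempty) (f g : α → ℕ) :
    ∃ r ∈ V, (∀ ν ∈ V, f r ≤ f ν) ∧ (∀ ν ∈ V, f ν = f r → g r ≤ g ν) := by
  obtain ⟨r₁, hr₁, h₁⟩ := (measure f).wf.has_min V hV
  obtain ⟨r₂, hr₂, h₂⟩ := (measure g).wf.has_min {ν | ν ∈ V ∧ f ν = f r₁} ⟨r₁, hr₁, rfl⟩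
  refine ⟨r₂, hr₂.1, ?_, ?_⟩
  · intro ν hν
    rw [hr₂.2]
    exact not_lt.1 (h₁ ν hν)
  · intro ν hν h
    exact not_lt.1 (h₂ ν ⟨hν, h.trans hr₂.2⟩)

end ExtAux

variable {I J M : Type} [AddCommGroup M] {D : I → M} {θ : M}
  {β : J → M} {F : J → MvPolynomial I ℂ} {X : Set (I → ℂ)}

/-- S2 : choice of the functional of maximal slope. -/
theorem exists_extremal [Fintype I] (hm : PreModel D θ β F X) (a : M) (ha : ¬ ConeAll D X a) :
    ∃ (n N : ℕ) (r : M →+ ℤ) (x₀ : I → ℂ), 1 ≤ n ∧ 1 ≤ N ∧ ConeAll D X (n • a + N • θ) ∧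
      x₀ ∈ X ∧ NonnegAt D x₀ r ∧ r (n • a + N • θ) = 0 ∧ r ≠ 0 ∧ Extremal D x₀ r := by
  classical
  choose Rf hRfin hRiff using fun S : Set I => weyl hm.fg D S
  have hnn : ∀ x : I → ℂ, ∀ r ∈ Rf {i | x i ≠ 0}, NonnegAt D x r := by
    intro x r hr i hi
    refine (hRiff _ (D i)).1 ?_ r hr
    refine ⟨1, le_rfl, Finsupp.single i 1, ?_, ?_⟩
    · rw [Finsupp.weight_single, one_smul]
    · intro k hk
      by_cases h : k = i
      · rw [h]; exact hi
      · exact absurd (Finsupp.single_eq_of_ne h) hk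
  set P : Set (Set I × (M →+ ℤ)) :=
    {p | (∃ x ∈ X, p.1 = {i | x i ≠ 0}) ∧ p.2 ∈ Rf p.1 ∧ p.2 ≠ 0} with hP
  have hPfin : P.Finite := by
    have h1 : P ⊆ ⋃ T : Set I, (fun r => (T, r)) '' Rf T := by
      rintro ⟨T, r⟩ ⟨_, h2, _⟩
      rw [Set.mem_iUnion]
      exact ⟨T, r, h2, rfl⟩
    exact (Set.finite_iUnion fun T => (hRfin T).image _).subset h1
  have hPpos : ∀ p ∈ P, 0 < p.2 θ := by
    rintro ⟨T, r⟩ ⟨⟨x, hx, hT⟩, h2, h3⟩
    simp only at hT h2 h3 ⊢
    subst hT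
    exact theta_pos hm hx (hnn x r h2) h3
  -- some functional of negative value
  obtain ⟨x₁, hx₁, r₁, hr₁, hr₁a⟩ : ∃ x ∈ X, ∃ r ∈ Rf {i | x i ≠ 0}, r a < 0 := by
    by_contra hcon
    push Not at hcon
    apply ha
    intro x hx
    exact (hRiff _ _).2 fun r hr => hcon x hx r hr
  have hp₁ : (({i | x₁ i ≠ 0}, r₁) : Set I × (M →+ ℤ)) ∈ P := by
    refine ⟨⟨x₁, hx₁, rfl⟩, hr₁, ?_⟩
    rintro h
    simp only at h
    rw [h] at hr₁a
    simp at hr₁a
  obtain ⟨⟨T₀, s⟩, hsP, hmax⟩ := Set.exists_max_image P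
    (fun p => ((-(p.2 a) : ℤ) : ℚ) / ((p.2 θ : ℤ) : ℚ)) hPfin ⟨_, hp₁⟩
  have hsθ : 0 < s θ := hPpos _ hsP
  have hcross : ∀ p ∈ P, (-(p.2 a)) * s θ ≤ (-(s a)) * p.2 θ := by
    intro p hp
    have h1 := hmax p hp
    have h2 := hPpos p hp
    have h3 : (0 : ℚ) < ((p.2 θ : ℤ) : ℚ) := by exact_mod_cast h2
    have h4 : (0 : ℚ) < ((s θ : ℤ) : ℚ) := by exact_mod_cast hsθ
    simp only at h1
    rw [div_le_div_iff₀ h3 h4] at h1
    exact_mod_cast h1
  have hsa : s a < 0 := by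
    have h1 := hcross _ hp₁
    simp only at h1
    have h2 : 0 < r₁ θ := hPpos _ hp₁
    by_contra hcon
    push Not at hcon
    nlinarith
  obtain ⟨⟨x₀, hx₀, hT₀⟩, hsR, hs0⟩ := hsP
  simp only at hT₀ hsR hs0
  subst hT₀
  set n : ℕ := (s θ).toNat with hn
  set N : ℕ := (-(s a)).toNat with hN
  have hnz : (n : ℤ) = s θ := Int.toNat_of_nonneg hsθ.le
  have hNz : (N : ℤ) = -(s a) := Int.toNat_of_nonneg (by linarith)
  set b : M := n • a + N • θ with hb
  have hval : ∀ ν : M →+ ℤ, ν b = s θ * ν a + -(s a) * ν θ := by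
    intro ν
    rw [hb, map_add, map_nsmul, map_nsmul, nsmul_eq_mul, nsmul_eq_mul, hnz, hNz]
  have hn1 : 1 ≤ n := by omega
  have hN1 : 1 ≤ N := by omega
  have hcone : ConeAll D X b := by
    intro x hx
    rw [hRiff]
    intro r hr
    by_cases h0 : r = 0
    · rw [h0]; simp
    · have h1 := hcross ({i | x i ≠ 0}, r) ⟨⟨x, hx, rfl⟩, hr, h0⟩
      simp only at h1
      rw [hval]
      linarith
  have hsb : s b = 0 := by
    rw [hval]
    ring
  -- choose r
  set V : Set (M →+ ℤ) := {ν | ν ≠ 0 ∧ NonnegAt D x₀ ν ∧ ν b = 0} with hV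
  set Z : (M →+ ℤ) → Finset I := fun ν => Finset.univ.filter fun i => x₀ i ≠ 0 ∧ ν (D i) = 0
    with hZ
  obtain ⟨r, ⟨hr0, hrn, hrb⟩, hmin1, hmin2⟩ := ExtAux.exists_min_pair V
    ⟨s, hs0, hnn x₀ s hsR, hsb⟩ (fun ν => Fintype.card I - (Z ν).card) (fun ν => (ν θ).toNat)
  have hZle : ∀ ν : M →+ ℤ, (Z ν).card ≤ Fintype.card I := fun ν => Finset.card_le_univ _
  have hrθ : 0 < r θ := theta_pos hm hx₀ hrn hr0
  refine ⟨n, N, r, x₀, hn1, hN1, hcone, hx₀, hrn, hrb, hr0, ?_⟩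
  intro ν hν
  -- (1)
  have hνb : ν b = 0 := by
    obtain ⟨m, hm1, e, he, hs⟩ := hcone x₀ hx₀
    have h1 : r (Finsupp.weight D e) = 0 := by
      rw [he, map_nsmul, hrb, smul_zero]
    have h2 := zero_of_weight_zero (fun i hi => hrn i (hs i hi)) h1
    have h3 : ν (Finsupp.weight D e) = 0 := by
      rw [map_weight]
      apply Finset.sum_eq_zero
      intro i hi
      have hi' := Finsupp.mem_support_iff.mp hi
      simp only
      rw [hν i (hs i hi') (h2 i hi'), mul_zero]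
    rw [he, map_nsmul, nsmul_eq_mul] at h3
    rcases mul_eq_zero.1 h3 with h4 | h4
    · have : (m : ℤ) ≠ 0 := by positivity
      exact absurd h4 this
    · exact h4
  -- (2)
  set W : Finset I := Finset.univ.filter fun i => x₀ i ≠ 0 ∧ 0 < r (D i) with hW
  have hWne : W.Nonempty := by
    by_contra hcon
    rw [Finset.not_nonempty_iff_eq_empty] at hcon
    apply hr0
    apply hm.eq_zero hx₀
    intro i hi
    by_contra h
    have h1 : 0 < r (D i) := lt_of_le_of_ne (hrn i hi) (Ne.symm h)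
    have h2 : i ∈ W := by
      rw [hW, Finset.mem_filter]
      exact ⟨Finset.mem_univ _, hi, h1⟩
    rw [hcon] at h2
    exact absurd h2 (Finset.notMem_empty _)
  obtain ⟨i₁, hi₁, hmin⟩ := Finset.exists_min_image W
    (fun i => ((ν (D i) : ℤ) : ℚ) / ((r (D i) : ℤ) : ℚ)) hWne
  rw [hW, Finset.mem_filter] at hi₁
  obtain ⟨-, hi₁x, hi₁r⟩ := hi₁
  have hcr : ∀ i, x₀ i ≠ 0 → 0 < r (D i) → ν (D i₁) * r (D i) ≤ ν (D i) * r (D i₁) := by
    intro i hi hri
    have h1 := hmin i (by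
      rw [hW, Finset.mem_filter]
      exact ⟨Finset.mem_univ _, hi, hri⟩)
    have h3 : (0 : ℚ) < ((r (D i) : ℤ) : ℚ) := by exact_mod_cast hri
    have h4 : (0 : ℚ) < ((r (D i₁) : ℤ) : ℚ) := by exact_mod_cast hi₁r
    rw [div_le_div_iff₀ h4 h3] at h1
    exact_mod_cast h1
  have hprop : r (D i₁) • ν = ν (D i₁) • r := by
    by_contra hne
    set r' : M →+ ℤ := r (D i₁) • ν - ν (D i₁) • r with hr'
    have hr'v : ∀ y : M, r' y = r (D i₁) * ν y - ν (D i₁) * r y := by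
      intro y
      rw [hr', AddMonoidHom.sub_apply, AddMonoidHom.smul_apply, AddMonoidHom.smul_apply,
        smul_eq_mul, smul_eq_mul]
    have hr'0 : r' ≠ 0 := by
      intro h
      exact hne (sub_eq_zero.1 h)
    have hr'V : r' ∈ V := by
      refine ⟨hr'0, ?_, ?_⟩
      · intro i hi
        rw [hr'v]
        rcases (hrn i hi).eq_or_lt with h | h
        · rw [hν i hi h.symm, ← h]
          simp
        · have := hcr i hi h
          linarith
      · rw [hr'v, hνb, hrb]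
        ring
    have hsub : insert i₁ (Z r) ⊆ Z r' := by
      intro i hi
      rw [Finset.mem_insert] at hi
      simp only [hZ, Finset.mem_filter, Finset.mem_univ, true_and]
      rcases hi with rfl | hi
      · refine ⟨hi₁x, ?_⟩
        rw [hr'v]
        ring
      · simp only [hZ, Finset.mem_filter, Finset.mem_univ, true_and] at hi
        refine ⟨hi.1, ?_⟩
        rw [hr'v, hi.2, hν i hi.1 hi.2]
        ring
    have hnot : i₁ ∉ Z r := by
      simp only [hZ, Finset.mem_filter, Finset.mem_univ, true_and]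
      rintro ⟨_, h⟩
      rw [h] at hi₁r
      exact absurd hi₁r (lt_irrefl _)
    have h1 := Finset.card_le_card hsub
    rw [Finset.card_insert_of_notMem hnot] at h1
    have h2 := hmin1 r' hr'V
    have h3 := hZle r'
    omega
  -- (3)
  set k : ℤ := ν θ / r θ with hk
  set ν' : M →+ ℤ := ν - k • r with hν'
  have hν'v : ∀ y : M, ν' y = ν y - k * r y := by
    intro y
    rw [hν', AddMonoidHom.sub_apply, AddMonoidHom.smul_apply, smul_eq_mul]
  have hθ1 : ν' θ = ν θ % r θ := by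
    rw [hν'v, Int.emod_def, hk]
    ring
  have hθ2 : 0 ≤ ν' θ := by
    rw [hθ1]
    exact Int.emod_nonneg _ hrθ.ne'
  have hθ3 : ν' θ < r θ := by
    rw [hθ1]
    exact Int.emod_lt_of_pos _ hrθ
  have hpr : ∀ y : M, r (D i₁) * ν y = ν (D i₁) * r y := by
    intro y
    have := DFunLike.congr_fun hprop y
    rw [AddMonoidHom.smul_apply, AddMonoidHom.smul_apply, smul_eq_mul, smul_eq_mul] at this
    exact this
  set c : ℤ := ν (D i₁) - k * r (D i₁) with hc
  have hpr' : ∀ y : M, r (D i₁) * ν' y = c * r y := by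
    intro y
    rw [hν'v, hc]
    linear_combination hpr y
  have hc0 : 0 ≤ c := by
    have h1 := hpr' θ
    have h2 : 0 ≤ r (D i₁) * ν' θ := mul_nonneg hi₁r.le hθ2
    rw [h1] at h2
    by_contra hcon
    push Not at hcon
    nlinarith
  have hzero : ν' = 0 := by
    by_contra hne
    have hV' : ν' ∈ V := by
      refine ⟨hne, ?_, ?_⟩
      · intro i hi
        have h1 := hpr' (D i)
        have h2 : 0 ≤ c * r (D i) := mul_nonneg hc0 (hrn i hi)
        rw [← h1] at h2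
        by_contra hcon
        push Not at hcon
        nlinarith
      · rw [hν'v, hνb, hrb]
        ring
    have hsub : Z r ⊆ Z ν' := by
      intro i hi
      simp only [hZ, Finset.mem_filter, Finset.mem_univ, true_and] at hi ⊢
      refine ⟨hi.1, ?_⟩
      rw [hν'v, hi.2, hν i hi.1 hi.2]
      ring
    have h1 := Finset.card_le_card hsub
    have h2 := hmin1 ν' hV'
    have h3 := hmin2 ν' hV'
    have h4 := hZle ν'
    have h5 := hZle r
    have h6 : Fintype.card I - (Z ν').card = Fintype.card I - (Z r).card := by omega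
    have h7 := h3 h6
    omega
  refine ⟨k, ?_⟩
  rw [hν'] at hzero
  exact sub_eq_zero.1 hzero

/-- S18 -/
theorem indec_of_extremal [Fintype I] (hm : PreModel D θ β F X) {x : I → ℂ} (hx : x ∈ X) {r : M →+ ℤ}
    (hrx : NonnegAt D x r) (h0 : r ≠ 0) (he : Extremal D x r) : Indec D x r := by
  intro ν₁ ν₂ h₁ h₂ hsum
  have hs : ∀ y : M, ν₁ y + ν₂ y = r y := by
    intro y
    rw [← hsum, AddMonoidHom.add_apply]
  obtain ⟨k₁, hk₁⟩ := he ν₁ (fun i hi hri => by
    have := hs (D i)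
    have a1 := h₁ i hi
    have a2 := h₂ i hi
    omega)
  obtain ⟨k₂, hk₂⟩ := he ν₂ (fun i hi hri => by
    have := hs (D i)
    have a1 := h₁ i hi
    have a2 := h₂ i hi
    omega)
  obtain ⟨i, hi, hri⟩ : ∃ i, x i ≠ 0 ∧ r (D i) ≠ 0 := by
    by_contra hcon
    push Not at hcon
    exact h0 (hm.eq_zero hx hcon)
  have hri' : 0 < r (D i) := lt_of_le_of_ne (hrx i hi) (Ne.symm hri)
  have b1 : ν₁ (D i) = k₁ * r (D i) := by
    rw [hk₁, AddMonoidHom.smul_apply, smul_eq_mul]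
  have b2 : ν₂ (D i) = k₂ * r (D i) := by
    rw [hk₂, AddMonoidHom.smul_apply, smul_eq_mul]
  have c1 : 0 ≤ k₁ := by
    have := h₁ i hi
    rw [b1] at this
    by_contra hcon
    push Not at hcon
    nlinarith
  have c2 : 0 ≤ k₂ := by
    have := h₂ i hi
    rw [b2] at this
    by_contra hcon
    push Not at hcon
    nlinarith
  have c3 : k₁ + k₂ = 1 := by
    have := hs (D i)
    rw [b1, b2, ← add_mul] at this
    have h1 : (k₁ + k₂ - 1) * r (D i) = 0 := by linarith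
    rcases mul_eq_zero.1 h1 with h2 | h2
    · linarith
    · exact absurd h2 hri
  by_cases h : k₁ = 0
  · left
    rw [hk₁, h, zero_smul]
  · right
    have : k₂ = 0 := by omega
    rw [hk₂, this, zero_smul]

/-- S19 -/
theorem indec_of_neg_one [Fintype I] (hm : PreModel D θ β F X) {a : M} {n N : ℕ} (hn : 1 ≤ n) (hN : 1 ≤ N)
    (hc : ConeAll D X (n • a + N • θ)) {r : M →+ ℤ} (hr : r (n • a + N • θ) = 0)
    (hra : r a = -1) {x : I → ℂ} (hx : x ∈ X) : Indec D x r := by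
  intro ν₁ ν₂ h₁ h₂ hsum
  have hs : ∀ y : M, ν₁ y + ν₂ y = r y := by
    intro y
    rw [← hsum, AddMonoidHom.add_apply]
  have e1 := h₁.inCone (hc x hx)
  have e2 := h₂.inCone (hc x hx)
  have e3 := hs (n • a + N • θ)
  rw [hr] at e3
  have e4 : ν₁ (n • a + N • θ) = 0 := by linarith
  have e5 : ν₂ (n • a + N • θ) = 0 := by linarith
  by_contra hcon
  push Not at hcon
  have t1 := theta_pos hm hx h₁ hcon.1
  have t2 := theta_pos hm hx h₂ hcon.2
  have hnz : (0 : ℤ) < n := by exact_mod_cast hn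
  have hNz : (0 : ℤ) < N := by exact_mod_cast hN
  have key : ∀ ν : M →+ ℤ, ν (n • a + N • θ) = 0 → 0 < ν θ → ν a ≤ -1 := by
    intro ν h hθ
    rw [map_add, map_nsmul, map_nsmul, nsmul_eq_mul, nsmul_eq_mul] at h
    have h1 : 0 < (N : ℤ) * ν θ := mul_pos hNz hθ
    by_contra h2
    push Not at h2
    have h3 : 0 ≤ ν a := by linarith
    have h4 : 0 ≤ (n : ℤ) * ν a := mul_nonneg hnz.le h3
    linarith
  have k1 := key ν₁ e4 t1
  have k2 := key ν₂ e5 t2
  have := hs a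
  linarith

end Pool.Agent.H6.Ab
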