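import Mathlib
import Pool.Agent.H6.Ab.Basic

set_option autoImplicit false

/-!
# Jacobians of the reduced systems
-/

namespace Pool.Agent.H6.Ab

open MvPolynomial

variable {I J M : Type} [AddCommGroup M] {D : I → M} {θ : M}
  {β : J → M} {F : J → MvPolynomial I ℂ} {X : Set (I → ℂ)}

namespace JacAux

lemma cut_X_pos {p : I → Prop} {i : I} (h : p i) :
    cut p (MvPolynomial.X i : MvPolynomial I ℂ) = MvPolynomial.X ⟨i, h⟩ := by
  unfold cut
  rw [aeval_X, dif_pos h]

lemma cut_X_neg {p : I → Prop} {i : I} (h : ¬ p i) :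
    cut p (MvPolynomial.X i : MvPolynomial I ℂ) = 0 := by
  unfold cut
  rw [aeval_X, dif_neg h]

lemma cut_C (p : I → Prop) (c : ℂ) : cut p (C c : MvPolynomial I ℂ) = C c := by
  unfold cut
  rw [aeval_C]
  rfl

lemma cut_monomial (p : I → Prop) (d : I →₀ ℕ) (c : ℂ) :
    cut p (monomial d c) = C c * ∏ i ∈ d.support, (cut p (MvPolynomial.X i)) ^ (d i) := by
  rw [monomial_eq, Finsupp.prod, map_mul, cut_C, map_prod]
  simp only [map_pow]

/-- evaluation of a restricted polynomial -/
lemma eval_cut (p : I → Prop) (x : I → ℂ) (hx : ∀ i, ¬ p i → x i = 0) (G : MvPolynomial I ℂ) :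
    eval (fun k : {i // p i} => x k.1) (cut p G) = eval x G := by
  induction G using MvPolynomial.induction_on with
  | C a => rw [cut_C, eval_C, eval_C]
  | add f g hf hg => rw [map_add, map_add, map_add, hf, hg]
  | mul_X f i hf =>
    rw [map_mul, map_mul, map_mul, hf, eval_X]
    by_cases h : p i
    · rw [cut_X_pos h, eval_X]
    · rw [cut_X_neg h, map_zero, hx i h]

/-- chain rule -/
lemma eval_pderiv_cut (p : I → Prop) (x : I → ℂ) (hx : ∀ i, ¬ p i → x i = 0) (k : {i // p i})
    (G : MvPolynomial I ℂ) :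
    eval (fun k : {i // p i} => x k.1) (pderiv k (cut p G)) = eval x (pderiv k.1 G) := by
  classical
  induction G using MvPolynomial.induction_on with
  | C a => rw [cut_C, pderiv_C, pderiv_C, map_zero, map_zero]
  | add f g hf hg => rw [map_add, map_add, map_add, map_add, map_add, hf, hg]
  | mul_X f i hf =>
    rw [map_mul, pderiv_mul, pderiv_mul, map_add, map_add, map_mul, map_mul, map_mul, map_mul, hf,
      eval_cut p x hx, eval_cut p x hx]
    by_cases h : p i
    · rw [cut_X_pos h]
      by_cases hk : i = k.1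
      · have hk' : (⟨i, h⟩ : {i // p i}) = k := Subtype.ext hk
        rw [hk', pderiv_X_self, hk, pderiv_X_self, map_one, map_one]
      · have hk' : (⟨i, h⟩ : {i // p i}) ≠ k := fun h' => hk (congrArg Subtype.val h')
        rw [pderiv_X_of_ne hk', pderiv_X_of_ne hk, map_zero, map_zero]
    · have hk : i ≠ k.1 := fun h' => h (h' ▸ k.2)
      rw [cut_X_neg h, map_zero, map_zero, pderiv_X_of_ne hk, map_zero]

/-- nonvanishing entries of the Jacobian -/
lemma jac_le {r : M →+ ℤ} {x : I → ℂ} (hrx : NonnegAt D x r) {G : MvPolynomial I ℂ} {b : M}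
    (hG : IsWeightedHomogeneous D G b) {i : I} (h : eval x (pderiv i G) ≠ 0) :
    r (D i) ≤ r b := by
  have h1 : IsWeightedHomogeneous D (pderiv i G) (b - D i) := hG.pderiv (sub_add_cancel b (D i))
  obtain ⟨e, _, he, hs⟩ := exists_monomial h1 h
  have h2 : 0 ≤ r (b - D i) := by
    rw [← he]
    exact nonneg_weight fun i hi => hrx i (hs i hi)
  rw [map_sub] at h2
  linarith

/-- A block triangular argument: if the rows outside `P` vanish on the columns in `Q` and there are
as many such rows as columns outside `Q`, the remaining block has independent rows. -/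
lemma block {I J : Type} [Fintype I] [Fintype J] (A : J → I → ℂ) (hA : LinearIndependent ℂ A)
    (P : J → Prop) (Q : I → Prop) (h0 : ∀ j, ¬ P j → ∀ i, Q i → A j i = 0)
    (hcard : Nat.card {j // ¬ P j} = Nat.card {i // ¬ Q i}) :
    LinearIndependent ℂ (fun (j : {j // P j}) (i : {i // Q i}) => A j.1 i.1) := by
  classical
  rw [Fintype.linearIndependent_iff] at hA
  have key : ∀ (g : {j // P j} → ℂ) (c : {j // ¬ P j} → ℂ),
      (∀ i, ∑ j : {j // P j}, g j * A j.1 i + ∑ j : {j // ¬ P j}, c j * A j.1 i = 0) →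
      (∀ j, g j = 0) ∧ ∀ j, c j = 0 := by
    intro g c h
    have h1 := hA (fun j => if h : P j then g ⟨j, h⟩ else c ⟨j, h⟩) (by
      funext i
      rw [Finset.sum_apply]
      simp only [Pi.smul_apply, smul_eq_mul, Pi.zero_apply]
      rw [← Fintype.sum_subtype_add_sum_subtype P, ← h i]
      refine congrArg₂ (· + ·) (Finset.sum_congr rfl fun j _ => ?_)
        (Finset.sum_congr rfl fun j _ => ?_)
      · rw [dif_pos j.2]
      · rw [dif_neg j.2])
    constructor
    · intro j
      have := h1 j.1
      rwa [dif_pos j.2] at this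
    · intro j
      have := h1 j.1
      rwa [dif_neg j.2] at this
  have hB : LinearIndependent ℂ (fun (j : {j // ¬ P j}) (i : {i // ¬ Q i}) => A j.1 i.1) := by
    rw [Fintype.linearIndependent_iff]
    intro c hc
    refine (key 0 c ?_).2
    intro i
    simp only [Pi.zero_apply, zero_mul, Finset.sum_const_zero, zero_add]
    by_cases hi : Q i
    · exact Finset.sum_eq_zero fun j _ => by rw [h0 j.1 j.2 i hi, mul_zero]
    · have h3 := congrFun hc ⟨i, hi⟩
      rw [Finset.sum_apply] at h3
      simpa only [Pi.smul_apply, smul_eq_mul, Pi.zero_apply] using h3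
  have hspan := hB.span_eq_top_of_card_eq_finrank' (by
    rw [Module.finrank_fintype_fun_eq_card, ← Nat.card_eq_fintype_card, ← Nat.card_eq_fintype_card,
      hcard])
  rw [Fintype.linearIndependent_iff]
  intro g hg
  have hw : (fun i : {i // ¬ Q i} => -∑ j : {j // P j}, g j * A j.1 i.1) ∈
      Submodule.span ℂ (Set.range (fun (j : {j // ¬ P j}) (i : {i // ¬ Q i}) => A j.1 i.1)) := by
    rw [hspan]; exact Submodule.mem_top
  obtain ⟨c, hc⟩ := (Submodule.mem_span_range_iff_exists_fun ℂ).1 hw
  refine (key g c ?_).1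
  intro i
  by_cases hi : Q i
  · have h3 := congrFun hg ⟨i, hi⟩
    rw [Finset.sum_apply] at h3
    simp only [Pi.smul_apply, smul_eq_mul, Pi.zero_apply] at h3
    rw [h3, zero_add]
    exact Finset.sum_eq_zero fun j _ => by rw [h0 j.1 j.2 i hi, mul_zero]
  · have h3 := congrFun hc ⟨i, hi⟩
    rw [Finset.sum_apply] at h3
    simp only [Pi.smul_apply, smul_eq_mul] at h3
    rw [h3]
    ring

end JacAux

open JacAux

/-- S20 -/
theorem neg_vanish {r : M →+ ℤ} {G : MvPolynomial I ℂ} {b : M} (hG : IsWeightedHomogeneous D G b)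
    (hb : r b < 0) : cut (fun i => 0 ≤ r (D i)) G = 0 := by
  induction hG using IsWeightedHomogeneous.induction_on with
  | zero => rw [map_zero]
  | add p q hp hq h1 h2 => rw [map_add, h1, h2, add_zero]
  | monomial d c hd =>
    subst hd
    obtain ⟨i, hi, hri⟩ : ∃ i, d i ≠ 0 ∧ r (D i) < 0 := by
      by_contra hcon
      push Not at hcon
      have := nonneg_weight (D := D) (ν := r) (e := d) hcon
      omega
    rw [cut_monomial, Finset.prod_eq_zero (i := i) (Finsupp.mem_support_iff.mpr hi), mul_zero]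
    rw [cut_X_neg (p := fun i => 0 ≤ r (D i)) (i := i) (not_le.2 hri), zero_pow hi]

/-- S21 -/
theorem neg_jac [Fintype I] [Fintype J] (hF : ∀ j, IsWeightedHomogeneous D (F j) (β j))
    (t : J → Prop) {x : I → ℂ}
    (hjac : LinearIndependent ℂ (fun (j : {j // t j}) (i : I) =>
      eval x (pderiv i (F j.1)))) {r : M →+ ℤ}
    (hX : ∀ i, r (D i) < 0 → x i = 0) (ht : ∀ j, r (β j) < 0 → t j)
    (hcard : Nat.card {j // r (β j) < 0} = Nat.card {i // r (D i) < 0}) :
    LinearIndependent ℂ (fun (j : {j : {j // 0 ≤ r (β j)} // t j.1})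
      (i : {i // 0 ≤ r (D i)}) => eval (fun k : {i // 0 ≤ r (D i)} => x k.1)
        (pderiv i (cut (fun i => 0 ≤ r (D i)) (F j.1.1)))) := by
  classical
  have hrx : NonnegAt D x r := by
    intro i hi
    by_contra h
    exact hi (hX i (not_le.1 h))
  have hx0 : ∀ i, ¬ (0 ≤ r (D i)) → x i = 0 := fun i hi => hX i (not_le.1 hi)
  have h1 := block _ hjac (fun j => 0 ≤ r (β j.1)) (fun i => 0 ≤ r (D i)) (by
    intro j hj i hi
    by_contra h
    have := jac_le hrx (hF j.1) h
    omega) (by
    simp only [not_le]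
    rw [← hcard]
    exact Nat.card_congr
      { toFun := fun j => ⟨j.1.1, j.2⟩
        invFun := fun j => ⟨⟨j.1, ht j.1 j.2⟩, j.2⟩
        left_inv := fun j => rfl
        right_inv := fun j => rfl })
  have h2 := h1.comp (fun j : {j : {j // 0 ≤ r (β j)} // t j.1} =>
    (⟨⟨j.1.1, j.2⟩, j.1.2⟩ : {j : {j // t j} // 0 ≤ r (β j.1)})) (by
      intro j j' h
      apply Subtype.ext
      apply Subtype.ext
      exact congrArg (fun k : {j : {j // t j} // 0 ≤ r (β j.1)} => k.1.1) h)
  have hrow : (fun (j : {j : {j // 0 ≤ r (β j)} // t j.1}) (i : {i // 0 ≤ r (D i)}) =>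
      eval (fun k : {i // 0 ≤ r (D i)} => x k.1)
        (pderiv i (cut (fun i => 0 ≤ r (D i)) (F j.1.1)))) =
      fun (j : {j : {j // 0 ≤ r (β j)} // t j.1}) (i : {i // 0 ≤ r (D i)}) =>
        eval x (pderiv i.1 (F j.1.1)) := by
    funext j i
    exact eval_pderiv_cut (fun i => 0 ≤ r (D i)) x hx0 i (F j.1.1)
  rw [hrow]
  exact h2

/-- S22 -/
theorem zero_rename {r : M →+ ℤ} (hD : ∀ i, 0 ≤ r (D i)) {G : MvPolynomial I ℂ} {b : M}
    (hG : IsWeightedHomogeneous D G b) (hb : r b = 0) :
    rename (fun i : {i // r (D i) = 0} => i.1) (cut (fun i => r (D i) = 0) G) = G ∧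
    ∀ (D' : {i // r (D i) = 0} → r.ker), (∀ i, (D' i : M) = D i.1) →
      IsWeightedHomogeneous D' (cut (fun i => r (D i) = 0) G) ⟨b, hb⟩ := by
  classical
  induction hG using IsWeightedHomogeneous.induction_on with
  | zero =>
    rw [map_zero, map_zero]
    exact ⟨rfl, fun D' _ => isWeightedHomogeneous_zero ℂ _ _⟩
  | add p q hp hq h1 h2 =>
    rw [map_add, map_add, h1.1, h2.1]
    exact ⟨rfl, fun D' h => (h1.2 D' h).add (h2.2 D' h)⟩
  | monomial d c hd =>
    subst hd
    have hz : ∀ i, d i ≠ 0 → r (D i) = 0 := zero_of_weight_zero (fun i _ => hD i) hb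
    rw [cut_monomial]
    constructor
    · rw [map_mul, rename_C, map_prod, monomial_eq, Finsupp.prod]
      congr 1
      refine Finset.prod_congr rfl fun i hi => ?_
      have hi' := hz i (Finsupp.mem_support_iff.mp hi)
      rw [map_pow, cut_X_pos (p := fun i => r (D i) = 0) hi', rename_X]
    · intro D' hD'
      have h1 : IsWeightedHomogeneous D' (∏ i ∈ d.support,
          (cut (fun i => r (D i) = 0) (MvPolynomial.X i : MvPolynomial I ℂ)) ^ (d i))
          (∑ i ∈ d.support, (d i) • (if h : r (D i) = 0 then D' ⟨i, h⟩ else 0)) := by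
        apply IsWeightedHomogeneous.prod
        intro i hi
        have hi' := hz i (Finsupp.mem_support_iff.mp hi)
        rw [cut_X_pos (p := fun i => r (D i) = 0) hi', dif_pos hi']
        exact (isWeightedHomogeneous_X ℂ D' ⟨i, hi'⟩).pow (d i)
      have h2 : (∑ i ∈ d.support, (d i) • (if h : r (D i) = 0 then D' ⟨i, h⟩ else 0)) =
          (⟨Finsupp.weight D d, hb⟩ : r.ker) := by
        apply Subtype.ext
        rw [AddSubgroup.val_finsetSum]
        change _ = Finsupp.weight D d
        rw [Finsupp.weight_apply, Finsupp.sum]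
        refine Finset.sum_congr rfl fun i hi => ?_
        have hi' := hz i (Finsupp.mem_support_iff.mp hi)
        rw [dif_pos hi', AddSubgroup.coe_nsmul, hD']
      rw [← h2]
      exact h1.C_mul c

/-- S23 -/
theorem zero_jac (hF : ∀ j, IsWeightedHomogeneous D (F j) (β j)) (t : J → Prop) {x : I → ℂ}
    [Fintype I] [Fintype J]
    (hjac : LinearIndependent ℂ (fun (j : {j // t j}) (i : I) =>
      eval x (pderiv i (F j.1)))) {r : M →+ ℤ}
    (hD : ∀ i, 0 ≤ r (D i)) :
    LinearIndependent ℂ (fun (j : {j : {j // r (β j) = 0} // t j.1})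
      (i : {i // r (D i) = 0}) => eval (fun k : {i // r (D i) = 0} => x k.1)
        (pderiv i (cut (fun i => r (D i) = 0) (F j.1.1)))) := by
  classical
  have hrx : NonnegAt D x r := fun i _ => hD i
  have hA := (hjac.comp (fun j : {j : {j // r (β j) = 0} // t j.1} =>
    (⟨j.1.1, j.2⟩ : {j // t j})) (by
      intro j j' h
      apply Subtype.ext
      apply Subtype.ext
      exact congrArg (fun k : {j // t j} => k.1) h))
  have hrow : (fun (j : {j : {j // r (β j) = 0} // t j.1}) (i : {i // r (D i) = 0}) =>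
      eval (fun k : {i // r (D i) = 0} => x k.1)
        (pderiv i (cut (fun i => r (D i) = 0) (F j.1.1)))) =
      fun (j : {j : {j // r (β j) = 0} // t j.1}) (i : {i // r (D i) = 0}) =>
        eval x (pderiv i.1 (F j.1.1)) := by
    funext j i
    have h1 := (zero_rename hD (hF j.1.1) j.1.2).1
    conv_rhs => rw [← h1]
    rw [pderiv_rename Subtype.val_injective, eval_rename]
    rfl
  rw [hrow, Fintype.linearIndependent_iff]
  rw [Fintype.linearIndependent_iff] at hA
  intro g hg
  apply hA g
  funext i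
  rw [Finset.sum_apply]
  simp only [Pi.smul_apply, smul_eq_mul, Pi.zero_apply, Function.comp_apply]
  by_cases hi : r (D i) = 0
  · have h4 := congrFun hg ⟨i, hi⟩
    rw [Finset.sum_apply] at h4
    simpa only [Pi.smul_apply, smul_eq_mul, Pi.zero_apply] using h4
  · refine Finset.sum_eq_zero fun j _ => ?_
    have h5 : eval x (pderiv i (F j.1.1)) = 0 := by
      by_contra h
      have h6 := jac_le hrx (hF j.1.1) h
      have h7 := hD i
      rw [j.1.2] at h6
      omega
    rw [h5, mul_zero]

end Pool.Agent.H6.Ab
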