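import Pool.Agent.H6.Ab.CurveFib
import Pool.Agent.H6.Ab.Count

/-!
# Fibres of the morphism given by `n a + N θ` are finite when `a` is nef
-/

set_option autoImplicit false

namespace Pool.Agent.H6.Ab

open MvPolynomial

variable {I J M : Type} [AddCommGroup M] {D : I → M} {θ : M}
  {β : J → M} {F : J → MvPolynomial I ℂ} {X : Set (I → ℂ)}

/-- the fibre through `x` of the rational map given by the monomials of degrees `m b` -/
def Fib (D : I → M) (X : Set (I → ℂ)) (b : M) (x : I → ℂ) : Set (I → ℂ) :=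
  {y | y ∈ X ∧ ∀ (m : ℕ) (e e' : I →₀ ℕ), Finsupp.weight D e = m • b →
    Finsupp.weight D e' = m • b →
    eval y (monomial e (1 : ℂ)) * eval x (monomial e' (1 : ℂ)) =
      eval y (monomial e' (1 : ℂ)) * eval x (monomial e (1 : ℂ))}

lemma isSub_fib (b : M) (x : I → ℂ) : IsSub D X (Fib D X b x) := by
  refine ⟨{P | ∃ (m : ℕ) (e e' : I →₀ ℕ), Finsupp.weight D e = m • b ∧
    Finsupp.weight D e' = m • b ∧ P = MvPolynomial.C (eval x (monomial e' (1 : ℂ))) *
      monomial e (1 : ℂ) - MvPolynomial.C (eval x (monomial e (1 : ℂ))) * monomial e' (1 : ℂ)},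
    ?_, ?_⟩
  · rintro P ⟨m, e, e', he, he', rfl⟩
    exact ⟨m • b, ((isWeightedHomogeneous_monomial D e 1 he).C_mul _).sub
      ((isWeightedHomogeneous_monomial D e' 1 he').C_mul _)⟩
  · ext y
    constructor
    · rintro ⟨hy, h⟩
      refine ⟨hy, ?_⟩
      rintro P ⟨m, e, e', he, he', rfl⟩
      rw [map_sub, map_mul, map_mul, eval_C, eval_C]
      linear_combination h m e e' he he'
    · rintro ⟨hy, h⟩
      refine ⟨hy, fun m e e' he he' => ?_⟩
      have h1 := h _ ⟨m, e, e', he, he', rfl⟩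
      rw [map_sub, map_mul, map_mul, eval_C, eval_C] at h1
      linear_combination h1

theorem fib_finite [Finite I] (hm : PreModel D θ β F X) {a : M} (ha : IsNef D X a) {n N : ℕ}
    (hn : 1 ≤ n) (hN : 1 ≤ N) (hc : ConeAll D X (n • a + N • θ)) {x : I → ℂ} (hx : x ∈ X) :
    FiniteMod D (Fib D X (n • a + N • θ) x) := by
  by_contra hinf
  obtain ⟨C, hCF, hC⟩ := exists_curve_in (isSub_fib (n • a + N • θ) x) hinf
  apply ha C hC
  obtain ⟨m₀, hm₀, e₀, he₀, hs₀⟩ := hc x hx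
  have hx0 : eval x (monomial e₀ (1 : ℂ)) ≠ 0 := eval_mono_ne.mpr hs₀
  have hsm : ∀ (k : ℕ) (e : I →₀ ℕ) (z : I → ℂ), 1 ≤ k →
      (eval z (monomial (k • e) (1 : ℂ)) ≠ 0 ↔ eval z (monomial e (1 : ℂ)) ≠ 0) := by
    intro k e z hk
    rw [eval_mono_ne, eval_mono_ne]
    constructor
    · intro h i hi
      apply h
      rw [Finsupp.smul_apply, smul_eq_mul]
      exact mul_ne_zero (by omega) hi
    · intro h i hi
      apply h
      intro h0
      apply hi
      rw [Finsupp.smul_apply, h0, smul_zero]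
  have hμ : ∀ z ∈ C, eval z (monomial e₀ (1 : ℂ)) ≠ 0 := by
    intro z hz
    obtain ⟨hzX, hzF⟩ := hCF hz
    obtain ⟨m₁, hm₁, e₁, he₁, hs₁⟩ := hc z hzX
    have h1 := hzF (m₀ * m₁) (m₀ • e₁) (m₁ • e₀) (by rw [map_nsmul, he₁, smul_smul])
      (by rw [map_nsmul, he₀, smul_smul, mul_comm])
    have h2 : eval z (monomial (m₀ • e₁) (1 : ℂ)) * eval x (monomial (m₁ • e₀) (1 : ℂ)) ≠ 0 :=
      mul_ne_zero ((hsm m₀ e₁ z hm₀).mpr (eval_mono_ne.mpr hs₁)) ((hsm m₁ e₀ x hm₁).mpr hx0)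
    rw [h1] at h2
    exact (hsm m₁ e₀ z hm₁).mp (left_ne_zero_of_mul h2)
  obtain ⟨z₁, hz₁⟩ := hC.irred.1
  obtain ⟨z₂, hz₂, hz⟩ : ∃ z₂ ∈ C, ¬ SameOrbit D z₁ z₂ := by
    by_contra hcon
    push Not at hcon
    exact hC.infinite ⟨{z₁}, Set.finite_singleton _, fun y hy => ⟨z₁, rfl, hcon y hy⟩⟩
  obtain ⟨K, G, hK, hG, hG1, hG2⟩ := exists_sep hm (hCF hz₁).1 (hCF hz₂).1 hz
  refine ⟨K * m₀ * n, Nat.one_le_iff_ne_zero.mpr (by positivity),
    fun z => eval z (G ^ (N * m₀)) / eval z ((monomial e₀ (1 : ℂ)) ^ K), ?_, ?_, ?_⟩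
  · intro z hz'
    refine ⟨(N * m₀) • (K • θ), K • (m₀ • (n • a + N • θ)), G ^ (N * m₀),
      (monomial e₀ (1 : ℂ)) ^ K, hG.pow _, (isWeightedHomogeneous_monomial D e₀ 1 he₀).pow _, ?_,
      ?_, fun y _ _ => rfl⟩
    · module
    · rw [map_pow]; exact pow_ne_zero _ (hμ z hz')
  · refine ⟨z₂, hz₂, ?_⟩
    beta_reduce
    rw [map_pow, map_pow]
    exact div_ne_zero (pow_ne_zero _ hG2) (pow_ne_zero _ (hμ z₂ hz₂))
  · refine ⟨z₁, hz₁, ?_⟩
    beta_reduce
    rw [map_pow, hG1, zero_pow (by positivity), zero_div]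

/-- along a complete rational curve of class `ρ` with `ρ b ≤ 0` also `ρ θ ≤ 0` -/
theorem nef_theta [Finite I] (hm : PreModel D θ β F X) {a : M} (ha : IsNef D X a) {n N : ℕ}
    (hn : 1 ≤ n) (hN : 1 ≤ N) (hc : ConeAll D X (n • a + N • θ)) (ρ : M →+ ℤ)
    (y : I → Polynomial ℂ) (hy : HasClass D ρ y) (hX : ∀ t, evl y t ∈ X) (htop : cv D ρ y ∈ X)
    (hρ : ρ (n • a + N • θ) ≤ 0) : ρ θ ≤ 0 := by
  classical
  set P : (I →₀ ℕ) → Polynomial ℂ := fun e => aeval y (monomial e (1 : ℂ)) with hP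
  have hPe : ∀ e t, (P e).eval t = eval (evl y t) (monomial e (1 : ℂ)) := by
    intro e t
    simp only [hP]
    rw [aeval_monomial, eval_monomial, map_one, one_mul, one_mul, Finsupp.prod,
      Polynomial.eval_prod, Finsupp.prod]
    refine Finset.prod_congr rfl fun i _ => ?_
    rw [Polynomial.eval_pow]
    rfl
  have hcl : ∀ (e : I →₀ ℕ) (c : M), Finsupp.weight D e = c →
      (∀ k : ℤ, ρ c < k → zc (P e) k = 0) ∧ zc (P e) (ρ c) =
        eval (cv D ρ y) (monomial e (1 : ℂ)) := fun e c he =>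
    class_aeval (isWeightedHomogeneous_monomial D e 1 he) hy
  -- a polynomial with nonpositive class is constant
  have hconst : ∀ (Q : Polynomial ℂ), (∀ k : ℤ, 0 < k → zc Q k = 0) → ∀ t, Q.eval t = Q.eval 0 := by
    intro Q hQ t
    have : Q = Polynomial.C (Q.coeff 0) := by
      ext k
      rw [Polynomial.coeff_C]
      split_ifs with h
      · rw [h]
      · have := hQ k (by omega)
        rwa [zc_natCast] at this
    rw [this]; simp
  -- all points of the curve lie in one fibre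
  have hfib : ∀ t, evl y t ∈ Fib D X (n • a + N • θ) (evl y 0) := by
    intro t
    refine ⟨hX t, fun m e e' he he' => ?_⟩
    have h1 : ∀ e : I →₀ ℕ, Finsupp.weight D e = m • (n • a + N • θ) →
        eval (evl y t) (monomial e (1 : ℂ)) = eval (evl y 0) (monomial e (1 : ℂ)) := by
      intro e he
      rw [← hPe, ← hPe]
      refine hconst _ (fun k hk => (hcl e _ he).1 k ?_) t
      rw [map_nsmul, nsmul_eq_mul]
      have := mul_nonpos_of_nonneg_of_nonpos (Int.natCast_nonneg m) hρ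
      omega
    rw [h1 e he, h1 e' he']
    ring
  obtain ⟨E, hEf, hE⟩ := fib_finite hm ha hn hN hc (hX 0)
  choose f hfE hfo using fun t => hE _ (hfib t)
  -- infinitely many points in one orbit
  obtain ⟨z, -, hz⟩ : ∃ z ∈ E, (f ⁻¹' {z}).Infinite := by
    by_contra hcon
    push Not at hcon
    have h1 : (Set.univ : Set ℂ) ⊆ ⋃ z ∈ E, f ⁻¹' {z} := fun t _ =>
      Set.mem_biUnion (hfE t) rfl
    exact Set.infinite_univ ((hEf.biUnion fun z hz => hcon z hz).subset h1)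
  obtain ⟨t₁, ht₁⟩ := hz.nonempty
  have hT : ∀ t ∈ f ⁻¹' {z}, SameOrbit D (evl y t₁) (evl y t) := by
    intro t ht
    have h1 := hfo t
    have h2 := hfo t₁
    rw [ht] at h1
    rw [ht₁] at h2
    exact h2.symm.trans h1
  have hprop : ∀ (k : ℕ) (e e' : I →₀ ℕ), Finsupp.weight D e = k • θ →
      Finsupp.weight D e' = k • θ →
      Polynomial.C ((P e).eval t₁) * P e' = Polynomial.C ((P e').eval t₁) * P e := by
    intro k e e' he he'
    have h1 : ∀ t ∈ f ⁻¹' {z}, (Polynomial.C ((P e).eval t₁) * P e' -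
        Polynomial.C ((P e').eval t₁) * P e).eval t = 0 := by
      intro t ht
      obtain ⟨g, hg⟩ := sameOrbit_iff.mp (hT t ht)
      rw [Polynomial.eval_sub, Polynomial.eval_mul, Polynomial.eval_mul, Polynomial.eval_C,
        Polynomial.eval_C, hPe, hPe, hPe, hPe, hg,
        eval_act (isWeightedHomogeneous_monomial D e 1 he),
        eval_act (isWeightedHomogeneous_monomial D e' 1 he')]
      ring
    have h2 : (Polynomial.C ((P e).eval t₁) * P e' -
        Polynomial.C ((P e').eval t₁) * P e) = 0 := by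
      by_contra hne
      apply hz
      refine (Polynomial.rootSet_finite (Polynomial.C ((P e).eval t₁) * P e' -
        Polynomial.C ((P e').eval t₁) * P e) ℂ).subset fun t ht => ?_
      rw [Polynomial.mem_rootSet]
      exact ⟨hne, by rw [Polynomial.coe_aeval_eq_eval]; exact h1 t ht⟩
    exact sub_eq_zero.mp h2
  have hsm : ∀ (k : ℕ) (e : I →₀ ℕ) (z : I → ℂ), 1 ≤ k →
      (eval z (monomial (k • e) (1 : ℂ)) ≠ 0 ↔ eval z (monomial e (1 : ℂ)) ≠ 0) := by
    intro k e z hk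
    rw [eval_mono_ne, eval_mono_ne]
    constructor
    · intro h i hi
      apply h
      rw [Finsupp.smul_apply, smul_eq_mul]
      exact mul_ne_zero (by omega) hi
    · intro h i hi
      apply h
      intro h0
      apply hi
      rw [Finsupp.smul_apply, h0, smul_zero]
  obtain ⟨N₁, hN₁, e₁, he₁, hs₁⟩ := hm.semistable (hX t₁)
  have hne1 : (P e₁).eval t₁ ≠ 0 := by
    rw [hPe]; exact eval_mono_ne.mpr fun i hi => (hs₁ i).mpr hi
  have hroot : ∀ t, (P e₁).eval t ≠ 0 := by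
    intro t
    obtain ⟨N₂, hN₂, e₂, he₂, hs₂⟩ := hm.semistable (hX t)
    have h1 := hprop (N₁ * N₂) (N₂ • e₁) (N₁ • e₂) (by rw [map_nsmul, he₁, smul_smul, mul_comm])
      (by rw [map_nsmul, he₂, smul_smul])
    have h2 := congrArg (Polynomial.eval t) h1
    rw [Polynomial.eval_mul, Polynomial.eval_mul, Polynomial.eval_C, Polynomial.eval_C] at h2
    have h3 : (P (N₂ • e₁)).eval t₁ * (P (N₁ • e₂)).eval t ≠ 0 := by
      refine mul_ne_zero ?_ ?_
      · rw [hPe] at hne1 ⊢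
        exact (hsm _ _ _ hN₂).mpr hne1
      · rw [hPe]
        exact (hsm _ _ _ hN₁).mpr (eval_mono_ne.mpr fun i hi => (hs₂ i).mpr hi)
    rw [h2] at h3
    have h4 := right_ne_zero_of_mul h3
    rw [hPe] at h4 ⊢
    exact (hsm _ _ _ hN₂).mp h4
  have hdeg : (P e₁).natDegree = 0 := by
    by_contra hd
    have h1 : (P e₁).degree ≠ 0 := by
      intro h
      apply hd
      exact Polynomial.natDegree_eq_of_degree_eq_some h
    obtain ⟨t, ht⟩ := IsAlgClosed.exists_root (P e₁) h1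
    exact hroot t ht
  obtain ⟨N₂, hN₂, e₂, he₂, hs₂⟩ := hm.semistable htop
  have h1 := hprop (N₁ * N₂) (N₂ • e₁) (N₁ • e₂) (by rw [map_nsmul, he₁, smul_smul, mul_comm])
    (by rw [map_nsmul, he₂, smul_smul])
  have hPsm : ∀ (k : ℕ) (e : I →₀ ℕ), P (k • e) = P e ^ k := by
    intro k e
    simp only [hP]
    rw [← map_pow, monomial_pow, one_pow]
  have h2 : (P (N₂ • e₁)).natDegree = 0 := by
    rw [hPsm, Polynomial.natDegree_pow, hdeg, mul_zero]
  have h3 : (P (N₁ • e₂)).natDegree = 0 := by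
    have h4 : (P (N₂ • e₁)).eval t₁ ≠ 0 := by
      rw [hPe] at hne1 ⊢
      exact (hsm _ _ _ hN₂).mpr hne1
    have h5 : (Polynomial.C ((P (N₂ • e₁)).eval t₁) * P (N₁ • e₂)).natDegree =
        (P (N₁ • e₂)).natDegree := Polynomial.natDegree_C_mul h4
    rw [← h5, h1]
    exact Nat.le_zero.mp ((Polynomial.natDegree_C_mul_le _ _).trans_eq h2)
  have h4 := (hcl (N₁ • e₂) ((N₁ * N₂) • θ) (by rw [map_nsmul, he₂, smul_smul])).2
  have h5 : eval (cv D ρ y) (monomial (N₁ • e₂) (1 : ℂ)) ≠ 0 :=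
    (hsm _ _ _ hN₁).mpr (eval_mono_ne.mpr fun i hi => (hs₂ i).mpr hi)
  rw [← h4] at h5
  by_contra hcon
  push Not at hcon
  apply h5
  have h6 : 0 < ρ ((N₁ * N₂) • θ) := by
    rw [map_nsmul, nsmul_eq_mul]
    exact mul_pos (by exact_mod_cast Nat.mul_pos hN₁ hN₂) hcon
  obtain ⟨k, hk⟩ := Int.eq_ofNat_of_zero_le h6.le
  rw [hk, zc_natCast]
  exact Polynomial.coeff_eq_zero_of_natDegree_lt (by omega)

end Pool.Agent.H6.Ab
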