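import Mathlib
import Pool.Agent.H6.Ab.Basic

/-!
# Polynomial solutions: homogeneous polynomials and block elimination
-/

set_option autoImplicit false

namespace Pool.Agent.H6.Ab

open MvPolynomial

variable {I J M : Type} [AddCommGroup M] {D : I → M} {θ : M}
  {β : J → M} {F : J → MvPolynomial I ℂ} {X : Set (I → ℂ)}

namespace PsiAux

section Alg

variable {A : Type} [CommRing A] [Algebra ℂ A] {r : M →+ ℤ}

lemma le_weight (hD : ∀ i, 0 ≤ r (D i)) (e : I →₀ ℕ) (i : I) :
    (e i : ℤ) * r (D i) ≤ r (Finsupp.weight D e) := by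
  classical
  rw [map_weight]
  by_cases hi : e i = 0
  · rw [hi, Nat.cast_zero, zero_mul]
    exact Finset.sum_nonneg fun k _ => mul_nonneg (Int.natCast_nonneg _) (hD k)
  · exact Finset.single_le_sum (f := fun k => (e k : ℤ) * r (D k))
      (fun k _ => mul_nonneg (Int.natCast_nonneg _) (hD k)) (Finsupp.mem_support_iff.mpr hi)

lemma le_weight' (hD : ∀ i, 0 ≤ r (D i)) {e : I →₀ ℕ} {i : I} (hi : e i ≠ 0) :
    r (D i) ≤ r (Finsupp.weight D e) := by
  have h1 := le_weight hD e i
  have h2 : (1 : ℤ) ≤ e i := by exact_mod_cast Nat.one_le_iff_ne_zero.mpr hi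
  nlinarith [hD i]

lemma congr_le (hD : ∀ i, 0 ≤ r (D i)) {G : MvPolynomial I ℂ} {b : M}
    (hG : IsWeightedHomogeneous D G b) {y y' : I → A}
    (h : ∀ i, r (D i) ≤ r b → y i = y' i) : aeval y G = aeval y' G := by
  induction hG using IsWeightedHomogeneous.induction_on with
  | zero => simp
  | add p q hp hq h1 h2 => rw [map_add, map_add, h1, h2]
  | monomial e c he =>
    rw [aeval_monomial, aeval_monomial]
    congr 1
    refine Finset.prod_congr rfl fun i hi => ?_
    simp only
    rw [h i]
    rw [← he]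
    exact le_weight' hD (Finsupp.mem_support_iff.mp hi)

lemma vanish (hD : ∀ i, 0 ≤ r (D i)) {G : MvPolynomial I ℂ} {b : M}
    (hG : IsWeightedHomogeneous D G b) (hb : 0 < r b) {y : I → A}
    (h : ∀ i, 0 < r (D i) → r (D i) ≤ r b → y i = 0) : aeval y G = 0 := by
  induction hG using IsWeightedHomogeneous.induction_on with
  | zero => simp
  | add p q hp hq h1 h2 => rw [map_add, h1, h2, add_zero]
  | monomial e c he =>
    rw [aeval_monomial]
    obtain ⟨i, hi, hi0⟩ : ∃ i, e i ≠ 0 ∧ 0 < r (D i) := by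
      by_contra hcon
      push Not at hcon
      rw [← he, map_weight] at hb
      have : (e.sum fun i k => (k : ℤ) * r (D i)) = 0 := by
        refine Finset.sum_eq_zero fun i hi => ?_
        have h1 := hcon i (Finsupp.mem_support_iff.mp hi)
        simp only [le_antisymm h1 (hD i), mul_zero]
      omega
    have h1 : (e.prod fun i k => y i ^ k) = 0 := by
      refine Finset.prod_eq_zero (Finsupp.mem_support_iff.mpr hi) ?_
      simp only
      rw [h i hi0 (by rw [← he]; exact le_weight' hD hi), zero_pow hi]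
    rw [h1, mul_zero]

lemma scale (hD : ∀ i, 0 ≤ r (D i)) {G : MvPolynomial I ℂ} {b : M}
    (hG : IsWeightedHomogeneous D G b) (t : A) (y : I → A) :
    aeval (fun i => t ^ (r (D i)).toNat * y i) G = t ^ (r b).toNat * aeval y G := by
  induction hG using IsWeightedHomogeneous.induction_on with
  | zero => simp
  | add p q hp hq h1 h2 => rw [map_add, map_add, h1, h2, mul_add]
  | monomial e c he =>
    rw [aeval_monomial, aeval_monomial]
    have h1 : (r b).toNat = e.sum fun i k => k * (r (D i)).toNat := by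
      have h2 : ((r b).toNat : ℤ) = ((e.sum fun i k => k * (r (D i)).toNat : ℕ) : ℤ) := by
        rw [Int.toNat_of_nonneg (by rw [← he]; exact nonneg_weight fun i _ => hD i), ← he,
          map_weight, Finsupp.sum, Finsupp.sum]
        push_cast
        refine Finset.sum_congr rfl fun i _ => ?_
        rw [Int.toNat_of_nonneg (hD i)]
      exact_mod_cast h2
    have h3 : (e.prod fun i k => (t ^ (r (D i)).toNat * y i) ^ k) =
        t ^ (r b).toNat * e.prod fun i k => y i ^ k := by
      rw [h1, Finsupp.prod, Finsupp.prod, Finsupp.sum, ← Finset.prod_pow_eq_pow_sum,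
        ← Finset.prod_mul_distrib]
      refine Finset.prod_congr rfl fun i _ => ?_
      rw [mul_pow, ← pow_mul, mul_comm (e i)]
    rw [h3]
    ring

lemma euler_mono (y : I → A) (e : I →₀ ℕ) (c : ℂ) (i : I) :
    aeval y (pderiv i (monomial e c)) * y i = (e i : A) * aeval y (monomial e c) := by
  classical
  rw [pderiv_monomial, aeval_monomial, aeval_monomial, map_mul, map_natCast]
  by_cases hi : e i = 0
  · rw [hi]
    simp
  · have h1 : e = (e - Finsupp.single i 1) + Finsupp.single i 1 := by
      ext k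
      rw [Finsupp.add_apply, Finsupp.tsub_apply]
      by_cases hk : k = i
      · subst hk
        simp only [Finsupp.single_eq_same]
        omega
      · rw [Finsupp.single_apply, if_neg (fun h => hk h.symm)]
        omega
    have h2 : (e.prod fun i k => y i ^ k) =
        ((e - Finsupp.single i 1).prod fun i k => y i ^ k) * y i := by
      conv_lhs => rw [h1]
      rw [Finsupp.prod_add_index' (fun _ => pow_zero _) (fun _ _ _ => pow_add _ _ _),
        Finsupp.prod_single_index (h := fun i k => y i ^ k) (pow_zero _), pow_one]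
    rw [h2]
    ring

lemma affine [Fintype I] (hD : ∀ i, 0 ≤ r (D i)) {G : MvPolynomial I ℂ} {b : M}
    (hG : IsWeightedHomogeneous D G b) {w : ℤ} (hb : r b = w) (hw : 0 < w) (y : I → A) :
    aeval y G = ∑ i : {i // r (D i) = w}, aeval y (pderiv i.1 G) * y i.1 +
      aeval (fun i => if r (D i) = w then 0 else y i) G := by
  classical
  induction hG using IsWeightedHomogeneous.induction_on with
  | zero => simp
  | add p q hp hq h1 h2 =>
    rw [map_add, map_add, h1, h2]
    simp only [map_add, add_mul, Finset.sum_add_distrib]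
    ring
  | monomial e c he =>
    simp only [euler_mono]
    rw [← Finset.sum_mul]
    by_cases hex : ∃ i, e i ≠ 0 ∧ r (D i) = w
    · obtain ⟨i, hi, hiw⟩ := hex
      have h1 : aeval (fun i => if r (D i) = w then 0 else y i) (monomial e c) = 0 := by
        rw [aeval_monomial]
        have h2 : (e.prod fun i k => (if r (D i) = w then (0 : A) else y i) ^ k) = 0 := by
          refine Finset.prod_eq_zero (Finsupp.mem_support_iff.mpr hi) ?_
          simp only
          rw [if_pos hiw, zero_pow hi]
        rw [h2, mul_zero]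
      have h2 : ∑ i : {i // r (D i) = w}, e i.1 = 1 := by
        have h3 : (∑ i : {i // r (D i) = w}, (e i.1 : ℤ)) * w ≤ w := by
          rw [Finset.sum_mul]
          calc ∑ i : {i // r (D i) = w}, (e i.1 : ℤ) * w
              = ∑ i : {i // r (D i) = w}, (e i.1 : ℤ) * r (D i.1) :=
                Finset.sum_congr rfl fun i _ => by rw [i.2]
            _ = ∑ i ∈ Finset.univ.filter (fun i => r (D i) = w), (e i : ℤ) * r (D i) := by
                rw [Finset.sum_subtype (Finset.univ.filter (fun i => r (D i) = w))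
                  (p := fun i => r (D i) = w) (fun x => by simp)]
            _ ≤ ∑ i, (e i : ℤ) * r (D i) :=
                Finset.sum_le_sum_of_subset_of_nonneg (Finset.filter_subset _ _)
                  fun i _ _ => mul_nonneg (Int.natCast_nonneg _) (hD i)
            _ = r (Finsupp.weight D e) := by
                rw [map_weight, Finsupp.sum_fintype _ _ (by simp)]
            _ = w := by rw [he, hb]
        have h4 : e i ≤ ∑ i : {i // r (D i) = w}, e i.1 :=
          Finset.single_le_sum (f := fun i : {i // r (D i) = w} => e i.1)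
            (fun _ _ => Nat.zero_le _) (Finset.mem_univ (⟨i, hiw⟩ : {i // r (D i) = w}))
        have h5 : (∑ i : {i // r (D i) = w}, (e i.1 : ℤ)) ≤ 1 := by
          by_contra hcon
          push Not at hcon
          nlinarith
        have h6 : ((∑ i : {i // r (D i) = w}, e i.1 : ℕ) : ℤ) ≤ 1 := by
          push_cast
          exact h5
        have h7 : 1 ≤ e i := Nat.one_le_iff_ne_zero.mpr hi
        omega
      have h3 : (∑ i : {i // r (D i) = w}, (e i.1 : A)) = 1 := by
        rw [← Nat.cast_sum, h2, Nat.cast_one]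
      rw [h1, h3, one_mul, add_zero]
    · push Not at hex
      have h1 : (∑ i : {i // r (D i) = w}, (e i.1 : A)) = 0 := by
        refine Finset.sum_eq_zero fun i _ => ?_
        by_cases hi : e i.1 = 0
        · rw [hi, Nat.cast_zero]
        · exact absurd i.2 (hex i.1 hi)
      rw [h1, zero_mul, zero_add, aeval_monomial, aeval_monomial]
      congr 1
      refine Finset.prod_congr rfl fun i hi => ?_
      simp only
      rw [if_neg (hex i (Finsupp.mem_support_iff.mp hi))]

end Alg

lemma hom_aeval {r : M →+ ℤ} {κ : M} {ψ : I → MvPolynomial I ℂ}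
    (hψ : ∀ i, IsWeightedHomogeneous D (ψ i) (D i + r (D i) • κ)) {G : MvPolynomial I ℂ} {b : M}
    (hG : IsWeightedHomogeneous D G b) : IsWeightedHomogeneous D (aeval ψ G) (b + r b • κ) := by
  classical
  induction hG using IsWeightedHomogeneous.induction_on with
  | zero => rw [map_zero]; exact isWeightedHomogeneous_zero ℂ D _
  | add p q hp hq h1 h2 => rw [map_add]; exact h1.add h2
  | monomial e c he =>
    rw [aeval_monomial]
    have h1 : IsWeightedHomogeneous D (e.prod fun i k => ψ i ^ k)
        (∑ i ∈ e.support, e i • (D i + r (D i) • κ)) :=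
      IsWeightedHomogeneous.prod _ _ _ fun i _ => (hψ i).pow (e i)
    have h2 : (∑ i ∈ e.support, e i • (D i + r (D i) • κ)) = b + r b • κ := by
      rw [← he, map_weight, Finsupp.weight_apply, Finsupp.sum, Finsupp.sum, Finset.sum_smul,
        ← Finset.sum_add_distrib]
      refine Finset.sum_congr rfl fun i _ => ?_
      rw [smul_add, mul_smul, natCast_zsmul]
    rw [h2] at h1
    exact h1.C_mul c

lemma det_hom {n : Type} [Fintype n] [DecidableEq n] {A : Matrix n n (MvPolynomial I ℂ)}
    {b d : n → M} (h : ∀ i j, IsWeightedHomogeneous D (A i j) (b i - d j)) :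
    IsWeightedHomogeneous D A.det (∑ i, b i - ∑ i, d i) := by
  rw [Matrix.det_apply]
  refine IsWeightedHomogeneous.sum _ _ _ fun σ _ => ?_
  have h1 : IsWeightedHomogeneous D (∏ i, A (σ i) i) (∑ i, b i - ∑ i, d i) := by
    have h2 := IsWeightedHomogeneous.prod Finset.univ (fun i => A (σ i) i)
      (fun i => b (σ i) - d i) (w := D) (fun i _ => h (σ i) i)
    rw [Finset.sum_sub_distrib, Equiv.sum_comp σ b] at h2
    exact h2
  rcases Int.units_eq_one_or (Equiv.Perm.sign σ) with hs | hs
  · rw [hs, one_smul]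
    exact h1
  · rw [hs]
    have : ((-1 : ℤˣ) • ∏ i, A (σ i) i) = -∏ i, A (σ i) i := by
      rw [Units.neg_smul, one_smul]
    rw [this]
    exact h1.neg

lemma adj_hom {n : Type} [Fintype n] [DecidableEq n] {A : Matrix n n (MvPolynomial I ℂ)}
    {b d : n → M} (h : ∀ i j, IsWeightedHomogeneous D (A i j) (b i - d j)) (i j : n) :
    IsWeightedHomogeneous D (A.adjugate i j) (∑ i, b i - ∑ i, d i - (b j - d i)) := by
  rw [Matrix.adjugate_apply]
  have h1 : ∀ k l, IsWeightedHomogeneous D (A.updateRow j (Pi.single i 1) k l)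
      (Function.update b j (d i) k - d l) := by
    intro k l
    by_cases hk : k = j
    · subst hk
      rw [Matrix.updateRow_self, Function.update_self]
      by_cases hl : l = i
      · subst hl
        rw [Pi.single_eq_same, sub_self]
        exact isWeightedHomogeneous_one ℂ D
      · rw [Pi.single_eq_of_ne hl]
        exact isWeightedHomogeneous_zero ℂ D _
    · rw [Matrix.updateRow_ne hk, Function.update_of_ne hk]
      exact h k l
  have h2 := det_hom h1
  have h3 : ∑ k, Function.update b j (d i) k - ∑ k, d k =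
      ∑ i, b i - ∑ i, d i - (b j - d i) := by
    rw [Finset.sum_update_of_mem (Finset.mem_univ j)]
    rw [← Finset.add_sum_erase Finset.univ b (Finset.mem_univ j), Finset.sdiff_singleton_eq_erase]
    abel
  rw [h3] at h2
  exact h2

end PsiAux


/-! ### linear algebra -/

namespace PsiAux

lemma det_ne_zero {R : Type} [Fintype R] [DecidableEq R] {A : Matrix R R ℂ}
    (h : LinearIndependent ℂ (fun (j k : R) => A j k)) : A.det ≠ 0 := by
  intro h0
  obtain ⟨c, hc, hcA⟩ := Matrix.exists_vecMul_eq_zero_iff.mpr h0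
  apply hc
  funext j
  refine Fintype.linearIndependent_iff.mp h c ?_ j
  funext k
  have := congrFun hcA k
  simpa [Matrix.vecMul, dotProduct, Finset.sum_apply] using this

lemma adj_kernel {R : Type} [Fintype R] [DecidableEq R] {A : Matrix (Option R) (Option R) ℂ}
    (h : LinearIndependent ℂ (fun (j : R) (k : Option R) => A (some j) k)) {v : Option R → ℂ}
    (hv : ∃ k, v k ≠ 0) (hAv : ∀ j : R, ∑ k, A (some j) k * v k = 0) :
    ∃ u : ℂ, u ≠ 0 ∧ ∀ k, A.adjugate k none = u * v k := by
  classical
  obtain ⟨k₀, hk₀⟩ := hv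
  set B : Matrix (Option R) (Option R) ℂ := A.updateRow none (Pi.single k₀ 1) with hB
  have hB1 : ∀ j k, B (some j) k = A (some j) k := by
    intro j k
    rw [hB, Matrix.updateRow_ne (by simp)]
  have hB2 : B.mulVec v = Pi.single none (v k₀) := by
    funext o
    rcases o with _ | j
    · rw [Pi.single_eq_same, hB]
      simp [Matrix.mulVec, dotProduct, Matrix.updateRow_self, Pi.single_apply]
    · rw [Pi.single_eq_of_ne (by simp)]
      simp only [Matrix.mulVec, dotProduct, hB1]
      exact hAv j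
  have hdet : B.det ≠ 0 := by
    intro h0
    obtain ⟨c, hc, hcB⟩ := Matrix.exists_vecMul_eq_zero_iff.mpr h0
    have h1 : dotProduct c (B.mulVec v) = 0 := by
      rw [Matrix.dotProduct_mulVec, hcB, zero_dotProduct]
    rw [hB2, dotProduct_single] at h1
    have hn : c none = 0 := (mul_eq_zero.mp h1).resolve_right hk₀
    apply hc
    funext o
    rcases o with _ | j
    · exact hn
    · refine Fintype.linearIndependent_iff.mp h (fun j => c (some j)) ?_ j
      funext k
      have h2 := congrFun hcB k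
      simp only [Matrix.vecMul, dotProduct, Fintype.sum_option, hn, zero_mul, zero_add, hB1,
        Pi.zero_apply] at h2
      simpa [Finset.sum_apply] using h2
  refine ⟨B.det / v k₀, div_ne_zero hdet hk₀, fun k => ?_⟩
  have h3 : B.adjugate k none = A.adjugate k none := by
    rw [Matrix.adjugate_apply, Matrix.adjugate_apply, hB, Matrix.updateRow_idem]
  have h4 : B.adjugate.mulVec (B.mulVec v) = B.det • v := by
    rw [Matrix.mulVec_mulVec, Matrix.adjugate_mul, Matrix.smul_mulVec, Matrix.one_mulVec]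
  have h5 := congrFun h4 k
  rw [hB2] at h5
  simp only [Matrix.mulVec, dotProduct, Pi.smul_apply, smul_eq_mul] at h5
  rw [Finset.sum_eq_single none (by
    intro b _ hb
    rw [Pi.single_eq_of_ne hb, mul_zero]) (by simp), Pi.single_eq_same] at h5
  rw [← h3]
  field_simp
  linear_combination h5

/-! ### partial solutions -/

/-- A solution of the equations of weight at most `w`. -/
structure Sol (D : I → M) (β : J → M) (F : J → MvPolynomial I ℂ) (X : Set (I → ℂ)) (r : M →+ ℤ)
    (w : ℤ) (κ : M) (ψ : I → MvPolynomial I ℂ) : Prop where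
  hom : ∀ i, IsWeightedHomogeneous D (ψ i) (D i + r (D i) • κ)
  large : ∀ i, w < r (D i) → ψ i = 0
  zero : ∀ i, r (D i) = 0 → ψ i = MvPolynomial.X i
  eqn : ∀ j, 0 < r (β j) → r (β j) ≤ w → aeval ψ (F j) = 0
  pt : ∀ x ∈ X, ∃ u : ℂ, u ≠ 0 ∧ ∀ i, r (D i) ≤ w → eval x (ψ i) = u ^ (r (D i)).toNat * x i

/-- the degree shift -/
noncomputable def kap [Fintype I] [Fintype J] (D : I → M) (β : J → M) (r : M →+ ℤ) (w : ℤ) : M :=
  ∑ j, (if 0 < r (β j) ∧ r (β j) ≤ w then β j else 0) -
    ∑ i, (if 0 < r (D i) ∧ r (D i) ≤ w then D i else 0)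

/-- the shift of one block -/
noncomputable def del [Fintype I] [Fintype J] (D : I → M) (β : J → M) (r : M →+ ℤ) (w : ℤ) : M :=
  ∑ j : {j // r (β j) = w}, β j.1 - ∑ i : {i // r (D i) = w}, D i.1

lemma sum_sub_ite {K : Type} [Fintype K] (p : K → Prop) [DecidablePred p] (f : K → M) :
    ∑ k : {k // p k}, f k.1 = ∑ k, if p k then f k else 0 := by
  rw [← Finset.sum_filter, Finset.sum_subtype (Finset.univ.filter p) (p := p) (fun x => by simp)]

lemma sum_ite_succ {K : Type} [Fintype K] (f : K → M) (a : K → ℤ) {w : ℤ} (hw : 0 ≤ w) :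
    ∑ k, (if 0 < a k ∧ a k ≤ w + 1 then f k else 0) =
      ∑ k, (if 0 < a k ∧ a k ≤ w then f k else 0) + ∑ k, (if a k = w + 1 then f k else 0) := by
  rw [← Finset.sum_add_distrib]
  refine Finset.sum_congr rfl fun k _ => ?_
  split_ifs <;> first | omega | simp

lemma kap_succ [Fintype I] [Fintype J] (D : I → M) (β : J → M) (r : M →+ ℤ) {w : ℤ}
    (hw : 0 ≤ w) : kap D β r (w + 1) = kap D β r w + del D β r (w + 1) := by
  unfold kap del
  rw [sum_sub_ite (fun j => r (β j) = w + 1), sum_sub_ite (fun i => r (D i) = w + 1),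
    sum_ite_succ β (fun j => r (β j)) hw, sum_ite_succ D (fun i => r (D i)) hw]
  abel

lemma kap_zero [Fintype I] [Fintype J] (D : I → M) (β : J → M) (r : M →+ ℤ) :
    kap D β r 0 = 0 := by
  unfold kap
  rw [Finset.sum_eq_zero, Finset.sum_eq_zero, sub_zero]
  · intro i _
    rw [if_neg (by omega)]
  · intro j _
    rw [if_neg (by omega)]

lemma r_del [Fintype I] [Fintype J] {r : M →+ ℤ} {w : ℤ}
    (h : Nat.card {i // r (D i) = w} = Nat.card {j // r (β j) = w}) : r (del D β r w) = 0 := by
  unfold del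
  have e1 : ∑ j : {j // r (β j) = w}, r (β j.1) = ∑ _j : {j // r (β j) = w}, w :=
    Finset.sum_congr rfl fun j _ => j.2
  have e2 : ∑ i : {i // r (D i) = w}, r (D i.1) = ∑ _i : {i // r (D i) = w}, w :=
    Finset.sum_congr rfl fun i _ => i.2
  rw [map_sub, map_sum, map_sum, e1, e2]
  simp only [Finset.sum_const, Finset.card_univ]
  rw [Nat.card_eq_fintype_card, Nat.card_eq_fintype_card] at h
  rw [h, sub_self]

section step

variable [Fintype I] [Fintype J]

lemma li_reindex {R C R' : Type} [Fintype R] {m : R → C → ℂ} (e : R' ≃ C)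
    (h : LinearIndependent ℂ m) : LinearIndependent ℂ (fun (j : R) (k : R') => m j (e k)) := by
  rw [Fintype.linearIndependent_iff] at h ⊢
  intro g hg j
  refine h g ?_ j
  funext i
  have := congrFun hg (e.symm i)
  simpa [Finset.sum_apply] using this

omit [Fintype I] in
lemma ev (x : I → ℂ) (G : MvPolynomial I ℂ) : aeval x G = eval x G := by
  rw [← coe_aeval_eq_eval]
  rfl

/-- the equations of weight `w` at a point -/
lemma eqn_point {r : M →+ ℤ} (hD : ∀ i, 0 ≤ r (D i)) {G : MvPolynomial I ℂ} {b : M}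
    (hG : IsWeightedHomogeneous D G b) {w : ℤ} (hb : r b = w) (hw : 0 < w) {x : I → ℂ}
    (hx : eval x G = 0) :
    ∑ i : {i // r (D i) = w}, eval x (pderiv i.1 G) * x i.1 =
      -aeval (fun i => if r (D i) = w then 0 else x i) G := by
  have h1 := affine (A := ℂ) hD hG hb hw x
  simp only [ev x] at h1
  rw [hx] at h1
  linear_combination -h1

end step

end PsiAux

namespace PsiAux

section step

variable [Fintype I] [Fintype J]

lemma toNat_smul_eq {n : ℤ} (hn : 0 ≤ n) (m : M) : n.toNat • m = n • m := by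
  rw [← natCast_zsmul, Int.toNat_of_nonneg hn]

lemma sum_adj {R S : Type} [Fintype R] [DecidableEq R] [CommRing S] (c : Matrix R R S)
    (a : R → S) (t : S) (j : R) :
    ∑ k, c j k * -(t * ∑ j', c.adjugate k j' * a j') = -(t * (c.det * a j)) := by
  have h1 : c.mulVec (c.adjugate.mulVec a) = c.det • a := by
    rw [Matrix.mulVec_mulVec, Matrix.mul_adjugate, Matrix.smul_mulVec, Matrix.one_mulVec]
  have h2 := congrFun h1 j
  simp only [Matrix.mulVec, dotProduct, Pi.smul_apply, smul_eq_mul] at h2
  rw [← h2]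
  simp only [mul_neg, Finset.sum_neg_distrib]
  rw [Finset.mul_sum]
  refine congrArg _ (Finset.sum_congr rfl fun k _ => ?_)
  ring

lemma sum_adj' {R S : Type} [Fintype R] [DecidableEq R] [CommRing S] (c : Matrix R R S)
    (v : R → S) (t : S) (k : R) :
    ∑ j, c.adjugate k j * -(t * ∑ l, c j l * v l) = -(t * (c.det * v k)) := by
  have h1 : c.adjugate.mulVec (c.mulVec v) = c.det • v := by
    rw [Matrix.mulVec_mulVec, Matrix.adjugate_mul, Matrix.smul_mulVec, Matrix.one_mulVec]
  have h2 := congrFun h1 k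
  simp only [Matrix.mulVec, dotProduct, Pi.smul_apply, smul_eq_mul] at h2
  rw [← h2]
  simp only [mul_neg, Finset.sum_neg_distrib]
  rw [Finset.mul_sum]
  refine congrArg _ (Finset.sum_congr rfl fun k _ => ?_)
  ring

lemma step (hm : PreModel D θ β F X) {r : M →+ ℤ} (hD : ∀ i, 0 ≤ r (D i)) {w : ℤ} (hw : 1 ≤ w)
    {κ : M} {ψ : I → MvPolynomial I ℂ} (hS : Sol D β F X r w κ ψ)
    (hcard : Nat.card {i // r (D i) = w + 1} = Nat.card {j // r (β j) = w + 1})
    (hrow : ∀ x ∈ X, LinearIndependent ℂ
      (fun (j : {j // r (β j) = w + 1}) (i : {i // r (D i) = w + 1}) =>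
      eval x (pderiv i.1 (F j.1)))) :
    ∃ ψ', Sol D β F X r (w + 1) (κ + del D β r (w + 1)) ψ' := by
  classical
  obtain ⟨e⟩ : Nonempty ({j // r (β j) = w + 1} ≃ {i // r (D i) = w + 1}) :=
    Finite.card_eq.mp hcard.symm
  obtain ⟨c, hc⟩ : ∃ c : Matrix {j // r (β j) = w + 1} {j // r (β j) = w + 1}
    (MvPolynomial I ℂ), ∀ j k, c j k = pderiv (e k).1 (F j.1) := ⟨_, fun j k => rfl⟩
  have hch : ∀ j k, IsWeightedHomogeneous D (c j k) (β j.1 - D (e k).1) := fun j k => by
    rw [hc]
    exact (hm.hom j.1).pderiv (by rw [sub_add_cancel])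
  obtain ⟨δ, hδ⟩ : ∃ δ, δ = del D β r (w + 1) := ⟨_, rfl⟩
  rw [← hδ]
  have hδ' : ∑ j : {j // r (β j) = w + 1}, β j.1 -
      ∑ k : {j // r (β j) = w + 1}, D (e k).1 = δ := by
    rw [hδ]
    unfold del
    rw [Equiv.sum_comp e (fun i => D i.1)]
  obtain ⟨Δ, hΔdef⟩ : ∃ Δ, Δ = c.det := ⟨_, rfl⟩
  have hΔ : IsWeightedHomogeneous D Δ δ := by
    rw [← hδ', hΔdef]
    exact det_hom hch
  have hadj : ∀ k j, IsWeightedHomogeneous D (c.adjugate k j) (δ - (β j.1 - D (e k).1)) := by
    intro k j
    rw [← hδ']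
    exact adj_hom hch k j
  obtain ⟨ψ', hψ1, hψ2⟩ : ∃ ψ' : I → MvPolynomial I ℂ,
      (∀ k, ψ' (e k).1 = -(Δ ^ w.toNat * ∑ j, c.adjugate k j * aeval ψ (F j.1))) ∧
      (∀ i, r (D i) ≠ w + 1 → ψ' i = Δ ^ (r (D i)).toNat * ψ i) := by
    refine ⟨fun i => if h : r (D i) = w + 1 then
      -(Δ ^ w.toNat * ∑ j, c.adjugate (e.symm ⟨i, h⟩) j * aeval ψ (F j.1))
      else Δ ^ (r (D i)).toNat * ψ i, fun k => ?_, fun i hi => ?_⟩
    · simp only
      rw [dif_pos (e k).2]
      have : e.symm ⟨(e k).1, (e k).2⟩ = k := by simp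
      rw [this]
    · simp only
      rw [dif_neg hi]
  have hψ0 : ∀ i, r (D i) = 0 → ψ' i = MvPolynomial.X i := by
    intro i hi
    rw [hψ2 i (by omega), hS.zero i hi, hi]
    simp
  -- the derivatives only involve the variables of weight zero
  have hder : ∀ (j k : {j // r (β j) = w + 1}), aeval ψ' (c j k) = c j k := by
    intro j k
    have h1 : aeval ψ' (c j k) = aeval (MvPolynomial.X : I → MvPolynomial I ℂ) (c j k) := by
      refine congr_le hD (hch j k) fun i hi => hψ0 i ?_
      rw [map_sub, j.2, (e k).2, sub_self] at hi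
      exact le_antisymm hi (hD i)
    rw [h1, aeval_X_left_apply]
  have hscale : ∀ (j : J), r (β j) ≤ w + 1 →
      aeval (fun i => if r (D i) = w + 1 then 0 else ψ' i) (F j) =
        Δ ^ (r (β j)).toNat * aeval ψ (F j) := by
    intro j hj
    rw [← scale hD (hm.hom j) Δ ψ]
    refine congr_le hD (hm.hom j) fun i hi => ?_
    by_cases h : r (D i) = w + 1
    · rw [if_pos h, hS.large i (by omega), mul_zero]
    · rw [if_neg h, hψ2 i h]
  refine ⟨ψ', ⟨fun i => ?_, fun i hi => ?_, hψ0, fun j hj1 hj2 => ?_, fun x hx => ?_⟩⟩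
  · -- homogeneity
    by_cases h : r (D i) = w + 1
    · obtain ⟨k, hk⟩ : ∃ k, (e k) = ⟨i, h⟩ := ⟨e.symm ⟨i, h⟩, by simp⟩
      have hki : (e k).1 = i := by rw [hk]
      rw [← hki, hψ1]
      refine IsWeightedHomogeneous.neg ?_
      have h1 : IsWeightedHomogeneous D (∑ j, c.adjugate k j * aeval ψ (F j.1))
          (δ + D (e k).1 + (w + 1) • κ) := by
        refine IsWeightedHomogeneous.sum _ _ _ fun j _ => ?_
        have h2 := (hadj k j).mul (hom_aeval hS.hom (hm.hom j.1))
        rw [j.2] at h2
        have h3 : δ - (β j.1 - D (e k).1) + (β j.1 + (w + 1) • κ) =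
            δ + D (e k).1 + (w + 1) • κ := by abel
        rw [h3] at h2
        exact h2
      have h4 := (hΔ.pow w.toNat).mul h1
      have h5 : w.toNat • δ + (δ + D (e k).1 + (w + 1) • κ) =
          D (e k).1 + r (D (e k).1) • (κ + δ) := by
        rw [toNat_smul_eq (by omega), (e k).2, smul_add, add_smul, add_smul, one_smul, one_smul]
        abel
      rw [h5] at h4
      exact h4
    · rw [hψ2 i h]
      have h4 := (hΔ.pow (r (D i)).toNat).mul (hS.hom i)
      have h5 : (r (D i)).toNat • δ + (D i + r (D i) • κ) = D i + r (D i) • (κ + δ) := by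
        rw [toNat_smul_eq (hD i), smul_add]
        abel
      rw [h5] at h4
      exact h4
  · rw [hψ2 i (by omega), hS.large i (by omega), mul_zero]
  · -- the equations
    by_cases h : r (β j) = w + 1
    · rw [affine hD (hm.hom j) h (by omega) ψ', hscale j (by omega), h]
      have h1 : ∑ i : {i // r (D i) = w + 1}, aeval ψ' (pderiv i.1 (F j)) * ψ' i.1 =
          ∑ k, c ⟨j, h⟩ k * ψ' (e k).1 := by
        rw [← Equiv.sum_comp e]
        exact Finset.sum_congr rfl fun k _ => by rw [← hc ⟨j, h⟩ k, hder]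
      have h2 := sum_adj c (fun j' => aeval ψ (F j'.1)) (Δ ^ w.toNat) ⟨j, h⟩
      have h5 : (w + 1).toNat = w.toNat + 1 := by omega
      rw [h1, Finset.sum_congr rfl (fun k _ => by rw [hψ1]), h2, h5, pow_succ, ← hΔdef]
      exact neg_add_eq_zero.mpr (by rw [mul_assoc])
    · have h1 : aeval ψ' (F j) = aeval (fun i => if r (D i) = w + 1 then 0 else ψ' i) (F j) := by
        refine congr_le hD (hm.hom j) fun i hi => ?_
        rw [if_neg (by omega)]
      rw [h1, hscale j hj2, hS.eqn j hj1 (by omega), mul_zero]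
  · -- at the points
    obtain ⟨u, hu, hux⟩ := hS.pt x hx
    have hΔx : eval x Δ = ((eval x).mapMatrix c).det := by
      rw [hΔdef, RingHom.map_det]
    have hΔ0 : eval x Δ ≠ 0 := by
      rw [hΔx]
      refine det_ne_zero ?_
      have h1 := li_reindex e (hrow x hx)
      have h2 : (fun (j k : {j // r (β j) = w + 1}) => (eval x).mapMatrix c j k) =
          fun j k => eval x (pderiv (e k).1 (F j.1)) := by
        funext j k
        rw [RingHom.mapMatrix_apply, Matrix.map_apply, hc]
      rw [h2]
      exact h1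
    refine ⟨eval x Δ * u, mul_ne_zero hΔ0 hu, fun i hi => ?_⟩
    by_cases h : r (D i) = w + 1
    · obtain ⟨k, hk⟩ : ∃ k, (e k) = ⟨i, h⟩ := ⟨e.symm ⟨i, h⟩, by simp⟩
      have hki : (e k).1 = i := by rw [hk]
      rw [← hki, hψ1, (e k).2, map_neg, map_mul, map_pow, map_sum]
      simp only [map_mul]
      -- values of the F_j at ψ(x)
      have hF : ∀ j : {j // r (β j) = w + 1}, eval x (aeval ψ (F j.1)) =
          -(u ^ (w + 1).toNat * ∑ k, eval x (c j k) * x (e k).1) := by
        intro j
        have h1 : eval x (aeval ψ (F j.1)) = aeval (fun i => eval x (ψ i)) (F j.1) := by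
          rw [← ev x, ← AlgHom.comp_apply, comp_aeval]
          simp only [ev x]
        have h2 : aeval (fun i => eval x (ψ i)) (F j.1) =
            aeval (fun i => u ^ (r (D i)).toNat * (if r (D i) = w + 1 then 0 else x i))
              (F j.1) := by
          refine congr_le hD (hm.hom j.1) fun i hi => ?_
          rw [j.2] at hi
          by_cases h : r (D i) = w + 1
          · rw [if_pos h, hS.large i (by omega), map_zero, mul_zero]
          · rw [if_neg h, hux i (by omega)]
        rw [h1, h2, scale hD (hm.hom j.1) u (fun i => if r (D i) = w + 1 then 0 else x i), j.2]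
        have h3 := eqn_point hD (hm.hom j.1) j.2 (by omega) (hm.zero x hx j.1)
        rw [← Equiv.sum_comp e] at h3
        have h4 : ∑ k, eval x (c j k) * x (e k).1 =
            -aeval (fun i => if r (D i) = w + 1 then 0 else x i) (F j.1) := by
          rw [← h3]
          exact Finset.sum_congr rfl fun k _ => by rw [hc]
        rw [h4, mul_neg, neg_neg]
      have hadjx : ∀ j, eval x (c.adjugate k j) = ((eval x).mapMatrix c).adjugate k j := by
        intro j
        rw [← RingHom.map_adjugate, RingHom.mapMatrix_apply, Matrix.map_apply]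
      have h6 := sum_adj' ((eval x).mapMatrix c) (fun l => x (e l).1) (u ^ (w + 1).toNat) k
      rw [← hΔx] at h6
      have h7 : ∑ j, eval x (c.adjugate k j) * eval x (aeval ψ (F j.1)) =
          -(u ^ (w + 1).toNat * (eval x Δ * x (e k).1)) := by
        rw [← h6]
        refine Finset.sum_congr rfl fun j _ => ?_
        rw [hF, hadjx]
        simp only [RingHom.mapMatrix_apply, Matrix.map_apply]
      rw [h7, mul_neg, neg_neg, mul_pow]
      have h5 : (w + 1).toNat = w.toNat + 1 := by omega
      rw [h5, pow_succ (eval x Δ)]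
      generalize eval x Δ = a
      ring
    · rw [hψ2 i h, map_mul, map_pow, hux i (by omega), mul_pow]
      ring

end step

end PsiAux

namespace PsiAux

section base

variable [Fintype I] [Fintype J]

lemma exists_one (hm : PreModel D θ β F X) {r : M →+ ℤ} (hD : ∀ i, 0 ≤ r (D i)) (h0 : r ≠ 0)
    (hrow : ∀ x ∈ X, ∀ w : ℤ, 0 < w →
      LinearIndependent ℂ (fun (j : {j // r (β j) = w}) (i : {i // r (D i) = w}) =>
      eval x (pderiv i.1 (F j.1))))
    (h2 : ∀ w : ℤ, 1 < w → Nat.card {i // r (D i) = w} = Nat.card {j // r (β j) = w})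
    {x : I → ℂ} (hx : x ∈ X) : ∃ i, r (D i) = 1 ∧ x i ≠ 0 := by
  classical
  by_contra hcon
  push Not at hcon
  apply h0
  have key : ∀ n : ℕ, 1 ≤ n → ∀ i, r (D i) = n → x i = 0 := by
    intro n
    induction n using Nat.strong_induction_on with
    | _ n ih =>
      intro hn i hi
      rcases Nat.eq_or_lt_of_le hn with h | h
      · subst h
        exact hcon i hi
      · have hcard := h2 n (by exact_mod_cast h)
        obtain ⟨e⟩ : Nonempty ({j // r (β j) = n} ≃ {i // r (D i) = n}) :=
          Finite.card_eq.mp hcard.symm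
        obtain ⟨A, hA⟩ : ∃ A : Matrix {j // r (β j) = (n : ℤ)} {j // r (β j) = (n : ℤ)} ℂ,
            ∀ j k, A j k = eval x (pderiv (e k).1 (F j.1)) := ⟨fun _ _ => _, fun _ _ => rfl⟩
        have hli : LinearIndependent ℂ (fun (j k : {j // r (β j) = (n : ℤ)}) => A j k) := by
          have h3 := li_reindex e (hrow x hx n (by exact_mod_cast (by omega : 0 < n)))
          have h4 : (fun (j k : {j // r (β j) = (n : ℤ)}) => A j k) =
              fun j k => eval x (pderiv (e k).1 (F j.1)) := by
            funext j k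
            exact hA j k
          rw [h4]
          exact h3
        have hdet : A.det ≠ 0 := det_ne_zero hli
        obtain ⟨v, hv⟩ : ∃ v : {j // r (β j) = (n : ℤ)} → ℂ, ∀ k, v k = x (e k).1 :=
          ⟨fun _ => _, fun _ => rfl⟩
        have hv0 : A.mulVec v = 0 := by
          funext j
          have h3 := eqn_point hD (hm.hom j.1) j.2 (by exact_mod_cast (by omega : 0 < n))
            (hm.zero x hx j.1)
          rw [vanish hD (hm.hom j.1) (by rw [j.2]; exact_mod_cast (by omega : 0 < n)), neg_zero,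
            ← Equiv.sum_comp e] at h3
          · rw [Pi.zero_apply, Matrix.mulVec, dotProduct, ← h3]
            exact Finset.sum_congr rfl fun k _ => by rw [hA, hv]
          · intro i hi1 hi2
            rw [j.2] at hi2
            by_cases h : r (D i) = n
            · rw [if_pos h]
            · rw [if_neg h]
              refine ih (r (D i)).toNat (by omega) (by omega) i ?_
              rw [Int.toNat_of_nonneg (hD i)]
        have hvz : v = 0 := Matrix.eq_zero_of_mulVec_eq_zero hdet hv0
        have h4 := hv (e.symm ⟨i, hi⟩)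
        rw [hvz, Pi.zero_apply, Equiv.apply_symm_apply] at h4
        exact h4.symm
  refine hm.eq_zero hx fun i hi => ?_
  by_contra hne
  refine hi (key (r (D i)).toNat ?_ i (by rw [Int.toNat_of_nonneg (hD i)]))
  have := hD i
  omega

lemma base (hm : PreModel D θ β F X) {r : M →+ ℤ} (hD : ∀ i, 0 ≤ r (D i)) (h0 : r ≠ 0)
    (hrow : ∀ x ∈ X, ∀ w : ℤ, 0 < w →
      LinearIndependent ℂ (fun (j : {j // r (β j) = w}) (i : {i // r (D i) = w}) =>
      eval x (pderiv i.1 (F j.1))))
    (h1 : Nat.card {i // r (D i) = 1} = Nat.card {j // r (β j) = 1} + 1)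
    (h2 : ∀ w : ℤ, 1 < w → Nat.card {i // r (D i) = w} = Nat.card {j // r (β j) = w}) :
    ∃ ψ, Sol D β F X r 1 (del D β r 1) ψ := by
  classical
  obtain ⟨e⟩ : Nonempty (Option {j // r (β j) = 1} ≃ {i // r (D i) = 1}) := by
    rw [← Finite.card_eq, Finite.card_option, h1]
  obtain ⟨c, hc, hc0⟩ : ∃ c : Matrix (Option {j // r (β j) = 1}) (Option {j // r (β j) = 1})
    (MvPolynomial I ℂ), (∀ j k, c (some j) k = pderiv (e k).1 (F j.1)) ∧ ∀ k, c none k = 0 :=
    ⟨fun o k => match o with
      | some j => pderiv (e k).1 (F j.1)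
      | none => 0, fun j k => rfl, fun k => rfl⟩
  obtain ⟨b, hb, hb0⟩ : ∃ b : Option {j // r (β j) = 1} → M, (∀ j, b (some j) = β j.1) ∧
    b none = 0 := ⟨fun o => match o with
      | some j => β j.1
      | none => 0, fun j => rfl, rfl⟩
  have hch : ∀ j k, IsWeightedHomogeneous D (c j k) (b j - D (e k).1) := fun j k => by
    rcases j with _ | j
    · rw [hc0]
      exact isWeightedHomogeneous_zero ℂ D _
    · rw [hc, hb]
      exact (hm.hom j.1).pderiv (by rw [sub_add_cancel])
  have hδ : ∑ j, b j - ∑ k, D (e k).1 = del D β r 1 := by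
    unfold del
    rw [Equiv.sum_comp e (fun i => D i.1), Fintype.sum_option, hb0, zero_add]
    simp only [hb]
  have hadj : ∀ k, IsWeightedHomogeneous D (c.adjugate k none) (D (e k).1 + del D β r 1) := by
    intro k
    have h3 := adj_hom hch k none
    rw [hδ, hb0, zero_sub, sub_neg_eq_add, add_comm] at h3
    exact h3
  obtain ⟨ψ, hψ1, hψ0, hψ2⟩ : ∃ ψ : I → MvPolynomial I ℂ,
      (∀ k, ψ (e k).1 = c.adjugate k none) ∧ (∀ i, r (D i) = 0 → ψ i = MvPolynomial.X i) ∧
      (∀ i, 1 < r (D i) → ψ i = 0) := by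
    refine ⟨fun i => if h : r (D i) = 1 then c.adjugate (e.symm ⟨i, h⟩) none
      else if r (D i) = 0 then MvPolynomial.X i else 0, fun k => ?_, fun i hi => ?_,
      fun i hi => ?_⟩
    · simp only
      rw [dif_pos (e k).2]
      have : e.symm ⟨(e k).1, (e k).2⟩ = k := by simp
      rw [this]
    · simp only
      rw [dif_neg (by omega), if_pos hi]
    · simp only
      rw [dif_neg (by omega), if_neg (by omega)]
  have hcases : ∀ i, r (D i) = 0 ∨ (∃ k, (e k).1 = i) ∨ 1 < r (D i) := by
    intro i
    by_cases h : r (D i) = 1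
    · exact Or.inr (Or.inl ⟨e.symm ⟨i, h⟩, by simp⟩)
    · have := hD i
      omega
  refine ⟨ψ, ⟨fun i => ?_, hψ2, hψ0, fun j hj1 hj2 => ?_, fun x hx => ?_⟩⟩
  · rcases hcases i with h | ⟨k, rfl⟩ | h
    · rw [hψ0 i h, h, zero_smul, add_zero]
      exact isWeightedHomogeneous_X ℂ D i
    · rw [hψ1, (e k).2, one_smul]
      exact hadj k
    · rw [hψ2 i h]
      exact isWeightedHomogeneous_zero ℂ D _
  · have hj : r (β j) = 1 := by omega
    have hder : ∀ k, aeval ψ (pderiv (e k).1 (F j)) = pderiv (e k).1 (F j) := by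
      intro k
      have h3 : IsWeightedHomogeneous D (pderiv (e k).1 (F j)) (β j - D (e k).1) :=
        (hm.hom j).pderiv (by rw [sub_add_cancel])
      have h4 : aeval ψ (pderiv (e k).1 (F j)) =
          aeval (MvPolynomial.X : I → MvPolynomial I ℂ) (pderiv (e k).1 (F j)) := by
        refine congr_le hD h3 fun i hi => hψ0 i ?_
        rw [map_sub, hj, (e k).2, sub_self] at hi
        exact le_antisymm hi (hD i)
      rw [h4, aeval_X_left_apply]
    rw [affine hD (hm.hom j) hj one_pos ψ, vanish hD (hm.hom j) (by omega), add_zero]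
    · rw [← Equiv.sum_comp e]
      have h3 : ∑ k, aeval ψ (pderiv (e k).1 (F j)) * ψ (e k).1 =
          ∑ k, c (some ⟨j, hj⟩) k * c.adjugate k none :=
        Finset.sum_congr rfl fun k _ => by rw [hder, hψ1, hc]
      rw [h3]
      have h4 := congrFun (congrFun (Matrix.mul_adjugate c) (some ⟨j, hj⟩)) none
      rw [Matrix.mul_apply, Matrix.smul_apply, Matrix.one_apply, if_neg (by simp),
        smul_zero] at h4
      exact h4
    · intro i hi1 hi2
      rw [if_pos (by omega)]
  · obtain ⟨i₀, hi₀, hxi₀⟩ := exists_one hm hD h0 hrow h2 hx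
    obtain ⟨u, hu, hux⟩ := adj_kernel (A := (eval x).mapMatrix c) (v := fun k => x (e k).1) (by
        have h3 := li_reindex e (hrow x hx 1 one_pos)
        have h4 : (fun (j : {j // r (β j) = 1}) (k : Option {j // r (β j) = 1}) =>
            (eval x).mapMatrix c (some j) k) = fun j k => eval x (pderiv (e k).1 (F j.1)) := by
          funext j k
          rw [RingHom.mapMatrix_apply, Matrix.map_apply, hc]
        rw [h4]
        exact h3)
      ⟨e.symm ⟨i₀, hi₀⟩, by simpa using hxi₀⟩ (by
        intro j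
        have h3 := eqn_point hD (hm.hom j.1) j.2 one_pos (hm.zero x hx j.1)
        rw [vanish hD (hm.hom j.1) (by rw [j.2]; exact one_pos), neg_zero,
          ← Equiv.sum_comp e] at h3
        · rw [← h3]
          exact Finset.sum_congr rfl fun k _ => by
            rw [RingHom.mapMatrix_apply, Matrix.map_apply, hc]
        · intro i hi1 hi2
          rw [j.2] at hi2
          rw [if_pos (by omega)])
    refine ⟨u, hu, fun i hi => ?_⟩
    rcases hcases i with h | ⟨k, rfl⟩ | h
    · rw [hψ0 i h, eval_X, h, Int.toNat_zero, pow_zero, one_mul]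
    · rw [hψ1, (e k).2, Int.toNat_one, pow_one]
      rw [← hux k, ← RingHom.map_adjugate, RingHom.mapMatrix_apply, Matrix.map_apply]
    · omega

end base

end PsiAux

open PsiAux in
/-- S15 -/
theorem exists_psi [Fintype I] [Fintype J] (hm : PreModel D θ β F X) {r : M →+ ℤ}
    (hD : ∀ i, 0 ≤ r (D i)) (hβ : ∀ j, 0 ≤ r (β j)) (h0 : r ≠ 0)
    (hrow : ∀ x ∈ X, ∀ w : ℤ, 0 < w →
      LinearIndependent ℂ (fun (j : {j // r (β j) = w}) (i : {i // r (D i) = w}) =>
      eval x (pderiv i.1 (F j.1))))
    (h1 : Nat.card {i // r (D i) = 1} = Nat.card {j // r (β j) = 1} + 1)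
    (h2 : ∀ w : ℤ, 1 < w → Nat.card {i // r (D i) = w} = Nat.card {j // r (β j) = w}) :
    ∃ ψ : I → MvPolynomial I ℂ,
      (∀ i, IsWeightedHomogeneous D (ψ i) (D i + r (D i) •
        (∑ j, (if 0 < r (β j) then β j else 0) - ∑ i, (if 0 < r (D i) then D i else 0)))) ∧
      (∀ i, r (D i) = 0 → ψ i = MvPolynomial.X i) ∧
      (∀ j, 0 < r (β j) → aeval ψ (F j) = 0) ∧
      (∀ x ∈ X, ∃ u : ℂ, u ≠ 0 ∧ ∀ i, eval x (ψ i) = u ^ (r (D i)).toNat * x i) ∧
      (∀ x ∈ X, ∃ i, r (D i) = 1 ∧ x i ≠ 0) := by
  have key : ∀ n : ℕ, ∃ ψ, Sol D β F X r ((n : ℤ) + 1) (kap D β r ((n : ℤ) + 1)) ψ := by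
    intro n
    induction n with
    | zero =>
      obtain ⟨ψ, hψ⟩ := base hm hD h0 hrow h1 h2
      refine ⟨ψ, ?_⟩
      have h3 := kap_succ D β r (le_refl (0 : ℤ))
      rw [kap_zero, zero_add, zero_add] at h3
      rw [Nat.cast_zero, zero_add, h3]
      exact hψ
    | succ n ih =>
      obtain ⟨ψ, hψ⟩ := ih
      obtain ⟨ψ', hψ'⟩ := step hm hD (by omega) hψ (h2 _ (by omega))
        (fun x hx => hrow x hx _ (by omega))
      refine ⟨ψ', ?_⟩
      rw [← kap_succ D β r (by omega)] at hψ'
      rw [Nat.cast_succ]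
      exact hψ'
  set N : ℕ := ∑ i, (r (D i)).toNat + ∑ j, (r (β j)).toNat with hN
  have hDN : ∀ i, r (D i) ≤ (N : ℤ) + 1 := by
    intro i
    have h3 : (r (D i)).toNat ≤ ∑ i, (r (D i)).toNat :=
      Finset.single_le_sum (f := fun i => (r (D i)).toNat) (fun _ _ => Nat.zero_le _)
        (Finset.mem_univ i)
    omega
  have hβN : ∀ j, r (β j) ≤ (N : ℤ) + 1 := by
    intro j
    have h3 : (r (β j)).toNat ≤ ∑ j, (r (β j)).toNat :=
      Finset.single_le_sum (f := fun j => (r (β j)).toNat) (fun _ _ => Nat.zero_le _)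
        (Finset.mem_univ j)
    omega
  have hkap : kap D β r ((N : ℤ) + 1) =
      ∑ j, (if 0 < r (β j) then β j else 0) - ∑ i, (if 0 < r (D i) then D i else 0) := by
    unfold kap
    have e1 : ∑ j, (if 0 < r (β j) ∧ r (β j) ≤ (N : ℤ) + 1 then β j else 0) =
        ∑ j, (if 0 < r (β j) then β j else 0) := by
      refine Finset.sum_congr rfl fun j _ => ?_
      simp only [hβN j, and_true]
    have e2 : ∑ i, (if 0 < r (D i) ∧ r (D i) ≤ (N : ℤ) + 1 then D i else 0) =
        ∑ i, (if 0 < r (D i) then D i else 0) := by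
      refine Finset.sum_congr rfl fun i _ => ?_
      simp only [hDN i, and_true]
    rw [e1, e2]
  obtain ⟨ψ, hψ⟩ := key N
  rw [hkap] at hψ
  refine ⟨ψ, hψ.hom, hψ.zero, fun j hj => hψ.eqn j hj (hβN j), fun x hx => ?_,
    fun x hx => exists_one hm hD h0 hrow h2 hx⟩
  obtain ⟨u, hu, hux⟩ := hψ.pt x hx
  exact ⟨u, hu, fun i => hux i (hDN i)⟩

end Pool.Agent.H6.Ab
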