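import Pool.Agent.H6.Ab.ExistsCurve

/-!
# Independence of the rows of linear coefficients; the numerical lemma

`rows_indep` (S13) and `numerics` (S14).
-/

set_option autoImplicit false

namespace Pool.Agent.H6.Ab

open MvPolynomial

section RowsAux

variable {I : Type} [Fintype I]

/-- Degree bound for a monomial along a curve. -/
lemma natDegree_aeval_monomial_le (γ : I → Polynomial ℂ) (δ : I → ℕ)
    (hγ : ∀ i, (γ i).natDegree ≤ δ i) (e : I →₀ ℕ) (c : ℂ) :
    (aeval γ (monomial e c)).natDegree ≤ ∑ i, e i * δ i := by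
  rw [aeval_monomial, Finsupp.prod_fintype _ _ (fun i => pow_zero _)]
  refine (Polynomial.natDegree_C_mul_le _ _).trans ?_
  refine (Polynomial.natDegree_prod_le _ _).trans (Finset.sum_le_sum fun i _ => ?_)
  exact (Polynomial.natDegree_pow_le).trans (Nat.mul_le_mul_left _ (hγ i))

lemma weight_nat (a : I → ℕ) (e : I →₀ ℕ) : Finsupp.weight a e = ∑ i, e i * a i := by
  rw [Finsupp.weight_apply, Finsupp.sum_fintype _ _ (fun i => zero_smul ℕ (a i))]
  rfl

/-- The homogeneity with respect to the integer weights given by `r`. -/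
lemma isWeightedHomogeneous_toNat {M : Type} [AddCommGroup M] {D : I → M} {r : M →+ ℤ}
    (hD : ∀ i, 0 ≤ r (D i)) {G : MvPolynomial I ℂ} {b : M} (hG : IsWeightedHomogeneous D G b) :
    IsWeightedHomogeneous (fun i => (r (D i)).toNat) G (r b).toNat := by
  intro e he
  have h1 : r (Finsupp.weight D e) = r b := by rw [hG he]
  rw [map_weight, Finsupp.sum_fintype _ _ (fun i => by simp)] at h1
  rw [weight_nat, ← h1]
  have h2 : (∑ i, (e i : ℤ) * r (D i)) = ((∑ i, e i * (r (D i)).toNat : ℕ) : ℤ) := by
    push_cast
    refine Finset.sum_congr rfl fun i _ => ?_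
    rw [Int.toNat_of_nonneg (hD i)]
  rw [h2, Int.toNat_natCast]

/-- The linear part of `G` in the variables of weight `n`, along the curve `γ`. -/
noncomputable def lin (a : I → ℕ) (n : ℕ) (x : I → ℂ) (γ : I → Polynomial ℂ)
    (G : MvPolynomial I ℂ) : Polynomial ℂ :=
  ∑ i, if a i = n then Polynomial.C (eval x (pderiv i G)) * γ i else 0

lemma lin_zero (a : I → ℕ) (n : ℕ) (x : I → ℂ) (γ : I → Polynomial ℂ) :
    lin a n x γ 0 = 0 := by
  unfold lin
  refine Finset.sum_eq_zero fun i _ => ?_
  split_ifs <;> simp

lemma lin_add (a : I → ℕ) (n : ℕ) (x : I → ℂ) (γ : I → Polynomial ℂ) (G H : MvPolynomial I ℂ) :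
    lin a n x γ (G + H) = lin a n x γ G + lin a n x γ H := by
  unfold lin
  rw [← Finset.sum_add_distrib]
  refine Finset.sum_congr rfl fun i _ => ?_
  split_ifs
  · rw [map_add, map_add, Polynomial.C_add, add_mul]
  · rw [add_zero]

/-- The structure of the monomials: either linear in the variables of positive weight, or at
least quadratic. -/
lemma lin_monomial (a : I → ℕ) {n : ℕ} (hn : 0 < n) (x : I → ℂ) (γ : I → Polynomial ℂ)
    (hx : ∀ i, a i = 0 → γ i = Polynomial.C (x i)) (e : I →₀ ℕ) (c : ℂ)
    (he : ∑ i, e i * a i = n) :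
    aeval γ (monomial e c) = lin a n x γ (monomial e c) ∨
    (2 ≤ ∑ i, (if a i = 0 then 0 else e i) ∧ lin a n x γ (monomial e c) = 0) := by
  classical
  obtain ⟨i₀, -, hi₀⟩ : ∃ i ∈ Finset.univ, e i * a i ≠ 0 := by
    apply Finset.exists_ne_zero_of_sum_ne_zero
    omega
  have he0 : e i₀ ≠ 0 := left_ne_zero_of_mul hi₀
  have ha0 : a i₀ ≠ 0 := right_ne_zero_of_mul hi₀
  by_cases h : e i₀ = 1 ∧ ∀ k, k ≠ i₀ → a k ≠ 0 → e k = 0
  · left
    obtain ⟨h1, h2⟩ := h
    have hn0 : a i₀ = n := by
      rw [← he, Finset.sum_eq_single i₀]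
      · rw [h1, one_mul]
      · intro k _ hk
        by_cases hak : a k = 0
        · rw [hak, mul_zero]
        · rw [h2 k hk hak, zero_mul]
      · intro h; exact absurd (Finset.mem_univ _) h
    set e' : I →₀ ℕ := e - Finsupp.single i₀ 1 with he'
    unfold lin
    rw [Finset.sum_eq_single i₀]
    · rw [if_pos hn0, aeval_monomial, Finsupp.prod_fintype _ _ (fun i => pow_zero _),
        pderiv_monomial, ← he', eval_monomial, Finsupp.prod_fintype _ _ (fun i => pow_zero _),
        ← Finset.mul_prod_erase _ _ (Finset.mem_univ i₀),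
        ← Finset.mul_prod_erase _ (fun i => x i ^ e' i) (Finset.mem_univ i₀)]
      have h3 : ∏ i ∈ Finset.univ.erase i₀, γ i ^ e i =
          Polynomial.C (∏ i ∈ Finset.univ.erase i₀, x i ^ e' i) := by
        rw [map_prod]
        refine Finset.prod_congr rfl fun i hi => ?_
        have hne : i ≠ i₀ := Finset.ne_of_mem_erase hi
        have h4 : e' i = e i := by
          rw [he', Finsupp.tsub_apply, Finsupp.single_eq_of_ne hne, Nat.sub_zero]
        rw [h4]
        by_cases hai : a i = 0
        · rw [hx i hai, Polynomial.C_pow]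
        · rw [h2 i hne hai, pow_zero, pow_zero, Polynomial.C_1]
      have h5 : e' i₀ = 0 := by
        rw [he', Finsupp.tsub_apply, Finsupp.single_eq_same, h1]
      rw [h3, h5, h1, Nat.cast_one, pow_zero, pow_one, one_mul, mul_one, Polynomial.C_mul]
      change Polynomial.C c * _ = _
      ring
    · intro k _ hk
      by_cases hak : a k = n
      · rw [if_pos hak, pderiv_monomial, h2 k hk (by omega), Nat.cast_zero, mul_zero,
          monomial_zero, map_zero, Polynomial.C_0, zero_mul]
      · rw [if_neg hak]
    · intro h; exact absurd (Finset.mem_univ _) h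
  · right
    have hq : 2 ≤ ∑ i, (if a i = 0 then 0 else e i) := by
      rw [← Finset.add_sum_erase _ _ (Finset.mem_univ i₀), if_neg ha0]
      by_cases h1 : e i₀ = 1
      · have h2 : ∃ k, k ≠ i₀ ∧ a k ≠ 0 ∧ e k ≠ 0 := by
          by_contra hcon
          push Not at hcon
          exact h ⟨h1, hcon⟩
        obtain ⟨k, hk, hak, hek⟩ := h2
        have h3 := Finset.single_le_sum (f := fun i => if a i = 0 then 0 else e i)
          (fun i _ => Nat.zero_le _) (Finset.mem_erase.mpr ⟨hk, Finset.mem_univ k⟩)
        simp only [if_neg hak] at h3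
        omega
      · omega
    refine ⟨hq, ?_⟩
    unfold lin
    refine Finset.sum_eq_zero fun i _ => ?_
    by_cases hai : a i = n
    · rw [if_pos hai]
      have hei : e i = 0 := by
        by_contra hei
        have h1 : ∑ k, (if a k = 0 then 0 else e k) + (e i * n - e i) ≤ ∑ k, e k * a k := by
          rw [← Finset.add_sum_erase _ _ (Finset.mem_univ i),
            ← Finset.add_sum_erase _ (fun k => e k * a k) (Finset.mem_univ i)]
          have h2 : ∑ k ∈ Finset.univ.erase i, (if a k = 0 then 0 else e k) ≤
              ∑ k ∈ Finset.univ.erase i, e k * a k := by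
            refine Finset.sum_le_sum fun k _ => ?_
            split_ifs with h
            · exact Nat.zero_le _
            · exact Nat.le_mul_of_pos_right _ (Nat.pos_of_ne_zero h)
          have h3 : e i ≤ e i * n := Nat.le_mul_of_pos_right _ hn
          have h4 : a i ≠ 0 := by omega
          rw [if_neg h4, hai]
          omega
        have h5 : e i * n - e i = e i * (n - 1) := by
          rw [Nat.mul_sub, mul_one]
        have h6 : n - 1 ≤ e i * (n - 1) := Nat.le_mul_of_pos_left _ (Nat.pos_of_ne_zero hei)
        omega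
      rw [pderiv_monomial, hei, Nat.cast_zero, mul_zero, monomial_zero, map_zero,
        Polynomial.C_0, zero_mul]
    · rw [if_neg hai]

/-- The sum of the exponents of positive weight is at most the weight. -/
lemma sum_pos_exp_le (a : I → ℕ) (e : I →₀ ℕ) :
    ∑ i, (if a i = 0 then 0 else e i) ≤ ∑ i, e i * a i := by
  refine Finset.sum_le_sum fun k _ => ?_
  split_ifs with h
  · exact Nat.zero_le _
  · exact Nat.le_mul_of_pos_right _ (Nat.pos_of_ne_zero h)

lemma sum_exp_sub (a : I → ℕ) (e : I →₀ ℕ) :
    ∑ i, e i * (a i - 1) + ∑ i, (if a i = 0 then 0 else e i) = ∑ i, e i * a i := by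
  rw [← Finset.sum_add_distrib]
  refine Finset.sum_congr rfl fun k _ => ?_
  split_ifs with h
  · rw [h, Nat.zero_sub, add_zero]
  · obtain ⟨m, hm⟩ := Nat.exists_eq_succ_of_ne_zero h
    rw [hm, Nat.succ_sub_one, Nat.mul_succ]

/-- degree bound, weights `a` -/
lemma natDegree_le_of_weight (a : I → ℕ) {G : MvPolynomial I ℂ} {n : ℕ}
    (hG : IsWeightedHomogeneous a G n) (γ : I → Polynomial ℂ)
    (hγ : ∀ i, (γ i).natDegree ≤ a i) : (aeval γ G).natDegree ≤ n := by
  induction hG using IsWeightedHomogeneous.induction_on with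
  | zero => simp
  | add p q hp hq h1 h2 =>
    rw [map_add]
    exact Polynomial.natDegree_add_le_of_degree_le h1 h2
  | monomial e c he =>
    rw [weight_nat] at he
    rw [← he]
    exact natDegree_aeval_monomial_le γ a hγ e c

/-- degree bound, weights `a - 1` -/
lemma natDegree_le_of_weight_sub (a : I → ℕ) {G : MvPolynomial I ℂ} {n : ℕ}
    (hG : IsWeightedHomogeneous a G n) (γ : I → Polynomial ℂ)
    (hγ : ∀ i, (γ i).natDegree ≤ a i - 1) : (aeval γ G).natDegree ≤ n - 1 := by
  induction hG using IsWeightedHomogeneous.induction_on with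
  | zero => simp
  | add p q hp hq h1 h2 =>
    rw [map_add]
    exact Polynomial.natDegree_add_le_of_degree_le h1 h2
  | monomial e c he =>
    rw [weight_nat] at he
    refine (natDegree_aeval_monomial_le γ (fun i => a i - 1) hγ e c).trans ?_
    have h1 := sum_exp_sub a e
    rcases Nat.eq_zero_or_pos n with h0 | h0
    · omega
    · have h2 : 1 ≤ ∑ i, (if a i = 0 then 0 else e i) := by
        obtain ⟨i₀, -, hi₀⟩ : ∃ i ∈ Finset.univ, e i * a i ≠ 0 := by
          apply Finset.exists_ne_zero_of_sum_ne_zero
          omega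
        have h3 := Finset.single_le_sum (f := fun i => if a i = 0 then 0 else e i)
          (fun i _ => Nat.zero_le _) (Finset.mem_univ i₀)
        simp only [if_neg (right_ne_zero_of_mul hi₀)] at h3
        have := left_ne_zero_of_mul hi₀
        omega
      omega

/-- in weight one, only the linear part occurs -/
lemma aeval_eq_lin (a : I → ℕ) {G : MvPolynomial I ℂ}
    (hG : IsWeightedHomogeneous a G 1) (x : I → ℂ) (γ : I → Polynomial ℂ)
    (hx : ∀ i, a i = 0 → γ i = Polynomial.C (x i)) : aeval γ G = lin a 1 x γ G := by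
  induction hG using IsWeightedHomogeneous.induction_on with
  | zero => rw [map_zero, lin_zero]
  | add p q hp hq h1 h2 => rw [map_add, lin_add, h1, h2]
  | monomial e c he =>
    rw [weight_nat] at he
    rcases lin_monomial a one_pos x γ hx e c he with h | ⟨h, -⟩
    · exact h
    · have := sum_pos_exp_le a e
      omega

/-- degree bound for the nonlinear part -/
lemma natDegree_sub_lin_le (a : I → ℕ) {G : MvPolynomial I ℂ} {n : ℕ} (hn : 0 < n)
    (hG : IsWeightedHomogeneous a G n) (x : I → ℂ) (γ : I → Polynomial ℂ)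
    (hγ : ∀ i, (γ i).natDegree ≤ a i - 1)
    (hx : ∀ i, a i = 0 → γ i = Polynomial.C (x i)) :
    (aeval γ G - lin a n x γ G).natDegree ≤ n - 2 := by
  induction hG using IsWeightedHomogeneous.induction_on with
  | zero => rw [map_zero, lin_zero]; simp
  | add p q hp hq h1 h2 =>
    rw [map_add, lin_add, add_sub_add_comm]
    exact Polynomial.natDegree_add_le_of_degree_le h1 h2
  | monomial e c he =>
    rw [weight_nat] at he
    rcases lin_monomial a hn x γ hx e c he with h | ⟨h, h'⟩
    · rw [h, sub_self]; simp
    · rw [h', sub_zero]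
      refine (natDegree_aeval_monomial_le γ (fun i => a i - 1) hγ e c).trans ?_
      have h1 := sum_exp_sub a e
      omega

end RowsAux

/-- Counting: subtracting one from the positive terms of a sum. -/
lemma sum_sub_one {I : Type} [Fintype I] (a : I → ℕ) :
    ∑ i, (a i - 1) + Nat.card {i // 0 < a i} = ∑ i, a i := by
  classical
  rw [Nat.card_eq_fintype_card, Fintype.card_subtype, Finset.card_filter,
    ← Finset.sum_add_distrib]
  refine Finset.sum_congr rfl fun i _ => ?_
  split_ifs with h <;> omega

variable {I J M : Type} [AddCommGroup M] {D : I → M} {θ : M}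
  {β : J → M} {F : J → MvPolynomial I ℂ} {X : Set (I → ℂ)}

lemma hasClass_of_natDegree {r : M →+ ℤ} (hD : ∀ i, 0 ≤ r (D i)) {γ : I → Polynomial ℂ}
    (hγ : ∀ i, (γ i).natDegree ≤ (r (D i)).toNat) : HasClass D r γ := by
  intro i k hk
  unfold zc
  split_ifs with h
  · apply Polynomial.coeff_eq_zero_of_natDegree_lt
    have := hγ i
    have := hD i
    omega
  · rfl

/-- S13 -/
theorem rows_indep [Fintype I] [Fintype J] (hm : PreModel D θ β F X) {r : M →+ ℤ} {x : I → ℂ}
    (hx : x ∈ X) (hD : ∀ i, 0 ≤ r (D i)) (hβ : ∀ j, 0 ≤ r (β j)) (h0 : r ≠ 0)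
    (htriv : ∀ γ : I → Polynomial ℂ, HasClass D r γ → (∀ j, aeval γ (F j) = 0) → evl γ 0 = x →
      ∃ c : ℂ, ∀ i, γ i = Polynomial.C (x i) *
        (1 + Polynomial.C c * Polynomial.X) ^ (r (D i)).toNat)
    (hsum : ∑ i, (r (D i)).toNat = ∑ j, (r (β j)).toNat + 1)
    (hcard : Nat.card {i // 0 < r (D i)} ≤ Nat.card {j // 0 < r (β j)} + 1) (w : ℤ) (hw : 0 < w) :
    LinearIndependent ℂ (fun (j : {j // r (β j) = w}) (i : {i // r (D i) = w}) =>
      eval x (pderiv i.1 (F j.1))) := by
  classical
  by_contra hli
  rw [Fintype.not_linearIndependent_iff] at hli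
  obtain ⟨g, hg, ⟨j₀, hw₀⟩, hgj⟩ := hli
  set a : I → ℕ := fun i => (r (D i)).toNat with ha
  set b : J → ℕ := fun j => (r (β j)).toNat with hb
  set n : ℕ := w.toNat with hn
  have hsum' : ∑ i, a i = ∑ j, b j + 1 := hsum
  have hn0 : 0 < n := by omega
  have hhom : ∀ j, IsWeightedHomogeneous a (F j) (b j) := fun j =>
    isWeightedHomogeneous_toNat hD (hm.hom j)
  -- the relation
  set v : J → ℂ := fun j => if h : r (β j) = w then g ⟨j, h⟩ else 0 with hv
  have hvj₀ : v j₀ ≠ 0 := by
    rw [hv]
    simp only [dif_pos hw₀]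
    exact hgj
  have hv0 : ∀ j, b j ≠ n → v j = 0 := by
    intro j hj
    rw [hv]
    simp only
    rw [dif_neg]
    intro h
    apply hj
    rw [hb, hn]
    simp only [h]
  have hrel : ∀ i, a i = n → ∑ j, v j * eval x (pderiv i (F j)) = 0 := by
    intro i hi
    have hi' : r (D i) = w := by
      have := hD i
      have h1 : (r (D i)).toNat = w.toNat := hi
      omega
    have h1 := congrFun hg ⟨i, hi'⟩
    rw [Finset.sum_apply] at h1
    have h2 : ∑ j : {j // r (β j) = w}, g j * eval x (pderiv i (F j.1)) = 0 := by
      simpa using h1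
    have h3 : ∑ j, v j * eval x (pderiv i (F j)) =
        ∑ j : {j // r (β j) = w}, v j.1 * eval x (pderiv i (F j.1)) := by
      rw [← Finset.sum_subtype (Finset.univ.filter (fun j => r (β j) = w)) (by simp)
        (fun j => v j * eval x (pderiv i (F j)))]
      refine (Finset.sum_filter_of_ne fun j _ hj => ?_).symm
      by_contra hcon
      apply hj
      rw [hv]
      simp only
      rw [dif_neg hcon, zero_mul]
    rw [h3, ← h2]
    refine Finset.sum_congr rfl fun j _ => ?_
    rw [hv]
    simp only [dif_pos j.2]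
  -- the combination of the equations
  set Fv : MvPolynomial I ℂ := ∑ j, MvPolynomial.C (v j) * F j with hFv
  have hFvγ : ∀ γ : I → Polynomial ℂ, aeval γ Fv =
      ∑ j, Polynomial.C (v j) * (aeval γ (F j) - lin a n x γ (F j)) := by
    intro γ
    have h1 : ∑ j, Polynomial.C (v j) * lin a n x γ (F j) = 0 := by
      unfold lin
      simp only [Finset.mul_sum]
      rw [Finset.sum_comm]
      refine Finset.sum_eq_zero fun i _ => ?_
      by_cases hai : a i = n
      · simp only [if_pos hai]
        have h2 : ∑ j, Polynomial.C (v j) * (Polynomial.C (eval x (pderiv i (F j))) * γ i) =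
            Polynomial.C (∑ j, v j * eval x (pderiv i (F j))) * γ i := by
          rw [map_sum, Finset.sum_mul]
          refine Finset.sum_congr rfl fun j _ => ?_
          rw [Polynomial.C_mul, mul_assoc]
        rw [h2, hrel i hai, Polynomial.C_0, zero_mul]
      · simp only [if_neg hai, mul_zero, Finset.sum_const_zero]
    simp only [mul_sub, Finset.sum_sub_distrib]
    rw [h1, sub_zero, hFv, map_sum]
    refine Finset.sum_congr rfl fun j _ => ?_
    rw [map_mul, aeval_C]
    rfl
  -- back from the combination to the equations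
  have hback : ∀ γ : I → Polynomial ℂ, aeval γ Fv = 0 → (∀ j, j ≠ j₀ → aeval γ (F j) = 0) →
      ∀ j, aeval γ (F j) = 0 := by
    intro γ h1 h2 j
    by_cases hj : j = j₀
    · rw [hFv, map_sum, Finset.sum_eq_single j₀] at h1
      · rw [map_mul, aeval_C, mul_eq_zero] at h1
        rcases h1 with h1 | h1
        · exact absurd h1 (by
            change Polynomial.C (v j₀) ≠ 0
            rwa [Ne, Polynomial.C_eq_zero])
        · rw [hj]; exact h1
      · intro k _ hk
        rw [map_mul, h2 k hk, mul_zero]
      · intro h; exact absurd (Finset.mem_univ _) h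
    · exact h2 j hj
  set P : J → MvPolynomial I ℂ := fun j => if j = j₀ then Fv else F j with hP
  have hPx : ∀ j, eval x (P j) = 0 := by
    intro j
    rw [hP]
    simp only
    split_ifs with h
    · rw [hFv, map_sum]
      refine Finset.sum_eq_zero fun k _ => ?_
      rw [map_mul, hm.zero x hx k, mul_zero]
    · exact hm.zero x hx j
  have hPF : ∀ γ : I → Polynomial ℂ, (∀ j, aeval γ (P j) = 0) → ∀ j, aeval γ (F j) = 0 := by
    intro γ hγ
    apply hback γ
    · have := hγ j₀
      rw [hP] at this
      simpa using this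
    · intro j hj
      have := hγ j
      rw [hP] at this
      simpa [hj] using this
  -- a coordinate of positive weight
  obtain ⟨i₀, hi₀, hri₀⟩ : ∃ i, x i ≠ 0 ∧ r (D i) ≠ 0 := by
    by_contra hcon
    push Not at hcon
    exact h0 (hm.eq_zero hx hcon)
  have hai₀ : 0 < a i₀ := by
    have h1 := hD i₀
    rw [ha]
    simp only
    omega
  have hbj₀ : b j₀ = n := by rw [hb, hn]; simp only [hw₀]
  have hconst : ∀ γ : I → Polynomial ℂ, evl γ 0 = x → ∀ i, (γ i).natDegree ≤ 0 →
      γ i = Polynomial.C (x i) := by
    intro γ hγ i hi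
    rw [Polynomial.eq_C_of_natDegree_le_zero hi, Polynomial.coeff_zero_eq_eval_zero]
    congr 1
    exact congrFun hγ i
  rcases Nat.lt_or_ge 1 n with hn1 | hn1
  · -- weight at least two
    obtain ⟨γ, hγd, hγ0, hγP, i₁, hi₁⟩ := exists_curve' P x (fun i => a i - 1)
      (fun j => if j = j₀ then n - 2 else b j - 1) hPx (by
        intro γ hγ hγ0 j
        by_cases hj : j = j₀
        · simp only [hP, if_pos hj]
          rw [hFvγ]
          refine Polynomial.natDegree_sum_le_of_forall_le _ _ fun k _ => ?_
          by_cases hk : b k = n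
          · refine (Polynomial.natDegree_C_mul_le _ _).trans ?_
            refine natDegree_sub_lin_le a hn0 (hk ▸ hhom k) x γ hγ fun i hi => ?_
            refine hconst γ hγ0 i ((hγ i).trans ?_)
            omega
          · rw [hv0 k hk, Polynomial.C_0, zero_mul]
            simp
        · simp only [hP, if_neg hj]
          exact natDegree_le_of_weight_sub a (hhom j) γ hγ) (by
        have h1 := sum_sub_one a
        have h2 := sum_sub_one b
        have h3 : Nat.card {i // 0 < a i} = Nat.card {i // 0 < r (D i)} := by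
          refine Nat.card_congr (Equiv.subtypeEquivRight fun i => ?_)
          rw [ha]
          simp only
          omega
        have h4 : Nat.card {j // 0 < b j} = Nat.card {j // 0 < r (β j)} := by
          refine Nat.card_congr (Equiv.subtypeEquivRight fun i => ?_)
          rw [hb]
          simp only
          omega
        have h5 : ∑ j, (if j = j₀ then n - 2 else b j - 1) + 1 = ∑ j, (b j - 1) := by
          rw [← Finset.add_sum_erase _ _ (Finset.mem_univ j₀),
            ← Finset.add_sum_erase _ (fun j => b j - 1) (Finset.mem_univ j₀), if_pos rfl]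
          have h6 : ∑ j ∈ Finset.univ.erase j₀, (if j = j₀ then n - 2 else b j - 1) =
              ∑ j ∈ Finset.univ.erase j₀, (b j - 1) := by
            refine Finset.sum_congr rfl fun j hj => ?_
            rw [if_neg (Finset.ne_of_mem_erase hj)]
          rw [h6, hbj₀]
          omega
        omega)
    obtain ⟨c, hc⟩ := htriv γ (hasClass_of_natDegree hD fun i => (hγd i).trans (Nat.sub_le _ _))
      (hPF γ hγP) hγ0
    have hc0 : c = 0 := by
      by_contra hc0
      have h1 : (γ i₀).natDegree = a i₀ := by
        rw [hc i₀, Polynomial.natDegree_C_mul hi₀, Polynomial.natDegree_pow]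
        have h2 : (1 + Polynomial.C c * Polynomial.X : Polynomial ℂ).natDegree = 1 := by
          rw [add_comm, ← Polynomial.C_1]
          exact Polynomial.natDegree_linear hc0
        rw [h2, mul_one]
      have h2 := hγd i₀
      omega
    apply hi₁
    rw [hc i₁, hc0, Polynomial.C_0, zero_mul, add_zero, one_pow, mul_one]
  · -- weight one
    have hn1 : n = 1 := by omega
    obtain ⟨γ, hγd, hγ0, hγP, hγc, i₁, hi₁⟩ := exists_curve P x a
      (fun j => if j = j₀ then 0 else b j) hPx (by
        intro γ hγ hγ0 j
        by_cases hj : j = j₀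
        · simp only [hP, if_pos hj]
          rw [hFvγ, Finset.sum_eq_zero]
          · simp
          · intro k _
            by_cases hk : b k = n
            · have h1 : aeval γ (F k) = lin a 1 x γ (F k) := by
                refine aeval_eq_lin a ?_ x γ fun i hi => ?_
                · have := hhom k
                  rwa [hk, hn1] at this
                · refine hconst γ hγ0 i ((hγ i).trans ?_)
                  omega
              rw [h1, hn1, sub_self, mul_zero]
            · rw [hv0 k hk, Polynomial.C_0, zero_mul]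
        · simp only [hP, if_neg hj]
          exact natDegree_le_of_weight a (hhom j) γ hγ) i₀ (by
        have h5 : ∑ j, (if j = j₀ then 0 else b j) + 1 = ∑ j, b j := by
          rw [← Finset.add_sum_erase _ _ (Finset.mem_univ j₀),
            ← Finset.add_sum_erase _ (fun j => b j) (Finset.mem_univ j₀), if_pos rfl]
          have h6 : ∑ j ∈ Finset.univ.erase j₀, (if j = j₀ then 0 else b j) =
              ∑ j ∈ Finset.univ.erase j₀, b j := by
            refine Finset.sum_congr rfl fun j hj => ?_
            rw [if_neg (Finset.ne_of_mem_erase hj)]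
          rw [h6, hbj₀]
          omega
        omega)
    obtain ⟨c, hc⟩ := htriv γ (hasClass_of_natDegree hD hγd) (hPF γ hγP) hγ0
    have hc0 : c = 0 := by
      by_contra hc0
      have h1 : (γ i₀).coeff 1 = x i₀ * ((a i₀ : ℂ) * c) := by
        have h2 : (Polynomial.derivative (γ i₀)).coeff 0 = (γ i₀).coeff 1 := by
          rw [Polynomial.coeff_derivative]
          simp
        rw [← h2, Polynomial.coeff_zero_eq_eval_zero, hc i₀]
        simp [Polynomial.derivative_pow]
        left
        left
        rfl
      rw [h1] at hγc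
      have h3 : (a i₀ : ℂ) ≠ 0 := by exact_mod_cast hai₀.ne'
      exact mul_ne_zero hi₀ (mul_ne_zero h3 hc0) hγc
    apply hi₁
    rw [hc i₁, hc0, Polynomial.C_0, zero_mul, add_zero, one_pow, mul_one]

/-- A sum of natural numbers, by values. -/
lemma sum_eq_sum_card {I : Type} [Fintype I] (a : I → ℕ) {W : ℕ} (hW : ∀ i, a i < W) :
    ∑ i, a i = ∑ w ∈ Finset.range W, w * Nat.card {i // a i = w} := by
  classical
  rw [← Finset.sum_fiberwise_of_maps_to (s := Finset.univ) (t := Finset.range W) (g := a)
    (fun i _ => Finset.mem_range.mpr (hW i))]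
  refine Finset.sum_congr rfl fun w _ => ?_
  rw [Finset.sum_congr rfl (fun i hi => (Finset.mem_filter.mp hi).2), Finset.sum_const,
    Nat.card_eq_fintype_card, Fintype.card_subtype, smul_eq_mul, mul_comm]

lemma card_toNat {I : Type} (d : I → ℤ) (w : ℕ) (hw : 0 < w) :
    Nat.card {i // (d i).toNat = w} = Nat.card {i // d i = (w : ℤ)} := by
  refine Nat.card_congr (Equiv.subtypeEquivRight fun i => ?_)
  omega

/-- S14 -/
theorem numerics {I J : Type} [Fintype I] [Fintype J] (d : I → ℤ) (e : J → ℤ)
    (hd : ∀ i, 0 ≤ d i) (he : ∀ j, 0 ≤ e j)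
    (hsum : ∑ i, (d i).toNat = ∑ j, (e j).toNat + 1)
    (hrow : ∀ w : ℤ, 0 < w → Nat.card {j // e j = w} ≤ Nat.card {i // d i = w}) :
    Nat.card {i // d i = 1} = Nat.card {j // e j = 1} + 1 ∧
    ∀ w : ℤ, 1 < w → Nat.card {i // d i = w} = Nat.card {j // e j = w} := by
  classical
  have key : ∀ W : ℕ, (∀ i, (d i).toNat < W) → (∀ j, (e j).toNat < W) →
      ∑ w ∈ Finset.range W, w * (Nat.card {i // (d i).toNat = w} -
        Nat.card {j // (e j).toNat = w}) = 1 := by
    intro W h1 h2
    have h3 := sum_eq_sum_card (fun i => (d i).toNat) h1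
    have h4 := sum_eq_sum_card (fun j => (e j).toNat) h2
    have h5 : ∑ w ∈ Finset.range W, w * (Nat.card {i // (d i).toNat = w} -
          Nat.card {j // (e j).toNat = w}) +
        ∑ w ∈ Finset.range W, w * Nat.card {j // (e j).toNat = w} =
        ∑ w ∈ Finset.range W, w * Nat.card {i // (d i).toNat = w} := by
      rw [← Finset.sum_add_distrib]
      refine Finset.sum_congr rfl fun w _ => ?_
      rcases Nat.eq_zero_or_pos w with h0 | h0
      · rw [h0]; simp
      · rw [← mul_add, Nat.sub_add_cancel]
        rw [card_toNat d w h0, card_toNat e w h0]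
        exact hrow w (by exact_mod_cast h0)
    omega
  -- a bound for all values
  obtain ⟨W₀, hW₀d, hW₀e⟩ : ∃ W : ℕ, (∀ i, (d i).toNat < W) ∧ (∀ j, (e j).toNat < W) := by
    refine ⟨∑ i, (d i).toNat + ∑ j, (e j).toNat + 1, fun i => ?_, fun j => ?_⟩
    · have := Finset.single_le_sum (f := fun i => (d i).toNat) (fun i _ => Nat.zero_le _)
        (Finset.mem_univ i)
      omega
    · have := Finset.single_le_sum (f := fun j => (e j).toNat) (fun i _ => Nat.zero_le _)
        (Finset.mem_univ j)
      omega
  have hbig : ∀ w : ℕ, 1 < w →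
      Nat.card {i // (d i).toNat = w} - Nat.card {j // (e j).toNat = w} = 0 := by
    intro w hw
    have h1 := key (W₀ + w + 1) (fun i => by have := hW₀d i; omega)
      (fun j => by have := hW₀e j; omega)
    have h2 := Finset.single_le_sum (f := fun w => w * (Nat.card {i // (d i).toNat = w} -
        Nat.card {j // (e j).toNat = w})) (fun i _ => Nat.zero_le _)
        (Finset.mem_range.mpr (show w < W₀ + w + 1 by omega))
    rw [h1] at h2
    by_contra hcon
    have h3 : w * 1 ≤ w * (Nat.card {i // (d i).toNat = w} - Nat.card {j // (e j).toNat = w}) :=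
      Nat.mul_le_mul_left _ (Nat.pos_of_ne_zero hcon)
    have h4 := h3.trans h2
    omega
  constructor
  · have h1 := key (W₀ + 2) (fun i => by have := hW₀d i; omega)
      (fun j => by have := hW₀e j; omega)
    rw [Finset.sum_eq_single 1] at h1
    · rw [card_toNat d 1 one_pos, card_toNat e 1 one_pos, Nat.cast_one, one_mul] at h1
      omega
    · intro w _ hw
      rcases Nat.eq_zero_or_pos w with h0 | h0
      · rw [h0, zero_mul]
      · rw [hbig w (by omega), mul_zero]
    · intro h
      exact absurd (Finset.mem_range.mpr (by omega)) h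
  · intro w hw
    obtain ⟨k, rfl⟩ : ∃ k : ℕ, w = (k : ℤ) := ⟨w.toNat, by omega⟩
    have hk : 1 < k := by exact_mod_cast hw
    have h1 := hbig k hk
    rw [card_toNat d k (by omega), card_toNat e k (by omega)] at h1
    have h2 := hrow k (by omega)
    omega

end Pool.Agent.H6.Ab
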