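import Pool.Agent.H6.Ab.Transfer

/-!
# Transfer of the cone condition
-/

set_option autoImplicit false

namespace Pool.Agent.H6.Ab

open MvPolynomial

variable {I J M : Type} [AddCommGroup M] {D : I → M} {θ : M}
  {β : J → M} {F : J → MvPolynomial I ℂ} {X : Set (I → ℂ)}

/-- transfer of the cone condition at a point -/
theorem cone_at (p : I → Prop) {M' : Type} [AddCommGroup M'] (φ : M →+ M')
    (D' : {i // p i} → M') (σ : I → MvPolynomial {i // p i} ℂ)
    (hσh : ∀ i, IsWeightedHomogeneous D' (σ i) (φ (D i))) {x : I → ℂ}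
    (hσx : SameOrbit D x (fun i => eval (fun k : {i // p i} => x k.1) (σ i)))
    {b : M} (hb : InCone D {i | x i ≠ 0} b) :
    InCone D' {i : {i // p i} | x i.1 ≠ 0} (φ b) := by
  classical
  obtain ⟨N, hN, e, he, hs⟩ := hb
  have hmon : ∀ k : I, ∃ ek : {i // p i} →₀ ℕ, e k ≠ 0 →
      (Finsupp.weight D' ek = φ (D k) ∧ (∀ l, ek l ≠ 0 → x l.1 ≠ 0)) := by
    intro k
    by_cases hk : e k = 0
    · exact ⟨0, fun h => absurd hk h⟩
    · have hxk : x k ≠ 0 := hs k hk
      have h1 : eval (fun l : {i // p i} => x l.1) (σ k) ≠ 0 := by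
        obtain ⟨g, hg⟩ := hσx
        have h2 : eval (fun l : {i // p i} => x l.1) (σ k) =
            ((g (Multiplicative.ofAdd (D k)) : ℂˣ) : ℂ) * x k := hg k
        rw [h2]
        exact mul_ne_zero (Units.ne_zero _) hxk
      obtain ⟨ek, hc, hw, hs'⟩ := exists_monomial (hσh k) h1
      exact ⟨ek, fun _ => ⟨hw, hs'⟩⟩
  choose ek hek using hmon
  refine ⟨N, hN, ∑ k ∈ e.support, e k • ek k, ?_, ?_⟩
  · rw [weight_sum_nsmul, ← map_nsmul, ← he, Finsupp.weight_apply, Finsupp.sum, map_sum]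
    refine Finset.sum_congr rfl fun k hk => ?_
    rw [(hek k (Finsupp.mem_support_iff.mp hk)).1, map_nsmul]
  · intro l hl
    rw [Finsupp.finsetSum_apply] at hl
    obtain ⟨k, hk, hk0⟩ := Finset.exists_ne_zero_of_sum_ne_zero hl
    have h2 : ek k l ≠ 0 := by
      intro h; apply hk0; simp [h]
    exact (hek k (Finsupp.mem_support_iff.mp hk)).2 l h2

/-- transfer of the cone condition -/
theorem transfer_cone (p : I → Prop) {M' : Type} [AddCommGroup M'] (φ : M →+ M')
    (D' : {i // p i} → M') (σ : I → MvPolynomial {i // p i} ℂ)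
    (hσh : ∀ i, IsWeightedHomogeneous D' (σ i) (φ (D i)))
    (hσX : ∀ x ∈ X, SameOrbit D x (fun i => eval (fun k : {i // p i} => x k.1) (σ i)))
    {b : M} (hb : ConeAll D X b) : ConeAll D' (restr p X) (φ b) := by
  rintro z ⟨x, hx, rfl⟩
  exact cone_at p φ D' σ hσh (hσX x hx) (hb x hx)

end Pool.Agent.H6.Ab
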