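import Pool.Agent.H6.Ab.Basic

/-!
# Polynomial curves of an indecomposable class are trivial
-/

set_option autoImplicit false

namespace Pool.Agent.H6.Ab

open MvPolynomial

variable {I J M : Type} [AddCommGroup M] {D : I → M} {θ : M}
  {β : J → M} {F : J → MvPolynomial I ℂ} {X : Set (I → ℂ)}

namespace Triv

lemma eval_aeval (γ : I → Polynomial ℂ) (G : MvPolynomial I ℂ) (t : ℂ) :
    (aeval γ G).eval t = eval (evl γ t) G := by
  have h : (Polynomial.evalRingHom t).comp
      (aeval γ : MvPolynomial I ℂ →ₐ[ℂ] Polynomial ℂ).toRingHom = eval (evl γ t) := by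
    apply MvPolynomial.ringHom_ext
    · intro a
      simp
    · intro i
      simp [evl]
  exact RingHom.congr_fun h G

/-- A polynomial vanishing at all points different from `p` is zero. -/
lemma eq_zero_of_eval {q : Polynomial ℂ} (p : ℂ) (h : ∀ t, t ≠ p → q.eval t = 0) : q = 0 := by
  apply Polynomial.eq_zero_of_infinite_isRoot
  refine Set.Infinite.mono (s := {p}ᶜ) (fun t ht => h t ht) ?_
  exact (Set.finite_singleton p).infinite_compl

lemma zc_of_nonneg (q : Polynomial ℂ) {k : ℤ} (hk : 0 ≤ k) : zc q k = q.coeff k.toNat := by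
  unfold zc
  rw [if_pos hk]

lemma zc_of_neg (q : Polynomial ℂ) {k : ℤ} (hk : k < 0) : zc q k = 0 := by
  unfold zc
  rw [if_neg (by omega)]

lemma hasClass_iff {ρ : M →+ ℤ} {y : I → Polynomial ℂ} :
    HasClass D ρ y ↔ ∀ i, y i ≠ 0 → ((y i).natDegree : ℤ) ≤ ρ (D i) := by
  constructor
  · intro h i hi
    by_contra hcon
    push Not at hcon
    have h1 := h i _ hcon
    rw [zc_of_nonneg _ (Int.natCast_nonneg _), Int.toNat_natCast] at h1
    exact hi (Polynomial.leadingCoeff_eq_zero.1 h1)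
  · intro h i k hk
    by_cases h0 : y i = 0
    · unfold zc
      rw [h0]
      simp
    · by_cases hk0 : 0 ≤ k
      · rw [zc_of_nonneg _ hk0]
        apply Polynomial.coeff_eq_zero_of_natDegree_lt
        have := h i h0
        omega
      · exact zc_of_neg _ (by omega)

/-- the linear polynomial `1 - t / p` -/
noncomputable def mp (p : ℂ) : Polynomial ℂ := 1 - Polynomial.C p⁻¹ * Polynomial.X

lemma mp_eval (p t : ℂ) : (mp p).eval t = 1 - p⁻¹ * t := by
  unfold mp
  simp

lemma mp_eval_ne {p t : ℂ} (hp : p ≠ 0) (ht : t ≠ p) : (mp p).eval t ≠ 0 := by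
  rw [mp_eval]
  intro h
  apply ht
  field_simp at h
  linear_combination -h

lemma mp_eval_self {p : ℂ} (hp : p ≠ 0) : (mp p).eval p = 0 := by
  rw [mp_eval, inv_mul_cancel₀ hp, sub_self]

lemma mp_ne_zero (p : ℂ) : mp p ≠ 0 := by
  intro h
  have := mp_eval p 0
  rw [h] at this
  simp at this

lemma mp_natDegree {p : ℂ} (hp : p ≠ 0) : (mp p).natDegree = 1 := by
  have h : mp p = Polynomial.C (-p⁻¹) * Polynomial.X + Polynomial.C 1 := by
    unfold mp
    simp only [map_neg, Polynomial.C_1]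
    ring
  rw [h]
  exact Polynomial.natDegree_linear (neg_ne_zero.2 (inv_ne_zero hp))

/-- `1 - t / p` at `t = p + s` -/
lemma mp_comp {p : ℂ} (hp : p ≠ 0) : (mp p).comp (Polynomial.X + Polynomial.C p) =
    Polynomial.C (-p⁻¹) * Polynomial.X := by
  unfold mp
  simp only [Polynomial.sub_comp, Polynomial.one_comp, Polynomial.mul_comp, Polynomial.C_comp,
    Polynomial.X_comp, map_neg]
  have h : Polynomial.C p⁻¹ * Polynomial.C p = (1 : Polynomial ℂ) := by
    rw [← Polynomial.C_mul, inv_mul_cancel₀ hp, Polynomial.C_1]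
  linear_combination (-1 : Polynomial ℂ) * h

/-- The unit `(1 - t / p)⁻¹`. -/
lemma unit_of {p t : ℂ} (hp : p ≠ 0) (ht : t ≠ p) : ∃ u : ℂˣ, (u : ℂ) * (mp p).eval t = 1 :=
  ⟨(Units.mk0 _ (mp_eval_ne hp ht))⁻¹, by simp [mp_eval_ne hp ht]⟩

/-- Modification of a curve at a point `p ≠ 0`. -/
theorem stepA (hm : PreModel D θ β F X) {ρ : M →+ ℤ} {γ : I → Polynomial ℂ} (hγ : HasClass D ρ γ)
    (hF : ∀ j, aeval γ (F j) = 0) (h0 : evl γ 0 ∈ X) {p : ℂ} (hp : p ≠ 0) :
    ∃ (ν : M →+ ℤ) (γ' : I → Polynomial ℂ), HasClass D (ρ - ν) γ' ∧ (∀ j, aeval γ' (F j) = 0) ∧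
      evl γ' 0 = evl γ 0 ∧ evl γ' p ∈ X ∧ NonnegAt D (evl γ' p) ν ∧
      (∀ t, t ≠ p → (evl γ' t ∈ X ↔ evl γ t ∈ X)) ∧
      ∀ i, (0 ≤ ν (D i) ∧ γ i = mp p ^ (ν (D i)).toNat * γ' i) ∨
        (ν (D i) < 0 ∧ γ' i = mp p ^ (-ν (D i)).toNat * γ i) := by
  -- the translated curve
  set y : I → Polynomial ℂ := fun i => (γ i).comp (Polynomial.X + Polynomial.C p) with hy
  have hyev : ∀ t, evl y t = evl γ (t + p) := by
    intro t
    funext i
    simp only [evl, hy, Polynomial.eval_comp, Polynomial.eval_add, Polynomial.eval_X,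
      Polynomial.eval_C]
  have hyF : ∀ j, aeval y (F j) = 0 := by
    intro j
    apply eq_zero_of_eval 0
    intro t _
    rw [eval_aeval, hyev, ← eval_aeval, hF j, Polynomial.eval_zero]
  obtain ⟨ν, hν1, hν2⟩ := hm.val y hyF ⟨-p, by rw [hyev, neg_add_cancel]; exact h0⟩
  -- divisibility
  have hdiv : ∀ i, 0 ≤ ν (D i) → ∃ q, γ i = mp p ^ (ν (D i)).toNat * q := by
    intro i hi
    have h1 : Polynomial.X ^ (ν (D i)).toNat ∣ y i := by
      rw [Polynomial.X_pow_dvd_iff]
      intro d hd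
      have h2 := hν1 i d (by omega)
      rwa [zc_of_nonneg _ (Int.natCast_nonneg _), Int.toNat_natCast] at h2
    obtain ⟨q, hq⟩ := h1
    refine ⟨Polynomial.C ((-p) ^ (ν (D i)).toNat) *
      q.comp (Polynomial.X - Polynomial.C p), ?_⟩
    have h2 : γ i = (y i).comp (Polynomial.X - Polynomial.C p) := by
      rw [hy]
      simp only
      rw [Polynomial.comp_assoc]
      simp
    have h3 : (Polynomial.X - Polynomial.C p : Polynomial ℂ) = Polynomial.C (-p) * mp p := by
      unfold mp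
      have h : Polynomial.C p⁻¹ * Polynomial.C p = (1 : Polynomial ℂ) := by
        rw [← Polynomial.C_mul, inv_mul_cancel₀ hp, Polynomial.C_1]
      rw [Polynomial.C_neg]
      linear_combination (-Polynomial.X : Polynomial ℂ) * h
    rw [h2, hq, Polynomial.mul_comp, Polynomial.pow_comp, Polynomial.X_comp]
    have h4 : (Polynomial.X - Polynomial.C p : Polynomial ℂ) ^ (ν (D i)).toNat =
        Polynomial.C ((-p) ^ (ν (D i)).toNat) * mp p ^ (ν (D i)).toNat := by
      rw [h3, mul_pow, Polynomial.C_pow]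
    rw [h4]
    ring
  have hex : ∀ i, ∃ q, (0 ≤ ν (D i) ∧ γ i = mp p ^ (ν (D i)).toNat * q) ∨
        (ν (D i) < 0 ∧ q = mp p ^ (-ν (D i)).toNat * γ i) := by
    intro i
    by_cases hi : 0 ≤ ν (D i)
    · obtain ⟨q, hq⟩ := hdiv i hi
      exact ⟨q, Or.inl ⟨hi, hq⟩⟩
    · exact ⟨_, Or.inr ⟨by omega, rfl⟩⟩
  choose γ' hγ' using hex
  -- relation through the torus
  have hact : ∀ t, t ≠ p → ∃ u : ℂˣ, (u : ℂ) * (mp p).eval t = 1 ∧
      evl γ' t = act D (lam ν u) (evl γ t) := by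
    intro t ht
    obtain ⟨u, hu⟩ := unit_of hp ht
    refine ⟨u, hu, ?_⟩
    funext i
    unfold act
    rw [lam_apply]
    unfold evl
    rcases hγ' i with ⟨h1, h2⟩ | ⟨h1, h2⟩
    · rw [h2, Polynomial.eval_mul, Polynomial.eval_pow, ← mul_assoc]
      obtain ⟨k, hk⟩ : ∃ k : ℕ, ν (D i) = k := ⟨(ν (D i)).toNat, by omega⟩
      rw [hk, Int.toNat_natCast, zpow_natCast, ← mul_pow, hu, one_pow, one_mul]
    · rw [h2, Polynomial.eval_mul, Polynomial.eval_pow]
      obtain ⟨k, hk⟩ : ∃ k : ℕ, -ν (D i) = k := ⟨(-ν (D i)).toNat, by omega⟩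
      have hk' : ν (D i) = -(k : ℤ) := by omega
      rw [hk, Int.toNat_natCast, hk', zpow_neg, zpow_natCast]
      have h3 : ((u : ℂ) ^ k)⁻¹ = (mp p).eval t ^ k := by
        rw [← inv_pow]
        congr 1
        exact inv_eq_of_mul_eq_one_right hu
      rw [h3]
  have hF' : ∀ j, aeval γ' (F j) = 0 := by
    intro j
    apply eq_zero_of_eval p
    intro t ht
    obtain ⟨u, -, h2⟩ := hact t ht
    rw [eval_aeval, h2, eval_act (hm.hom j), ← eval_aeval, hF j, Polynomial.eval_zero, mul_zero]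
  have hzero : evl γ' 0 = evl γ 0 := by
    funext i
    unfold evl
    have h1 : (mp p).eval 0 = 1 := by rw [mp_eval]; ring
    rcases hγ' i with ⟨-, h2⟩ | ⟨-, h2⟩
    · rw [h2, Polynomial.eval_mul, Polynomial.eval_pow, h1, one_pow, one_mul]
    · rw [h2, Polynomial.eval_mul, Polynomial.eval_pow, h1, one_pow, one_mul]
  have hneg : ∀ i, ν (D i) < 0 → evl γ' p i = 0 := by
    intro i hi
    unfold evl
    rcases hγ' i with ⟨h1, h2⟩ | ⟨h1, h2⟩
    · omega
    · rw [h2, Polynomial.eval_mul, Polynomial.eval_pow, mp_eval_self hp, zero_pow (by omega),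
        zero_mul]
  have hpX : evl γ' p ∈ X := by
    have h1 : evl γ' p = act D (lam ν (Units.mk0 (-p) (neg_ne_zero.2 hp))) (cv D ν y) := by
      funext i
      by_cases hi : 0 ≤ ν (D i)
      · rcases hγ' i with ⟨-, h2⟩ | ⟨h1, h2⟩
        · unfold act cv
          rw [lam_apply, zc_of_nonneg _ hi, Units.val_mk0]
          obtain ⟨k, hk⟩ : ∃ k : ℕ, ν (D i) = k := ⟨(ν (D i)).toNat, by omega⟩
          rw [hk, Int.toNat_natCast] at h2 ⊢
          rw [zpow_natCast]
          have h3 : y i = Polynomial.C ((-p⁻¹) ^ k) *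
              (γ' i).comp (Polynomial.X + Polynomial.C p) * Polynomial.X ^ k := by
            rw [hy]
            simp only
            rw [h2, Polynomial.mul_comp, Polynomial.pow_comp, mp_comp hp, mul_pow,
              Polynomial.C_pow]
            ring
          have h4 : (y i).coeff k = (-p⁻¹) ^ k * (γ' i).eval p := by
            have h5 := Polynomial.coeff_mul_X_pow (Polynomial.C ((-p⁻¹) ^ k) *
              (γ' i).comp (Polynomial.X + Polynomial.C p)) k 0
            rw [zero_add] at h5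
            rw [h3, h5, Polynomial.coeff_C_mul, Polynomial.coeff_zero_eq_eval_zero,
              Polynomial.eval_comp]
            simp
          rw [h4, ← mul_assoc, ← mul_pow]
          have h6 : (-p) * (-p⁻¹) = 1 := by
            rw [neg_mul_neg, mul_inv_cancel₀ hp]
          rw [h6, one_pow, one_mul]
          rfl
        · omega
      · rw [hneg i (by omega)]
        unfold act cv
        rw [zc_of_neg _ (by omega), mul_zero]
    rw [h1]
    exact hm.act_mem hν2 _
  refine ⟨ν, γ', ?_, hF', hzero, hpX, ?_, ?_, hγ'⟩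
  · rw [hasClass_iff] at hγ ⊢
    intro i hi
    rw [AddMonoidHom.sub_apply]
    rcases hγ' i with ⟨h1, h2⟩ | ⟨h1, h2⟩
    · have h3 : γ i ≠ 0 := by
        rw [h2]
        exact mul_ne_zero (pow_ne_zero _ (mp_ne_zero p)) hi
      have h4 := hγ i h3
      have h5 := congrArg Polynomial.natDegree h2
      rw [Polynomial.natDegree_mul (pow_ne_zero _ (mp_ne_zero p)) hi, Polynomial.natDegree_pow,
        mp_natDegree hp] at h5
      omega
    · have h3 : γ i ≠ 0 := by
        intro h4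
        apply hi
        rw [h2, h4, mul_zero]
      have h4 := hγ i h3
      have h5 := congrArg Polynomial.natDegree h2
      rw [Polynomial.natDegree_mul (pow_ne_zero _ (mp_ne_zero p)) h3, Polynomial.natDegree_pow,
        mp_natDegree hp] at h5
      omega
  · intro i hi
    by_contra hcon
    exact hi (hneg i (by omega))
  · intro t ht
    obtain ⟨u, -, h2⟩ := hact t ht
    constructor
    · intro h
      have h3 := hm.act_mem h (lam ν u)⁻¹
      rw [h2, act_inv] at h3
      exact h3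
    · intro h
      rw [h2]
      exact hm.act_mem h _

/-- the reversed curve -/
noncomputable def rv (D : I → M) (ρ : M →+ ℤ) (γ : I → Polynomial ℂ) : I → Polynomial ℂ :=
  fun i => if 0 ≤ ρ (D i) then (γ i).reflect (ρ (D i)).toNat else 0

lemma zc_rv {ρ : M →+ ℤ} {γ : I → Polynomial ℂ} (hγ : HasClass D ρ γ) (i : I) (k : ℤ) :
    zc (rv D ρ γ i) (ρ (D i) - k) = zc (γ i) k := by
  unfold rv
  by_cases hi : 0 ≤ ρ (D i)
  · rw [if_pos hi]
    by_cases hk : ρ (D i) - k < 0
    · rw [zc_of_neg _ hk, hγ i k (by omega)]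
    · rw [zc_of_nonneg _ (by omega), Polynomial.coeff_reflect]
      by_cases hk0 : 0 ≤ k
      · rw [zc_of_nonneg _ hk0, Polynomial.revAt_le (by omega)]
        congr 1
        omega
      · rw [zc_of_neg _ (by omega), Polynomial.revAt_eq_self_of_lt (by omega)]
        have := hγ i (ρ (D i) - k).toNat (by omega)
        rwa [zc_of_nonneg _ (Int.natCast_nonneg _), Int.toNat_natCast] at this
  · rw [if_neg hi]
    have h1 : γ i = 0 := by
      by_contra h
      have := hasClass_iff.1 hγ i h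
      omega
    rw [h1]
    unfold zc
    simp

lemma evl_rv {ρ : M →+ ℤ} {γ : I → Polynomial ℂ} (hγ : HasClass D ρ γ) (u : ℂˣ) :
    evl (rv D ρ γ) (u : ℂ) = act D (lam ρ u) (evl γ ((u⁻¹ : ℂˣ) : ℂ)) := by
  funext i
  unfold act
  rw [lam_apply]
  unfold evl rv
  by_cases hi : 0 ≤ ρ (D i)
  · rw [if_pos hi]
    obtain ⟨k, hk⟩ : ∃ k : ℕ, ρ (D i) = k := ⟨(ρ (D i)).toNat, by omega⟩
    rw [hk, Int.toNat_natCast, zpow_natCast]
    have h1 : (γ i).natDegree ≤ k := by
      by_cases h : γ i = 0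
      · rw [h, Polynomial.natDegree_zero]
        exact Nat.zero_le _
      · have := hasClass_iff.1 hγ i h
        omega
    have h2 : (Polynomial.reflect k (γ i)).eval (u : ℂ) * ((u⁻¹ : ℂˣ) : ℂ) ^ k =
        (γ i).eval ((u⁻¹ : ℂˣ) : ℂ) := by
      have h3 := @Polynomial.eval₂_reflect_mul_pow ℂ _ ℂ _ (RingHom.id ℂ) ((u⁻¹ : ℂˣ) : ℂ)
        (u⁻¹).invertible k (γ i) h1
      rw [@invOf_units ℂ _ u⁻¹ (u⁻¹).invertible, inv_inv] at h3
      exact h3
    rw [← h2]
    have h4 : (u : ℂ) ^ k * ((u⁻¹ : ℂˣ) : ℂ) ^ k = 1 := by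
      rw [← mul_pow, Units.mul_inv, one_pow]
    linear_combination (-(Polynomial.reflect k (γ i)).eval (u : ℂ)) * h4
  · rw [if_neg hi]
    have h1 : γ i = 0 := by
      by_contra h
      have := hasClass_iff.1 hγ i h
      omega
    rw [h1]
    simp

/-- Modification of a curve at infinity. -/
theorem stepB (hm : PreModel D θ β F X) {ρ : M →+ ℤ} {γ : I → Polynomial ℂ} (hγ : HasClass D ρ γ)
    (hF : ∀ j, aeval γ (F j) = 0) (h0 : evl γ 1 ∈ X) :
    ∃ ν : M →+ ℤ, HasClass D (ρ - ν) γ ∧ cv D (ρ - ν) γ ∈ X ∧ NonnegAt D (cv D (ρ - ν) γ) ν := by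
  have hyF : ∀ j, aeval (rv D ρ γ) (F j) = 0 := by
    intro j
    apply eq_zero_of_eval 0
    intro t ht
    have h1 := evl_rv hγ (Units.mk0 t ht)
    rw [Units.val_mk0] at h1
    rw [eval_aeval, h1, eval_act (hm.hom j), ← eval_aeval, hF j, Polynomial.eval_zero, mul_zero]
  obtain ⟨ν, hν1, hν2⟩ := hm.val (rv D ρ γ) hyF ⟨1, by
    have h1 := evl_rv hγ 1
    rw [Units.val_one] at h1
    rw [h1, inv_one, Units.val_one]
    exact hm.act_mem h0 _⟩
  have h1 : cv D (ρ - ν) γ = cv D ν (rv D ρ γ) := by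
    funext i
    unfold cv
    rw [← zc_rv hγ i, AddMonoidHom.sub_apply, sub_sub_cancel]
  refine ⟨ν, ?_, ?_, ?_⟩
  · intro i k hk
    rw [← zc_rv hγ i]
    apply hν1
    rw [AddMonoidHom.sub_apply] at hk
    omega
  · rw [h1]
    exact hν2
  · intro i hi
    by_contra hcon
    apply hi
    rw [h1]
    unfold cv
    exact zc_of_neg _ (by omega)

/-- Curves of class zero are constant. -/
lemma const_of_class {ρ : M →+ ℤ} {γ : I → Polynomial ℂ} (hγ : HasClass D ρ γ) (h : ρ = 0)
    (i : I) : γ i = Polynomial.C (evl γ 0 i) := by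
  have h1 : (γ i).natDegree = 0 := by
    by_cases h0 : γ i = 0
    · rw [h0, Polynomial.natDegree_zero]
    · have := hasClass_iff.1 hγ i h0
      rw [h, AddMonoidHom.zero_apply] at this
      omega
  unfold evl
  rw [← Polynomial.coeff_zero_eq_eval_zero]
  exact Polynomial.eq_C_of_natDegree_eq_zero h1

/-- The statement proved by induction on the set of bad points. -/
structure Fine (D : I → M) (X : Set (I → ℂ)) (x : I → ℂ) (ρ : M →+ ℤ) (γ : I → Polynomial ℂ) :
    Prop where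
  nonneg : NonnegAt D x ρ
  ne : ∀ i, x i ≠ 0 → ∀ t, evl γ t ∈ X → (γ i).eval t ≠ 0
  eq : ∀ i, x i = 0 → γ i = 0

section main

variable {a : M} {n N : ℕ} {x : I → ℂ}

/-- A complete curve in `X` of class `ρ`, `ρ b ≤ 0`, is constant. -/
theorem base (hm : PreModel D θ β F X)
    (hna : ∀ (ρ : M →+ ℤ) (y : I → Polynomial ℂ), HasClass D ρ y → (∀ t, evl y t ∈ X) →
      cv D ρ y ∈ X → ρ (n • a + N • θ) ≤ 0 → ρ θ ≤ 0)
    (hN : 1 ≤ N) (hc : ConeAll D X (n • a + N • θ)) (hx : x ∈ X)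
    {ρ : M →+ ℤ} {γ : I → Polynomial ℂ} (hγ : HasClass D ρ γ) (hF : ∀ j, aeval γ (F j) = 0)
    (h0 : evl γ 0 = x) (hρ : ρ (n • a + N • θ) ≤ 0) (hall : ∀ t, evl γ t ∈ X) :
    (∀ i, γ i = Polynomial.C (x i)) ∧ NonnegAt D x ρ := by
  obtain ⟨ν, h1, h2, h3⟩ := stepB hm hγ hF (hall 1)
  have h5 := h3.inCone (hc _ h2)
  have h4 := hna _ _ h1 hall h2 (by
    rw [AddMonoidHom.sub_apply]
    omega)
  have hne : ∀ i, x i ≠ 0 → γ i ≠ 0 := by
    intro i hi h
    apply hi
    rw [← h0]
    unfold evl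
    rw [h, Polynomial.eval_zero]
  have h6 : NonnegAt D x (ρ - ν) := by
    intro i hi
    have := hasClass_iff.1 h1 i (hne i hi)
    omega
  have h7 : ρ - ν = 0 := by
    by_contra hcon
    have h8 := theta_pos hm hx h6 hcon
    omega
  have h8 : ∀ i, γ i = Polynomial.C (x i) := by
    intro i
    rw [← h0]
    exact const_of_class h1 h7 i
  refine ⟨h8, ?_⟩
  have h9 : cv D (ρ - ν) γ = x := by
    funext i
    unfold cv
    rw [h7, AddMonoidHom.zero_apply, zc_of_nonneg _ le_rfl, h8 i]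
    simp
  rw [h9] at h3
  have h10 : ρ = ν := sub_eq_zero.1 h7
  rw [h10]
  exact h3

/-- The conclusion of a modification. -/
lemma fine_step {ρ ν : M →+ ℤ} {γ γ' : I → Polynomial ℂ} {p : ℂ} (hp : p ≠ 0)
    (hpX : evl γ' p ∈ X) (hp' : evl γ p ∉ X) (hν : NonnegAt D (evl γ' p) ν)
    (hmem : ∀ t, t ≠ p → (evl γ' t ∈ X ↔ evl γ t ∈ X))
    (hγ : ∀ i, (0 ≤ ν (D i) ∧ γ i = mp p ^ (ν (D i)).toNat * γ' i) ∨
        (ν (D i) < 0 ∧ γ' i = mp p ^ (-ν (D i)).toNat * γ i))
    (h : Fine D X x (ρ - ν) γ') : NonnegAt D x ν ∧ Fine D X x ρ γ := by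
  have h1 : NonnegAt D x ν := by
    intro i hi
    exact hν i (h.ne i hi p hpX)
  refine ⟨h1, ?_, ?_, ?_⟩
  · intro i hi
    have h2 := h1 i hi
    have h3 := h.nonneg i hi
    rw [AddMonoidHom.sub_apply] at h3
    omega
  · intro i hi t ht
    have htp : t ≠ p := by
      rintro rfl
      exact hp' ht
    rcases hγ i with ⟨h2, h3⟩ | ⟨h2, h3⟩
    · rw [h3, Polynomial.eval_mul, Polynomial.eval_pow]
      exact mul_ne_zero (pow_ne_zero _ (mp_eval_ne hp htp)) (h.ne i hi t ((hmem t htp).2 ht))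
    · have := h1 i hi
      omega
  · intro i hi
    have h2 := h.eq i hi
    rcases hγ i with ⟨h3, h4⟩ | ⟨h3, h4⟩
    · rw [h4, h2, mul_zero]
    · rw [h2] at h4
      exact (mul_eq_zero.1 h4.symm).resolve_left (pow_ne_zero _ (mp_ne_zero p))

theorem fine (hm : PreModel D θ β F X)
    (hna : ∀ (ρ : M →+ ℤ) (y : I → Polynomial ℂ), HasClass D ρ y → (∀ t, evl y t ∈ X) →
      cv D ρ y ∈ X → ρ (n • a + N • θ) ≤ 0 → ρ θ ≤ 0)
    (hN : 1 ≤ N) (hc : ConeAll D X (n • a + N • θ)) (hx : x ∈ X) (S : Finset ℂ) :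
    ∀ (ρ : M →+ ℤ) (γ : I → Polynomial ℂ), HasClass D ρ γ → (∀ j, aeval γ (F j) = 0) →
      evl γ 0 = x → ρ (n • a + N • θ) ≤ 0 → (∀ t, evl γ t ∉ X → t ∈ S) → Fine D X x ρ γ := by
  classical
  induction S using Finset.induction_on with
  | empty =>
    intro ρ γ hγ hF h0 hρ hS
    have hall : ∀ t, evl γ t ∈ X := by
      intro t
      by_contra hcon
      exact absurd (hS t hcon) (Finset.notMem_empty t)
    obtain ⟨h1, h2⟩ := base hm hna hN hc hx hγ hF h0 hρ hall
    refine ⟨h2, ?_, ?_⟩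
    · intro i hi t _
      rw [h1 i, Polynomial.eval_C]
      exact hi
    · intro i hi
      rw [h1 i, hi, Polynomial.C_0]
  | insert p S _ ih =>
    intro ρ γ hγ hF h0 hρ hS
    by_cases hpX : evl γ p ∈ X
    · apply ih ρ γ hγ hF h0 hρ
      intro t ht
      rcases Finset.mem_insert.1 (hS t ht) with rfl | h
      · exact absurd hpX ht
      · exact h
    · have hp : p ≠ 0 := by
        rintro rfl
        apply hpX
        rw [h0]
        exact hx
      obtain ⟨ν, γ', h1, h2, h3, h4, h5, h6, h7⟩ := stepA hm hγ hF (by rw [h0]; exact hx) hp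
      refine (fine_step hp h4 hpX h5 h6 h7 (ih (ρ - ν) γ' h1 h2 (h3.trans h0) ?_ ?_)).2
      · have h8 := h5.inCone (hc _ h4)
        rw [AddMonoidHom.sub_apply]
        omega
      · intro t ht
        have htp : t ≠ p := by
          rintro rfl
          exact ht h4
        rcases Finset.mem_insert.1 (hS t (fun h => ht ((h6 t htp).2 h))) with h | h
        · exact absurd h htp
        · exact h

/-- The set of bad points is finite. -/
lemma bad_finite (hm : PreModel D θ β F X) (hx : x ∈ X) {γ : I → Polynomial ℂ}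
    (hF : ∀ j, aeval γ (F j) = 0) (h0 : evl γ 0 = x) :
    ∃ S : Finset ℂ, ∀ t, evl γ t ∉ X → t ∈ S := by
  classical
  obtain ⟨p, h, -, h1, h2⟩ := hm.opn x hx
  have h3 : aeval γ h ≠ 0 := by
    intro h4
    apply h1
    rw [← h0, ← eval_aeval, h4, Polynomial.eval_zero]
  refine ⟨(aeval γ h).roots.toFinset, ?_⟩
  intro t ht
  rw [Multiset.mem_toFinset, Polynomial.mem_roots h3, Polynomial.IsRoot.def]
  by_contra hcon
  apply ht
  rw [eval_aeval] at hcon
  apply h2 _ hcon
  intro j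
  rw [← eval_aeval, hF j, Polynomial.eval_zero]

end main

end Triv

open Triv

/-- S6 -/
theorem trivial_curve [Fintype I] (hm : PreModel D θ β F X) {a : M} {n N : ℕ}
    (hna : ∀ (ρ : M →+ ℤ) (y : I → Polynomial ℂ), HasClass D ρ y → (∀ t, evl y t ∈ X) →
      cv D ρ y ∈ X → ρ (n • a + N • θ) ≤ 0 → ρ θ ≤ 0)
    (hn : 1 ≤ n) (hN : 1 ≤ N) (hc : ConeAll D X (n • a + N • θ)) {r : M →+ ℤ}
    (hr : r (n • a + N • θ) = 0) {x : I → ℂ} (hx : x ∈ X) (hrx : NonnegAt D x r)
    (hind : Indec D x r) (γ : I → Polynomial ℂ) (hγ : HasClass D r γ)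
    (hF : ∀ j, aeval γ (F j) = 0) (h0 : evl γ 0 = x) :
    ∃ c : ℂ, ∀ i, γ i = Polynomial.C (x i) *
      (1 + Polynomial.C c * Polynomial.X) ^ (r (D i)).toNat := by
  by_cases hall : ∀ t, evl γ t ∈ X
  · obtain ⟨h1, -⟩ := base hm hna hN hc hx hγ hF h0 hr.le hall
    refine ⟨0, fun i => ?_⟩
    rw [h1 i, Polynomial.C_0, zero_mul, add_zero, one_pow, mul_one]
  · push Not at hall
    obtain ⟨p, hpX⟩ := hall
    have hp : p ≠ 0 := by
      rintro rfl
      apply hpX
      rw [h0]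
      exact hx
    obtain ⟨ν, γ', h1, h2, h3, h4, h5, h6, h7⟩ := stepA hm hγ hF (by rw [h0]; exact hx) hp
    obtain ⟨S, hS⟩ := bad_finite hm hx h2 (h3.trans h0)
    have h8 := h5.inCone (hc _ h4)
    have hf := fine hm hna hN hc hx S (r - ν) γ' h1 h2 (h3.trans h0) (by
      rw [AddMonoidHom.sub_apply]
      omega) hS
    have h9 := (fine_step (ρ := r) hp h4 hpX h5 h6 h7 hf).1
    rcases hind ν (r - ν) h9 hf.nonneg (by abel) with h10 | h10
    · exfalso
      apply hpX
      have h11 : γ = γ' := by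
        funext i
        rcases h7 i with ⟨-, h12⟩ | ⟨h12, -⟩
        · rw [h10, AddMonoidHom.zero_apply, Int.toNat_zero, pow_zero, one_mul] at h12
          exact h12
        · rw [h10, AddMonoidHom.zero_apply] at h12
          omega
      rw [h11]
      exact h4
    · refine ⟨-p⁻¹, fun i => ?_⟩
      have h11 : r = ν := sub_eq_zero.1 h10
      have h12 := const_of_class h1 h10 i
      rw [h3, h0] at h12
      have h13 : (1 + Polynomial.C (-p⁻¹) * Polynomial.X : Polynomial ℂ) = mp p := by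
        unfold mp
        rw [Polynomial.C_neg]
        ring
      rw [h13, h11]
      rcases h7 i with ⟨-, h14⟩ | ⟨h14, h15⟩
      · rw [h14, h12]
        ring
      · have h16 : x i = 0 := by
          by_contra hcon
          have := hrx i hcon
          rw [h11] at this
          omega
        rw [h12, h16, Polynomial.C_0] at h15
        rw [(mul_eq_zero.1 h15.symm).resolve_left (pow_ne_zero _ (mp_ne_zero p)), h16,
          Polynomial.C_0, zero_mul]

end Pool.Agent.H6.Ab
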