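import Pool.Agent.H6.Ab.GTransfer
import Pool.Agent.H6.Ab.Psi
import Pool.Agent.H6.Ab.TransferCone
import Pool.Agent.H6.Ab.Extremal
import Pool.Agent.H6.Ab.Shift
import Pool.Agent.H6.Ab.CardPos
import Pool.Agent.H6.Ab.Rows
import Pool.Agent.H6.Ab.Trivial
import Pool.Agent.H6.Ab.Count
import Pool.Agent.H6.Ab.Jac
import Pool.Agent.H6.Ab.NefFib

/-!
# Abundance for models with a base: the induction

This file follows `Pool.Agent.H24.Ab.Main`; the new ingredient is `GModel.base_zero`.
-/

set_option autoImplicit false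

namespace Pool.Agent.H6.Ab

open MvPolynomial

lemma toNat_sub_toNat_neg' (z : ℤ) : ((z.toNat : ℤ)) - ((-z).toNat : ℤ) = z := by omega

/-- abundance for all models with less than `N` variables -/
def GBelow (A : Type) [Fintype A] (n : A → ℕ) (k : A → ℤ) (N : ℕ) : Prop :=
  ∀ (I J M : Type) [Fintype I] [Fintype J] [AddCommGroup M] (D : I → M)
    (θ : M) (β : J → M) (F : J → MvPolynomial I ℂ) (X : Set (I → ℂ)) (s : I → Option (Option A))
    (t : J → Option (Option A)) (χ : A → M) (κ : M) (c : ℕ) (B : M), Fintype.card I < N →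
    GModel D θ β F X s t χ n → (∀ x ∈ X, InCone D {k | s k = some none ∧ x k ≠ 0} κ) →
    ConeAll D X B → IsNef D X (c • gcanon D β s t χ κ k + B) →
    IsSemiample D X (c • gcanon D β s t χ κ k + B)

variable {I J A M : Type} [AddCommGroup M] {D : I → M} {θ : M}
  {β : J → M} {F : J → MvPolynomial I ℂ} {X : Set (I → ℂ)} {s : I → Option (Option A)}
  {t : J → Option (Option A)} {χ : A → M} {n : A → ℕ} {κ : M} {k : A → ℤ}

lemma aeval_X_eq_rename {I K : Type} (f : K → I) (G : MvPolynomial K ℂ) :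
    aeval (fun k => (MvPolynomial.X (f k) : MvPolynomial I ℂ)) G = rename f G := by
  have : (aeval (fun k => (MvPolynomial.X (f k) : MvPolynomial I ℂ)) :
      MvPolynomial K ℂ →ₐ[ℂ] _) = rename f := by
    ext k
    simp
  rw [this]

lemma sum_split {I M : Type} [Fintype I] [AddCommGroup M] (D : I → M) (p q : I → Prop)
    [DecidablePred p] [DecidablePred q] (h : ∀ i, ¬ p i ↔ q i) :
    ∑ i, D i = ∑ i : {i // p i}, D i.1 + ∑ i, (if q i then D i else 0) := by
  rw [← Finset.sum_filter, ← Finset.sum_filter_add_sum_filter_not Finset.univ p]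
  congr 1
  · exact (Finset.sum_subtype (p := p) _ (by simp) _)
  · refine Finset.sum_congr ?_ fun _ _ => rfl
    ext j; simp [h]

lemma ite_ite_eq {M : Type} [AddCommGroup M] {p q : Prop} [Decidable p] [Decidable q]
    (h : q → p) (m : M) : (if q then (if p then m else 0) else 0) = if q then m else 0 := by
  by_cases hq : q
  · rw [if_pos hq, if_pos (h hq), if_pos hq]
  · rw [if_neg hq, if_neg hq]

/-- elimination of the negative variables -/
theorem gstep_neg [Fintype I] [Fintype J] [Fintype A] (ih : GBelow A n k (Fintype.card I))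
    (hm : GModel D θ β F X s t χ n)
    (hκ : ∀ x ∈ X, InCone D {k | s k = some none ∧ x k ≠ 0} κ)
    {c : ℕ} {B : M} (hB : ConeAll D X B) (hnef : IsNef D X (c • gcanon D β s t χ κ k + B))
    {r : M →+ ℤ} {x₀ : I → ℂ} (hx₀ : x₀ ∈ X) (hrx₀ : NonnegAt D x₀ r)
    (hs0 : ∀ i, s i ≠ none → r (D i) = 0) (ht0 : ∀ j, t j ≠ none → r (β j) = 0)
    (hcard : Nat.card {j // r (β j) < 0} = Nat.card {i // r (D i) < 0})
    (hneg : ∃ i, r (D i) < 0) : IsSemiample D X (c • gcanon D β s t χ κ k + B) := by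
  classical
  have ht1 : ∀ j, r (β j) < 0 → t j = none := fun j hj => by
    by_contra h
    rw [ht0 j h] at hj
    exact absurd hj (lt_irrefl _)
  have hs1 : ∀ i, r (D i) < 0 → s i = none := fun i hi => by
    by_contra h
    rw [hs0 i h] at hi
    exact absurd hi (lt_irrefl _)
  obtain ⟨hX0, u, hu, hu0⟩ := neg_step hm.pre (fun y hy hry => (hm.jac_neg hy hry).comp
    (fun j : {j // r (β j) < 0} =>
      (⟨⟨j.1, ht1 j.1 j.2⟩, j.2⟩ : {j : {j // t j = none} // r (β j.1) < 0})) (by
      intro j j' h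
      exact Subtype.ext (congrArg
        (fun k : {j : {j // t j = none} // r (β j.1) < 0} => k.1.1) h))) hx₀ hrx₀ hcard
  set δ := (∑ j, (if r (β j) < 0 then β j else 0) - ∑ i, (if r (D i) < 0 then D i else 0))
    with hδ
  have hu1 : ∀ y ∈ X, (fun x => eval x u ^ c) y ≠ 0 := fun y hy => pow_ne_zero _ (hu0 y hy)
  have hnef' : IsNef D X (c • gcanon D β s t χ κ k + B - c • δ) :=
    nef_shift ((isSection_poly hu).pow c) hu1 hnef
  set σ : I → MvPolynomial {i // 0 ≤ r (D i)} ℂ :=
    fun i => if h : 0 ≤ r (D i) then MvPolynomial.X ⟨i, h⟩ else 0 with hσ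
  have hcut : ∀ G : MvPolynomial I ℂ, aeval σ G = cut (fun i => 0 ≤ r (D i)) G := by
    intro G
    change aeval σ G = aeval _ G
    refine congrArg (fun f => aeval f G) ?_
    funext i
    by_cases h : 0 ≤ r (D i)
    · simp [hσ, h]
    · simp [hσ, h]
  have hσh : ∀ i, IsWeightedHomogeneous (fun i : {i // 0 ≤ r (D i)} => D i.1) (σ i)
      ((AddMonoidHom.id M) (D i)) := fun i => by
    by_cases h : 0 ≤ r (D i)
    · simp only [hσ, h, dif_pos, AddMonoidHom.id_apply]
      exact isWeightedHomogeneous_X _ _ _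
    · simp only [hσ, h, dif_neg, not_false_iff, AddMonoidHom.id_apply]
      exact isWeightedHomogeneous_zero _ _ _
  have hσX : ∀ x ∈ X, SameOrbit D x (fun i => eval (fun k : {i // 0 ≤ r (D i)} => x k.1) (σ i)) :=
    fun x hx => ⟨1, fun i => by
      by_cases h : 0 ≤ r (D i)
      · simp [hσ, h]
      · simp [hσ, h, hX0 x hx i (not_le.mp h)]⟩
  have hB' := transfer_cone (fun i => 0 ≤ r (D i)) (AddMonoidHom.id M)
    (fun i : {i // 0 ≤ r (D i)} => D i.1) σ hσh hσX hB
  have htr := hm.transfer (fun i => 0 ≤ r (D i)) (fun j => 0 ≤ r (β j))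
    (fun i hi => (hs0 i hi).ge) (fun j hj => (ht0 j hj).ge) (AddMonoidHom.id M)
    (AddMonoidHom.id M) (fun _ => rfl) (fun i => D i.1) (fun _ => rfl) σ
    (fun i => by simp only [hσ, i.2, dif_pos]) hσh
    (fun j hj => by rw [hcut]; exact neg_vanish (hm.pre.hom j) (not_le.mp hj)) hσX
    (by
      intro x hx
      simp only [hcut]
      have hrx : NonnegAt D x r := by
        intro i hi
        by_contra h
        exact hi (hX0 x hx i (not_le.1 h))
      exact neg_jac hm.pre.hom (fun j => t j = none ∧ ¬ InCone D {i | x i ≠ 0} (β j)) (hm.jac x hx)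
        (hX0 x hx) (fun j hj => ⟨ht1 j hj, not_inCone_of_neg hrx hj⟩) hcard)
  obtain ⟨hm', hnefT, hsaT⟩ := htr
  have hcanon : c • gcanon (fun i : {i // 0 ≤ r (D i)} => D i.1)
      (fun j : {j // 0 ≤ r (β j)} => (AddMonoidHom.id M) (β j.1)) (fun i => s i.1)
      (fun j => t j.1) (fun a => (AddMonoidHom.id M) (χ a)) ((AddMonoidHom.id M) κ) k +
      (AddMonoidHom.id M) B = c • gcanon D β s t χ κ k + B - c • δ := by
    have s1 := sum_split (fun j => if t j = none then β j else 0) (fun j => 0 ≤ r (β j))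
      (fun j => r (β j) < 0) (fun j => not_le)
    have s2 := sum_split (fun i => if s i = none then D i else 0) (fun j => 0 ≤ r (D j))
      (fun j => r (D j) < 0) (fun j => not_le)
    have s1' : ∑ j, (if r (β j) < 0 then (if t j = none then β j else 0) else 0) =
        ∑ j, (if r (β j) < 0 then β j else 0) :=
      Finset.sum_congr rfl fun j _ => ite_ite_eq (ht1 j) _
    have s2' : ∑ i, (if r (D i) < 0 then (if s i = none then D i else 0) else 0) =
        ∑ i, (if r (D i) < 0 then D i else 0) :=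
      Finset.sum_congr rfl fun j _ => ite_ite_eq (hs1 j) _
    rw [s1'] at s1
    rw [s2'] at s2
    have s3 : gcanon (fun i : {i // 0 ≤ r (D i)} => D i.1)
        (fun j : {j // 0 ≤ r (β j)} => (AddMonoidHom.id M) (β j.1)) (fun i => s i.1)
        (fun j => t j.1) (fun a => (AddMonoidHom.id M) (χ a)) ((AddMonoidHom.id M) κ) k =
        gcanon D β s t χ κ k - δ := by
      simp only [AddMonoidHom.id_apply]
      rw [gcanon, gcanon, hδ, s1, s2]
      abel
    rw [s3, AddMonoidHom.id_apply, smul_sub]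
    abel
  have hlt : Fintype.card {i // 0 ≤ r (D i)} < Fintype.card I := by
    obtain ⟨i, hi⟩ := hneg
    exact Fintype.card_subtype_lt (x := i) (not_le.mpr hi)
  have hκ' : ∀ z ∈ restr (fun i => 0 ≤ r (D i)) X,
      InCone (fun i : {i // 0 ≤ r (D i)} => D i.1) {k | s k.1 = some none ∧ z k ≠ 0}
        ((AddMonoidHom.id M) κ) := by
    rintro z ⟨x, hx, rfl⟩
    exact (hκ x hx).restr (φ := AddMonoidHom.id M) (fun _ => rfl) fun i hi => (hs0 i (by
      rw [hi.1]; exact Option.some_ne_none _)).ge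
  have hfin := ih {i // 0 ≤ r (D i)} {j // 0 ≤ r (β j)} M (fun i => D i.1)
    ((AddMonoidHom.id M) θ) (fun j => (AddMonoidHom.id M) (β j.1)) (fun j => aeval σ (F j.1))
    (restr (fun i => 0 ≤ r (D i)) X) (fun i => s i.1) (fun j => t j.1)
    (fun a => (AddMonoidHom.id M) (χ a)) ((AddMonoidHom.id M) κ) c ((AddMonoidHom.id M) B) hlt hm'
    hκ' hB'
    (by
      rw [hcanon]
      refine hnefT _ ⟨fun _ => 1, ?_, fun _ _ => one_ne_zero⟩ hnef'
      rw [AddMonoidHom.id_apply, AddMonoidHom.id_apply, sub_self]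
      exact IsSection.one)
  rw [hcanon] at hfin
  have h5 := hsaT _ hfin
  rw [AddMonoidHom.id_apply] at h5
  have := semiample_shift ((isSection_poly hu).pow c) hu1 h5
  rwa [sub_add_cancel] at this

/-- elimination of the positive variables -/
theorem gstep_pos [Fintype I] [Fintype J] [Fintype A] (ih : GBelow A n k (Fintype.card I))
    (hm : GModel D θ β F X s t χ n)
    (hκ : ∀ x ∈ X, InCone D {k | s k = some none ∧ x k ≠ 0} κ)
    {c : ℕ} {B : M} (hB : ConeAll D X B) (hnef : IsNef D X (c • gcanon D β s t χ κ k + B))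
    {r : M →+ ℤ} (hne : X.Nonempty)
    (hs0 : ∀ i, s i ≠ none → r (D i) = 0) (ht0 : ∀ j, t j ≠ none → r (β j) = 0)
    (hκ0 : r κ = 0) (hχ0 : ∀ a, r (χ a) = 0)
    (hneg : ∀ i, 0 ≤ r (D i)) (hβ : ∀ j, 0 ≤ r (β j)) (hr0 : r ≠ 0)
    (hra1 : r (gcanon D β s t χ κ k) = -1) (hrA : r (c • gcanon D β s t χ κ k + B) ≤ 0)
    (hrow : ∀ x ∈ X, ∀ w : ℤ, 0 < w →
      LinearIndependent ℂ (fun (j : {j // r (β j) = w}) (i : {i // r (D i) = w}) =>
      eval x (pderiv i.1 (F j.1))))
    (h1 : Nat.card {i // r (D i) = 1} = Nat.card {j // r (β j) = 1} + 1)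
    (h2 : ∀ w : ℤ, 1 < w → Nat.card {i // r (D i) = w} = Nat.card {j // r (β j) = w}) :
    IsSemiample D X (c • gcanon D β s t χ κ k + B) := by
  classical
  have ht1 : ∀ j, 0 < r (β j) → t j = none := fun j hj => by
    by_contra h
    rw [ht0 j h] at hj
    exact absurd hj (lt_irrefl _)
  have hs1 : ∀ i, 0 < r (D i) → s i = none := fun i hi => by
    by_contra h
    rw [hs0 i h] at hi
    exact absurd hi (lt_irrefl _)
  obtain ⟨ψ, hψh, hψ0, hψF, hψu, hψ1⟩ := exists_psi hm.pre hneg hβ hr0 hrow h1 h2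
  set δ := (∑ j, (if 0 < r (β j) then β j else 0) - ∑ i, (if 0 < r (D i) then D i else 0))
    with hδ
  have f4 : r (gcanon D β s t χ κ k) = ∑ j, r (if t j = none then β j else 0) -
      ∑ i, r (if s i = none then D i else 0) := by
    have h1 : ∀ a, r (k a • χ a) = 0 := fun a => by rw [map_zsmul, hχ0, smul_zero]
    rw [gcanon, map_sub, map_add, map_add, map_sum, map_sum, map_sum, hκ0]
    simp only [h1]
    rw [Finset.sum_const_zero, zero_add, zero_add]
  have hrδ : r δ = -1 := by
    have a1 : r (∑ j, (if 0 < r (β j) then β j else 0)) =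
        ∑ j, r (if t j = none then β j else 0) := by
      rw [map_sum]
      refine Finset.sum_congr rfl fun j _ => ?_
      by_cases h : 0 < r (β j)
      · rw [if_pos h, if_pos (ht1 j h)]
      · rw [if_neg h, map_zero]
        split_ifs with h'
        · exact le_antisymm (hβ j) (not_lt.mp h)
        · rw [map_zero]
    have a2 : r (∑ i, (if 0 < r (D i) then D i else 0)) =
        ∑ i, r (if s i = none then D i else 0) := by
      rw [map_sum]
      refine Finset.sum_congr rfl fun j _ => ?_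
      by_cases h : 0 < r (D j)
      · rw [if_pos h, if_pos (hs1 j h)]
      · rw [if_neg h, map_zero]
        split_ifs with h'
        · exact le_antisymm (hneg j) (not_lt.mp h)
        · rw [map_zero]
    rw [hδ, map_sub, a1, a2, ← f4, hra1]
  obtain ⟨u, hu, hu0⟩ := isSection_unit hψh hψu hψ1
  have hφr : ∀ m, r (m + r m • δ) = 0 := fun m => by rw [map_add, map_zsmul, hrδ]; simp
  set φ : M →+ r.ker := AddMonoidHom.mk' (fun m => ⟨m + r m • δ, hφr m⟩) (by
    intro m m'
    ext
    simp only [map_add, add_smul, AddSubgroup.coe_add]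
    abel) with hφ
  have hφv : ∀ m, ((φ m : r.ker) : M) = m + r m • δ := fun m => rfl
  have hφ0 : ∀ m, r m = 0 → ((φ m : r.ker) : M) = m := fun m h => by rw [hφv, h]; simp
  set D' : {i // r (D i) = 0} → r.ker := fun i => ⟨D i.1, i.2⟩ with hD'
  set σ : I → MvPolynomial {i // r (D i) = 0} ℂ := fun i => cut (fun i => r (D i) = 0) (ψ i)
    with hσ
  have hcutψ : ∀ G : MvPolynomial I ℂ, aeval σ G = cut (fun i => r (D i) = 0) (aeval ψ G) := by
    intro G
    have : (aeval σ : MvPolynomial I ℂ →ₐ[ℂ] _) =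
        (cut (fun i => r (D i) = 0)).comp (aeval ψ) := by
      ext i
      simp [hσ]
    rw [this]; rfl
  have hzero : ∀ j, r (β j) = 0 → aeval ψ (F j) = F j := by
    intro j hj
    have h3 := (zero_rename hneg (hm.pre.hom j) hj).1
    rw [← h3, aeval_rename]
    have : (ψ ∘ fun i : {i // r (D i) = 0} => i.1) = fun i => MvPolynomial.X i.1 := by
      funext i
      exact hψ0 i.1 i.2
    rw [this, aeval_X_eq_rename]
  have hσh : ∀ i, IsWeightedHomogeneous D' (σ i) (φ (D i)) := fun i => by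
    have := (zero_rename hneg (hψh i) (hφr _)).2 D' (fun i => rfl)
    exact this
  have hσX : ∀ x ∈ X, SameOrbit D x (fun i => eval (fun k : {i // r (D i) = 0} => x k.1) (σ i)) :=
    fun x hx => by
      obtain ⟨u, hu0, hu⟩ := hψu x hx
      refine ⟨(zpowersHom ℂˣ (Units.mk0 u hu0)).comp (AddMonoidHom.toMultiplicative r), fun i => ?_⟩
      have h3 := (zero_rename hneg (hψh i) (hφr _)).1
      have h4 : eval (fun k : {i // r (D i) = 0} => x k.1) (σ i) = eval x (ψ i) := by
        conv_rhs => rw [← h3]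
        rw [eval_rename]
        rfl
      change eval (fun k : {i // r (D i) = 0} => x k.1) (σ i) = _
      rw [h4, hu i]
      congr 1
      have h5 : ((r (D i)).toNat : ℤ) = r (D i) := Int.toNat_of_nonneg (hneg i)
      simp only [MonoidHom.coe_comp, Function.comp_apply, AddMonoidHom.toMultiplicative_apply_apply,
        toAdd_ofAdd, zpowersHom_apply, Units.val_zpow_eq_zpow_val, Units.val_mk0]
      rw [← zpow_natCast, h5]
  have hB' := transfer_cone (fun i => r (D i) = 0) φ D' σ hσh hσX hB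
  have hφD : ∀ i : {i // r (D i) = 0}, D' i = φ (D i.1) := fun i => by
    ext
    rw [hφ0 _ i.2]
  have htr := hm.transfer (fun i => r (D i) = 0) (fun j => r (β j) = 0) hs0 ht0 r.ker.subtype φ
    (fun m' => by
      ext
      rw [hφv]
      simp [show r (m' : M) = 0 from m'.2])
    D' (fun i => rfl) σ
    (fun i => by
      simp only [hσ]
      rw [hψ0 i.1 i.2]
      simp [cut, i.2]) hσh
    (fun j hj => by
      rw [hcutψ, hψF j (lt_of_le_of_ne (hβ j) (Ne.symm hj)), map_zero]) hσX
    (fun x hx => by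
      have h3 := zero_jac hm.pre.hom (fun j => t j = none ∧ ¬ InCone D {i | x i ≠ 0} (β j))
        (hm.jac x hx) hneg
      have h4 : ∀ j : {j // r (β j) = 0}, aeval σ (F j.1) =
          cut (fun i => r (D i) = 0) (F j.1) := fun j => by rw [hcutψ, hzero j.1 j.2]
      simp only [h4]
      exact h3)
  obtain ⟨hm', hnefT, hsaT⟩ := htr
  have hcanon : ((gcanon D' (fun j : {j // r (β j) = 0} => φ (β j.1)) (fun i => s i.1)
      (fun j => t j.1) (fun a => φ (χ a)) (φ κ) k : r.ker) : M) =
      gcanon D β s t χ κ k - δ := by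
    have s1 := sum_split (fun j => if t j = none then β j else 0) (fun j => r (β j) = 0)
      (fun j => 0 < r (β j)) (fun j => by
      have := hβ j; constructor <;> intro h <;> omega)
    have s2 := sum_split (fun i => if s i = none then D i else 0) (fun j => r (D j) = 0)
      (fun j => 0 < r (D j)) (fun j => by
      have := hneg j; constructor <;> intro h <;> omega)
    have s1' : ∑ j, (if 0 < r (β j) then (if t j = none then β j else 0) else 0) =
        ∑ j, (if 0 < r (β j) then β j else 0) :=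
      Finset.sum_congr rfl fun j _ => ite_ite_eq (ht1 j) _
    have s2' : ∑ i, (if 0 < r (D i) then (if s i = none then D i else 0) else 0) =
        ∑ i, (if 0 < r (D i) then D i else 0) :=
      Finset.sum_congr rfl fun j _ => ite_ite_eq (hs1 j) _
    rw [s1'] at s1
    rw [s2'] at s2
    have s3 : ∑ j : {j // r (β j) = 0}, (((if t j.1 = none then φ (β j.1) else 0 : r.ker)) : M) =
        ∑ j : {j // r (β j) = 0}, (if t j.1 = none then β j.1 else 0) :=
      Finset.sum_congr rfl fun j _ => by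
        split_ifs
        · exact hφ0 _ j.2
        · rfl
    have s4 : ∑ i : {i // r (D i) = 0}, (((if s i.1 = none then D' i else 0 : r.ker)) : M) =
        ∑ i : {i // r (D i) = 0}, (if s i.1 = none then D i.1 else 0) :=
      Finset.sum_congr rfl fun i _ => by
        split_ifs
        · rfl
        · rfl
    have s5 : ∑ a, ((k a • φ (χ a) : r.ker) : M) = ∑ a, k a • χ a :=
      Finset.sum_congr rfl fun a _ => by
        rw [AddSubgroup.coe_zsmul, hφ0 _ (hχ0 a)]
    rw [gcanon, AddSubgroup.coe_sub, AddSubgroup.coe_add, AddSubgroup.coe_add,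
      AddSubgroup.val_finsetSum, AddSubgroup.val_finsetSum, AddSubgroup.val_finsetSum, hφ0 _ hκ0,
      s5, s3, s4, gcanon, hδ, s1, s2]
    abel
  have hφc : φ (gcanon D β s t χ κ k) = gcanon D' (fun j : {j // r (β j) = 0} => φ (β j.1))
      (fun i => s i.1) (fun j => t j.1) (fun a => φ (χ a)) (φ κ) k := by
    ext
    rw [hcanon, hφv, hra1]
    simp only [neg_smul, one_smul]
    abel
  have hφa : φ (c • gcanon D β s t χ κ k + B) =
      c • gcanon D' (fun j : {j // r (β j) = 0} => φ (β j.1))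
      (fun i => s i.1) (fun j => t j.1) (fun a => φ (χ a)) (φ κ) k + φ B := by
    rw [map_add, map_nsmul, hφc]
  have hlt : Fintype.card {i // r (D i) = 0} < Fintype.card I := by
    obtain ⟨x₀, hx₀⟩ := hne
    obtain ⟨i, hi, _⟩ := hψ1 x₀ hx₀
    exact Fintype.card_subtype_lt (x := i) (by rw [hi]; decide)
  obtain ⟨q, hq⟩ := Int.eq_ofNat_of_zero_le (neg_nonneg.mpr hrA)
  have hu1 : ∀ y ∈ X, (fun x => u x ^ q) y ≠ 0 := fun y hy => pow_ne_zero _ (hu0 y hy)
  have hκ' : ∀ z ∈ restr (fun i => r (D i) = 0) X,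
      InCone D' {k | s k.1 = some none ∧ z k ≠ 0} (φ κ) := by
    rintro z ⟨x, hx, rfl⟩
    exact (hκ x hx).restr hφD fun i hi => hs0 i (by
      rw [hi.1]; exact Option.some_ne_none _)
  have hfin := ih {i // r (D i) = 0} {j // r (β j) = 0} r.ker D' (φ θ)
    (fun j => φ (β j.1)) (fun j => aeval σ (F j.1)) (restr (fun i => r (D i) = 0) X)
    (fun i => s i.1) (fun j => t j.1) (fun a => φ (χ a)) (φ κ) c (φ B) hlt hm'
    hκ' hB' (by
      rw [← hφa]
      refine hnefT _ ⟨fun x => u x ^ q, ?_, hu1⟩ hnef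
      have e2 : c • gcanon D β s t χ κ k + B -
          r.ker.subtype (φ (c • gcanon D β s t χ κ k + B)) = q • δ := by
        rw [AddSubgroup.coe_subtype, hφv]
        have e1 : r (c • gcanon D β s t χ κ k + B) = -(q : ℤ) := by omega
        rw [e1, neg_smul, natCast_zsmul]
        abel
      rw [e2]
      exact hu.pow q)
  have h6 := hsaT _ hfin
  rw [← hφa, AddSubgroup.coe_subtype, hφv] at h6
  have := semiample_shift (hu.pow q) hu1 h6
  have e : c • gcanon D β s t χ κ k + B + r (c • gcanon D β s t χ κ k + B) • δ + q • δ =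
      c • gcanon D β s t χ κ k + B := by
    have e1 : r (c • gcanon D β s t χ κ k + B) = -(q : ℤ) := by omega
    rw [e1, neg_smul, natCast_zsmul]
    abel
  rwa [e] at this

/-- indecomposability from `K ⬝ r = -1` -/
theorem indec_of_canon [Fintype I] (hm : PreModel D θ β F X) {c A : M} {k n N : ℕ} (hn : 1 ≤ n)
    (hN : 1 ≤ N) (hA : ConeAll D X A) (hc : ConeAll D X (n • (k • c + A) + N • θ)) {r : M →+ ℤ}
    (hr : r (n • (k • c + A) + N • θ) = 0) (hra : r c = -1) {x : I → ℂ} (hx : x ∈ X) :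
    Indec D x r := by
  intro ν₁ ν₂ h1 h2 h12
  by_contra hcon
  push Not at hcon
  have hb1 := h1.inCone (hc x hx)
  have hb2 := h2.inCone (hc x hx)
  have hA1 := h1.inCone (hA x hx)
  have hA2 := h2.inCone (hA x hx)
  have ht1 := theta_pos hm hx h1 hcon.1
  have ht2 := theta_pos hm hx h2 hcon.2
  have hs : ν₁ (n • (k • c + A) + N • θ) + ν₂ (n • (k • c + A) + N • θ) = 0 := by
    rw [← hr, ← h12, AddMonoidHom.add_apply]
  have hs' : ν₁ c + ν₂ c = -1 := by rw [← hra, ← h12, AddMonoidHom.add_apply]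
  have e : ∀ ν : M →+ ℤ, ν (n • (k • c + A) + N • θ) = n * (k * ν c + ν A) + N * ν θ := fun ν => by
    simp only [map_add, map_nsmul, nsmul_eq_mul]
  have hN' : (0 : ℤ) < N := by exact_mod_cast hN
  have hn' : (0 : ℤ) < n := by exact_mod_cast hn
  have key : ∀ ν : M →+ ℤ, ν (n • (k • c + A) + N • θ) = 0 → 0 ≤ ν A → 0 < ν θ → ν c < 0 := by
    intro ν h0 hA0 hθ0
    rw [e] at h0
    by_contra hcon
    push Not at hcon
    have a1 := mul_nonneg (Int.natCast_nonneg k) hcon
    have a2 := mul_nonneg hn'.le (add_nonneg a1 hA0)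
    have a3 := mul_pos hN' hθ0
    omega
  have k1 := key ν₁ (by omega) hA1 ht1
  have k2 := key ν₂ (by omega) hA2 ht2
  omega

theorem gstep [Fintype I] [Fintype J] [Fintype A] (ih : GBelow A n k (Fintype.card I))
    (hk : ∀ a, -(n a : ℤ) ≤ k a) (hm : GModel D θ β F X s t χ n)
    (hκ : ∀ x ∈ X, InCone D {k | s k = some none ∧ x k ≠ 0} κ)
    {c : ℕ} {B : M} (hB : ConeAll D X B) (hnef : IsNef D X (c • gcanon D β s t χ κ k + B)) :
    IsSemiample D X (c • gcanon D β s t χ κ k + B) := by
  classical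
  by_cases hcone : ConeAll D X (c • gcanon D β s t χ κ k + B)
  · exact semiample_of_coneAll hcone
  obtain ⟨m, N, r, x₀, hn, hN, hca, hx₀, hrx₀, hrb, hr0, hext⟩ :=
    exists_extremal hm.pre _ hcone
  have hna : ∀ (ρ : M →+ ℤ) (y : I → Polynomial ℂ), HasClass D ρ y → (∀ t, evl y t ∈ X) →
      cv D ρ y ∈ X → ρ (m • (c • gcanon D β s t χ κ k + B) + N • θ) ≤ 0 → ρ θ ≤ 0 :=
    fun ρ y h1 h2 h3 h4 => nef_theta hm.pre hnef hn hN hca ρ y h1 h2 h3 h4
  have hθ := theta_pos hm.pre hx₀ hrx₀ hr0
  have hrA0 : 0 ≤ r B := hrx₀.inCone (hB x₀ hx₀)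
  have hra0 : r (c • gcanon D β s t χ κ k + B) < 0 := by
    have : (m : ℤ) * r (c • gcanon D β s t χ κ k + B) + (N : ℤ) * r θ = 0 := by
      rw [map_add, map_nsmul r m, map_nsmul r N, nsmul_eq_mul, nsmul_eq_mul] at hrb
      exact hrb
    have h1 : (0 : ℤ) < N := by exact_mod_cast hN
    have h2 : (0 : ℤ) < m := by exact_mod_cast hn
    by_contra hcon
    push Not at hcon
    nlinarith [mul_pos h1 hθ, mul_nonneg h2.le hcon]
  have hraA : r (c • gcanon D β s t χ κ k + B) = c * r (gcanon D β s t χ κ k) + r B := by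
    rw [map_add, map_nsmul, nsmul_eq_mul]
  have hrc0 : r (gcanon D β s t χ κ k) < 0 := by
    by_contra hcon
    push Not at hcon
    have := mul_nonneg (Int.natCast_nonneg c) hcon
    omega
  -- the base
  obtain ⟨hs0, ht0, hκ0, hχ0⟩ := hm.base_zero hκ hk hx₀ hrx₀ hext hrb
    (fib_finite hm.pre hnef hn hN hca hx₀) hrc0
  have hind₀ := indec_of_extremal hm.pre hx₀ hrx₀ hr0 hext
  have hcount := count_le hm.pre hx₀ hrx₀ hr0
    (fun γ h1 h2 h3 => trivial_curve hm.pre hna hn hN hca hrb hx₀ hrx₀ hind₀ γ h1 h2 h3)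
  obtain ⟨hlay, hlay2⟩ := layers (F := fun j : {j // t j = none} => F j.1)
      (β := fun j : {j // t j = none} => β j.1) (fun j => hm.pre.hom j.1)
      (hm.jac_neg hx₀ hrx₀) hrx₀
  have hsubs : ∑ j : {j // t j = none}, (-r (β j.1)).toNat = ∑ j, (-r (β j)).toNat := by
    rw [← Finset.sum_subtype (Finset.univ.filter fun j => t j = none)
      (fun i => by simp) (fun j => (-r (β j)).toNat), Finset.sum_filter]
    refine Finset.sum_congr rfl fun j _ => ?_
    split_ifs with h
    · rfl
    · rw [ht0 j h]; rfl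
  rw [hsubs] at hlay hlay2
  have hra : r (gcanon D β s t χ κ k) = ∑ j, r (β j) - ∑ i, r (D i) := by
    have h1 : ∀ a, r (k a • χ a) = 0 := fun a => by rw [map_zsmul, hχ0, smul_zero]
    rw [gcanon, map_sub, map_add, map_add, map_sum, map_sum, map_sum, hκ0]
    simp only [h1]
    rw [Finset.sum_const_zero, zero_add, zero_add]
    congr 1
    · refine Finset.sum_congr rfl fun j _ => ?_
      split_ifs with h
      · rfl
      · rw [map_zero, ht0 j h]
    · refine Finset.sum_congr rfl fun j _ => ?_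
      split_ifs with h
      · rfl
      · rw [map_zero, hs0 j h]
  have e1 : ∑ j, r (β j) = (∑ j, (r (β j)).toNat : ℕ) - ((∑ j, (-r (β j)).toNat : ℕ) : ℤ) := by
    push_cast
    rw [← Finset.sum_sub_distrib]
    refine Finset.sum_congr rfl fun j _ => ?_
    have := toNat_sub_toNat_neg' (r (β j))
    omega
  have e2 : ∑ i, r (D i) = (∑ i, (r (D i)).toNat : ℕ) - ((∑ i, (-r (D i)).toNat : ℕ) : ℤ) := by
    push_cast
    rw [← Finset.sum_sub_distrib]
    refine Finset.sum_congr rfl fun j _ => ?_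
    have := toNat_sub_toNat_neg' (r (D j))
    omega
  have hra1 : r (gcanon D β s t χ κ k) = -1 := by omega
  have heq : ∑ j, (-r (β j)).toNat = ∑ i, (-r (D i)).toNat := by omega
  have hsum : ∑ i, (r (D i)).toNat = ∑ j, (r (β j)).toNat + 1 := by omega
  by_cases hneg : ∃ i, r (D i) < 0
  · refine gstep_neg ih hm hκ hB hnef hx₀ hrx₀ hs0 ht0 ?_ hneg
    rw [← hlay2 heq]
    exact Nat.card_congr
      { toFun := fun j => ⟨⟨j.1, by
          by_contra h
          have := j.2
          rw [ht0 j.1 h] at this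
          exact absurd this (lt_irrefl _)⟩, j.2⟩
        invFun := fun j => ⟨j.1.1, j.2⟩
        left_inv := fun j => rfl
        right_inv := fun j => rfl }
  · push Not at hneg
    have hβ : ∀ j, 0 ≤ r (β j) := by
      have h0 : ∑ i, (-r (D i)).toNat = 0 := Finset.sum_eq_zero fun i _ => by
        have := hneg i
        omega
      rw [h0] at heq
      intro j
      have := (Finset.sum_eq_zero_iff.mp heq) j (Finset.mem_univ j)
      omega
    have hNN : ∀ x, NonnegAt D x r := fun x i _ => hneg i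
    have htriv : ∀ x ∈ X, ∀ γ : I → Polynomial ℂ, HasClass D r γ → (∀ j, aeval γ (F j) = 0) →
        evl γ 0 = x → ∃ c : ℂ, ∀ i, γ i = Polynomial.C (x i) *
        (1 + Polynomial.C c * Polynomial.X) ^ (r (D i)).toNat := fun x hx γ h1 h2 h3 =>
      trivial_curve hm.pre hna hn hN hca hrb hx (hNN x)
        (indec_of_canon hm.pre hn hN hB hca hrb hra1 hx) γ h1 h2 h3
    have hfibx : ∀ y ∈ X, (∀ i, r (D i) = 0 → y i = x₀ i) →
        y ∈ Fib D X (m • (c • gcanon D β s t χ κ k + B) + N • θ) x₀ := by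
      intro y hy hyx
      refine ⟨hy, fun m' e e' he he' => ?_⟩
      have h1 : ∀ e : I →₀ ℕ, Finsupp.weight D e =
          m' • (m • (c • gcanon D β s t χ κ k + B) + N • θ) →
          eval y (monomial e (1 : ℂ)) = eval x₀ (monomial e (1 : ℂ)) := by
        intro e he
        rw [eval_mono, eval_mono]
        refine Finset.prod_congr rfl fun i hi => ?_
        have h2 : r (D i) = 0 := zero_of_weight_zero (fun i _ => hneg i)
          (by rw [he, map_nsmul, hrb, smul_zero]) i (Finsupp.mem_support_iff.mp hi)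
        beta_reduce
        rw [hyx i h2]
      rw [h1 e he, h1 e' he']
      ring
    have hcardP := card_pos_le hm.pre hx₀ hneg hβ hr0 hext (by
      obtain ⟨E, hE, hE2⟩ := fib_finite hm.pre hnef hn hN hca hx₀
      exact ⟨E, hE, fun y hy hyx => hE2 y (hfibx y hy hyx)⟩)
    have hrow : ∀ x ∈ X, ∀ w : ℤ, 0 < w →
      LinearIndependent ℂ (fun (j : {j // r (β j) = w}) (i : {i // r (D i) = w}) =>
      eval x (pderiv i.1 (F j.1))) := fun x hx w hw =>
        rows_indep hm.pre hx hneg hβ hr0 (htriv x hx) hsum hcardP w hw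
    obtain ⟨h1, h2⟩ := numerics (fun i => r (D i)) (fun j => r (β j)) hneg hβ hsum (by
      intro w hw
      have := (hrow x₀ hx₀ w hw).fintype_card_le_finrank
      rw [Nat.card_eq_fintype_card, Nat.card_eq_fintype_card]
      simpa using this)
    exact gstep_pos ih hm hκ hB hnef ⟨x₀, hx₀⟩ hs0 ht0 hκ0 hχ0 hneg hβ hr0 hra1 hra0.le hrow h1 h2

theorem gbelow [Fintype A] (hk : ∀ a, -(n a : ℤ) ≤ k a) (N : ℕ) : GBelow A n k N := by
  induction N with
  | zero => intro I J M _ _ _ D θ β F X s t χ κ c B h; exact absurd h (Nat.not_lt_zero _)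
  | succ N ih =>
    intro I J M _ _ _ D θ β F X s t χ κ c B h hm hκ hB hnef
    refine gstep ?_ hk hm hκ hB hnef
    intro I' J' M' _ _ _ D' θ' β' F' X' s' t' χ' κ' c' B' h' hm' hκ' hB' hnef'
    exact ih I' J' M' D' θ' β' F' X' s' t' χ' κ' c' B' (by omega) hm' hκ' hB' hnef'

/-- Abundance for models with a base, twisted by a class in all cones. -/
theorem gabundance [Fintype I] [Fintype J] [Fintype A] (hk : ∀ a, -(n a : ℤ) ≤ k a)
    (hm : GModel D θ β F X s t χ n)
    (hκ : ∀ x ∈ X, InCone D {k | s k = some none ∧ x k ≠ 0} κ)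
    {c : ℕ} {B : M} (hB : ConeAll D X B) (hnef : IsNef D X (c • gcanon D β s t χ κ k + B)) :
    IsSemiample D X (c • gcanon D β s t χ κ k + B) :=
  gstep (gbelow hk _) hk hm hκ hB hnef

end Pool.Agent.H6.Ab
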