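import Pool.Agent.H6.Ab.ToricVal

/-!
# The premodel of a closed subvariety of a toric variety

This file follows `Pool.Agent.H24.Ab.Toric`.
-/

set_option autoImplicit false

namespace Pool.Agent.H6.Ab

open MvPolynomial

variable {I J M : Type} [AddCommGroup M] {D : I → M} {θ : M}
  {β : J → M} {F : J → MvPolynomial I ℂ}

lemma eval_aeval_evl (y : I → Polynomial ℂ) (P : MvPolynomial I ℂ) (t : ℂ) :
    (aeval y P).eval t = eval (evl y t) P := by
  have h := comp_aeval_apply y (Polynomial.aeval t : Polynomial ℂ →ₐ[ℂ] ℂ) P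
  rw [Polynomial.coe_aeval_eq_eval] at h
  rw [h]
  rfl

/-- An open and closed part `X` of the common zeros of the `F j` in the semistable locus is a
premodel, if it is connected and if the action along `X` is free. -/
theorem toric_premodel [Fintype I]
    (hM : Module.Finite ℤ M)
    (hF : ∀ j, IsWeightedHomogeneous D (F j) (β j))
    {X : Set (I → ℂ)} (hX : IsSub D (ConeLocus D θ F) X)
    (hX' : IsSub D (ConeLocus D θ F) (ConeLocus D θ F \ X))
    (hfree : ∀ x ∈ X, AddSubgroup.closure (D '' {i | x i ≠ 0}) = ⊤)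
    (hconn : ∀ Y Y' : Set (I → ℂ), IsSub D X Y → IsSub D X Y' → Y ∪ Y' = X → Y ∩ Y' = ∅ →
      Y = ∅ ∨ Y' = ∅) :
    PreModel D θ β F X := by
  obtain ⟨S, hS, hXS⟩ := hX
  obtain ⟨S', hS', hXS'⟩ := hX'
  choose bS hbS using hS
  -- `X` as a cone locus
  let G : J ⊕ S → MvPolynomial I ℂ := Sum.elim F (fun P => P.1)
  let γ : J ⊕ S → M := Sum.elim β (fun P => bS P.1 P.2)
  have hG : ∀ k, IsWeightedHomogeneous D (G k) (γ k) := by
    rintro (j | P)
    · exact hF j
    · exact hbS P.1 P.2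
  have hXG : X = ConeLocus D θ G := by
    ext x
    constructor
    · intro hx
      have hx' := hx
      rw [hXS] at hx'
      refine ⟨hx'.1.1, ?_⟩
      rintro (j | P)
      · exact hx'.1.2 j
      · exact hx'.2 P.1 P.2
    · rintro ⟨h1, h2⟩
      rw [hXS]
      exact ⟨⟨h1, fun j => h2 (Sum.inl j)⟩, fun P hP => h2 (Sum.inr ⟨P, hP⟩)⟩
  have hsub : ∀ x ∈ X, x ∈ ConeLocus D θ F := by
    intro x hx
    rw [hXS] at hx
    exact hx.1
  have hsep : ∀ x ∈ X, ∃ P ∈ S', eval x P ≠ 0 := by
    intro x hx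
    by_contra hcon
    push Not at hcon
    have h1 : x ∈ ConeLocus D θ F \ X := by
      rw [hXS']
      exact ⟨hsub x hx, hcon⟩
    exact h1.2 hx
  have hsep' : ∀ x ∈ ConeLocus D θ F, (∃ P ∈ S', eval x P ≠ 0) → x ∈ X := by
    rintro x hx ⟨P, hP, hP0⟩
    by_contra hcon
    have h1 : x ∈ ConeLocus D θ F \ X := ⟨hx, hcon⟩
    rw [hXS'] at h1
    exact hP0 (h1.2 P hP)
  have hfree' : ∀ x ∈ ConeLocus D θ G, AddSubgroup.closure (D '' {i | x i ≠ 0}) = ⊤ := by
    intro x hx
    rw [← hXG] at hx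
    exact hfree x hx
  have hopn : ∀ x ∈ X, ∃ (p : M) (h : MvPolynomial I ℂ), IsWeightedHomogeneous D h p ∧
      eval x h ≠ 0 ∧ ∀ y, eval y h ≠ 0 → (∀ j, eval y (F j) = 0) → y ∈ X := by
    intro x hx
    obtain ⟨p, h, hh, hx0, hop⟩ := toric_opn x (hsub x hx)
    obtain ⟨P, hP, hP0⟩ := hsep x hx
    obtain ⟨q, hq⟩ := hS' P hP
    refine ⟨p + q, h * P, hh.mul hq, ?_, fun y hy hyF => ?_⟩
    · rw [map_mul]
      exact mul_ne_zero hx0 hP0
    · rw [map_mul] at hy
      exact hsep' y (hop y (left_ne_zero_of_mul hy) hyF) ⟨P, hP, right_ne_zero_of_mul hy⟩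
  refine ⟨hM, hF, fun x hx => (hsub x hx).2, ?_, hopn, hfree, hconn, ?_⟩
  · intro x hx
    rw [hXG] at hx
    exact toric_inter hM hG hfree' x hx
  · rintro y hy ⟨t₀, ht₀⟩
    obtain ⟨p, h, hh, hx0, hop⟩ := hopn _ ht₀
    have h0 : aeval y h ≠ 0 := by
      intro h1
      apply hx0
      rw [← eval_aeval_evl, h1, Polynomial.eval_zero]
    have hy' : ∀ k, aeval y (G k) = 0 := by
      rintro (j | P)
      · exact hy j
      · have h2 : aeval y h * aeval y P.1 = 0 := by
          apply Polynomial.funext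
          intro t
          rw [Polynomial.eval_mul, Polynomial.eval_zero]
          by_cases h3 : (aeval y h).eval t = 0
          · rw [h3, zero_mul]
          · have h4 : evl y t ∈ X := by
              apply hop
              · rw [← eval_aeval_evl]
                exact h3
              · intro j
                rw [← eval_aeval_evl, hy j, Polynomial.eval_zero]
            rw [hXS] at h4
            rw [eval_aeval_evl y P.1, h4.2 P.1 P.2, mul_zero]
        exact (mul_eq_zero.mp h2).resolve_left h0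
    rw [hXG]
    refine toric_val hM hG hfree' y hy' ⟨t₀, ?_⟩
    rw [← hXG]
    exact ht₀

end Pool.Agent.H6.Ab
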