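import Pool.Agent.H6.Ab.BundleDefs
import Pool.Agent.H6.Ab.GMain
import Pool.Agent.H6.Ab.Toric
import Pool.Agent.H6.Ab.Conn

/-!
# Abundance for complete intersections in toric bundles
-/

set_option autoImplicit false

namespace Pool.Agent.H6.Ab

open MvPolynomial

variable {A B E I J M : Type} [AddCommGroup M]

/-- Conditions on the factor `Y₀` at the point `y`. -/
def SemiBase {A B M : Type} [AddCommGroup M] (s : B → Option A) (C : B → M) (κ : M)
    (y : B → ℂ) : Prop :=
  InCone C {b | s b = none ∧ y b ≠ 0} κ ∧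
    ∀ b', s b' = none → InCone C {b | s b = none ∧ y b ≠ 0} (C b')

/-- Conditions on the factor `Y_a` at the point `y`. -/
def ConeBase {A B E : Type} (s : B → Option A) (t : E → Option A)
    (G : E → MvPolynomial B ℂ) (a : A) (n : ℕ) (y : B → ℂ) : Prop :=
  (∃ b, s b = some a ∧ y b ≠ 0) ∧
    ∃ (m : ℕ) (P : Fin m → MvPolynomial B ℂ) (h : MvPolynomial B ℂ),
      m + n + 1 = Nat.card {b // s b = some a} ∧ (∀ l, eval y (P l) = 0) ∧ eval y h ≠ 0 ∧
        ∀ z : B → ℂ, eval z h ≠ 0 → (∀ l, eval z (P l) = 0) →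
          ∀ e, t e = some a → eval z (G e) = 0

/-- The kinds of the coordinates. -/
def kd {A B I : Type} (s : B → Option A) : B ⊕ I → Option (Option A) :=
  Sum.elim (fun b => some (s b)) (fun _ => none)

lemma inCone_inl {C : B → M} {D : I → M} {s : B → Option A} {x : B ⊕ I → ℂ} {κ : M}
    (h : InCone C {b | s b = none ∧ x (Sum.inl b) ≠ 0} κ) :
    InCone (Sum.elim C D) {k | kd s k = some none ∧ x k ≠ 0} κ := by
  classical
  obtain ⟨m, hm, e, he, hs⟩ := h
  refine ⟨m, hm, e.mapDomain Sum.inl, ?_, ?_⟩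
  · rw [← he, Finsupp.weight_apply, Finsupp.weight_apply,
      Finsupp.sum_mapDomain_index (by intro b; rw [zero_smul]) (by intro b m n; rw [add_smul])]
    rfl
  · rintro (b | i) hb
    · rw [Finsupp.mapDomain_apply Sum.inl_injective] at hb
      exact ⟨congrArg some (hs b hb).1, (hs b hb).2⟩
    · exfalso
      apply hb
      exact Finsupp.mapDomain_notin_range _ _ (by rintro ⟨b, hb⟩; cases hb)

lemma rename_hom {C : B → M} {D : I → M} {G : MvPolynomial B ℂ} {γ : M}
    (hG : IsWeightedHomogeneous C G γ) :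
    IsWeightedHomogeneous (Sum.elim C D) (rename Sum.inl G) γ := by
  have h := comp_hom (D := C) (D' := Sum.elim C D) (φ := AddMonoidHom.id M)
    (σ := fun b => (MvPolynomial.X (Sum.inl b) : MvPolynomial (B ⊕ I) ℂ))
    (fun b => isWeightedHomogeneous_X ℂ (Sum.elim C D) (Sum.inl b)) hG
  rwa [aeval_X_eq_rename] at h

lemma weight_closure {K : Type} {C : K → M} {p : K → Prop} {e : K →₀ ℕ}
    (he : ∀ b, e b ≠ 0 → p b) : Finsupp.weight C e ∈ AddSubgroup.closure (C '' {b | p b}) := by
  rw [Finsupp.weight_apply, Finsupp.sum]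
  exact AddSubgroup.sum_mem _ fun b hb => AddSubgroup.nsmul_mem _
    (AddSubgroup.subset_closure (Set.mem_image_of_mem C
      (he b (Finsupp.mem_support_iff.mp hb)))) _

lemma weight_multiple {K : Type} {C : K → M} {p : K → Prop} {e : K →₀ ℕ} {χ : M}
    (he : ∀ b, e b ≠ 0 → p b) (hC : ∀ b, p b → ∃ v : ℕ, 1 ≤ v ∧ C b = v • χ) :
    ∃ v : ℕ, Finsupp.weight C e = v • χ := by
  classical
  choose! v hv using hC
  refine ⟨∑ b ∈ e.support, e b * v b, ?_⟩
  rw [Finsupp.weight_apply, Finsupp.sum, Finset.sum_smul]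
  refine Finset.sum_congr rfl fun b hb => ?_
  rw [(hv b (he b (Finsupp.mem_support_iff.mp hb))).2, smul_smul]

lemma card_kd {s : B → Option A} (a : A) :
    Nat.card {b // s b = some a} =
      Nat.card {k : B ⊕ I // kd s k = some (some a)} := by
  refine Nat.card_eq_of_bijective (fun b : {b // s b = some a} =>
    (⟨Sum.inl b.1, congrArg some b.2⟩ : {k : B ⊕ I // kd s k = some (some a)})) ⟨?_, ?_⟩
  · intro b b' h
    exact Subtype.ext (Sum.inl_injective (congrArg
      (fun k : {k : B ⊕ I // kd s k = some (some a)} => k.1) h))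
  · rintro ⟨b | i, hk⟩
    · exact ⟨⟨b, Option.some.inj hk⟩, rfl⟩
    · exact absurd hk (by simp [kd])

/-- The model of a complete intersection in a toric bundle. -/
theorem bundle_model [Fintype A] [Fintype B] [Fintype E] [Fintype I] [Fintype J]
    [Module.Finite ℤ M] (s : B → Option A) (t : E → Option A) (C : B → M) (D : I → M) (θ : M)
    (γ : E → M) (G : E → MvPolynomial B ℂ) (hG : ∀ e, IsWeightedHomogeneous C (G e) (γ e))
    (hγ : ∀ e, G e = 0 → γ e = 0)
    (hvars : ∀ e, ∀ b ∈ (G e).vars, s b = t e)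
    (β : J → M) (F : J → MvPolynomial (B ⊕ I) ℂ)
    (hF : ∀ j, IsWeightedHomogeneous (Sum.elim C D) (F j) (β j))
    (X : Set (B ⊕ I → ℂ)) (hX : IsSub (Sum.elim C D) (BundleCone C D θ G F) X)
    (hX' : IsSub (Sum.elim C D) (BundleCone C D θ G F) (BundleCone C D θ G F \ X))
    (hconn : ∀ Y Y' : Set (B ⊕ I → ℂ), IsSub (Sum.elim C D) X Y → IsSub (Sum.elim C D) X Y' →
      Y ∪ Y' = X → Y ∩ Y' = ∅ → Y = ∅ ∨ Y' = ∅)
    (hfree : ∀ x ∈ X, AddSubgroup.closure (Sum.elim C D '' {k | x k ≠ 0}) = ⊤)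
    (hsmooth : ∀ x ∈ X, LinearIndependent ℂ
      (fun (j : {j // ¬ InCone (Sum.elim C D) {k | x k ≠ 0} (β j)}) (k : B ⊕ I) =>
        eval x (pderiv k (F j.1))))
    (κ : M) (hY₀ : ∀ x ∈ X, SemiBase s C κ (fun b => x (Sum.inl b)))
    (χ : A → M) (n : A → ℕ)
    (hdeg : ∀ b a, s b = some a → ∃ v : ℕ, 1 ≤ v ∧ C b = v • χ a)
    (hY : ∀ x ∈ X, ∀ a, ConeBase s t G a (n a) (fun b => x (Sum.inl b))) :
    GModel (Sum.elim C D) θ (Sum.elim γ β) (Sum.elim (fun e => rename Sum.inl (G e)) F)
      X (kd s) (Sum.elim (fun e => some (t e)) (fun _ => none)) χ n := by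
  classical
  have hhom : ∀ j, IsWeightedHomogeneous (Sum.elim C D)
      ((Sum.elim (fun e => rename Sum.inl (G e)) F : E ⊕ J → _) j) (Sum.elim γ β j) := by
    rintro (e | j)
    · exact rename_hom (hG e)
    · exact hF j
  refine ⟨toric_premodel inferInstance hhom hX hX' hfree hconn, ?_, ?_, ?_, ?_, ?_, ?_, ?_, ?_⟩
  · -- jac
    intro x hx
    let ee : {k : E ⊕ J // (Sum.elim (fun e => some (t e)) (fun _ => none) : E ⊕ J → _) k = none ∧
        ¬ InCone (Sum.elim C D) {k | x k ≠ 0} (Sum.elim γ β k)} →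
        {j // ¬ InCone (Sum.elim C D) {k | x k ≠ 0} (β j)} :=
      fun k => match k with
        | ⟨Sum.inl e, he⟩ => absurd he.1 (by simp)
        | ⟨Sum.inr j, hj⟩ => ⟨j, hj.2⟩
    have h1 := (hsmooth x hx).comp ee (by
      rintro ⟨e | j, hk⟩ ⟨e' | j', hk'⟩ h
      · exact absurd hk.1 (by simp)
      · exact absurd hk.1 (by simp)
      · exact absurd hk'.1 (by simp)
      · exact Subtype.ext (congrArg Sum.inr (congrArg Subtype.val h)))
    have h2 : (fun (k : {k : E ⊕ J //
          (Sum.elim (fun e => some (t e)) (fun _ => none) : E ⊕ J → _) k = none ∧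
          ¬ InCone (Sum.elim C D) {k | x k ≠ 0} (Sum.elim γ β k)})
        (i : B ⊕ I) => eval x (pderiv i ((Sum.elim (fun e => rename Sum.inl (G e)) F :
          E ⊕ J → MvPolynomial (B ⊕ I) ℂ) k.1))) =
        (fun (j : {j // ¬ InCone (Sum.elim C D) {k | x k ≠ 0} (β j)}) (k : B ⊕ I) =>
          eval x (pderiv k (F j.1))) ∘ ee := by
      funext ⟨k, hk⟩ i
      rcases k with e | j
      · exact absurd hk.1 (by simp)
      · rfl
    rw [h2]
    exact h1
  · -- semi
    intro x hx k hk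
    rcases k with b | i
    · exact inCone_inl ((hY₀ x hx).2 b (Option.some.inj hk))
    · exact absurd hk (by simp [kd])
  · -- eq0
    intro k hk
    rcases k with e | j
    · have ht : t e = none := Option.some.inj hk
      by_cases h0 : G e = 0
      · change γ e ∈ _
        rw [hγ e h0]
        exact AddSubgroup.zero_mem _
      · obtain ⟨m, hm⟩ := exists_coeff_ne_zero h0
        have h1 : Finsupp.weight C m ∈ AddSubgroup.closure (C '' {b | s b = none}) :=
          weight_closure fun b hb => by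
            rw [← ht]
            exact hvars e b ((mem_vars_iff_mem_support b).mpr
              ⟨m, mem_support_iff.mpr hm, Finsupp.mem_support_iff.mpr hb⟩)
        rw [hG e hm] at h1
        refine AddSubgroup.closure_mono ?_ h1
        rintro _ ⟨b, hb, rfl⟩
        exact ⟨Sum.inl b, congrArg some hb, rfl⟩
    · exact absurd hk (by simp)
  · -- deg
    intro k a hk
    rcases k with b | i
    · exact hdeg b a (Option.some.inj hk)
    · exact absurd hk (by simp [kd])
  · -- eqa
    intro k a hk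
    rcases k with e | j
    · have ht : t e = some a := Option.some.inj hk
      by_cases h0 : G e = 0
      · refine ⟨0, ?_⟩
        change γ e = _
        rw [hγ e h0, zero_smul]
      · obtain ⟨m, hm⟩ := exists_coeff_ne_zero h0
        have h1 := weight_multiple (C := C) (p := fun b => s b = some a) (e := m)
          (χ := χ a) (fun b hb => by
            rw [← ht]
            exact hvars e b ((mem_vars_iff_mem_support b).mpr
              ⟨m, mem_support_iff.mpr hm, Finsupp.mem_support_iff.mpr hb⟩))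
          (fun b hb => hdeg b a hb)
        rw [hG e hm] at h1
        exact h1
    · exact absurd hk (by simp)
  · -- nz
    intro x hx a
    obtain ⟨b, hb, hxb⟩ := (hY x hx a).1
    exact ⟨Sum.inl b, congrArg some hb, hxb⟩
  · -- dep
    intro k hk y y' hyy
    rcases k with e | j
    · change eval y (rename Sum.inl (G e)) = eval y' (rename Sum.inl (G e))
      rw [eval_rename, eval_rename]
      refine eval₂Hom_congr' rfl (fun b hb _ => ?_) rfl
      exact hyy (Sum.inl b) (congrArg some (hvars e b hb))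
    · exact absurd rfl hk
  · -- loc
    intro x hx a
    obtain ⟨-, m, P, h, hc, hP, hh, hloc⟩ := hY x hx a
    refine ⟨m, fun l => rename Sum.inl (P l), rename Sum.inl h, ?_, fun l => ?_, ?_, ?_⟩
    · rw [hc]; exact card_kd a
    · rw [eval_rename]; exact hP l
    · rw [eval_rename]; exact hh
    · intro y hy hyP k hk
      rcases k with e | j
      · change eval y (rename Sum.inl (G e)) = 0
        rw [eval_rename] at hy ⊢
        exact hloc _ hy (fun l => by
          have := hyP l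
          rw [eval_rename] at this
          exact this) e (Option.some.inj hk)
      · exact absurd hk (by simp)

lemma InCone.mono {K : Type} {C : K → M} {S S' : Set K} {b : M} (h : InCone C S b) (hS : S ⊆ S') :
    InCone C S' b := by
  obtain ⟨m, hm, e, he, hs⟩ := h
  exact ⟨m, hm, e, he, fun i hi => hS (hs i hi)⟩

lemma InCone.zero {K : Type} {C : K → M} {S : Set K} : InCone C S 0 :=
  ⟨1, le_rfl, 0, by rw [map_zero, smul_zero], fun i hi => absurd rfl hi⟩

lemma InCone.add {K : Type} {C : K → M} {S : Set K} {b b' : M} (h : InCone C S b)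
    (h' : InCone C S b') : InCone C S (b + b') := by
  obtain ⟨m, hm, e, he, hs⟩ := h
  obtain ⟨m', hm', e', he', hs'⟩ := h'
  refine ⟨m * m', Nat.mul_pos hm hm', m' • e + m • e', ?_, fun i hi => ?_⟩
  · rw [map_add, map_nsmul, map_nsmul, he, he', smul_add, smul_smul, smul_smul, mul_comm m' m]
  · by_cases h1 : e i = 0
    · refine hs' i fun h2 => hi ?_
      simp [h1, h2]
    · exact hs i h1

lemma InCone.sum {K L : Type} {C : K → M} {S : Set K} (T : Finset L) (f : L → M)
    (h : ∀ l ∈ T, InCone C S (f l)) : InCone C S (∑ l ∈ T, f l) := by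
  classical
  induction T using Finset.induction_on with
  | empty => rw [Finset.sum_empty]; exact InCone.zero
  | insert a T ha ih =>
    rw [Finset.sum_insert ha]
    exact (h a (Finset.mem_insert_self _ _)).add
      (ih fun l hl => h l (Finset.mem_insert_of_mem hl))

lemma gcanon_bundle [Fintype A] [Fintype B] [Fintype E] [Fintype I] [Fintype J]
    (s : B → Option A) (t : E → Option A) (C : B → M) (D : I → M) (γ : E → M) (β : J → M)
    (χ : A → M) (κ : M) (k : A → ℤ) :
    gcanon (Sum.elim C D) (Sum.elim γ β) (kd s) (Sum.elim (fun e => some (t e)) (fun _ => none))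
      χ κ k = κ + ∑ a, k a • χ a + ∑ j, β j - ∑ i, D i := by
  classical
  rw [gcanon, Fintype.sum_sum_type, Fintype.sum_sum_type]
  have h1 : ∑ e : E, (if (Sum.elim (fun e => some (t e)) (fun _ => none) :
      E ⊕ J → Option (Option A)) (Sum.inl e) = none then
        (Sum.elim γ β : E ⊕ J → M) (Sum.inl e) else 0) = 0 :=
    Finset.sum_eq_zero fun e _ => if_neg (Option.some_ne_none _)
  have h2 : ∑ b : B, (if kd s (Sum.inl b : B ⊕ I) = none then
        (Sum.elim C D : B ⊕ I → M) (Sum.inl b) else 0) = 0 :=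
    Finset.sum_eq_zero fun e _ => if_neg (Option.some_ne_none _)
  have h3 : ∑ j : J, (if (Sum.elim (fun e => some (t e)) (fun _ => none) :
      E ⊕ J → Option (Option A)) (Sum.inr j) = none then
        (Sum.elim γ β : E ⊕ J → M) (Sum.inr j) else 0) = ∑ j, β j :=
    Finset.sum_congr rfl fun j _ => if_pos rfl
  have h4 : ∑ i : I, (if kd s (Sum.inr i : B ⊕ I) = none then
        (Sum.elim C D : B ⊕ I → M) (Sum.inr i) else 0) = ∑ i, D i :=
    Finset.sum_congr rfl fun j _ => if_pos rfl
  convert congrArg₂ (fun x y => κ + ∑ a, k a • χ a + x - y) (congrArg₂ (· + ·) h1 h3)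
    (congrArg₂ (· + ·) h2 h4) using 2
  · simp only [zero_add]
  · simp only [zero_add]

/-- Abundance for complete intersections in toric bundles over `Y = Y₀ × ∏ a, Y_a`. -/
theorem bundle_abundance [Fintype A] [Fintype B] [Fintype E] [Fintype I] [Fintype J]
    [Module.Finite ℤ M] (s : B → Option A) (t : E → Option A) (C : B → M) (D : I → M) (θ : M)
    (G : E → MvPolynomial B ℂ) (hG : ∀ e, ∃ γ, IsWeightedHomogeneous C (G e) γ)
    (hvars : ∀ e, ∀ b ∈ (G e).vars, s b = t e)
    (β : J → M) (F : J → MvPolynomial (B ⊕ I) ℂ)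
    (hF : ∀ j, IsWeightedHomogeneous (Sum.elim C D) (F j) (β j))
    (X : Set (B ⊕ I → ℂ)) (hX : IsSub (Sum.elim C D) (BundleCone C D θ G F) X)
    (hX' : IsSub (Sum.elim C D) (BundleCone C D θ G F) (BundleCone C D θ G F \ X))
    (hfree : ∀ x ∈ X, AddSubgroup.closure (Sum.elim C D '' {k | x k ≠ 0}) = ⊤)
    (hsmooth : ∀ x ∈ X, LinearIndependent ℂ
      (fun (j : {j // ¬ InCone (Sum.elim C D) {k | x k ≠ 0} (β j)}) (k : B ⊕ I) =>
        eval x (pderiv k (F j.1))))
    (κ : M) (hY₀ : ∀ x ∈ X, SemiBase s C κ (fun b => x (Sum.inl b)))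
    (χ : A → M) (n : A → ℕ) (k : A → ℤ) (hk : ∀ a, -(n a : ℤ) ≤ k a)
    (hdeg : ∀ b a, s b = some a → ∃ v : ℕ, 1 ≤ v ∧ C b = v • χ a)
    (hY : ∀ x ∈ X, ∀ a, ConeBase s t G a (n a) (fun b => x (Sum.inl b)))
    (l : M) (m c : ℕ) (hm : 1 ≤ m)
    (hl : ConeAll (Sum.elim C D) X
      (m • l - c • (κ + ∑ a, k a • χ a + ∑ j, β j - ∑ i, D i)))
    (hnef : IsNef (Sum.elim C D) X l) : IsSemiample (Sum.elim C D) X l := by
  classical
  choose γ' hγ' using hG
  set γ : E → M := fun e => if G e = 0 then 0 else γ' e with hγ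
  have hG' : ∀ e, IsWeightedHomogeneous C (G e) (γ e) := by
    intro e
    by_cases h : G e = 0
    · rw [h]; exact isWeightedHomogeneous_zero _ _ _
    · simp only [hγ, if_neg h]
      exact hγ' e
  refine semiample_of_parts hX hX' fun X₀ h1 h2 h3 hconn h4 => ?_
  have hM := bundle_model s t C D θ γ G hG' (fun e he => by simp only [hγ, if_pos he]) hvars β F
    hF X₀ h2 h3 hconn (fun x hx => hfree x (h1 hx)) (fun x hx => hsmooth x (h1 hx)) κ
    (fun x hx => hY₀ x (h1 hx)) χ n hdeg (fun x hx => hY x (h1 hx))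
  have hκ : ∀ x ∈ X₀, InCone (Sum.elim C D) {k | kd s k = some none ∧ x k ≠ 0} κ :=
    fun x hx => inCone_inl (hY₀ x (h1 hx)).1
  have e : c • gcanon (Sum.elim C D) (Sum.elim γ β) (kd s)
      (Sum.elim (fun e => some (t e)) (fun _ => none)) χ κ k +
      (m • l - c • (κ + ∑ a, k a • χ a + ∑ j, β j - ∑ i, D i)) = m • l := by
    rw [gcanon_bundle]
    abel
  have hnef' : IsNef (Sum.elim C D) X₀ (m • l) := by
    rintro Z hZ ⟨q, hq, s, hs, h1, h2⟩
    refine (hnef.of_sub h4) Z hZ ⟨q * m, Nat.mul_pos hq hm, s, ?_, h1, h2⟩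
    rw [mul_smul]
    exact hs
  have h := gabundance hk hM hκ (c := c) (fun x hx => hl x (h1 hx)) (by rw [e]; exact hnef')
  rw [e] at h
  intro x hx
  obtain ⟨q, hq, s, hs, hsx⟩ := h x hx
  refine ⟨q * m, Nat.mul_pos hq hm, s, ?_, hsx⟩
  rw [mul_smul]
  exact hs

/-- Abundance for complete intersections in toric bundles over a product of good factors. -/
theorem good_abundance [Fintype A] [Fintype B] [Fintype E] [Fintype I] [Fintype J]
    [Module.Finite ℤ M] (s : B → A) (t : E → A) (C : B → M) (D : I → M) (θ : M)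
    (G : E → MvPolynomial B ℂ) (hG : ∀ e, ∃ γ, IsWeightedHomogeneous C (G e) γ)
    (hvars : ∀ e, ∀ b ∈ (G e).vars, s b = t e)
    (β : J → M) (F : J → MvPolynomial (B ⊕ I) ℂ)
    (hF : ∀ j, IsWeightedHomogeneous (Sum.elim C D) (F j) (β j))
    (X : Set (B ⊕ I → ℂ)) (hX : IsSub (Sum.elim C D) (BundleCone C D θ G F) X)
    (hX' : IsSub (Sum.elim C D) (BundleCone C D θ G F) (BundleCone C D θ G F \ X))
    (hfree : ∀ x ∈ X, AddSubgroup.closure (Sum.elim C D '' {k | x k ≠ 0}) = ⊤)
    (hsmooth : ∀ x ∈ X, LinearIndependent ℂ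
      (fun (j : {j // ¬ InCone (Sum.elim C D) {k | x k ≠ 0} (β j)}) (k : B ⊕ I) =>
        eval x (pderiv k (F j.1))))
    (κ : A → M) (hY : ∀ a, GoodFactor s t C G a (κ a) ((fun x b => x (Sum.inl b)) '' X))
    (l : M) (m c : ℕ) (hm : 1 ≤ m)
    (hl : ConeAll (Sum.elim C D) X (m • l - c • (∑ a, κ a + ∑ j, β j - ∑ i, D i)))
    (hnef : IsNef (Sum.elim C D) X l) : IsSemiample (Sum.elim C D) X l := by
  classical
  set p : A → Prop := fun a => ∀ y ∈ ((fun (x : B ⊕ I → ℂ) b => x (Sum.inl b)) '' X),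
    SemiFactor s C a (κ a) y with hp
  have hY2 : ∀ a : {a // ¬ p a}, ∃ (χ : M) (n : ℕ) (k : ℤ), -(n : ℤ) ≤ k ∧ κ a.1 = k • χ ∧
      (∀ b, s b = a.1 → ∃ v : ℕ, 1 ≤ v ∧ C b = v • χ) ∧
        ∀ y ∈ ((fun (x : B ⊕ I → ℂ) b => x (Sum.inl b)) '' X), ConeFactor s t G a.1 n y :=
    fun a => (hY a.1).resolve_left a.2
  choose χ n k hk hκ hdeg hcone using hY2
  set s' : B → Option {a // ¬ p a} := fun b => if h : p (s b) then none else some ⟨s b, h⟩
    with hs'
  set t' : E → Option {a // ¬ p a} := fun b => if h : p (t b) then none else some ⟨t b, h⟩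
    with ht'
  have hs0 : ∀ b, s' b = none ↔ p (s b) := by
    intro b
    by_cases h : p (s b)
    · simp only [hs', dif_pos h, h]
    · simp only [hs', dif_neg h, h, reduceCtorEq]
  have hs1 : ∀ b a, s' b = some a ↔ s b = a.1 := by
    intro b a
    by_cases h : p (s b)
    · simp only [hs', dif_pos h, reduceCtorEq, false_iff]
      intro h1
      rw [h1] at h
      exact a.2 h
    · simp only [hs', dif_neg h, Option.some.injEq]
      exact Subtype.ext_iff
  have ht1 : ∀ b a, t' b = some a ↔ t b = a.1 := by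
    intro b a
    by_cases h : p (t b)
    · simp only [ht', dif_pos h, reduceCtorEq, false_iff]
      intro h1
      rw [h1] at h
      exact a.2 h
    · simp only [ht', dif_neg h, Option.some.injEq]
      exact Subtype.ext_iff
  have hsum : ∑ a, κ a = ∑ a : {a // p a}, κ a.1 + ∑ a : {a // ¬ p a}, k a • χ a := by
    rw [← Fintype.sum_subtype_add_sum_subtype p κ]
    congr 1
    exact Finset.sum_congr rfl fun a _ => hκ a
  rw [hsum] at hl
  refine bundle_abundance s' t' C D θ G hG (fun e b hb => ?_) β F hF X hX hX' hfree hsmooth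
    (∑ a : {a // p a}, κ a.1) (fun x hx => ⟨?_, fun b' hb' => ?_⟩) χ n k hk
    (fun b a hb => hdeg a b ((hs1 b a).mp hb)) (fun x hx a => ?_) l m c hm hl hnef
  · have h1 := hvars e b hb
    simp only [hs', ht', h1]
  · refine InCone.sum _ _ fun a _ => ?_
    refine ((a.2 _ ⟨x, hx, rfl⟩).1).mono ?_
    rintro b ⟨h1, h2⟩
    exact ⟨(hs0 b).mpr (by rw [h1]; exact a.2), h2⟩
  · have h0 := (hs0 b').mp hb'
    refine ((h0 _ ⟨x, hx, rfl⟩).2 b' rfl).mono ?_
    rintro b ⟨h1, h2⟩
    exact ⟨(hs0 b).mpr (by rw [h1]; exact h0), h2⟩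
  · obtain ⟨⟨b, hb, hxb⟩, m', P, h, hc, hP, hh, hloc⟩ := hcone a _ ⟨x, hx, rfl⟩
    refine ⟨⟨b, (hs1 b a).mpr hb, hxb⟩, m', P, h, ?_, hP, hh, fun z hz hzP e he =>
      hloc z hz hzP e ((ht1 e a).mp he)⟩
    rw [hc]
    exact Nat.card_congr (Equiv.subtypeEquivRight fun b => (hs1 b a).symm)

end Pool.Agent.H6.Ab
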