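import Pool.Agent.H6.Ab.Defs

/-!
# Subvarieties of toric bundles over a product: definitions

The base is a product `Y = ∏ a, Y_a`.  Its coordinates are the `y b`, `b : B`, of degrees `C b`;
`y b` is a coordinate of the factor `Y_(s b)`.  The equations of `Y` are the `G e`, `e : E`; `G e`
is an equation of the factor `Y_(t e)` in the coordinates of this factor.  The fibre coordinates
are the `x i`, `i : I`, of degrees `D i`.
-/

set_option autoImplicit false

namespace Pool.Agent.H6.Ab

open MvPolynomial

/-- The `θ`-semistable common zeros of the base equations `G e` and of the `F j`. -/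
def BundleCone {B E I J M : Type} [AddCommGroup M] (C : B → M) (D : I → M) (θ : M)
    (G : E → MvPolynomial B ℂ) (F : J → MvPolynomial (B ⊕ I) ℂ) : Set (B ⊕ I → ℂ) :=
  ConeLocus (Sum.elim C D) θ (Sum.elim (fun e => rename Sum.inl (G e)) F)

/-- First kind of factors of the base: `κ` and the degrees of all coordinates of the factor are,
at `y`, in the cone of the degrees of the coordinates of the factor which do not vanish
at `y`. -/
def SemiFactor {A B M : Type} [AddCommGroup M] (s : B → A) (C : B → M) (a : A) (κ : M)
    (y : B → ℂ) : Prop :=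
  InCone C {b | s b = a ∧ y b ≠ 0} κ ∧
    ∀ b', s b' = a → InCone C {b | s b = a ∧ y b ≠ 0} (C b')

/-- Second kind of factors of the base: some coordinate of the factor does not vanish at `y`, and
near `y` all equations of the factor follow from `m` equations which hold at `y`, where
`m + n + 1` is the number of coordinates of the factor. -/
def ConeFactor {A B E : Type} (s : B → A) (t : E → A) (G : E → MvPolynomial B ℂ) (a : A) (n : ℕ)
    (y : B → ℂ) : Prop :=
  (∃ b, s b = a ∧ y b ≠ 0) ∧
    ∃ (m : ℕ) (P : Fin m → MvPolynomial B ℂ) (h : MvPolynomial B ℂ),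
      m + n + 1 = Nat.card {b // s b = a} ∧ (∀ l, eval y (P l) = 0) ∧ eval y h ≠ 0 ∧
        ∀ z : B → ℂ, eval z h ≠ 0 → (∀ l, eval z (P l) = 0) → ∀ e, t e = a → eval z (G e) = 0

/-- The factor `Y_a` of the base, with canonical class `κ`, is good at the points of `S`: it is of
the first kind, or it is of the second kind with `κ = k χ`, `-k ≤ n`, and all its coordinates
have degree a positive multiple of `χ`. -/
def GoodFactor {A B E M : Type} [AddCommGroup M] (s : B → A) (t : E → A) (C : B → M)
    (G : E → MvPolynomial B ℂ) (a : A) (κ : M) (S : Set (B → ℂ)) : Prop :=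
  (∀ y ∈ S, SemiFactor s C a κ y) ∨
    ∃ (χ : M) (n : ℕ) (k : ℤ), -(n : ℤ) ≤ k ∧ κ = k • χ ∧
      (∀ b, s b = a → ∃ v : ℕ, 1 ≤ v ∧ C b = v • χ) ∧ ∀ y ∈ S, ConeFactor s t G a n y

end Pool.Agent.H6.Ab
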