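import Pool.Agent.H6.Ab.Basic

/-!
# Curves in fibres: consequences of nefness
-/

set_option autoImplicit false

namespace Pool.Agent.H6.Ab

open MvPolynomial

variable {I J M : Type} [AddCommGroup M] {D : I → M} {θ : M}
  {β : J → M} {F : J → MvPolynomial I ℂ} {X : Set (I → ℂ)}

/-- ideal of polynomials vanishing on `C` -/
noncomputable def vanId (C : Set (I → ℂ)) : Ideal (MvPolynomial I ℂ) where
  carrier := {P | ∀ x ∈ C, eval x P = 0}
  zero_mem' := fun x _ => map_zero _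
  add_mem' := fun {a b} ha hb x hx => by rw [map_add, ha x hx, hb x hx, add_zero]
  smul_mem' := fun c a ha x hx => by rw [smul_eq_mul, map_mul, ha x hx, mul_zero]

lemma mem_vanId {C : Set (I → ℂ)} {P : MvPolynomial I ℂ} :
    P ∈ vanId C ↔ ∀ x ∈ C, eval x P = 0 := Iff.rfl

lemma FiniteMod.mono {C C' : Set (I → ℂ)} (h : FiniteMod D C) (hC : C' ⊆ C) : FiniteMod D C' := by
  obtain ⟨E, hE, h⟩ := h
  exact ⟨E, hE, fun y hy => h y (hC hy)⟩

lemma FiniteMod.union {C C' : Set (I → ℂ)} (h : FiniteMod D C) (h' : FiniteMod D C') :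
    FiniteMod D (C ∪ C') := by
  obtain ⟨E, hE, h⟩ := h
  obtain ⟨E', hE', h'⟩ := h'
  refine ⟨E ∪ E', hE.union hE', ?_⟩
  rintro y (hy | hy)
  · obtain ⟨z, hz, hzy⟩ := h y hy
    exact ⟨z, Or.inl hz, hzy⟩
  · obtain ⟨z, hz, hzy⟩ := h' y hy
    exact ⟨z, Or.inr hz, hzy⟩

lemma IsSub.inter {C : Set (I → ℂ)} (hC : IsSub D X C) {P : MvPolynomial I ℂ} {b : M}
    (hP : IsWeightedHomogeneous D P b) : IsSub D X {x | x ∈ C ∧ eval x P = 0} := by
  obtain ⟨S, hS, rfl⟩ := hC
  refine ⟨insert P S, ?_, ?_⟩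
  · rintro Q (rfl | hQ)
    · exact ⟨b, hP⟩
    · exact hS Q hQ
  · ext x
    constructor
    · rintro ⟨⟨hx, h1⟩, h2⟩
      refine ⟨hx, ?_⟩
      rintro Q (rfl | hQ)
      · exact h2
      · exact h1 Q hQ
    · rintro ⟨hx, h1⟩
      exact ⟨⟨hx, fun Q hQ => h1 Q (Or.inr hQ)⟩, h1 P (Or.inl rfl)⟩

/-- An infinite closed subvariety contains an irreducible curve. -/
theorem exists_curve_in [Finite I] {Y : Set (I → ℂ)} (hY : IsSub D X Y)
    (hinf : ¬ FiniteMod D Y) : ∃ C, C ⊆ Y ∧ IsCurve D X C := by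
  classical
  set A : Set (Ideal (MvPolynomial I ℂ)) :=
    {a | ∃ C, IsSub D X C ∧ C ⊆ Y ∧ ¬ FiniteMod D C ∧ a = vanId C} with hA
  have hne : A.Nonempty := ⟨vanId Y, Y, hY, subset_rfl, hinf, rfl⟩
  obtain ⟨a, ⟨C, hC, hCY, hCinf, rfl⟩, hmax⟩ :=
    set_has_maximal_iff_noetherian.mpr (inferInstance : IsNoetherianRing (MvPolynomial I ℂ)) A hne
  have hmin : ∀ C' : Set (I → ℂ), IsSub D X C' → C' ⊆ C → C' ≠ C → FiniteMod D C' := by
    intro C' hC' hle hne'
    by_contra hfin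
    apply hmax (vanId C') ⟨C', hC', hle.trans hCY, hfin, rfl⟩
    refine lt_of_le_of_ne (fun P hP x hx => hP x (hle hx)) ?_
    intro heq
    apply hne'
    refine Set.Subset.antisymm hle ?_
    obtain ⟨S, hS, rfl⟩ := hC'
    intro x hx
    refine ⟨?_, fun P hP => ?_⟩
    · obtain ⟨S', _, rfl⟩ := hC
      exact hx.1
    · have h1 : P ∈ vanId {x | x ∈ X ∧ ∀ P ∈ S, eval x P = 0} := fun y hy => hy.2 P hP
      rw [← heq] at h1
      exact h1 x hx
  exact ⟨C, hCY, hC, hCinf, hmin⟩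

/-- `C` is irreducible. -/
def IsIrred {I M : Type} [AddCommGroup M] (D : I → M) (C : Set (I → ℂ)) : Prop :=
  C.Nonempty ∧ ∀ (P Q : MvPolynomial I ℂ) (b c : M), IsWeightedHomogeneous D P b →
    IsWeightedHomogeneous D Q c → (∀ x ∈ C, eval x P * eval x Q = 0) →
      (∀ x ∈ C, eval x P = 0) ∨ (∀ x ∈ C, eval x Q = 0)

/-- Curves are irreducible. -/
theorem IsCurve.irred {C : Set (I → ℂ)} (hC : IsCurve D X C) : IsIrred D C := by
  refine ⟨?_, ?_⟩
  · by_contra hcon
    rw [Set.not_nonempty_iff_eq_empty] at hcon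
    exact hC.infinite ⟨∅, Set.finite_empty, fun y hy => by
      rw [hcon] at hy; exact absurd hy (Set.notMem_empty y)⟩
  · intro P Q b c hP hQ hPQ
    by_contra hcon
    push Not at hcon
    obtain ⟨⟨x, hx, hxP⟩, ⟨y, hy, hyQ⟩⟩ := hcon
    apply hC.infinite
    have h1 := hC.minimal {x | x ∈ C ∧ eval x P = 0} (hC.sub.inter hP) (fun z hz => hz.1) (by
      intro h
      rw [← h] at hx
      exact hxP hx.2)
    have h2 := hC.minimal {x | x ∈ C ∧ eval x Q = 0} (hC.sub.inter hQ) (fun z hz => hz.1) (by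
      intro h
      rw [← h] at hy
      exact hyQ hy.2)
    refine (h1.union h2).mono fun z hz => ?_
    rcases mul_eq_zero.mp (hPQ z hz) with h | h
    · exact Or.inl ⟨hz, h⟩
    · exact Or.inr ⟨hz, h⟩

/-- value of a monomial -/
lemma eval_mono (e : I →₀ ℕ) (x : I → ℂ) :
    eval x (monomial e (1 : ℂ)) = e.prod fun i k => x i ^ k := by
  rw [eval_monomial, one_mul]

lemma eval_mono_ne {e : I →₀ ℕ} {x : I → ℂ} :
    eval x (monomial e (1 : ℂ)) ≠ 0 ↔ ∀ i, e i ≠ 0 → x i ≠ 0 := by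
  rw [eval_mono, Finsupp.prod, Finset.prod_ne_zero_iff]
  constructor
  · intro h i hi h0
    exact h i (Finsupp.mem_support_iff.mpr hi) (by rw [h0, zero_pow hi])
  · intro h i hi
    exact pow_ne_zero _ (h i (Finsupp.mem_support_iff.mp hi))

/-- every point of `X` is semistable -/
lemma PreModel.semistable [Finite I] (hm : PreModel D θ β F X) {x : I → ℂ} (hx : x ∈ X) :
    ∃ N : ℕ, 1 ≤ N ∧ ∃ e : I →₀ ℕ, Finsupp.weight D e = N • θ ∧ ∀ k, x k ≠ 0 ↔ e k ≠ 0 := by
  classical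
  have := Fintype.ofFinite I
  have h1 : ∀ i : I, ∃ N : ℕ, 1 ≤ N ∧ ∃ e : I →₀ ℕ, (x i ≠ 0 →
      Finsupp.weight D e = N • θ ∧ e i ≠ 0 ∧ ∀ k, e k ≠ 0 → x k ≠ 0) := by
    intro i
    by_cases hi : x i = 0
    · exact ⟨1, le_rfl, 0, fun h => absurd hi h⟩
    · obtain ⟨N, hN, e, he⟩ := hm.inter x hx i hi
      exact ⟨N, hN, e, fun _ => he⟩
  choose N hN e he using h1
  by_cases hemp : ∀ i, x i = 0
  · have hM : ∀ m : M, m = 0 := by
      intro m
      have h2 : m ∈ AddSubgroup.closure (D '' {i | x i ≠ 0}) := by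
        rw [hm.gen x hx]; exact AddSubgroup.mem_top m
      have h3 : {i | x i ≠ 0} = (∅ : Set I) := by
        ext i; simp [hemp i]
      rw [h3, Set.image_empty, AddSubgroup.closure_empty] at h2
      exact h2
    exact ⟨1, le_rfl, 0, by rw [hM (1 • θ), map_zero], fun k => by simp [hemp k]⟩
  push Not at hemp
  obtain ⟨i₀, hi₀⟩ := hemp
  refine ⟨∑ i with x i ≠ 0, N i, ?_, ∑ i with x i ≠ 0, e i, ?_, ?_⟩
  · exact (hN i₀).trans (Finset.single_le_sum (f := N) (fun i _ => Nat.zero_le _)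
      (Finset.mem_filter.mpr ⟨Finset.mem_univ _, hi₀⟩))
  · rw [map_sum, Finset.sum_smul]
    refine Finset.sum_congr rfl fun i hi => (he i (Finset.mem_filter.mp hi).2).1
  · intro k
    rw [Finsupp.finsetSum_apply]
    constructor
    · intro hk h0
      exact (he k hk).2.1 (Finset.sum_eq_zero_iff.mp h0 k
        (Finset.mem_filter.mpr ⟨Finset.mem_univ _, hk⟩))
    · intro h0
      obtain ⟨i, hi, hik⟩ := Finset.exists_ne_zero_of_sum_ne_zero h0
      exact (he i (Finset.mem_filter.mp hi).2).2.2 k hik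

/-- A subgroup generated by some degrees consists of differences of weights. -/
lemma exists_weight_sub {S : Set I} {m : M} (hm : m ∈ AddSubgroup.closure (D '' S)) :
    ∃ a b : I →₀ ℕ, (∀ i, a i ≠ 0 → i ∈ S) ∧ (∀ i, b i ≠ 0 → i ∈ S) ∧
      m = Finsupp.weight D a - Finsupp.weight D b := by
  classical
  induction hm using AddSubgroup.closure_induction with
  | mem m hm =>
    obtain ⟨i, hi, rfl⟩ := hm
    refine ⟨Finsupp.single i 1, 0, ?_, fun i hi => absurd rfl hi, ?_⟩
    · intro k hk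
      rw [Finsupp.single_apply] at hk
      by_cases h : i = k
      · rw [← h]; exact hi
      · rw [if_neg h] at hk; exact absurd rfl hk
    · rw [Finsupp.weight_single, map_zero, sub_zero, one_smul]
  | zero => exact ⟨0, 0, fun i hi => absurd rfl hi, fun i hi => absurd rfl hi, by simp⟩
  | add m m' _ _ h h' =>
    obtain ⟨a, b, ha, hb, rfl⟩ := h
    obtain ⟨a', b', ha', hb', rfl⟩ := h'
    refine ⟨a + a', b + b', ?_, ?_, ?_⟩
    · intro i hi
      by_contra hcon
      apply hi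
      rw [Finsupp.add_apply, not_not.mp fun h => hcon (ha i h), not_not.mp fun h => hcon (ha' i h)]
    · intro i hi
      by_contra hcon
      apply hi
      rw [Finsupp.add_apply, not_not.mp fun h => hcon (hb i h), not_not.mp fun h => hcon (hb' i h)]
    · rw [map_add, map_add]; abel
  | neg m _ h =>
    obtain ⟨a, b, ha, hb, rfl⟩ := h
    exact ⟨b, a, hb, ha, by abel⟩

lemma eval_mono_add (a b : I →₀ ℕ) (x : I → ℂ) :
    eval x (monomial (a + b) (1 : ℂ)) = eval x (monomial a (1 : ℂ)) *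
      eval x (monomial b (1 : ℂ)) := by
  rw [← map_mul, monomial_mul, one_mul]

/-- Points of `X` with proportional values of all monomials of degree multiples of `θ` lie in
one orbit. -/
theorem sameOrbit_of_monomials [Finite I] (hm : PreModel D θ β F X) {z₁ z₂ : I → ℂ} (h₁ : z₁ ∈ X)
    (h₂ : z₂ ∈ X) (h : ∀ (K : ℕ) (e e' : I →₀ ℕ), 1 ≤ K → Finsupp.weight D e = K • θ →
      Finsupp.weight D e' = K • θ →
      eval z₁ (monomial e (1 : ℂ)) * eval z₂ (monomial e' (1 : ℂ)) =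
        eval z₁ (monomial e' (1 : ℂ)) * eval z₂ (monomial e (1 : ℂ))) :
    SameOrbit D z₁ z₂ := by
  classical
  obtain ⟨N₁, hN₁, e₁, he₁, hs₁⟩ := hm.semistable h₁
  obtain ⟨N₂, hN₂, e₂, he₂, hs₂⟩ := hm.semistable h₂
  -- equal supports
  have hK := h (N₁ * N₂) (N₂ • e₁) (N₁ • e₂) (Nat.one_le_iff_ne_zero.mpr (by positivity))
    (by rw [map_nsmul, he₁, smul_smul, mul_comm]) (by rw [map_nsmul, he₂, smul_smul])
  have hl : eval z₁ (monomial (N₂ • e₁) (1 : ℂ)) * eval z₂ (monomial (N₁ • e₂) (1 : ℂ)) ≠ 0 := by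
    refine mul_ne_zero (eval_mono_ne.mpr fun i hi => ?_) (eval_mono_ne.mpr fun i hi => ?_)
    · rw [hs₁]
      intro h0; apply hi; rw [Finsupp.smul_apply, h0, smul_zero]
    · rw [hs₂]
      intro h0; apply hi; rw [Finsupp.smul_apply, h0, smul_zero]
  rw [hK] at hl
  have hs : ∀ i, z₁ i ≠ 0 ↔ z₂ i ≠ 0 := by
    intro i
    constructor
    · intro hi
      have h3 := eval_mono_ne.mp (right_ne_zero_of_mul hl) i
      apply h3
      rw [Finsupp.smul_apply, smul_eq_mul]
      exact mul_ne_zero (by omega) ((hs₁ i).mp hi)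
    · intro hi
      have h3 := eval_mono_ne.mp (left_ne_zero_of_mul hl) i
      apply h3
      rw [Finsupp.smul_apply, smul_eq_mul]
      exact mul_ne_zero (by omega) ((hs₂ i).mp hi)
  -- monomials of equal weight
  have hL1 : ∀ a b : I →₀ ℕ, (∀ i, a i ≠ 0 → z₁ i ≠ 0) → (∀ i, b i ≠ 0 → z₁ i ≠ 0) →
      Finsupp.weight D a = Finsupp.weight D b →
      eval z₁ (monomial b (1 : ℂ)) * eval z₂ (monomial a (1 : ℂ)) =
        eval z₁ (monomial a (1 : ℂ)) * eval z₂ (monomial b (1 : ℂ)) := by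
    intro a b ha hb hab
    have := Fintype.ofFinite I
    set K : ℕ := 1 + ∑ i, a i with hKdef
    have hle : a ≤ K • e₁ := by
      intro i
      by_cases hi : a i = 0
      · rw [hi]; exact Nat.zero_le _
      · have h5 : 1 ≤ e₁ i := Nat.one_le_iff_ne_zero.mpr ((hs₁ i).mp (ha i hi))
        have h6 : a i ≤ ∑ i, a i := Finset.single_le_sum (f := a) (fun i _ => Nat.zero_le _)
          (Finset.mem_univ i)
        rw [Finsupp.smul_apply, smul_eq_mul]
        calc a i ≤ K * 1 := by omega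
          _ ≤ K * e₁ i := Nat.mul_le_mul_left _ h5
    obtain ⟨E, hE⟩ := exists_add_of_le hle
    have hEa : Finsupp.weight D (E + a) = (K * N₁) • θ := by
      rw [add_comm, ← hE, map_nsmul, he₁, smul_smul]
    have hEb : Finsupp.weight D (E + b) = (K * N₁) • θ := by
      rw [map_add, ← hab, ← map_add, hEa]
    have h7 := h (K * N₁) (E + b) (E + a) (Nat.one_le_iff_ne_zero.mpr (by
      have : 1 ≤ K := by omega
      positivity)) hEb hEa
    rw [eval_mono_add, eval_mono_add, eval_mono_add, eval_mono_add] at h7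
    have hE1 : ∀ i, E i ≠ 0 → z₁ i ≠ 0 := by
      intro i hi
      rw [hs₁]
      intro h0
      have h8 := DFunLike.congr_fun hE i
      rw [Finsupp.smul_apply, h0, smul_zero, Finsupp.add_apply] at h8
      omega
    have hz1 : eval z₁ (monomial E (1 : ℂ)) ≠ 0 := eval_mono_ne.mpr hE1
    have hz2 : eval z₂ (monomial E (1 : ℂ)) ≠ 0 :=
      eval_mono_ne.mpr fun i hi => (hs i).mp (hE1 i hi)
    have h9 : (eval z₁ (monomial E (1 : ℂ)) * eval z₂ (monomial E (1 : ℂ))) *
        (eval z₁ (monomial b (1 : ℂ)) * eval z₂ (monomial a (1 : ℂ))) =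
        (eval z₁ (monomial E (1 : ℂ)) * eval z₂ (monomial E (1 : ℂ))) *
        (eval z₁ (monomial a (1 : ℂ)) * eval z₂ (monomial b (1 : ℂ))) := by
      linear_combination h7
    exact mul_left_cancel₀ (mul_ne_zero hz1 hz2) h9
  -- the ratio of the values of a monomial
  set U : (I →₀ ℕ) → ℂ := fun a => eval z₂ (monomial a (1 : ℂ)) / eval z₁ (monomial a (1 : ℂ))
    with hU
  have hU0 : ∀ a : I →₀ ℕ, (∀ i, a i ≠ 0 → z₁ i ≠ 0) → U a ≠ 0 := fun a ha =>
    div_ne_zero (eval_mono_ne.mpr fun i hi => (hs i).mp (ha i hi)) (eval_mono_ne.mpr ha)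
  have hUadd : ∀ a b : I →₀ ℕ, U (a + b) = U a * U b := by
    intro a b
    simp only [hU]
    rw [eval_mono_add, eval_mono_add, mul_div_mul_comm]
  have hUeq : ∀ a b : I →₀ ℕ, (∀ i, a i ≠ 0 → z₁ i ≠ 0) → (∀ i, b i ≠ 0 → z₁ i ≠ 0) →
      Finsupp.weight D a = Finsupp.weight D b → U a = U b := by
    intro a b ha hb hab
    simp only [hU]
    rw [div_eq_div_iff (eval_mono_ne.mpr ha) (eval_mono_ne.mpr hb)]
    have := hL1 a b ha hb hab
    linear_combination this
  have hrep : ∀ m : M, ∃ a b : I →₀ ℕ, (∀ i, a i ≠ 0 → z₁ i ≠ 0) ∧ (∀ i, b i ≠ 0 → z₁ i ≠ 0) ∧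
      m = Finsupp.weight D a - Finsupp.weight D b := fun m =>
    exists_weight_sub (S := {i | z₁ i ≠ 0}) (by rw [hm.gen z₁ h₁]; exact AddSubgroup.mem_top m)
  choose A B hA hB hAB using hrep
  have hval : ∀ (m : M) (a b : I →₀ ℕ), (∀ i, a i ≠ 0 → z₁ i ≠ 0) → (∀ i, b i ≠ 0 → z₁ i ≠ 0) →
      m = Finsupp.weight D a - Finsupp.weight D b → U (A m) / U (B m) = U a / U b := by
    intro m a b ha hb hab
    rw [div_eq_div_iff (hU0 _ (hB m)) (hU0 _ hb), ← hUadd, ← hUadd]
    refine hUeq _ _ ?_ ?_ ?_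
    · intro i hi h0
      apply hi
      rw [Finsupp.add_apply, not_not.mp fun h => hA m i h h0, not_not.mp fun h => hb i h h0]
    · intro i hi h0
      apply hi
      rw [Finsupp.add_apply, not_not.mp fun h => ha i h h0, not_not.mp fun h => hB m i h h0]
    · rw [map_add, map_add]
      have h9 : Finsupp.weight D (A m) - Finsupp.weight D (B m) =
          Finsupp.weight D a - Finsupp.weight D b := by rw [← hAB m, hab]
      rw [sub_eq_sub_iff_add_eq_add] at h9
      exact h9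
  let g : Multiplicative M →* ℂˣ := MonoidHom.mk' (fun m =>
    Units.mk0 (U (A m.toAdd) / U (B m.toAdd)) (div_ne_zero (hU0 _ (hA _)) (hU0 _ (hB _)))) (by
      intro m m'
      ext
      rw [Units.val_mul, Units.val_mk0, Units.val_mk0, Units.val_mk0]
      rw [hval (m * m').toAdd (A m.toAdd + A m'.toAdd) (B m.toAdd + B m'.toAdd), hUadd, hUadd,
        mul_div_mul_comm]
      · intro i hi h0
        apply hi
        rw [Finsupp.add_apply, not_not.mp fun h => hA _ i h h0, not_not.mp fun h => hA _ i h h0]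
      · intro i hi h0
        apply hi
        rw [Finsupp.add_apply, not_not.mp fun h => hB _ i h h0, not_not.mp fun h => hB _ i h h0]
      · rw [toAdd_mul, map_add, map_add]
        conv_lhs => rw [hAB m.toAdd, hAB m'.toAdd]
        abel)
  refine ⟨g, fun i => ?_⟩
  by_cases hi : z₁ i = 0
  · have hi2 : z₂ i = 0 := by
      by_contra h0
      exact (hs i).mpr h0 hi
    rw [hi, hi2, mul_zero]
  · have hg : ((g (Multiplicative.ofAdd (D i)) : ℂˣ) : ℂ) = U (A (D i)) / U (B (D i)) := rfl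
    rw [hg, hval (D i) (Finsupp.single i 1) 0]
    · simp only [hU]
      rw [eval_mono, eval_mono, eval_mono, eval_mono]
      simp only [Finsupp.prod_single_index, pow_zero, pow_one, Finsupp.prod_zero_index, div_one]
      field_simp
    · intro k hk
      rw [Finsupp.single_apply] at hk
      by_cases h : i = k
      · rw [← h]; exact hi
      · rw [if_neg h] at hk; exact absurd rfl hk
    · intro k hk; exact absurd rfl hk
    · rw [Finsupp.weight_single, map_zero, sub_zero, one_smul]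

/-- Separation of points by homogeneous polynomials. -/
theorem exists_sep [Finite I] (hm : PreModel D θ β F X) {z₁ z₂ : I → ℂ} (h₁ : z₁ ∈ X)
    (h₂ : z₂ ∈ X) (h : ¬ SameOrbit D z₁ z₂) :
    ∃ (K : ℕ) (G : MvPolynomial I ℂ), 1 ≤ K ∧ IsWeightedHomogeneous D G (K • θ) ∧
      eval z₁ G = 0 ∧ eval z₂ G ≠ 0 := by
  by_contra hcon
  push Not at hcon
  apply h
  apply sameOrbit_of_monomials hm h₁ h₂
  intro K e e' hK he he'
  have h3 := hcon K (MvPolynomial.C (eval z₁ (monomial e' (1 : ℂ))) * monomial e (1 : ℂ) -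
    MvPolynomial.C (eval z₁ (monomial e (1 : ℂ))) * monomial e' (1 : ℂ)) hK
    (((isWeightedHomogeneous_monomial D e 1 he).C_mul _).sub
      ((isWeightedHomogeneous_monomial D e' 1 he').C_mul _))
    (by rw [map_sub, map_mul, map_mul, eval_C, eval_C]; ring)
  rw [map_sub, map_mul, map_mul, eval_C, eval_C] at h3
  linear_combination -h3

end Pool.Agent.H6.Ab
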