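import Pool.Agent.H6.Ab.Basic
import Pool.Agent.H6.CommonZero

/-!
# Curves through a point

A system of few polynomial equations has a nonconstant polynomial solution of given degree
through a given point.
-/

set_option autoImplicit false

namespace Pool.Agent.H6.Ab

open MvPolynomial

section Curve

variable {I J : Type}

/-- the polynomial curve with coefficients `c` -/
noncomputable def crv (x : I → ℂ) (d : I → ℕ) (c : (Σ i, Fin (d i)) → ℂ) (i : I) : Polynomial ℂ :=
  Polynomial.C (x i) + ∑ k : Fin (d i), Polynomial.C (c ⟨i, k⟩) * Polynomial.X ^ (k.1 + 1)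

/-- the generic polynomial curve -/
noncomputable def gcrv (x : I → ℂ) (d : I → ℕ) (i : I) :
    Polynomial (MvPolynomial (Σ i, Fin (d i)) ℂ) :=
  Polynomial.C (C (x i)) +
    ∑ k : Fin (d i), Polynomial.C (X ⟨i, k⟩) * Polynomial.X ^ (k.1 + 1)

/-- specialization of the coefficients -/
noncomputable def spz {V : Type} (c : V → ℂ) :
    Polynomial (MvPolynomial V ℂ) →ₐ[ℂ] Polynomial ℂ :=
  Polynomial.mapAlgHom (aeval c : MvPolynomial V ℂ →ₐ[ℂ] ℂ)

lemma coeff_spz {V : Type} (c : V → ℂ) (q : Polynomial (MvPolynomial V ℂ)) (n : ℕ) :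
    (spz c q).coeff n = eval c (q.coeff n) := by
  simp [spz, Polynomial.coe_mapAlgHom, Polynomial.coeff_map]

lemma spz_gcrv (x : I → ℂ) (d : I → ℕ) (c : (Σ i, Fin (d i)) → ℂ) (i : I) :
    spz c (gcrv x d i) = crv x d c i := by
  unfold gcrv crv spz
  rw [map_add, map_sum]
  simp [Polynomial.coe_mapAlgHom]

lemma spz_aeval (x : I → ℂ) (d : I → ℕ) (c : (Σ i, Fin (d i)) → ℂ) (P : MvPolynomial I ℂ) :
    spz c (aeval (gcrv x d) P) = aeval (crv x d c) P := by
  have h : (spz c).comp (aeval (gcrv x d)) = aeval (crv x d c) := by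
    apply MvPolynomial.algHom_ext
    intro i
    rw [AlgHom.comp_apply, aeval_X, aeval_X, spz_gcrv]
  rw [← h, AlgHom.comp_apply]

lemma coeff_crv_zero (x : I → ℂ) (d : I → ℕ) (c : (Σ i, Fin (d i)) → ℂ) (i : I) :
    (crv x d c i).coeff 0 = x i := by
  unfold crv
  rw [Polynomial.coeff_add, Polynomial.finsetSum_coeff, Polynomial.coeff_C_zero,
    Finset.sum_eq_zero, add_zero]
  intro k _
  rw [Polynomial.coeff_C_mul, Polynomial.coeff_X_pow, if_neg (by omega), mul_zero]

lemma coeff_crv_succ (x : I → ℂ) (d : I → ℕ) (c : (Σ i, Fin (d i)) → ℂ) (i : I)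
    (k : Fin (d i)) : (crv x d c i).coeff (k.1 + 1) = c ⟨i, k⟩ := by
  unfold crv
  rw [Polynomial.coeff_add, Polynomial.finsetSum_coeff, Polynomial.coeff_C_succ, zero_add,
    Finset.sum_eq_single k]
  · rw [Polynomial.coeff_C_mul, Polynomial.coeff_X_pow, if_pos rfl, mul_one]
  · intro l _ hl
    rw [Polynomial.coeff_C_mul, Polynomial.coeff_X_pow, if_neg, mul_zero]
    intro h
    exact hl (Fin.ext (by omega))
  · intro h
    exact absurd (Finset.mem_univ k) h

lemma natDegree_crv (x : I → ℂ) (d : I → ℕ) (c : (Σ i, Fin (d i)) → ℂ) (i : I) :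
    (crv x d c i).natDegree ≤ d i := by
  unfold crv
  refine Polynomial.natDegree_add_le_of_degree_le (by simp) ?_
  refine Polynomial.natDegree_sum_le_of_forall_le _ _ fun k _ => ?_
  exact (Polynomial.natDegree_C_mul_X_pow_le _ _).trans k.2

lemma evl_crv (x : I → ℂ) (d : I → ℕ) (c : (Σ i, Fin (d i)) → ℂ) : evl (crv x d c) 0 = x := by
  funext i
  rw [evl, ← Polynomial.coeff_zero_eq_eval_zero, coeff_crv_zero]

lemma crv_zero (x : I → ℂ) (d : I → ℕ) : crv x d 0 = fun i => Polynomial.C (x i) := by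
  funext i
  simp [crv]

lemma aeval_const (x : I → ℂ) (P : MvPolynomial I ℂ) :
    aeval (fun i => Polynomial.C (x i)) P = Polynomial.C (eval x P) := by
  have h : (aeval (fun i => Polynomial.C (x i)) : MvPolynomial I ℂ →ₐ[ℂ] Polynomial ℂ) =
      (Algebra.ofId ℂ (Polynomial ℂ)).comp (aeval x) := by
    apply MvPolynomial.algHom_ext
    intro i
    simp [Algebra.ofId_apply, Polynomial.algebraMap_eq]
  rw [h, AlgHom.comp_apply, Algebra.ofId_apply, Polynomial.algebraMap_eq, aeval_eq_eval]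

/-- the common part of the two statements: an extra system of equations -/
lemma exists_curve_aux [Fintype I] [Fintype J] (P : J → MvPolynomial I ℂ) (x : I → ℂ)
    (d : I → ℕ) (e : J → ℕ) (hP : ∀ j, eval x (P j) = 0)
    (hdeg : ∀ γ : I → Polynomial ℂ, (∀ i, (γ i).natDegree ≤ d i) → evl γ 0 = x →
      ∀ j, (aeval γ (P j)).natDegree ≤ e j)
    (m : ℕ) (E : Fin m → MvPolynomial (Σ i, Fin (d i)) ℂ)
    (hE : ∀ l, eval (0 : (Σ i, Fin (d i)) → ℂ) (E l) = 0)
    (hcard : ∑ j, e j + m < ∑ i, d i) :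
    ∃ c : (Σ i, Fin (d i)) → ℂ, c ≠ 0 ∧ (∀ l, eval c (E l) = 0) ∧
      ∀ j, aeval (crv x d c) (P j) = 0 := by
  obtain ⟨c, hc0, hc⟩ := Pool.Agent.H6.exists_ne_zero_common_zero (K := ℂ)
    (σ := Σ i, Fin (d i)) (ι := (Σ j, Fin (e j)) ⊕ Fin m)
    (Sum.elim (fun p => (aeval (gcrv x d) (P p.1)).coeff (p.2.1 + 1)) E)
    (by
      rintro (p | l)
      · rw [Sum.elim_inl, ← coeff_spz, spz_aeval, crv_zero, aeval_const, hP]
        simp
      · rw [Sum.elim_inr]
        exact hE l)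
    (by
      rw [Nat.card_eq_fintype_card, Nat.card_eq_fintype_card, Fintype.card_sum,
        Fintype.card_sigma, Fintype.card_sigma, Fintype.card_fin]
      simpa using hcard)
  refine ⟨c, hc0, fun l => hc (Sum.inr l), fun j => ?_⟩
  ext n
  rw [Polynomial.coeff_zero]
  rcases Nat.eq_zero_or_pos n with rfl | hn
  · rw [Polynomial.coeff_zero_eq_eval_zero]
    have h1 : Polynomial.eval 0 (aeval (crv x d c) (P j)) = eval x (P j) := by
      have h : (Polynomial.aeval (0 : ℂ)).comp (aeval (crv x d c)) =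
          (aeval x : MvPolynomial I ℂ →ₐ[ℂ] ℂ) := by
        apply MvPolynomial.algHom_ext
        intro i
        rw [AlgHom.comp_apply, aeval_X, aeval_X, Polynomial.coe_aeval_eq_eval,
          ← Polynomial.coeff_zero_eq_eval_zero, coeff_crv_zero]
      rw [← aeval_eq_eval, ← h]
      rfl
    rw [h1, hP]
  · by_cases hle : n ≤ e j
    · have h2 := hc (Sum.inl ⟨j, ⟨n - 1, by omega⟩⟩)
      rw [Sum.elim_inl, ← coeff_spz, spz_aeval] at h2
      have h3 : n - 1 + 1 = n := by omega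
      simpa [h3] using h2
    · apply Polynomial.coeff_eq_zero_of_natDegree_lt
      have := hdeg (crv x d c) (natDegree_crv x d c) (evl_crv x d c) j
      omega

lemma crv_ne (x : I → ℂ) (d : I → ℕ) {c : (Σ i, Fin (d i)) → ℂ} (hc : c ≠ 0) :
    ∃ i, crv x d c i ≠ Polynomial.C (x i) := by
  by_contra hcon
  push Not at hcon
  apply hc
  funext ⟨i, k⟩
  have h := coeff_crv_succ x d c i k
  rw [hcon i, Polynomial.coeff_C_succ] at h
  rw [← h]
  rfl

/-- S7 -/
theorem exists_curve {I J : Type} [Fintype I] [Fintype J] (P : J → MvPolynomial I ℂ) (x : I → ℂ)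
    (d : I → ℕ) (e : J → ℕ) (hP : ∀ j, eval x (P j) = 0)
    (hdeg : ∀ γ : I → Polynomial ℂ, (∀ i, (γ i).natDegree ≤ d i) → evl γ 0 = x →
      ∀ j, (aeval γ (P j)).natDegree ≤ e j)
    (i₀ : I) (hcard : ∑ j, e j + 1 < ∑ i, d i) :
    ∃ γ : I → Polynomial ℂ, (∀ i, (γ i).natDegree ≤ d i) ∧ evl γ 0 = x ∧
      (∀ j, aeval γ (P j) = 0) ∧ (γ i₀).coeff 1 = 0 ∧ ∃ i, γ i ≠ Polynomial.C (x i) := by
  by_cases hd : 0 < d i₀
  · obtain ⟨c, hc0, hcE, hc⟩ := exists_curve_aux P x d e hP hdeg 1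
      (fun _ => X ⟨i₀, ⟨0, hd⟩⟩) (by simp) hcard
    refine ⟨crv x d c, natDegree_crv x d c, evl_crv x d c, hc, ?_, crv_ne x d hc0⟩
    have h := coeff_crv_succ x d c i₀ ⟨0, hd⟩
    have h2 := hcE 0
    rw [eval_X] at h2
    rw [← h2]
    exact h
  · obtain ⟨c, hc0, hcE, hc⟩ := exists_curve_aux P x d e hP hdeg 0
      (fun _ => 0) (by simp) (by omega)
    refine ⟨crv x d c, natDegree_crv x d c, evl_crv x d c, hc, ?_, crv_ne x d hc0⟩
    apply Polynomial.coeff_eq_zero_of_natDegree_lt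
    have := natDegree_crv x d c i₀
    omega

/-- S7' : truncated version without normalisation -/
theorem exists_curve' {I J : Type} [Fintype I] [Fintype J] (P : J → MvPolynomial I ℂ) (x : I → ℂ)
    (d : I → ℕ) (e : J → ℕ) (hP : ∀ j, eval x (P j) = 0)
    (hdeg : ∀ γ : I → Polynomial ℂ, (∀ i, (γ i).natDegree ≤ d i) → evl γ 0 = x →
      ∀ j, (aeval γ (P j)).natDegree ≤ e j)
    (hcard : ∑ j, e j < ∑ i, d i) :
    ∃ γ : I → Polynomial ℂ, (∀ i, (γ i).natDegree ≤ d i) ∧ evl γ 0 = x ∧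
      (∀ j, aeval γ (P j) = 0) ∧ ∃ i, γ i ≠ Polynomial.C (x i) := by
  obtain ⟨c, hc0, hcE, hc⟩ := exists_curve_aux P x d e hP hdeg 0
    (fun _ => 0) (by simp) (by omega)
  exact ⟨crv x d c, natDegree_crv x d c, evl_crv x d c, hc, crv_ne x d hc0⟩

end Curve

end Pool.Agent.H6.Ab
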