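import Pool.Agent.H6.Ab.CardPos
import Pool.Agent.H6.Ab.NefFib

/-!
# Dimension count in a finite fibre: general form
-/

set_option autoImplicit false

namespace Pool.Agent.H6.Ab

open MvPolynomial

variable {I J M : Type} [AddCommGroup M] {D : I → M} {θ : M}
  {β : J → M} {F : J → MvPolynomial I ℂ} {X : Set (I → ℂ)}

/-- Monomials of small degree do not see the moved coordinates. -/
lemma eval_mono_congr {r : M →+ ℤ} {x z : I → ℂ} (hrx : NonnegAt D x r)
    (hneg : ∀ i, r (D i) < 0 → z i = x i) {e : I →₀ ℕ}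
    (he : (∀ i, e i ≠ 0 → 0 ≤ r (D i)) → ∀ i, e i ≠ 0 → z i = x i) :
    eval z (monomial e (1 : ℂ)) = eval x (monomial e (1 : ℂ)) := by
  by_cases h : ∀ i, e i ≠ 0 → 0 ≤ r (D i)
  · rw [eval_mono, eval_mono]
    refine Finset.prod_congr rfl fun i hi => ?_
    beta_reduce
    rw [he h i (Finsupp.mem_support_iff.mp hi)]
  · push Not at h
    obtain ⟨i, hi, hi0⟩ := h
    have hxi : x i = 0 := by
      by_contra hne
      exact absurd (hrx i hne) (not_le.mpr hi0)
    have h1 : eval z (monomial e (1 : ℂ)) = 0 := by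
      by_contra hne
      exact eval_mono_ne.mp hne i hi (by rw [hneg i hi0, hxi])
    have h2 : eval x (monomial e (1 : ℂ)) = 0 := by
      by_contra hne
      exact eval_mono_ne.mp hne i hi hxi
    rw [h1, h2]

/-- Polynomials all of whose monomials do not see the moved coordinates. -/
lemma eval_poly_congr {r : M →+ ℤ} {x z : I → ℂ} (hrx : NonnegAt D x r)
    (hneg : ∀ i, r (D i) < 0 → z i = x i) {G : MvPolynomial I ℂ} {b : M}
    (hG : IsWeightedHomogeneous D G b)
    (he : ∀ e : I →₀ ℕ, Finsupp.weight D e = b → (∀ i, e i ≠ 0 → 0 ≤ r (D i)) →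
      ∀ i, e i ≠ 0 → z i = x i) :
    eval z G = eval x G := by
  rw [eval_eq, eval_eq]
  refine Finset.sum_congr rfl fun e hs => ?_
  have hw : Finsupp.weight D e = b := hG (mem_support_iff.mp hs)
  congr 1
  have h1 := eval_mono_congr hrx hneg (he e hw)
  rw [eval_mono, eval_mono] at h1
  exact h1

/-- General dimension count in a finite fibre: the coordinates in `S` are moved, subject to the
equations `H l`. -/
theorem count_fibre [Finite I] (hm : PreModel D θ β F X) {r : M →+ ℤ} {x : I → ℂ} {b : M}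
    (hx : x ∈ X) (hrx : NonnegAt D x r) (hext : Extremal D x r) (hrb : r b = 0)
    (hfin : FiniteMod D (Fib D X b x)) (S : I → Prop) (hS : ∀ i, S i → 0 < r (D i))
    {i₀ : I} (hi₀ : 0 < r (D i₀)) (hxi₀ : x i₀ ≠ 0)
    {Λ : Type} [Finite Λ] (H : Λ → MvPolynomial I ℂ) (h : MvPolynomial I ℂ)
    (hH : ∀ l, eval x (H l) = 0) (hh : eval x h ≠ 0)
    (key : ∀ z : I → ℂ, (∀ i, ¬ S i → z i = x i) → (∀ l, eval z (H l) = 0) → eval z h ≠ 0 →
      (∀ j, eval z (F j) = 0) ∧ z i₀ = x i₀) :
    Nat.card {i // S i} ≤ Nat.card Λ := by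
  classical
  by_contra hcon
  push Not at hcon
  obtain ⟨p, g, hg, hxg, hop⟩ := hm.opn x hx
  let ext : ({i // S i} → ℂ) → (I → ℂ) := fun z i => if h : S i then z ⟨i, h⟩ else x i
  obtain ⟨sub, hsub⟩ := exists_subst S x
  have hinj : Function.Injective ext := by
    intro z z' hz
    funext i
    have := congrFun hz i.1
    simp only [ext, dif_pos i.2] at this
    exact this
  let z₀ : {i // S i} → ℂ := fun i => x i.1
  have hz₀ : ext z₀ = x := by
    funext i
    simp only [ext, z₀]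
    split_ifs <;> rfl
  have hinf := infinite_common_zero (fun l => sub (H l)) z₀ (fun l => by
      rw [hsub]
      change eval (ext z₀) (H l) = 0
      rw [hz₀]
      exact hH l) (sub (h * g)) (by
      rw [hsub]
      change eval (ext z₀) (h * g) ≠ 0
      rw [hz₀, map_mul]
      exact mul_ne_zero hh hxg) hcon
  obtain ⟨E, hE, hEz⟩ := hfin
  have hfin : (⋃ z ∈ E, {y : I → ℂ | (∀ i, r (D i) = 0 → y i = x i) ∧ y i₀ = x i₀ ∧
      SameOrbit D z y}).Finite :=
    hE.biUnion fun z _ => finite_in_orbit hm hext hi₀ hxi₀ z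
  apply hinf
  refine (hfin.preimage hinj.injOn).subset ?_
  rintro z ⟨hz, hzh⟩
  rw [hsub] at hzh
  change eval (ext z) (h * g) ≠ 0 at hzh
  rw [map_mul] at hzh
  have hzx : ∀ i, ¬ S i → ext z i = x i := by
    intro i hi
    simp only [ext]
    rw [dif_neg hi]
  obtain ⟨hF, hzi₀⟩ := key (ext z) hzx (fun l => by
    have h2 := hz l
    rw [hsub] at h2
    exact h2) (left_ne_zero_of_mul hzh)
  have hzX : ext z ∈ X := hop _ (right_ne_zero_of_mul hzh) hF
  have hz0 : ∀ i, r (D i) ≤ 0 → ext z i = x i := fun i hi => hzx i fun h =>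
    absurd (hS i h) (not_lt.mpr hi)
  have hzF : ext z ∈ Fib D X b x := by
    refine ⟨hzX, fun m e e' he he' => ?_⟩
    have h1 : ∀ e : I →₀ ℕ, Finsupp.weight D e = m • b →
        eval (ext z) (monomial e (1 : ℂ)) = eval x (monomial e (1 : ℂ)) := by
      intro e he
      refine eval_mono_congr hrx (fun i hi => hz0 i hi.le) fun h0 i hi => hz0 i (le_of_eq ?_)
      refine zero_of_weight_zero h0 ?_ i hi
      rw [he, map_nsmul, hrb, smul_zero]
    rw [h1 e he, h1 e' he']
    ring
  obtain ⟨w, hw, hwz⟩ := hEz (ext z) hzF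
  exact Set.mem_biUnion hw ⟨fun i hi => hz0 i hi.le, hzi₀, hwz⟩

end Pool.Agent.H6.Ab
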