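import Pool.Agent.H6.Ab.Basic

/-!
# Negative variables: layers and the unit determinant
-/

set_option autoImplicit false

namespace Pool.Agent.H6.Ab

open MvPolynomial

variable {I J M : Type} [AddCommGroup M] {D : I → M} {θ : M}
  {β : J → M} {F : J → MvPolynomial I ℂ} {X : Set (I → ℂ)}

/-- The entries of the Jacobian which do not vanish at `x` are in increasing position. -/
lemma le_of_pderiv_ne (hF : ∀ j, IsWeightedHomogeneous D (F j) (β j)) {r : M →+ ℤ} {x : I → ℂ}
    (hrx : NonnegAt D x r) {i : I} {j : J} (h : eval x (pderiv i (F j)) ≠ 0) :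
    r (D i) ≤ r (β j) := by
  have h1 : IsWeightedHomogeneous D (pderiv i (F j)) (β j - D i) :=
    IsWeightedHomogeneous.pderiv (hF j) (sub_add_cancel _ _)
  obtain ⟨e, _, hw, hs⟩ := exists_monomial h1 h
  have h2 : 0 ≤ r (Finsupp.weight D e) := nonneg_weight fun i hi => hrx i (hs i hi)
  rw [hw, map_sub] at h2
  linarith

/-- The restricted rows of the Jacobian are independent. -/
lemma restricted_rows (hF : ∀ j, IsWeightedHomogeneous D (F j) (β j)) {r : M →+ ℤ} {x : I → ℂ}
    (hjac : LinearIndependent ℂ (fun (j : {j // r (β j) < 0}) (i : I) =>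
      eval x (pderiv i (F j.1))))
    (hrx : NonnegAt D x r) (w : ℤ) (hw : w < 0) :
    LinearIndependent ℂ (fun (j : {j // r (β j) ≤ w}) (i : {i // r (D i) ≤ w}) =>
      eval x (pderiv i.1 (F j.1))) := by
  classical
  let ext : ({i // r (D i) ≤ w} → ℂ) →ₗ[ℂ] (I → ℂ) :=
    { toFun := fun v i => if h : r (D i) ≤ w then v ⟨i, h⟩ else 0
      map_add' := by
        intro v v'
        funext i
        by_cases h : r (D i) ≤ w <;> simp [h]
      map_smul' := by
        intro c v
        funext i
        by_cases h : r (D i) ≤ w <;> simp [h] }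
  refine LinearIndependent.of_comp ext ?_
  have h1 : (ext ∘ fun (j : {j // r (β j) ≤ w}) (i : {i // r (D i) ≤ w}) =>
      eval x (pderiv i.1 (F j.1))) =
      (fun (j : {j // r (β j) < 0}) (i : I) => eval x (pderiv i (F j.1))) ∘
        (fun j : {j // r (β j) ≤ w} => (⟨j.1, lt_of_le_of_lt j.2 hw⟩ : {j // r (β j) < 0})) := by
    funext j i
    simp only [Function.comp_apply]
    change (if h : r (D i) ≤ w then eval x (pderiv i (F j.1)) else 0) = _
    split_ifs with h
    · rfl
    · by_contra hne
      exact h ((le_of_pderiv_ne hF hrx (fun h0 => hne h0.symm)).trans j.2)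
  rw [h1]
  exact hjac.comp _ (fun j j' h => Subtype.ext (congrArg (fun k : {j // r (β j) < 0} => k.1) h))

lemma card_layer_le [Fintype I] [Fintype J] (hF : ∀ j, IsWeightedHomogeneous D (F j) (β j))
    {r : M →+ ℤ} {x : I → ℂ}
    (hjac : LinearIndependent ℂ (fun (j : {j // r (β j) < 0}) (i : I) =>
      eval x (pderiv i (F j.1))))
    (hrx : NonnegAt D x r) (w : ℤ) (hw : w < 0) :
    Fintype.card {j // r (β j) ≤ w} ≤ Fintype.card {i // r (D i) ≤ w} := by
  have h := (restricted_rows hF hjac hrx w hw).fintype_card_le_finrank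
  rwa [Module.finrank_fintype_fun_eq_card] at h

lemma sum_layer_cake {K : Type} [Fintype K] (n : K → ℕ) (W : ℕ) (hW : ∀ k, n k ≤ W) :
    ∑ k, n k = ∑ w ∈ Finset.range W, Fintype.card {k // w < n k} := by
  have h1 : ∀ w, Fintype.card {k // w < n k} = ∑ k, if w < n k then 1 else 0 := by
    intro w
    rw [Fintype.card_subtype, Finset.card_filter]
  simp only [h1]
  rw [Finset.sum_comm]
  refine Finset.sum_congr rfl fun k _ => ?_
  rw [← Finset.card_filter]
  have : (Finset.range W).filter (fun w => w < n k) = Finset.range (n k) := by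
    ext w
    simp only [Finset.mem_filter, Finset.mem_range]
    have := hW k
    omega
  rw [this, Finset.card_range]

/-- S9 -/
theorem layers [Fintype I] [Fintype J] (hF : ∀ j, IsWeightedHomogeneous D (F j) (β j))
    {r : M →+ ℤ} {x : I → ℂ}
    (hjac : LinearIndependent ℂ (fun (j : {j // r (β j) < 0}) (i : I) =>
      eval x (pderiv i (F j.1))))
    (hrx : NonnegAt D x r) :
    ∑ j, (-r (β j)).toNat ≤ ∑ i, (-r (D i)).toNat ∧
    (∑ j, (-r (β j)).toNat = ∑ i, (-r (D i)).toNat →
      Nat.card {j // r (β j) < 0} = Nat.card {i // r (D i) < 0}) := by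
  set W : ℕ := ∑ j, (-r (β j)).toNat + ∑ i, (-r (D i)).toNat + 1 with hWdef
  have hJ : ∀ j, (-r (β j)).toNat ≤ W := by
    intro j
    have := Finset.single_le_sum (f := fun j => (-r (β j)).toNat) (fun _ _ => Nat.zero_le _)
      (Finset.mem_univ j)
    omega
  have hI : ∀ i, (-r (D i)).toNat ≤ W := by
    intro i
    have := Finset.single_le_sum (f := fun i => (-r (D i)).toNat) (fun _ _ => Nat.zero_le _)
      (Finset.mem_univ i)
    omega
  have hcardJ : ∀ w : ℕ, Fintype.card {j // w < (-r (β j)).toNat} =
      Fintype.card {j // r (β j) ≤ -((w : ℤ) + 1)} := by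
    intro w
    refine Fintype.card_congr (Equiv.subtypeEquivRight fun j => ?_)
    omega
  have hcardI : ∀ w : ℕ, Fintype.card {i // w < (-r (D i)).toNat} =
      Fintype.card {i // r (D i) ≤ -((w : ℤ) + 1)} := by
    intro w
    refine Fintype.card_congr (Equiv.subtypeEquivRight fun j => ?_)
    omega
  have hle : ∀ w ∈ Finset.range W, Fintype.card {j // w < (-r (β j)).toNat} ≤
      Fintype.card {i // w < (-r (D i)).toNat} := by
    intro w _
    rw [hcardJ, hcardI]
    exact card_layer_le hF hjac hrx _ (by omega)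
  rw [sum_layer_cake (fun j => (-r (β j)).toNat) W hJ,
    sum_layer_cake (fun i => (-r (D i)).toNat) W hI]
  refine ⟨Finset.sum_le_sum hle, fun heq => ?_⟩
  have h0 := (Finset.sum_eq_sum_iff_of_le hle).mp heq 0 (by simp [hWdef])
  rw [Nat.card_eq_fintype_card, Nat.card_eq_fintype_card]
  have h1 : Fintype.card {j // r (β j) < 0} = Fintype.card {j // 0 < (-r (β j)).toNat} := by
    refine Fintype.card_congr (Equiv.subtypeEquivRight fun j => ?_)
    omega
  have h2 : Fintype.card {i // r (D i) < 0} = Fintype.card {i // 0 < (-r (D i)).toNat} := by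
    refine Fintype.card_congr (Equiv.subtypeEquivRight fun j => ?_)
    omega
  rw [h1, h2, h0]

/-- Decomposition of a homogeneous polynomial of negative degree along the negative variables. -/
lemma exists_coeffs {r : M →+ ℤ} {G : MvPolynomial I ℂ} {b : M}
    [Fintype {i // r (D i) < 0}]
    (hG : IsWeightedHomogeneous D G b) (hb : r b < 0) :
    ∃ A : {i // r (D i) < 0} → MvPolynomial I ℂ,
      (∀ k, IsWeightedHomogeneous D (A k) (b - D k.1)) ∧
      G = ∑ k, A k * MvPolynomial.X k.1 := by
  classical
  induction hG using IsWeightedHomogeneous.induction_on with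
  | zero =>
    exact ⟨fun _ => 0, fun k => isWeightedHomogeneous_zero _ _ _, by simp⟩
  | add p q hp hq h1 h2 =>
    obtain ⟨A, hA, hA'⟩ := h1
    obtain ⟨B, hB, hB'⟩ := h2
    refine ⟨fun k => A k + B k, fun k => (hA k).add (hB k), ?_⟩
    simp only [add_mul, Finset.sum_add_distrib]
    rw [← hA', ← hB']
  | monomial d c hd =>
    subst hd
    obtain ⟨i, hi, hi0⟩ : ∃ i, d i ≠ 0 ∧ r (D i) < 0 := by
      by_contra hcon
      push Not at hcon
      exact absurd (nonneg_weight (ν := r) (D := D) hcon) (not_le.mpr hb)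
    refine ⟨fun k => if k = ⟨i, hi0⟩ then monomial (d - Finsupp.single i 1) c else 0,
      fun k => ?_, ?_⟩
    · beta_reduce
      by_cases hk : k = ⟨i, hi0⟩
      · rw [if_pos hk]
        refine isWeightedHomogeneous_monomial _ _ _ ?_
        rw [eq_sub_iff_add_eq, hk]
        exact Finsupp.weight_sub_single_add hi
      · rw [if_neg hk]
        exact isWeightedHomogeneous_zero _ _ _
    · rw [Finset.sum_eq_single ⟨i, hi0⟩]
      · beta_reduce
        rw [if_pos rfl, MvPolynomial.X, monomial_mul, mul_one]
        congr 1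
        rw [tsub_add_cancel_of_le]
        rw [Finsupp.single_le_iff]
        omega
      · intro k _ hk
        beta_reduce
        rw [if_neg hk, zero_mul]
      · intro h
        exact absurd (Finset.mem_univ _) h

/-- S11 : elimination of the `r`-negative variables -/
theorem neg_step [Fintype I] [Fintype J] (hm : PreModel D θ β F X) {r : M →+ ℤ} {x : I → ℂ}
    (hjac : ∀ y ∈ X, NonnegAt D y r → LinearIndependent ℂ (fun (j : {j // r (β j) < 0}) (i : I) =>
      eval y (pderiv i (F j.1))))
    (hx : x ∈ X) (hrx : NonnegAt D x r)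
    (hcard : Nat.card {j // r (β j) < 0} = Nat.card {i // r (D i) < 0}) :
    (∀ y ∈ X, ∀ i, r (D i) < 0 → y i = 0) ∧
    ∃ u : MvPolynomial I ℂ, IsWeightedHomogeneous D u
      (∑ j, (if r (β j) < 0 then β j else 0) - ∑ i, (if r (D i) < 0 then D i else 0)) ∧
      ∀ y ∈ X, eval y u ≠ 0 := by
  classical
  have hex : ∀ j : {j // r (β j) < 0}, ∃ A : {i // r (D i) < 0} → MvPolynomial I ℂ,
      (∀ k, IsWeightedHomogeneous D (A k) (β j.1 - D k.1)) ∧
      F j.1 = ∑ k, A k * MvPolynomial.X k.1 := fun j => exists_coeffs (hm.hom j.1) j.2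
  choose G hG hFG using hex
  let ee : {j // r (β j) < 0} ≃ {i // r (D i) < 0} := Fintype.equivOfCardEq (by
    rwa [Nat.card_eq_fintype_card, Nat.card_eq_fintype_card] at hcard)
  let A : Matrix {j // r (β j) < 0} {j // r (β j) < 0} (MvPolynomial I ℂ) :=
    fun j j' => G j (ee j')
  -- step 1: the determinant does not vanish at the points where the negative variables vanish
  have key : ∀ y ∈ X, (∀ i, r (D i) < 0 → y i = 0) → eval y A.det ≠ 0 := by
    intro y hy hy0
    have hry : NonnegAt D y r := by
      intro i hi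
      by_contra hneg
      exact hi (hy0 i (not_le.mp hneg))
    have hpd : ∀ (j : {j // r (β j) < 0}) (k : {i // r (D i) < 0}),
        eval y (pderiv k.1 (F j.1)) = eval y (G j k) := by
      intro j k
      rw [hFG j, map_sum, map_sum, Finset.sum_eq_single k]
      · rw [Derivation.leibniz, pderiv_X_self, smul_eq_mul, smul_eq_mul, mul_one, map_add,
          map_mul, eval_X, hy0 k.1 k.2, zero_mul, add_zero]
      · intro l _ hl
        rw [Derivation.leibniz, smul_eq_mul, smul_eq_mul, map_add, map_mul, map_mul, eval_X,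
          hy0 l.1 l.2, zero_mul, add_zero, pderiv_X_of_ne (fun h => hl (Subtype.ext h)),
          map_zero, mul_zero]
      · intro h
        exact absurd (Finset.mem_univ _) h
    have hrows : LinearIndependent ℂ (fun (j : {j // r (β j) < 0}) (j' : {j // r (β j) < 0}) =>
        eval y (G j (ee j'))) := by
      let ext : ({j // r (β j) < 0} → ℂ) →ₗ[ℂ] (I → ℂ) :=
        { toFun := fun v i => if h : r (D i) < 0 then v (ee.symm ⟨i, h⟩) else 0
          map_add' := by
            intro v v'
            funext i
            by_cases h : r (D i) < 0 <;> simp [h]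
          map_smul' := by
            intro c v
            funext i
            by_cases h : r (D i) < 0 <;> simp [h] }
      refine LinearIndependent.of_comp ext ?_
      have h1 : (ext ∘ fun (j : {j // r (β j) < 0}) (j' : {j // r (β j) < 0}) =>
          eval y (G j (ee j'))) =
          (fun (j : {j // r (β j) < 0}) (i : I) => eval y (pderiv i (F j.1))) := by
        funext j i
        simp only [Function.comp_apply]
        change (if h : r (D i) < 0 then eval y (G j (ee (ee.symm ⟨i, h⟩))) else 0) = _
        split_ifs with h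
        · rw [ee.apply_symm_apply, ← hpd]
        · by_contra hne
          exact h ((le_of_pderiv_ne hm.hom hry (fun h0 => hne h0.symm)).trans_lt j.2)
      rw [h1]
      exact hjac y hy hry
    have hunit : IsUnit (Matrix.map A (eval y)) := by
      rw [← Matrix.linearIndependent_rows_iff_isUnit]
      exact hrows
    rw [Matrix.isUnit_iff_isUnit_det] at hunit
    rw [RingHom.map_det]
    exact hunit.ne_zero
  -- the negative variables vanish at `x`
  have hx0 : ∀ i, r (D i) < 0 → x i = 0 := by
    intro i hi
    by_contra hne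
    exact absurd (hrx i hne) (not_le.mpr hi)
  have hux := key x hx hx0
  -- step 2: the determinant kills the negative variables
  have hkill : ∀ y ∈ X, ∀ k : {i // r (D i) < 0}, eval y A.det * eval y (MvPolynomial.X k.1) = 0 := by
    intro y hy k
    have hmul : Matrix.mulVec (Matrix.map A (eval y)) (fun j' => y (ee j').1) = 0 := by
      funext j
      have h0 := hm.zero y hy j.1
      rw [hFG j, map_sum] at h0
      simp only [Matrix.mulVec, dotProduct, Matrix.map_apply, Pi.zero_apply]
      rw [← h0, ← Equiv.sum_comp ee]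
      refine Finset.sum_congr rfl fun j' _ => ?_
      rw [map_mul, eval_X]
    have h2 : (Matrix.map A (eval y)).det • (fun j' : {j // r (β j) < 0} => y (ee j').1) = 0 := by
      have h3 : Matrix.mulVec ((Matrix.map A (eval y)).adjugate * Matrix.map A (eval y))
          (fun j' => y (ee j').1) = 0 := by
        rw [← Matrix.mulVec_mulVec, hmul, Matrix.mulVec_zero]
      rw [Matrix.adjugate_mul, Matrix.smul_mulVec, Matrix.one_mulVec] at h3
      exact h3
    have h4 := congrFun h2 (ee.symm k)
    simp only [Pi.smul_apply, Equiv.apply_symm_apply, smul_eq_mul, Pi.zero_apply] at h4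
    rw [eval_X, RingHom.map_det]
    exact h4
  have hdetH : IsWeightedHomogeneous D A.det
      (∑ j, (if r (β j) < 0 then β j else 0) - ∑ i, (if r (D i) < 0 then D i else 0)) := by
    have hdeg : (∑ j, (if r (β j) < 0 then β j else 0) - ∑ i, (if r (D i) < 0 then D i else 0)) =
        ∑ j : {j // r (β j) < 0}, β j.1 - ∑ k : {i // r (D i) < 0}, D k.1 := by
      congr 1
      · rw [← Finset.sum_filter]
        exact Finset.sum_subtype _ (fun j => by simp) _
      · rw [← Finset.sum_filter]
        exact Finset.sum_subtype _ (fun j => by simp) _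
    rw [hdeg, Matrix.det_apply]
    refine IsWeightedHomogeneous.sum _ _ _ fun σ _ => ?_
    have h1 : IsWeightedHomogeneous D (∏ j, A (σ j) j)
        (∑ j : {j // r (β j) < 0}, β j.1 - ∑ k : {i // r (D i) < 0}, D k.1) := by
      have h2 := IsWeightedHomogeneous.prod (Finset.univ) (fun j => A (σ j) j)
        (fun j => β (σ j).1 - D (ee j).1) (fun j _ => hG (σ j) (ee j))
      have h3 : ∑ j : {j // r (β j) < 0}, (β (σ j).1 - D (ee j).1) =
          ∑ j : {j // r (β j) < 0}, β j.1 - ∑ k : {i // r (D i) < 0}, D k.1 := by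
        rw [Finset.sum_sub_distrib, Equiv.sum_comp σ (fun j : {j // r (β j) < 0} => β j.1),
          Equiv.sum_comp ee (fun k : {i // r (D i) < 0} => D k.1)]
      rwa [h3] at h2
    rcases Int.units_eq_one_or (Equiv.Perm.sign σ) with h | h
    · rw [h, one_smul]
      exact h1
    · rw [h]
      have h4 := h1.neg
      simpa using h4
  have hvan : ∀ y ∈ X, ∀ i, r (D i) < 0 → y i = 0 := by
    intro y hy i hi
    rcases hm.conn {z | z ∈ X ∧ ∀ P ∈ ({A.det} : Set (MvPolynomial I ℂ)), eval z P = 0}
      {z | z ∈ X ∧ ∀ P ∈ {P | ∃ k : {i // r (D i) < 0}, P = MvPolynomial.X k.1}, eval z P = 0}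
      ⟨_, fun P hP => by
        obtain rfl := Set.mem_singleton_iff.mp hP
        exact ⟨_, hdetH⟩, rfl⟩
      ⟨_, fun P hP => by
        obtain ⟨k, rfl⟩ := hP
        exact ⟨_, isWeightedHomogeneous_X ℂ D k.1⟩, rfl⟩
      (by
        ext z
        constructor
        · rintro (h | h) <;> exact h.1
        · intro hz
          by_cases h0 : eval z A.det = 0
          · exact Or.inl ⟨hz, fun P hP => by rw [Set.mem_singleton_iff.mp hP]; exact h0⟩
          · refine Or.inr ⟨hz, ?_⟩
            rintro P ⟨k, rfl⟩
            exact (mul_eq_zero.mp (hkill z hz k)).resolve_left h0)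
      (by
        ext z
        simp only [Set.mem_inter_iff, Set.mem_empty_iff_false, iff_false]
        rintro ⟨h1, h2⟩
        refine key z h1.1 (fun i hi => ?_) (h1.2 _ rfl)
        have := h2.2 _ ⟨⟨i, hi⟩, rfl⟩
        rwa [eval_X] at this) with h | h
    · have hy' : y ∈ ({z | z ∈ X ∧ ∀ P ∈ {P | ∃ k : {i // r (D i) < 0}, P = MvPolynomial.X k.1},
          eval z P = 0} : Set (I → ℂ)) := by
        by_contra hcon
        have h0 : eval y A.det = 0 := by
          by_contra h0
          apply hcon
          refine ⟨hy, ?_⟩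
          rintro P ⟨k, rfl⟩
          exact (mul_eq_zero.mp (hkill y hy k)).resolve_left h0
        have : y ∈ ({z | z ∈ X ∧ ∀ P ∈ ({A.det} : Set (MvPolynomial I ℂ)), eval z P = 0} :
            Set (I → ℂ)) := ⟨hy, fun P hP => by rw [Set.mem_singleton_iff.mp hP]; exact h0⟩
        rw [h] at this
        exact this
      have := hy'.2 _ ⟨⟨i, hi⟩, rfl⟩
      rwa [eval_X] at this
    · exfalso
      have : x ∈ ({z | z ∈ X ∧ ∀ P ∈ {P | ∃ k : {i // r (D i) < 0}, P = MvPolynomial.X k.1},
          eval z P = 0} : Set (I → ℂ)) := by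
        refine ⟨hx, ?_⟩
        rintro P ⟨k, rfl⟩
        rw [eval_X]
        exact hx0 k.1 k.2
      rw [h] at this
      exact this
  exact ⟨hvan, A.det, hdetH, fun y hy => key y hy (hvan y hy)⟩

end Pool.Agent.H6.Ab
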