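import Pool.Agent.H6.Ab.FibCount
import Pool.Agent.H6.Ab.Neg

/-!
# Models with a base

The coordinates of type `none` are the fibre coordinates, those of type `some none` are coordinates
of the base factor `Y₀`, those of type `some (some a)` are coordinates of the cone over the base
factor `Y_a`; similarly for the equations.
-/

set_option autoImplicit false

namespace Pool.Agent.H6.Ab

open MvPolynomial

structure GModel {I J A M : Type} [AddCommGroup M] (D : I → M) (θ : M)
    (β : J → M) (F : J → MvPolynomial I ℂ) (X : Set (I → ℂ)) (s : I → Option (Option A))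
    (t : J → Option (Option A)) (χ : A → M) (n : A → ℕ) : Prop where
  pre : PreModel D θ β F X
  jac : ∀ x ∈ X, LinearIndependent ℂ
    (fun (j : {j // t j = none ∧ ¬ InCone D {i | x i ≠ 0} (β j)}) (i : I) =>
      eval x (pderiv i (F j.1)))
  semi : ∀ x ∈ X, ∀ i, s i = some none → InCone D {k | s k = some none ∧ x k ≠ 0} (D i)
  eq0 : ∀ j, t j = some none → β j ∈ AddSubgroup.closure (D '' {i | s i = some none})
  deg : ∀ i a, s i = some (some a) → ∃ v : ℕ, 1 ≤ v ∧ D i = v • χ a
  eqa : ∀ j a, t j = some (some a) → ∃ v : ℕ, β j = v • χ a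
  nz : ∀ x ∈ X, ∀ a, ∃ i, s i = some (some a) ∧ x i ≠ 0
  dep : ∀ j, t j ≠ none → ∀ y y' : I → ℂ, (∀ i, s i = t j → y i = y' i) →
    eval y (F j) = eval y' (F j)
  loc : ∀ x ∈ X, ∀ a, ∃ (m : ℕ) (P : Fin m → MvPolynomial I ℂ) (h : MvPolynomial I ℂ),
    m + n a + 1 = Nat.card {i // s i = some (some a)} ∧ (∀ l, eval x (P l) = 0) ∧
    eval x h ≠ 0 ∧ ∀ y, eval y h ≠ 0 → (∀ l, eval y (P l) = 0) →
      ∀ j, t j = some (some a) → eval y (F j) = 0

/-- `κ + Σ k_a χ_a + Σ β_j - Σ D_i`, the sums over the equations and coordinates of type `none`. -/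
noncomputable def gcanon {I J A M : Type} [AddCommGroup M] [Fintype I] [Fintype J] [Fintype A]
    (D : I → M) (β : J → M) (s : I → Option (Option A)) (t : J → Option (Option A)) (χ : A → M)
    (κ : M) (k : A → ℤ) : M := by
  classical
  exact κ + ∑ a, k a • χ a + ∑ j, (if t j = none then β j else 0) -
    ∑ i, (if s i = none then D i else 0)

variable {I J A M : Type} [AddCommGroup M] {D : I → M} {θ : M}
  {β : J → M} {F : J → MvPolynomial I ℂ} {X : Set (I → ℂ)} {s : I → Option (Option A)}
  {t : J → Option (Option A)} {χ : A → M} {n : A → ℕ}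

lemma not_inCone_of_neg {x : I → ℂ} {r : M →+ ℤ} (hrx : NonnegAt D x r) {b : M} (hb : r b < 0) :
    ¬ InCone D {i | x i ≠ 0} b := fun h => absurd (hrx.inCone h) (not_le.mpr hb)

/-- independence of the rows of negative degree -/
lemma GModel.jac_neg (hm : GModel D θ β F X s t χ n) {x : I → ℂ} (hx : x ∈ X) {r : M →+ ℤ}
    (hrx : NonnegAt D x r) :
    LinearIndependent ℂ (fun (j : {j : {j // t j = none} // r (β j.1) < 0}) (i : I) =>
      eval x (pderiv i (F j.1.1))) :=
  (hm.jac x hx).comp
    (fun j : {j : {j // t j = none} // r (β j.1) < 0} =>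
      (⟨j.1.1, j.1.2, not_inCone_of_neg hrx j.2⟩ :
        {j // t j = none ∧ ¬ InCone D {i | x i ≠ 0} (β j)}))
    (fun j j' h => Subtype.ext (Subtype.ext (congrArg
      (fun k : {j // t j = none ∧ ¬ InCone D {i | x i ≠ 0} (β j)} => k.1) h)))

/-- the layer cake for finitely many weights -/
lemma sum_layer_weighted {K : Type} [Fintype K] (m c : K → ℕ) (W : ℕ) (hW : ∀ k, m k ≤ W) :
    ∑ k, c k * m k = ∑ w ∈ Finset.range W, ∑ k, (if w < m k then c k else 0) := by
  rw [Finset.sum_comm]
  refine Finset.sum_congr rfl fun k _ => ?_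
  rw [← Finset.sum_filter, Finset.sum_const, smul_eq_mul, mul_comm]
  congr 1
  have : (Finset.range W).filter (fun w => w < m k) = Finset.range (m k) := by
    ext w
    simp only [Finset.mem_filter, Finset.mem_range]
    have := hW k
    omega
  rw [this, Finset.card_range]

lemma card_eq_sum_ite {K : Type} [Fintype K] (p : K → Prop) [DecidablePred p] :
    Nat.card {k // p k} = ∑ k, (if p k then 1 else 0) := by
  rw [Nat.card_eq_fintype_card, Fintype.card_subtype, Finset.card_filter]

/-- The dimension count for one threshold. -/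
theorem GModel.count [Fintype I] [Fintype J] [Fintype A] (hm : GModel D θ β F X s t χ n)
    {r : M →+ ℤ} {x : I → ℂ} {b : M} (hx : x ∈ X) (hrx : NonnegAt D x r)
    (hext : Extremal D x r) (hrb : r b = 0) (hfin : FiniteMod D (Fib D X b x))
    {i₀ : I} (hi₀ : 0 < r (D i₀)) (hxi₀ : x i₀ ≠ 0) (w l₀ : ℕ)
    (hl₀ : l₀ ≤ w → s i₀ ≠ none ∧ ∀ a, s i₀ = some (some a) → (r (χ a)).toNat ≤ w) :
    Nat.card {i // s i = none ∧ w < (r (D i)).toNat} +
      ∑ a : {a // w < (r (χ a)).toNat}, (n a.1 + 1) ≤
    Nat.card {j // t j = none ∧ w < (r (β j)).toNat} + Nat.card {_u : Unit // w < l₀} := by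
  classical
  set S : I → Prop := fun i => (s i = none ∧ w < (r (D i)).toNat) ∨
    ∃ a, s i = some (some a) ∧ w < (r (χ a)).toNat with hSdef
  have hblock : ∀ i a, s i = some (some a) → w < (r (χ a)).toNat → w < (r (D i)).toNat := by
    intro i a hi ha
    obtain ⟨v, hv, hD⟩ := hm.deg i a hi
    rw [hD, map_nsmul, nsmul_eq_mul]
    have h1 : (1 : ℤ) ≤ v := by exact_mod_cast hv
    have h2 : (w : ℤ) < r (χ a) := by omega
    have h3 : r (χ a) ≤ v * r (χ a) := le_mul_of_one_le_left (by omega) h1
    omega
  have hSw : ∀ i, S i → w < (r (D i)).toNat := by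
    rintro i (h | ⟨a, h1, h2⟩)
    · exact h.2
    · exact hblock i a h1 h2
  have hSpos : ∀ i, S i → 0 < r (D i) := fun i hi => by
    have := hSw i hi
    omega
  choose m P h hcard hP hh hloc using hm.loc x hx
  -- the equations
  let H : ({j // t j = none ∧ w < (r (β j)).toNat} ⊕
      ((Σ a : {a // w < (r (χ a)).toNat}, Fin (m a.1)) ⊕ {_u : Unit // w < l₀})) →
      MvPolynomial I ℂ := fun l => l.elim (fun j => F j.1)
        (fun l => l.elim (fun q => P q.1.1 q.2)
          (fun _ => MvPolynomial.X i₀ - MvPolynomial.C (x i₀)))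
  have hmain := count_fibre hm.pre hx hrx hext hrb hfin S hSpos hi₀ hxi₀ H
    (∏ a : A, h a) (by
      rintro (j | q | u)
      · exact hm.pre.zero x hx j.1
      · exact hP _ _
      · change eval x (MvPolynomial.X i₀ - MvPolynomial.C (x i₀)) = 0
        rw [map_sub, eval_X, eval_C, sub_self])
    (by
      rw [map_prod]
      exact Finset.prod_ne_zero_iff.mpr fun a _ => hh a) (by
    intro z hz hzH hzh
    rw [map_prod] at hzh
    have hzh' : ∀ a, eval z (h a) ≠ 0 := fun a =>
      Finset.prod_ne_zero_iff.mp hzh a (Finset.mem_univ a)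
    refine ⟨fun j => ?_, ?_⟩
    · rcases htj : t j with _ | _ | a
      · by_cases hj : w < (r (β j)).toNat
        · exact hzH (Sum.inl ⟨j, htj, hj⟩)
        · rw [eval_poly_congr hrx (fun i hi => hz i fun hS => by
            have := hSpos i hS
            omega) (hm.pre.hom j), hm.pre.zero x hx j]
          intro e he hnn i hei
          apply hz
          intro hS
          have h1 := hSw i hS
          have h2 : r (D i) ≤ r (Finsupp.weight D e) := by
            rw [map_weight]
            have h3 : r (D i) ≤ (e i : ℤ) * r (D i) :=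
              le_mul_of_one_le_left (by omega) (by
                have : 1 ≤ e i := Nat.one_le_iff_ne_zero.mpr hei
                exact_mod_cast this)
            refine h3.trans ?_
            exact Finset.single_le_sum (f := fun i => (e i : ℤ) * r (D i)) (fun k hk =>
              mul_nonneg (Int.natCast_nonneg _) (hnn k (Finsupp.mem_support_iff.mp hk)))
              (Finsupp.mem_support_iff.mpr hei)
          rw [he] at h2
          omega
      · rw [hm.dep j (by rw [htj]; exact Option.some_ne_none _) z x fun i hi => ?_,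
          hm.pre.zero x hx j]
        apply hz
        rw [htj] at hi
        rintro (⟨h1, -⟩ | ⟨a, h1, -⟩)
        · rw [hi] at h1; exact Option.some_ne_none _ h1
        · rw [hi] at h1; simp at h1
      · by_cases ha : w < (r (χ a)).toNat
        · exact hloc a z (hzh' a) (fun l => hzH (Sum.inr (Sum.inl ⟨⟨a, ha⟩, l⟩))) j htj
        · rw [hm.dep j (by rw [htj]; exact Option.some_ne_none _) z x fun i hi => ?_,
            hm.pre.zero x hx j]
          apply hz
          rw [htj] at hi
          rintro (⟨h1, -⟩ | ⟨a', h1, h2⟩)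
          · rw [hi] at h1; exact Option.some_ne_none _ h1
          · rw [hi] at h1
            simp only [Option.some.injEq] at h1
            rw [← h1] at h2
            exact ha h2
    · by_cases hw : w < l₀
      · have h1 := hzH (Sum.inr (Sum.inr ⟨(), hw⟩))
        change eval z (MvPolynomial.X i₀ - MvPolynomial.C (x i₀)) = 0 at h1
        rw [map_sub, eval_X, eval_C] at h1
        exact sub_eq_zero.mp h1
      · obtain ⟨h1, h2⟩ := hl₀ (not_lt.mp hw)
        apply hz
        rintro (⟨h3, -⟩ | ⟨a, h3, h4⟩)
        · exact h1 h3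
        · exact absurd (h2 a h3) (not_le.mpr h4))
  -- compare the cardinalities
  have hinj : Nat.card ({i // s i = none ∧ w < (r (D i)).toNat} ⊕
      (Σ a : {a // w < (r (χ a)).toNat}, {i // s i = some (some a.1)})) ≤ Nat.card {i // S i} := by
    refine Nat.card_le_card_of_injective (fun l => l.elim
      (fun i => (⟨i.1, Or.inl i.2⟩ : {i // S i}))
      (fun q => ⟨q.2.1, Or.inr ⟨q.1.1, q.2.2, q.1.2⟩⟩)) ?_
    rintro (i | ⟨a, i⟩) (i' | ⟨a', i'⟩) heq
    · have h1 : i.1 = i'.1 := congrArg (fun k : {i // S i} => k.1) heq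
      rw [Subtype.ext h1]
    · have h1 : i.1 = i'.1 := congrArg (fun k : {i // S i} => k.1) heq
      have h2 := i.2.1
      rw [h1, i'.2] at h2
      exact absurd h2 (Option.some_ne_none _)
    · have h1 : i.1 = i'.1 := congrArg (fun k : {i // S i} => k.1) heq
      have h2 := i'.2.1
      rw [← h1, i.2] at h2
      exact absurd h2 (Option.some_ne_none _)
    · have h1 : i.1 = i'.1 := congrArg (fun k : {i // S i} => k.1) heq
      have h2 : a = a' := by
        apply Subtype.ext
        have h3 := i.2
        rw [h1, i'.2] at h3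
        simp only [Option.some.injEq] at h3
        exact h3.symm
      subst h2
      rw [Subtype.ext h1]
  have hle := hinj.trans hmain
  rw [Nat.card_sum, Nat.card_sigma, Nat.card_sum, Nat.card_sum, Nat.card_sigma] at hle
  have h1 : ∑ a : {a // w < (r (χ a)).toNat}, Nat.card {i // s i = some (some a.1)} =
      ∑ a : {a // w < (r (χ a)).toNat}, (n a.1 + 1) +
        ∑ a : {a // w < (r (χ a)).toNat}, Nat.card (Fin (m a.1)) := by
    rw [← Finset.sum_add_distrib]
    refine Finset.sum_congr rfl fun a _ => ?_
    rw [← hcard a.1, Nat.card_eq_fintype_card, Fintype.card_fin]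
    ring
  rw [h1] at hle
  omega

/-- In a critical situation the functional `r` vanishes on the base. -/
theorem GModel.base_zero [Fintype I] [Fintype J] [Fintype A] (hm : GModel D θ β F X s t χ n)
    {κ : M} (hκ : ∀ x ∈ X, InCone D {k | s k = some none ∧ x k ≠ 0} κ) {k : A → ℤ}
    (hk : ∀ a, -(n a : ℤ) ≤ k a)
    {r : M →+ ℤ} {x : I → ℂ} {b : M} (hx : x ∈ X) (hrx : NonnegAt D x r)
    (hext : Extremal D x r) (hrb : r b = 0) (hfin : FiniteMod D (Fib D X b x))
    (hneg : r (gcanon D β s t χ κ k) < 0) :
    (∀ i, s i ≠ none → r (D i) = 0) ∧ (∀ j, t j ≠ none → r (β j) = 0) ∧ r κ = 0 ∧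
      ∀ a, r (χ a) = 0 := by
  classical
  -- nonnegativity on the base
  have hcone : ∀ b : M, InCone D {k | s k = some none ∧ x k ≠ 0} b → 0 ≤ r b := by
    rintro b ⟨m, hm1, e, he, hs⟩
    have h1 : 0 ≤ r (Finsupp.weight D e) := nonneg_weight fun i hi => hrx i (hs i hi).2
    rw [he, map_nsmul, nsmul_eq_mul] at h1
    by_contra hcon
    push Not at hcon
    have h2 : (0 : ℤ) < m := by exact_mod_cast hm1
    nlinarith [mul_neg_of_pos_of_neg h2 hcon]
  have hcone' : ∀ b : M, InCone D {k | s k = some none ∧ x k ≠ 0} b → 0 < r b →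
      ∃ i, s i = some none ∧ x i ≠ 0 ∧ 0 < r (D i) := by
    rintro b ⟨m, hm1, e, he, hs⟩ hb
    by_contra hcon
    push Not at hcon
    have h1 : r (Finsupp.weight D e) = 0 := by
      rw [map_weight]
      refine Finset.sum_eq_zero fun i hi => ?_
      have h2 := hs i (Finsupp.mem_support_iff.mp hi)
      have h3 : r (D i) = 0 := le_antisymm (hcon i h2.1 h2.2) (hrx i h2.2)
      beta_reduce
      rw [h3, mul_zero]
    rw [he, map_nsmul, nsmul_eq_mul] at h1
    have h2 : (0 : ℤ) < m := by exact_mod_cast hm1
    nlinarith [mul_pos h2 hb]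
  have hY0 : ∀ i, s i = some none → 0 ≤ r (D i) := fun i hi => hcone _ (hm.semi x hx i hi)
  have hχ : ∀ a, 0 ≤ r (χ a) := by
    intro a
    obtain ⟨i, hi, hxi⟩ := hm.nz x hx a
    obtain ⟨v, hv, hD⟩ := hm.deg i a hi
    have h1 := hrx i hxi
    rw [hD, map_nsmul, nsmul_eq_mul] at h1
    by_contra hcon
    push Not at hcon
    have h2 : (0 : ℤ) < v := by exact_mod_cast hv
    nlinarith [mul_neg_of_pos_of_neg h2 hcon]
  have hbase : ∀ i, s i ≠ none → 0 ≤ r (D i) := by
    intro i hi
    rcases hsi : s i with _ | _ | a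
    · exact absurd hsi hi
    · exact hY0 i hsi
    · obtain ⟨v, hv, hD⟩ := hm.deg i a hsi
      rw [hD, map_nsmul, nsmul_eq_mul]
      exact mul_nonneg (Int.natCast_nonneg _) (hχ a)
  -- the nonzero base coordinates have degree zero
  have key : ∀ i₀, s i₀ ≠ none → x i₀ ≠ 0 → r (D i₀) = 0 := by
    intro i₀ hs₀ hx₀
    by_contra hne
    have hi₀ : 0 < r (D i₀) := lt_of_le_of_ne (hbase i₀ hs₀) (Ne.symm hne)
    obtain ⟨l₀, hl₀, hl₀'⟩ : ∃ l₀ : ℕ, l₀ ≤ ∑ a, (r (χ a)).toNat ∧
        ∀ w, l₀ ≤ w → ∀ a, s i₀ = some (some a) → (r (χ a)).toNat ≤ w := by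
      rcases hsi : s i₀ with _ | _ | a
      · exact absurd hsi hs₀
      · exact ⟨0, Nat.zero_le _, fun w _ a h => by simp at h⟩
      · refine ⟨(r (χ a)).toNat, Finset.single_le_sum (f := fun a => (r (χ a)).toNat)
          (fun _ _ => Nat.zero_le _) (Finset.mem_univ a), fun w hw a' h => ?_⟩
        simp only [Option.some.injEq] at h
        rw [← h]; exact hw
    set W : ℕ := ∑ j, (r (β j)).toNat + ∑ i, (r (D i)).toNat + ∑ a, (r (χ a)).toNat + 1 with hW
    have hWJ : ∀ j : {j // t j = none}, (r (β j.1)).toNat ≤ W := by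
      intro j
      have := Finset.single_le_sum (f := fun j => (r (β j)).toNat) (fun _ _ => Nat.zero_le _)
        (Finset.mem_univ j.1)
      omega
    have hWI : ∀ i : {i // s i = none}, (r (D i.1)).toNat ≤ W := by
      intro i
      have := Finset.single_le_sum (f := fun i => (r (D i)).toNat) (fun _ _ => Nat.zero_le _)
        (Finset.mem_univ i.1)
      omega
    have hWA : ∀ a, (r (χ a)).toNat ≤ W := by
      intro a
      have := Finset.single_le_sum (f := fun a => (r (χ a)).toNat) (fun _ _ => Nat.zero_le _)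
        (Finset.mem_univ a)
      omega
    have hcnt := fun w => hm.count hx hrx hext hrb hfin hi₀ hx₀ w l₀
      (fun hw => ⟨hs₀, hl₀' w hw⟩)
    have hsum := Finset.sum_le_sum (s := Finset.range W) fun w _ => hcnt w
    rw [Finset.sum_add_distrib, Finset.sum_add_distrib] at hsum
    have e1 : ∑ w ∈ Finset.range W, Nat.card {i // s i = none ∧ w < (r (D i)).toNat} =
        ∑ i : {i // s i = none}, (r (D i.1)).toNat := by
      rw [sum_layer_cake (fun i : {i // s i = none} => (r (D i.1)).toNat) W hWI]
      refine Finset.sum_congr rfl fun w _ => ?_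
      rw [← Nat.card_eq_fintype_card]
      exact Nat.card_congr
        { toFun := fun i => ⟨⟨i.1, i.2.1⟩, i.2.2⟩
          invFun := fun i => ⟨i.1.1, i.1.2, i.2⟩
          left_inv := fun i => rfl
          right_inv := fun i => rfl }
    have e2 : ∑ w ∈ Finset.range W, Nat.card {j // t j = none ∧ w < (r (β j)).toNat} =
        ∑ j : {j // t j = none}, (r (β j.1)).toNat := by
      rw [sum_layer_cake (fun j : {j // t j = none} => (r (β j.1)).toNat) W hWJ]
      refine Finset.sum_congr rfl fun w _ => ?_
      rw [← Nat.card_eq_fintype_card]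
      exact Nat.card_congr
        { toFun := fun i => ⟨⟨i.1, i.2.1⟩, i.2.2⟩
          invFun := fun i => ⟨i.1.1, i.1.2, i.2⟩
          left_inv := fun i => rfl
          right_inv := fun i => rfl }
    have e3 : ∑ w ∈ Finset.range W, ∑ a : {a // w < (r (χ a)).toNat}, (n a.1 + 1) =
        ∑ a, (n a + 1) * (r (χ a)).toNat := by
      rw [sum_layer_weighted (fun a => (r (χ a)).toNat) (fun a => n a + 1) W hWA]
      refine Finset.sum_congr rfl fun w _ => ?_
      rw [← Finset.sum_filter]
      exact (Finset.sum_subtype (Finset.univ.filter fun a => w < (r (χ a)).toNat)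
        (fun a => by simp) (fun a => n a + 1)).symm
    have e4 : ∑ w ∈ Finset.range W, Nat.card {_u : Unit // w < l₀} ≤ l₀ := by
      have h1 : ∀ w, Nat.card {_u : Unit // w < l₀} = if w < l₀ then 1 else 0 := by
        intro w
        rw [Nat.card_eq_fintype_card, Fintype.card_subtype, Finset.card_filter]
        simp
      simp only [h1]
      rw [← Finset.card_filter]
      refine (Finset.card_le_card (fun w hw => ?_)).trans_eq (Finset.card_range l₀)
      rw [Finset.mem_filter] at hw
      exact Finset.mem_range.mpr hw.2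
    rw [e1, e2, e3] at hsum
    -- the negative degrees
    have hlay := (layers (F := fun j : {j // t j = none} => F j.1)
      (β := fun j : {j // t j = none} => β j.1) (fun j => hm.pre.hom j.1)
      (hm.jac_neg hx hrx) hrx).1
    have hlay2 : ∑ i, (-r (D i)).toNat = ∑ i : {i // s i = none}, (-r (D i.1)).toNat := by
      rw [← Finset.sum_subtype (Finset.univ.filter fun i => s i = none)
        (fun i => by simp) (fun i => (-r (D i)).toNat), Finset.sum_filter]
      refine Finset.sum_congr rfl fun i _ => ?_
      by_cases hi : s i = none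
      · rw [if_pos hi]
      · rw [if_neg hi]
        have := hbase i hi
        omega
    rw [hlay2] at hlay
    -- the final estimate
    have f1 : ∑ j, r (if t j = none then β j else 0) =
        ((∑ j : {j // t j = none}, (r (β j.1)).toNat : ℕ) : ℤ) -
          ((∑ j : {j // t j = none}, (-r (β j.1)).toNat : ℕ) : ℤ) := by
      have h1 : ∑ j, r (if t j = none then β j else 0) =
          ∑ j : {j // t j = none}, r (β j.1) := by
        rw [← Finset.sum_subtype (Finset.univ.filter fun j => t j = none)
          (fun i => by simp) (fun j => r (β j)), Finset.sum_filter]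
        refine Finset.sum_congr rfl fun j _ => ?_
        split_ifs
        · rfl
        · exact map_zero r
      rw [h1]
      push_cast
      rw [← Finset.sum_sub_distrib]
      exact Finset.sum_congr rfl fun j _ => by omega
    have f2 : ∑ i, r (if s i = none then D i else 0) =
        ((∑ i : {i // s i = none}, (r (D i.1)).toNat : ℕ) : ℤ) -
          ((∑ i : {i // s i = none}, (-r (D i.1)).toNat : ℕ) : ℤ) := by
      have h1 : ∑ i, r (if s i = none then D i else 0) =
          ∑ i : {i // s i = none}, r (D i.1) := by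
        rw [← Finset.sum_subtype (Finset.univ.filter fun i => s i = none)
          (fun i => by simp) (fun i => r (D i)), Finset.sum_filter]
        refine Finset.sum_congr rfl fun j _ => ?_
        split_ifs
        · rfl
        · exact map_zero r
      rw [h1]
      push_cast
      rw [← Finset.sum_sub_distrib]
      exact Finset.sum_congr rfl fun j _ => by omega
    have f3 : -((∑ a, (n a + 1) * (r (χ a)).toNat : ℕ) : ℤ) + ((∑ a, (r (χ a)).toNat : ℕ) : ℤ) ≤
        ∑ a, k a * r (χ a) := by
      push_cast
      rw [← Finset.sum_neg_distrib, ← Finset.sum_add_distrib]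
      refine Finset.sum_le_sum fun a _ => ?_
      have h1 := hχ a
      have h2 := hk a
      have h3 : max (r (χ a)) 0 = r (χ a) := max_eq_left h1
      nlinarith [mul_le_mul_of_nonneg_right h2 h1, Int.toNat_of_nonneg h1]
    have f4 : r (gcanon D β s t χ κ k) = r κ + ∑ a, k a * r (χ a) +
        ∑ j, r (if t j = none then β j else 0) - ∑ i, r (if s i = none then D i else 0) := by
      have h1 : ∀ a, r (k a • χ a) = k a * r (χ a) := fun a => by rw [map_zsmul, smul_eq_mul]
      rw [gcanon, map_sub, map_add, map_add, map_sum, map_sum, map_sum]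
      simp only [h1]
    have f5 : 0 ≤ r κ := hcone _ (hκ x hx)
    rw [f4, f1, f2] at hneg
    have f6 : (((∑ i : {i // s i = none}, (r (D i.1)).toNat : ℕ) : ℤ) +
        ((∑ a, (n a + 1) * (r (χ a)).toNat : ℕ) : ℤ)) ≤
        ((∑ j : {j // t j = none}, (r (β j.1)).toNat : ℕ) : ℤ) +
          ((∑ a, (r (χ a)).toNat : ℕ) : ℤ) := by
      have := (hsum.trans (Nat.add_le_add_left e4 _)).trans (Nat.add_le_add_left hl₀ _)
      exact_mod_cast this
    have f7 : ((∑ j : {j // t j = none}, (-r (β j.1)).toNat : ℕ) : ℤ) ≤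
        ((∑ i : {i // s i = none}, (-r (D i.1)).toNat : ℕ) : ℤ) := by exact_mod_cast hlay
    omega
  have hY0' : ∀ i, s i = some none → r (D i) = 0 := by
    intro i hi
    by_contra hne
    obtain ⟨k', h1, h2, h3⟩ := hcone' _ (hm.semi x hx i hi)
      (lt_of_le_of_ne (hY0 i hi) (Ne.symm hne))
    have := key k' (by rw [h1]; exact Option.some_ne_none _) h2
    omega
  have hχ' : ∀ a, r (χ a) = 0 := by
    intro a
    obtain ⟨i, hi, hxi⟩ := hm.nz x hx a
    obtain ⟨v, hv, hD⟩ := hm.deg i a hi
    have h1 := key i (by rw [hi]; exact Option.some_ne_none _) hxi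
    rw [hD, map_nsmul, nsmul_eq_mul] at h1
    rcases mul_eq_zero.mp h1 with h2 | h2
    · have : (v : ℤ) ≠ 0 := by
        have : (0 : ℤ) < v := by exact_mod_cast hv
        omega
      exact absurd h2 this
    · exact h2
  refine ⟨fun i hi => ?_, fun j hj => ?_, ?_, hχ'⟩
  · rcases hsi : s i with _ | _ | a
    · exact absurd hsi hi
    · exact hY0' i hsi
    · obtain ⟨v, _, hD⟩ := hm.deg i a hsi
      rw [hD, map_nsmul, hχ', smul_zero]
  · rcases htj : t j with _ | _ | a
    · exact absurd htj hj
    · have h1 := hm.eq0 j htj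
      have h2 : ∀ m ∈ AddSubgroup.closure (D '' {i | s i = some none}), r m = 0 := by
        intro m hmm
        induction hmm using AddSubgroup.closure_induction with
        | mem m hmem =>
          obtain ⟨i, hi, rfl⟩ := hmem
          exact hY0' i hi
        | zero => exact map_zero r
        | add m m' _ _ h h' => rw [map_add, h, h', add_zero]
        | neg m _ h => rw [map_neg, h, neg_zero]
      exact h2 _ h1
    · obtain ⟨v, hD⟩ := hm.eqa j a htj
      rw [hD, map_nsmul, hχ', smul_zero]
  · refine le_antisymm ?_ (hcone _ (hκ x hx))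
    by_contra hcon
    push Not at hcon
    obtain ⟨i, h1, h2, h3⟩ := hcone' _ (hκ x hx) hcon
    have := hY0' i h1
    omega

end Pool.Agent.H6.Ab
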