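import Pool.Agent.H6.Ab.GModel
import Pool.Agent.H6.Ab.TransferCone

/-!
# Transfer of models with a base
-/

set_option autoImplicit false

namespace Pool.Agent.H6.Ab

open MvPolynomial

variable {I J A M : Type} [AddCommGroup M] {D : I → M} {θ : M}
  {β : J → M} {F : J → MvPolynomial I ℂ} {X : Set (I → ℂ)} {s : I → Option (Option A)}
  {t : J → Option (Option A)} {χ : A → M} {n : A → ℕ}

lemma InCone.restr {M' : Type} [AddCommGroup M'] {p : I → Prop} {φ : M →+ M'}
    {D' : {i // p i} → M'} (hD' : ∀ i : {i // p i}, D' i = φ (D i.1)) {T : Set I}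
    (hT : ∀ i ∈ T, p i) {b : M} (h : InCone D T b) : InCone D' {i | i.1 ∈ T} (φ b) := by
  classical
  obtain ⟨m, hm, e, he, hs⟩ := h
  refine ⟨m, hm, e.subtypeDomain p, ?_, fun i hi => hs i.1 hi⟩
  rw [← map_nsmul, ← he, Finsupp.weight_apply, Finsupp.weight_apply]
  have h1 : ((e.subtypeDomain p).sum fun i c => c • D' i) =
      (e.subtypeDomain p).sum fun i c => c • φ (D i.1) :=
    Finset.sum_congr rfl fun i _ => by beta_reduce; rw [hD']
  rw [h1, Finsupp.sum_subtypeDomain_index (v := e) (h := fun i c => c • φ (D i))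
    (fun i hi => hT i (hs i (Finsupp.mem_support_iff.mp hi))), Finsupp.sum, Finsupp.sum, map_sum]
  exact Finset.sum_congr rfl fun i _ => by rw [map_nsmul]

/-- Transfer of models with a base. -/
theorem GModel.transfer [Fintype I] [Fintype J] (hm : GModel D θ β F X s t χ n)
    (p : I → Prop) (q : J → Prop) (hp : ∀ i, s i ≠ none → p i) (hq : ∀ j, t j ≠ none → q j)
    {M' : Type} [AddCommGroup M'] (ι : M' →+ M) (φ : M →+ M') (hφι : ∀ m', φ (ι m') = m')
    (D' : {i // p i} → M') (hD' : ∀ i, ι (D' i) = D i.1)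
    (σ : I → MvPolynomial {i // p i} ℂ) (hσ1 : ∀ i : {i // p i}, σ i.1 = MvPolynomial.X i)
    (hσh : ∀ i, IsWeightedHomogeneous D' (σ i) (φ (D i)))
    (hσ0 : ∀ j, ¬ q j → aeval σ (F j) = 0)
    (hσX : ∀ x ∈ X, SameOrbit D x (fun i => eval (fun k : {i // p i} => x k.1) (σ i)))
    (hjac : ∀ x ∈ X, LinearIndependent ℂ
      (fun (j : {j : {j // q j} // t j.1 = none ∧ ¬ InCone D {i | x i ≠ 0} (β j.1)})
        (i : {i // p i}) => eval (fun k : {i // p i} => x k.1)
          (pderiv i (aeval σ (F j.1.1))))) :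
    GModel D' (φ θ) (fun j : {j // q j} => φ (β j.1)) (fun j : {j // q j} => aeval σ (F j.1))
      (restr p X) (fun i => s i.1) (fun j => t j.1) (fun a => φ (χ a)) n ∧
    (∀ a, (∃ u, IsSection D X (a - ι (φ a)) u ∧ ∀ x ∈ X, u x ≠ 0) → IsNef D X a →
      IsNef D' (restr p X) (φ a)) ∧
    (∀ b, IsSemiample D' (restr p X) b → IsSemiample D X (ι b)) := by
  classical
  obtain ⟨h1, h2, h3⟩ := _root_.Pool.Agent.H6.Ab.transfer hm.pre p q ι φ hφι D' hD' σ hσ1 hσh hσ0 hσX
  have hιφ : ∀ i : {i // p i}, D' i = φ (D i.1) := fun i => by rw [← hD', hφι]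
  have hσX' : ∀ z ∈ restr p X, (fun i => eval z (σ i)) ∈ X := by
    rintro z ⟨x, hx, rfl⟩
    exact hm.pre.sameOrbit_mem hx (hσX x hx)
  refine ⟨⟨h1, ?_, ?_, ?_, ?_, ?_, ?_, ?_, ?_⟩, h2, h3⟩
  · -- jac
    rintro z ⟨x, hx, rfl⟩
    exact (hjac x hx).comp
      (fun j : {j : {j // q j} // t j.1 = none ∧
          ¬ InCone D' {i : {i // p i} | x i.1 ≠ 0} (φ (β j.1))} =>
        (⟨j.1, j.2.1, fun h => j.2.2 (cone_at p φ D' σ hσh (hσX x hx) h)⟩ :
          {j : {j // q j} // t j.1 = none ∧ ¬ InCone D {i | x i ≠ 0} (β j.1)}))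
      (fun j j' h => Subtype.ext (congrArg
        (fun k : {j : {j // q j} // t j.1 = none ∧ ¬ InCone D {i | x i ≠ 0} (β j.1)} => k.1) h))
  · -- semi
    rintro z ⟨x, hx, rfl⟩ i hi
    rw [hιφ]
    exact (hm.semi x hx i.1 hi).restr hιφ fun k hk => hp k (by
      rw [hk.1]; exact Option.some_ne_none _)
  · -- eq0
    intro j hj
    have h4 : ∀ m ∈ AddSubgroup.closure (D '' {i | s i = some none}), φ m ∈
        AddSubgroup.closure (D' '' {i | s i.1 = some none}) := by
      intro m hmm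
      induction hmm using AddSubgroup.closure_induction with
      | mem m hmem =>
        obtain ⟨k, hk, rfl⟩ := hmem
        have hpk : p k := hp k (by
          rw [Set.mem_setOf_eq] at hk
          rw [hk]; exact Option.some_ne_none _)
        refine AddSubgroup.subset_closure ⟨⟨k, hpk⟩, hk, ?_⟩
        rw [hιφ]
      | zero => rw [map_zero]; exact AddSubgroup.zero_mem _
      | add m m' _ _ h h' => rw [map_add]; exact AddSubgroup.add_mem _ h h'
      | neg m _ h => rw [map_neg]; exact AddSubgroup.neg_mem _ h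
    exact h4 _ (hm.eq0 j.1 hj)
  · -- deg
    intro i a hi
    obtain ⟨v, hv, hD⟩ := hm.deg i.1 a hi
    exact ⟨v, hv, by rw [hιφ, hD, map_nsmul]⟩
  · -- eqa
    intro j a hj
    obtain ⟨v, hD⟩ := hm.eqa j.1 a hj
    exact ⟨v, by rw [hD, map_nsmul]⟩
  · -- nz
    rintro z ⟨x, hx, rfl⟩ a
    obtain ⟨i, hi, hxi⟩ := hm.nz x hx a
    exact ⟨⟨i, hp i (by rw [hi]; exact Option.some_ne_none _)⟩, hi, hxi⟩
  · -- dep
    intro j hj y y' hyy
    rw [eval_comp, eval_comp]
    refine hm.dep j.1 hj _ _ fun i hi => ?_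
    have hpi : p i := hp i (by rw [hi]; exact hj)
    have h4 := hσ1 ⟨i, hpi⟩
    change eval y (σ i) = eval y' (σ i)
    rw [show σ i = MvPolynomial.X ⟨i, hpi⟩ from h4, eval_X, eval_X]
    exact hyy ⟨i, hpi⟩ hi
  · -- loc
    intro z hz a
    obtain ⟨m, P, h, hc, hP, hh, hloc⟩ := hm.loc _ (hσX' z hz) a
    refine ⟨m, fun l => aeval σ (P l), aeval σ h, ?_, fun l => ?_, ?_, ?_⟩
    · rw [hc]
      exact Nat.card_congr
        { toFun := fun i => ⟨⟨i.1, hp i.1 (by rw [i.2]; exact Option.some_ne_none _)⟩, i.2⟩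
          invFun := fun i => ⟨i.1.1, i.2⟩
          left_inv := fun i => rfl
          right_inv := fun i => rfl }
    · rw [eval_comp]; exact hP l
    · rw [eval_comp]; exact hh
    · intro y hy hyP j hj
      rw [eval_comp] at hy ⊢
      exact hloc _ hy (fun l => by rw [← eval_comp]; exact hyP l) j.1 hj

end Pool.Agent.H6.Ab
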