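import Pool.Agent.H6.Ab.Basic
import Pool.Agent.H6.Ab.Weyl

/-!
# Toric base case I: interior, openness, valuative criterion
-/

set_option autoImplicit false

namespace Pool.Agent.H6.Ab

open MvPolynomial

variable {I J M : Type} [AddCommGroup M] {D : I → M} {θ : M}
  {β : J → M} {F : J → MvPolynomial I ℂ} {X : Set (I → ℂ)}

/-- T2 -/
theorem toric_opn :
    ∀ x ∈ ConeLocus D θ F, ∃ (p : M) (h : MvPolynomial I ℂ), IsWeightedHomogeneous D h p ∧
    eval x h ≠ 0 ∧ ∀ y, eval y h ≠ 0 → (∀ j, eval y (F j) = 0) → y ∈ ConeLocus D θ F := by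
  rintro x ⟨⟨m, hm, e, he, hs⟩, -⟩
  refine ⟨m • θ, monomial e 1, isWeightedHomogeneous_monomial D e 1 he, ?_, fun y hy hF => ?_⟩
  · rw [eval_monomial, one_mul, Finsupp.prod]
    exact Finset.prod_ne_zero_iff.mpr fun i hi =>
      pow_ne_zero _ (hs i (Finsupp.mem_support_iff.mp hi))
  · refine ⟨⟨m, hm, e, he, fun i hi h0 => hy ?_⟩, hF⟩
    rw [eval_monomial, Finsupp.prod, Finset.prod_eq_zero (Finsupp.mem_support_iff.mpr hi),
      mul_zero]
    rw [h0, zero_pow hi]

/-- a functional which is nonnegative on the cone of a point of the cone locus and kills `θ`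
is zero -/
lemma toric_theta_pos (hF : ∀ j, IsWeightedHomogeneous D (F j) (β j))
    (hgen : ∀ x ∈ ConeLocus D θ F, AddSubgroup.closure (D '' {i | x i ≠ 0}) = ⊤)
    {x : I → ℂ} (hx : x ∈ ConeLocus D θ F) {r : M →+ ℤ} (hr : NonnegAt D x r) (h0 : r θ = 0) :
    r = 0 := by
  classical
  obtain ⟨⟨m, hm, e, he, hs⟩, hxF⟩ := hx
  let x' : I → ℂ := fun k => if r (D k) = 0 then x k else 0
  have hx'1 : ∀ k, r (D k) = 0 → x' k = x k := fun k hk => if_pos hk
  have hx'0 : ∀ k, r (D k) ≠ 0 → x' k = 0 := fun k hk => if_neg hk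
  have hx' : x' ∈ ConeLocus D θ F := by
    refine ⟨⟨m, hm, e, he, fun i hi => ?_⟩, fun j => ?_⟩
    · have h1 : r (D i) = 0 := by
        refine zero_of_weight_zero (fun i hi => hr i (hs i hi)) ?_ i hi
        rw [he, map_nsmul, h0, smul_zero]
      change x' i ≠ 0
      rw [hx'1 i h1]
      exact hs i hi
    · rw [eval_eq]
      by_cases hb : r (β j) = 0
      · rw [← hxF j, eval_eq]
        refine Finset.sum_congr rfl fun d hd => ?_
        congr 1
        by_cases hd' : ∀ i, d i ≠ 0 → x i ≠ 0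
        · refine Finset.prod_congr rfl fun i hi => ?_
          rw [hx'1 i]
          refine zero_of_weight_zero (fun i hi => hr i (hd' i hi)) ?_ i
            (Finsupp.mem_support_iff.mp hi)
          rw [hF j (mem_support_iff.mp hd), hb]
        · push Not at hd'
          obtain ⟨i, hi, hi0⟩ := hd'
          have hi' := Finsupp.mem_support_iff.mpr hi
          have hx'i : x' i = 0 := by
            by_cases h : r (D i) = 0
            · rw [hx'1 i h, hi0]
            · exact hx'0 i h
          rw [Finset.prod_eq_zero hi', Finset.prod_eq_zero hi']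
          · rw [hi0, zero_pow hi]
          · rw [hx'i, zero_pow hi]
      · refine Finset.sum_eq_zero fun d hd => ?_
        have hw := hF j (mem_support_iff.mp hd)
        obtain ⟨i, hi, hi0⟩ : ∃ i, d i ≠ 0 ∧ r (D i) ≠ 0 := by
          by_contra hcon
          push Not at hcon
          apply hb
          rw [← hw, map_weight]
          refine Finset.sum_eq_zero fun i hi => ?_
          change (d i : ℤ) * r (D i) = 0
          rw [hcon i (Finsupp.mem_support_iff.mp hi), mul_zero]
        rw [Finset.prod_eq_zero (Finsupp.mem_support_iff.mpr hi), mul_zero]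
        rw [hx'0 i hi0, zero_pow hi]
  have h1 : AddSubgroup.closure (D '' {i | x' i ≠ 0}) ≤ r.ker := by
    rw [AddSubgroup.closure_le]
    rintro _ ⟨i, hi, rfl⟩
    by_contra h
    exact hi (hx'0 i h)
  rw [hgen x' hx'] at h1
  ext b
  exact h1 (AddSubgroup.mem_top b)

/-- T1 -/
theorem toric_inter [Fintype I]
    (hM : Module.Finite ℤ M)
    (hF : ∀ j, IsWeightedHomogeneous D (F j) (β j))
    (hgen : ∀ x ∈ ConeLocus D θ F, AddSubgroup.closure (D '' {i | x i ≠ 0}) = ⊤) :
    ∀ x ∈ ConeLocus D θ F, ∀ i, x i ≠ 0 → ∃ N : ℕ, 1 ≤ N ∧ ∃ e : I →₀ ℕ,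
    Finsupp.weight D e = N • θ ∧ e i ≠ 0 ∧ ∀ k, e k ≠ 0 → x k ≠ 0 := by
  classical
  intro x hx i hi
  obtain ⟨R, hRf, hR⟩ := weyl hM D {i | x i ≠ 0}
  have hD : ∀ r ∈ R, NonnegAt D x r := by
    intro r hr k hk
    refine (hR (D k)).mp ⟨1, le_refl 1, Finsupp.single k 1, ?_, fun l hl => ?_⟩ r hr
    · rw [Finsupp.weight_single]
    · rw [Finsupp.single_apply] at hl
      by_cases h : k = l
      · rw [← h]; exact hk
      · rw [if_neg h] at hl; exact absurd rfl hl
  obtain ⟨B, hB⟩ : BddAbove ((fun r : M →+ ℤ => r (D i)) '' R) := (hRf.image _).bddAbove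
  have hcone : InCone D {i | x i ≠ 0} ((B.toNat + 1) • θ - D i) := by
    rw [hR]
    intro r hr
    have hθ : 0 ≤ r θ := (hD r hr).inCone hx.1
    rcases hθ.eq_or_lt with h | h
    · have h2 := toric_theta_pos hF hgen hx (hD r hr) h.symm
      rw [h2]; simp
    · have h3 : r (D i) ≤ B := hB ⟨r, hr, rfl⟩
      rw [map_sub, map_nsmul, nsmul_eq_mul]
      have h4 : B ≤ (B.toNat : ℤ) := Int.self_le_toNat B
      push_cast
      nlinarith
  obtain ⟨m, hm, e, he, hs⟩ := hcone
  refine ⟨m * (B.toNat + 1), Nat.mul_pos hm (Nat.succ_pos _), e + Finsupp.single i m, ?_, ?_, ?_⟩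
  · rw [map_add, he, Finsupp.weight_single, smul_sub, sub_add_cancel, mul_smul]
  · rw [Finsupp.add_apply, Finsupp.single_eq_same]
    omega
  · intro k hk
    by_cases h : k = i
    · rw [h]; exact hi
    · apply hs
      rw [Finsupp.add_apply, Finsupp.single_eq_of_ne h, add_zero] at hk
      exact hk

/-- low order terms of a homogeneous polynomial along a tuple of polynomials -/
theorem order_aeval {G : MvPolynomial I ℂ} {b : M} (hG : IsWeightedHomogeneous D G b)
    {ν : M →+ ℤ} {y : I → Polynomial ℂ} (hy : HasOrder D ν y) :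
    (∀ k : ℤ, k < ν b → zc (aeval y G) k = 0) ∧ zc (aeval y G) (ν b) = eval (cv D ν y) G := by
  -- multiplicativity
  have hmul : ∀ (p q : Polynomial ℂ) (a b : ℤ) (α β : ℂ),
      (∀ k : ℤ, k < a → zc p k = 0) → zc p a = α → (∀ k : ℤ, k < b → zc q k = 0) → zc q b = β →
      (∀ k : ℤ, k < a + b → zc (p * q) k = 0) ∧ zc (p * q) (a + b) = α * β := by
    intro p q a b α β hp hpa hq hqb
    have hp' : ∀ i : ℕ, (i : ℤ) < a → p.coeff i = 0 := by
      intro i hi
      have := hp i hi
      rwa [zc, if_pos (Int.natCast_nonneg _), Int.toNat_natCast] at this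
    have hq' : ∀ i : ℕ, (i : ℤ) < b → q.coeff i = 0 := by
      intro i hi
      have := hq i hi
      rwa [zc, if_pos (Int.natCast_nonneg _), Int.toNat_natCast] at this
    constructor
    · intro k hk
      rw [zc]
      split_ifs with h0
      · rw [Polynomial.coeff_mul]
        refine Finset.sum_eq_zero fun x hx => ?_
        rw [Finset.HasAntidiagonal.mem_antidiagonal] at hx
        by_cases h1 : (x.1 : ℤ) < a
        · rw [hp' _ h1, zero_mul]
        · rw [hq' _ (by omega), mul_zero]
      · rfl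
    · rw [zc]
      split_ifs with h0
      · rw [Polynomial.coeff_mul]
        by_cases hab : 0 ≤ a ∧ 0 ≤ b
        · obtain ⟨ha, hb⟩ := hab
          rw [Finset.sum_eq_single (a.toNat, b.toNat)]
          · rw [← hpa, ← hqb, zc, zc, if_pos ha, if_pos hb]
          · intro x hx hne
            rw [Finset.HasAntidiagonal.mem_antidiagonal] at hx
            by_cases h1 : (x.1 : ℤ) < a
            · rw [hp' _ h1, zero_mul]
            · by_cases h2 : (x.2 : ℤ) < b
              · rw [hq' _ h2, mul_zero]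
              · exfalso
                apply hne
                ext
                · simp only; omega
                · simp only; omega
          · intro h
            exfalso
            apply h
            rw [Finset.HasAntidiagonal.mem_antidiagonal]
            simp only
            omega
        · have h3 : α * β = 0 := by
            by_cases ha : 0 ≤ a
            · have hb : ¬ 0 ≤ b := fun hb => hab ⟨ha, hb⟩
              rw [← hqb, zc, if_neg hb, mul_zero]
            · rw [← hpa, zc, if_neg ha, zero_mul]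
          rw [h3]
          refine Finset.sum_eq_zero fun x hx => ?_
          rw [Finset.HasAntidiagonal.mem_antidiagonal] at hx
          by_cases h1 : (x.1 : ℤ) < a
          · rw [hp' _ h1, zero_mul]
          · rw [hq' _ (by omega), mul_zero]
      · by_cases ha : 0 ≤ a
        · have hb : ¬ 0 ≤ b := by omega
          rw [← hqb, zc, if_neg hb, mul_zero]
        · rw [← hpa, zc, if_neg ha, zero_mul]
  have hone : (∀ k : ℤ, k < 0 → zc (1 : Polynomial ℂ) k = 0) ∧ zc (1 : Polynomial ℂ) 0 = 1 := by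
    constructor
    · intro k hk
      rw [zc, if_neg (by omega)]
    · rw [zc, if_pos (le_refl _)]
      simp
  have hpow : ∀ (p : Polynomial ℂ) (a : ℤ) (α : ℂ),
      (∀ k : ℤ, k < a → zc p k = 0) → zc p a = α → ∀ n : ℕ,
      (∀ k : ℤ, k < n * a → zc (p ^ n) k = 0) ∧ zc (p ^ n) (n * a) = α ^ n := by
    intro p a α hp hpa n
    induction n with
    | zero => simpa using hone
    | succ n ih =>
      have := hmul (p ^ n) p (n * a) a (α ^ n) α ih.1 ih.2 hp hpa
      have h : ((n + 1 : ℕ) : ℤ) * a = n * a + a := by push_cast; ring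
      rw [h, pow_succ, pow_succ]
      exact this
  have hmon : ∀ e : I →₀ ℕ,
      (∀ k : ℤ, k < ν (Finsupp.weight D e) → zc (e.prod fun i n => y i ^ n) k = 0) ∧
      zc (e.prod fun i n => y i ^ n) (ν (Finsupp.weight D e)) = e.prod fun i n => cv D ν y i ^ n := by
    classical
    intro e
    rw [map_weight, Finsupp.sum, Finsupp.prod, Finsupp.prod]
    induction e.support using Finset.induction_on with
    | empty => simpa using hone
    | insert i s hi ih =>
      rw [Finset.sum_insert hi, Finset.prod_insert hi, Finset.prod_insert hi]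
      have h1 := hpow (y i) (ν (D i)) (cv D ν y i) (hy i) rfl (e i)
      exact hmul _ _ _ _ _ _ h1.1 h1.2 ih.1 ih.2
  induction hG using IsWeightedHomogeneous.induction_on with
  | zero => simp [zc]
  | add p q hp hq h1 h2 =>
    constructor
    · intro k hk
      have h3 := h1.1 k hk
      have h4 := h2.1 k hk
      rw [map_add]
      unfold zc at h3 h4 ⊢
      split_ifs with h0
      · rw [if_pos h0] at h3 h4
        rw [Polynomial.coeff_add, h3, h4, add_zero]
      · rfl
    · rw [map_add, map_add, ← h1.2, ← h2.2]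
      unfold zc
      split_ifs with h0
      · rw [Polynomial.coeff_add]
      · rw [add_zero]
  | monomial d c hd =>
    subst hd
    rw [aeval_monomial, eval_monomial]
    have h1 := hmon d
    have h2 : ∀ k : ℤ, zc (algebraMap ℂ (Polynomial ℂ) c * d.prod fun i n => y i ^ n) k =
        c * zc (d.prod fun i n => y i ^ n) k := by
      intro k
      unfold zc
      split_ifs with h0
      · rw [Polynomial.algebraMap_eq, Polynomial.coeff_C_mul]
      · rw [mul_zero]
    constructor
    · intro k hk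
      rw [h2, h1.1 k hk, mul_zero]
    · rw [h2, h1.2]


lemma zc_zero (k : ℤ) : zc 0 k = 0 := by
  unfold zc
  split_ifs <;> simp

lemma zc_expand_mul (p : Polynomial ℂ) {μ : ℕ} (hμ : 0 < μ) (k : ℤ) :
    zc (Polynomial.expand ℂ μ p) ((μ : ℤ) * k) = zc p k := by
  unfold zc
  have hμ' : (0 : ℤ) < μ := by exact_mod_cast hμ
  by_cases h : 0 ≤ k
  · have h2 : 0 ≤ (μ : ℤ) * k := by positivity
    rw [if_pos h, if_pos h2]
    have h3 : ((μ : ℤ) * k).toNat = k.toNat * μ := by
      zify
      rw [Int.toNat_of_nonneg h2, Int.toNat_of_nonneg h, mul_comm]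
    rw [h3, Polynomial.coeff_expand_mul hμ]
  · have h2 : ¬ 0 ≤ (μ : ℤ) * k := by
      push Not at h ⊢
      exact mul_neg_of_pos_of_neg hμ' h
    rw [if_neg h, if_neg h2]

lemma zc_expand_not_dvd (p : Polynomial ℂ) {μ : ℕ} (hμ : 0 < μ) {k : ℤ} (h : ¬ (μ : ℤ) ∣ k) :
    zc (Polynomial.expand ℂ μ p) k = 0 := by
  unfold zc
  split_ifs with h0
  · rw [Polynomial.coeff_expand hμ, if_neg]
    intro h1
    apply h
    have h2 : ((k.toNat : ℕ) : ℤ) = k := Int.toNat_of_nonneg h0
    rw [← h2]
    exact_mod_cast h1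
  · rfl

lemma zc_eq_zero_of_lt {p : Polynomial ℂ} {k : ℤ} (h : k < p.natTrailingDegree) : zc p k = 0 := by
  unfold zc
  split_ifs with h0
  · apply Polynomial.coeff_eq_zero_of_lt_natTrailingDegree
    omega
  · rfl

lemma zc_natTrailingDegree_ne_zero {p : Polynomial ℂ} (h : p ≠ 0) :
    zc p (p.natTrailingDegree : ℤ) ≠ 0 := by
  unfold zc
  rw [if_pos (Int.natCast_nonneg _), Int.toNat_natCast]
  exact Polynomial.trailingCoeff_nonzero_iff_nonzero.mpr h

/-- T3 -/
theorem toric_val [Fintype I]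
    (hM : Module.Finite ℤ M)
    (hF : ∀ j, IsWeightedHomogeneous D (F j) (β j))
    (hgen : ∀ x ∈ ConeLocus D θ F, AddSubgroup.closure (D '' {i | x i ≠ 0}) = ⊤) :
    ∀ y : I → Polynomial ℂ, (∀ j, aeval y (F j) = 0) → (∃ t₀, evl y t₀ ∈ ConeLocus D θ F) →
    ∃ ν : M →+ ℤ, HasOrder D ν y ∧ cv D ν y ∈ ConeLocus D θ F := by
  classical
  rintro y hy ⟨t₀, ⟨m₀, hm₀, e₀, he₀, hs₀⟩, -⟩
  have hs₀' : ∀ i, e₀ i ≠ 0 → y i ≠ 0 := by
    intro i hi h0
    apply hs₀ i hi
    rw [evl, h0, Polynomial.eval_zero]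
  -- the generators of the extended cone
  let v : I → ℤ := fun i => ((y i).natTrailingDegree : ℤ)
  let D' : Option I → M × ℤ := fun o => o.elim (0, 1) (fun i => (D i, v i))
  let S' : Set (Option I) := {o | ∀ i, o = some i → y i ≠ 0}
  have hM' : Module.Finite ℤ (M × ℤ) := inferInstance
  obtain ⟨R, hRf, hR⟩ := weyl hM' D' S'
  have hgenR : ∀ o ∈ S', ∀ r ∈ R, 0 ≤ r (D' o) := by
    intro o ho r hr
    refine (hR (D' o)).mp ⟨1, le_refl 1, Finsupp.single o 1, ?_, fun l hl => ?_⟩ r hr
    · rw [Finsupp.weight_single]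
    · rw [Finsupp.single_apply] at hl
      by_cases h : o = l
      · rw [← h]; exact ho
      · rw [if_neg h] at hl; exact absurd rfl hl
  have hμ : ∀ r ∈ R, 0 ≤ r (0, 1) := fun r hr => hgenR none (fun i hi => by cases hi) r hr
  have hα : ∀ r ∈ R, ∀ i, y i ≠ 0 → 0 ≤ r (D i, v i) := fun r hr i hi =>
    hgenR (some i) (fun j hj => by cases hj; exact hi) r hr
  have hsplit : ∀ (r : M × ℤ →+ ℤ) (m : M) (z : ℤ), r (m, z) = r (m, 0) + z * r (0, 1) := by
    intro r m z
    have h1 : (m, z) = (m, 0) + z • ((0, 1) : M × ℤ) := by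
      ext <;> simp
    rw [h1, map_add, map_zsmul, smul_eq_mul]
  have hposR : ({r | r ∈ R ∧ 0 < r (0, 1)} : Set (M × ℤ →+ ℤ)).Nonempty := by
    by_contra hcon
    rw [Set.not_nonempty_iff_eq_empty] at hcon
    have h1 : InCone D' S' (0, -1) := by
      rw [hR]
      intro r hr
      have h2 : ¬ 0 < r (0, 1) := fun h => by
        have h3 : r ∈ ({r | r ∈ R ∧ 0 < r (0, 1)} : Set (M × ℤ →+ ℤ)) := ⟨hr, h⟩
        rw [hcon] at h3
        exact h3
      rw [hsplit r 0 (-1)]
      have h4 : r ((0 : M), (0 : ℤ)) = 0 := map_zero r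
      rw [h4]
      linarith
    obtain ⟨m, hm, e, he, -⟩ := h1
    have h2 : 0 ≤ AddMonoidHom.snd M ℤ (Finsupp.weight D' e) := by
      apply nonneg_weight
      intro o _
      cases o with
      | none => change (0 : ℤ) ≤ 1; norm_num
      | some i => exact Int.natCast_nonneg _
    rw [he, map_nsmul, nsmul_eq_mul] at h2
    have h3 : AddMonoidHom.snd M ℤ (0, -1) = -1 := rfl
    rw [h3] at h2
    have h4 : (1 : ℤ) ≤ m := by exact_mod_cast hm
    linarith
  obtain ⟨rs, ⟨hrsR, hrspos⟩, hmax⟩ := Set.exists_max_image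
    ({r | r ∈ R ∧ 0 < r (0, 1)} : Set (M × ℤ →+ ℤ))
    (fun r => (-(r (θ, 0)) : ℚ) / (r (0, 1) : ℚ)) (hRf.subset fun r hr => hr.1) hposR
  -- `θ` is in the cone of the generators
  have hθ : ∀ r ∈ R, r (0, 1) = 0 → 0 ≤ r (θ, 0) := by
    intro r hr h0
    have h1 : 0 ≤ (r.comp (AddMonoidHom.inl M ℤ)) (Finsupp.weight D e₀) := by
      apply nonneg_weight
      intro i hi
      have h2 := hα r hr i (hs₀' i hi)
      rw [hsplit, h0, mul_zero, add_zero] at h2
      exact h2
    rw [he₀, map_nsmul, nsmul_eq_mul] at h1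
    have h3 : (r.comp (AddMonoidHom.inl M ℤ)) θ = r (θ, 0) := rfl
    rw [h3] at h1
    have h4 : (0 : ℤ) < m₀ := by exact_mod_cast hm₀
    by_contra hcon
    push Not at hcon
    nlinarith
  set μ : ℤ := rs (0, 1) with hμdef
  have hcone : InCone D' S' (μ • θ, -(rs (θ, 0))) := by
    rw [hR]
    intro r hr
    have h1 : r (μ • θ, 0) = μ * r (θ, 0) := by
      have h2 : ((μ • θ, 0) : M × ℤ) = μ • ((θ, 0) : M × ℤ) := by
        ext <;> simp
      rw [h2, map_zsmul, smul_eq_mul]
    rw [hsplit, h1]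
    rcases (hμ r hr).eq_or_lt with h2 | h2
    · rw [← h2, mul_zero, add_zero]
      exact mul_nonneg hrspos.le (hθ r hr h2.symm)
    · have h3 := hmax r ⟨hr, h2⟩
      have h4 : (0 : ℚ) < (r (0, 1) : ℚ) := by exact_mod_cast h2
      have h5 : (0 : ℚ) < (μ : ℚ) := by exact_mod_cast hrspos
      have h6 : (-(r (θ, 0)) : ℚ) / (r (0, 1) : ℚ) ≤ (-(rs (θ, 0)) : ℚ) / (μ : ℚ) := h3
      rw [div_le_div_iff₀ h4 h5] at h6
      have h7 : (-(r (θ, 0))) * μ ≤ (-(rs (θ, 0))) * r (0, 1) := by exact_mod_cast h6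
      linarith
  obtain ⟨m, hm, e, he, hes⟩ := hcone
  have hzero : ∀ o, e o ≠ 0 → rs (D' o) = 0 := by
    apply zero_of_weight_zero
    · intro o ho
      exact hgenR o (hes o ho) rs hrsR
    · rw [he, map_nsmul, hsplit]
      have h1 : rs (μ • θ, 0) = μ * rs (θ, 0) := by
        have h2 : ((μ • θ, 0) : M × ℤ) = μ • ((θ, 0) : M × ℤ) := by
          ext <;> simp
        rw [h2, map_zsmul, smul_eq_mul]
      rw [h1, ← hμdef]
      have h3 : μ * rs (θ, 0) + -(rs (θ, 0)) * μ = 0 := by ring
      rw [h3, smul_zero]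
  -- the natural number `μ`
  obtain ⟨n, hn⟩ : ∃ n : ℕ, μ = n := Int.eq_ofNat_of_zero_le hrspos.le
  have hn0 : 0 < n := by
    have : (0 : ℤ) < n := by rw [← hn]; exact hrspos
    exact_mod_cast this
  have hnz : (0 : ℤ) < n := by exact_mod_cast hn0
  let al : M →+ ℤ := rs.comp (AddMonoidHom.inl M ℤ)
  have hal : ∀ m : M, al m = rs (m, 0) := fun m => rfl
  have hal1 : ∀ i, y i ≠ 0 → 0 ≤ al (D i) + n * v i := by
    intro i hi
    have h1 := hα rs hrsR i hi
    rw [hsplit, ← hμdef, hn] at h1
    rw [hal]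
    linarith
  let y' : I → Polynomial ℂ := fun i => Polynomial.expand ℂ n (y i)
  have hord : HasOrder D (-al) y' := by
    intro i k hk
    change k < -(al (D i)) at hk
    change zc (Polynomial.expand ℂ n (y i)) k = 0
    by_cases hi : y i = 0
    · rw [hi, map_zero, zc_zero]
    · by_cases hd : (n : ℤ) ∣ k
      · obtain ⟨l, rfl⟩ := hd
        rw [zc_expand_mul _ hn0]
        apply zc_eq_zero_of_lt
        have h1 := hal1 i hi
        have h2 : (n : ℤ) * l < n * v i := by linarith
        exact lt_of_mul_lt_mul_left h2 hnz.le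
      · exact zc_expand_not_dvd _ hn0 hd
  have hlc : cv D (-al) y' ∈ ConeLocus D θ F := by
    refine ⟨⟨m * n, Nat.mul_pos hm hn0, e.some, ?_, ?_⟩, ?_⟩
    · have h1 : AddMonoidHom.fst M ℤ (Finsupp.weight D' e) = Finsupp.weight D e.some := by
        rw [Finsupp.weight_apply, Finsupp.weight_apply,
          Finsupp.sum_option_index e (fun o (c : ℕ) => c • D' o) (fun o => zero_smul ℕ _)
            (fun o a b => add_smul _ _ _), map_add]
        have h2 : AddMonoidHom.fst M ℤ (e none • D' none) = 0 := by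
          rw [map_nsmul]
          change e none • (0 : M) = 0
          rw [smul_zero]
        rw [h2, zero_add, Finsupp.sum, Finsupp.sum, map_sum]
        refine Finset.sum_congr rfl fun i _ => ?_
        rw [map_nsmul]
        rfl
      rw [← h1, he, map_nsmul]
      change m • (μ • θ) = (m * n) • θ
      rw [hn, natCast_zsmul, mul_smul]
    · intro i hi
      rw [Finsupp.some_apply] at hi
      have h1 := hzero (some i) hi
      have h2 : y i ≠ 0 := hes (some i) hi i rfl
      change rs (D i, v i) = 0 at h1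
      rw [hsplit, ← hμdef, hn, ← hal] at h1
      have h3 : -(al (D i)) = (n : ℤ) * v i := by linarith
      change zc (Polynomial.expand ℂ n (y i)) (-(al (D i))) ≠ 0
      rw [h3, zc_expand_mul _ hn0]
      exact zc_natTrailingDegree_ne_zero h2
    · intro j
      rw [← (order_aeval (hF j) hord).2]
      have h1 : aeval y' (F j) = Polynomial.expand ℂ n (aeval y (F j)) :=
        (comp_aeval_apply y (Polynomial.expand ℂ n) (F j)).symm
      rw [h1, hy j, map_zero, zc_zero]
  have hdvd : ∀ b : M, (n : ℤ) ∣ al b := by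
    have h1 : AddSubgroup.closure (D '' {i | cv D (-al) y' i ≠ 0}) ≤
        (AddSubgroup.zmultiples (n : ℤ)).comap al := by
      rw [AddSubgroup.closure_le]
      rintro _ ⟨i, hi, rfl⟩
      by_contra hcon
      apply hi
      change zc (Polynomial.expand ℂ n (y i)) (-(al (D i))) = 0
      apply zc_expand_not_dvd _ hn0
      intro hd
      apply hcon
      change al (D i) ∈ AddSubgroup.zmultiples (n : ℤ)
      rw [Int.mem_zmultiples_iff]
      exact (dvd_neg).mp hd
    rw [hgen _ hlc] at h1
    intro b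
    exact Int.mem_zmultiples_iff.mp (h1 (AddSubgroup.mem_top b))
  let ν : M →+ ℤ :=
    { toFun := fun b => -(al b) / n
      map_zero' := by simp
      map_add' := fun a b => by
        rw [map_add, neg_add, Int.add_ediv_of_dvd_left ((dvd_neg).mpr (hdvd a))] }
  have hν : ∀ b, (n : ℤ) * ν b = -(al b) := fun b =>
    Int.mul_ediv_cancel' ((dvd_neg).mpr (hdvd b))
  refine ⟨ν, ?_, ?_⟩
  · intro i k hk
    by_cases hi : y i = 0
    · rw [hi, zc_zero]
    · apply zc_eq_zero_of_lt
      have h1 := hal1 i hi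
      have h2 := hν (D i)
      have h3 : (n : ℤ) * ν (D i) ≤ n * v i := by linarith
      exact lt_of_lt_of_le hk (le_of_mul_le_mul_left h3 hnz)
  · have h1 : cv D ν y = cv D (-al) y' := by
      funext i
      change zc (y i) (ν (D i)) = zc (Polynomial.expand ℂ n (y i)) (-(al (D i)))
      rw [← hν (D i), zc_expand_mul _ hn0]
    rw [h1]
    exact hlc

end Pool.Agent.H6.Ab
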