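import Pool.Agent.H6.Ab.Basic

/-!
# Transfer of models along polynomial maps
-/

set_option autoImplicit false

namespace Pool.Agent.H6.Ab

open MvPolynomial

section General

variable {K L A B : Type} [AddCommGroup A] [AddCommGroup B]

/-- Homogeneity of a composition. -/
lemma comp_hom {D : K → A} {D' : L → B} {φ : A →+ B} {σ : K → MvPolynomial L ℂ}
    (hσ : ∀ i, IsWeightedHomogeneous D' (σ i) (φ (D i))) {G : MvPolynomial K ℂ} {b : A}
    (hG : IsWeightedHomogeneous D G b) : IsWeightedHomogeneous D' (aeval σ G) (φ b) := by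
  induction hG using IsWeightedHomogeneous.induction_on with
  | zero => rw [map_zero]; exact isWeightedHomogeneous_zero _ _ _
  | add p q hp hq h1 h2 => rw [map_add]; exact h1.add h2
  | monomial d c hd =>
    subst hd
    rw [aeval_monomial]
    have h1 : IsWeightedHomogeneous D' (d.prod fun i k => σ i ^ k)
        (∑ i ∈ d.support, d i • φ (D i)) := by
      rw [Finsupp.prod]
      exact IsWeightedHomogeneous.prod _ _ _ fun i _ => (hσ i).pow (d i)
    have h2 : φ (Finsupp.weight D d) = ∑ i ∈ d.support, d i • φ (D i) := by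
      rw [Finsupp.weight_apply, Finsupp.sum, map_sum]
      exact Finset.sum_congr rfl fun i _ => by rw [map_nsmul]
    rw [h2]
    exact h1.C_mul c

lemma eval_comp {σ : K → MvPolynomial L ℂ} (z : L → ℂ) (G : MvPolynomial K ℂ) :
    eval z (aeval σ G) = eval (fun i => eval z (σ i)) G := by
  induction G using MvPolynomial.induction_on with
  | C a => simp
  | add p q hp hq => rw [map_add, map_add, map_add, hp, hq]
  | mul_X p i hp => rw [map_mul, map_mul, map_mul, hp, aeval_X, eval_X]

lemma aeval_comp {σ : K → MvPolynomial L ℂ} (y : L → Polynomial ℂ) (G : MvPolynomial K ℂ) :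
    aeval y (aeval σ G) = aeval (fun i => aeval y (σ i)) G := by
  induction G using MvPolynomial.induction_on with
  | C a => simp
  | add p q hp hq => rw [map_add, map_add, map_add, hp, hq]
  | mul_X p i hp => rw [map_mul, map_mul, map_mul, hp, aeval_X, aeval_X]

lemma evl_comp {σ : K → MvPolynomial L ℂ} (y : L → Polynomial ℂ) (t : ℂ) :
    evl (fun i => aeval y (σ i)) t = fun i => eval (evl y t) (σ i) := by
  funext i
  simp only [evl]
  induction σ i using MvPolynomial.induction_on with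
  | C a => simp
  | add p q hp hq => rw [map_add, Polynomial.eval_add, map_add, hp, hq]
  | mul_X p i hp =>
    rw [map_mul, Polynomial.eval_mul, map_mul, hp, aeval_X, eval_X]
    rfl

/-- Pullback of sections along a homogeneous polynomial map. -/
lemma IsSection.comp {D : K → A} {D' : L → B} {φ : A →+ B} {σ : K → MvPolynomial L ℂ}
    (hσ : ∀ i, IsWeightedHomogeneous D' (σ i) (φ (D i))) {X : Set (K → ℂ)} {X' : Set (L → ℂ)}
    (hX : ∀ z ∈ X', (fun i => eval z (σ i)) ∈ X) {b : A} {s : (K → ℂ) → ℂ}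
    (hs : IsSection D X b s) :
    IsSection D' X' (φ b) (fun z => s (fun i => eval z (σ i))) := by
  intro z hz
  obtain ⟨p, q, G, H, hG, hH, hpq, hx0, hs⟩ := hs _ (hX z hz)
  refine ⟨φ p, φ q, aeval σ G, aeval σ H, comp_hom hσ hG, comp_hom hσ hH, ?_, ?_, ?_⟩
  · rw [hpq, map_add]
  · rw [eval_comp]; exact hx0
  · intro y hy hy0
    rw [eval_comp] at hy0
    rw [eval_comp, eval_comp]
    exact hs _ (hX y hy) hy0

end General

variable {I J M : Type} [AddCommGroup M] {D : I → M} {θ : M}
  {β : J → M} {F : J → MvPolynomial I ℂ} {X : Set (I → ℂ)}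

lemma weight_sum_nsmul {I A : Type} [AddCommGroup A] (D : I → A) {K : Type} (s : Finset K)
    (k : K → ℕ) (e : K → (I →₀ ℕ)) :
    Finsupp.weight D (∑ i ∈ s, k i • e i) = ∑ i ∈ s, k i • Finsupp.weight D (e i) := by
  rw [map_sum]
  exact Finset.sum_congr rfl fun i _ => by rw [map_nsmul]

/-- S16 : transfer -/
theorem transfer [Fintype I] [Fintype J] (hm : PreModel D θ β F X) (p : I → Prop) (q : J → Prop)
    {M' : Type} [AddCommGroup M'] (ι : M' →+ M) (φ : M →+ M') (hφι : ∀ m', φ (ι m') = m')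
    (D' : {i // p i} → M') (hD' : ∀ i, ι (D' i) = D i.1)
    (σ : I → MvPolynomial {i // p i} ℂ) (hσ1 : ∀ i : {i // p i}, σ i.1 = MvPolynomial.X i)
    (hσh : ∀ i, IsWeightedHomogeneous D' (σ i) (φ (D i)))
    (hσ0 : ∀ j, ¬ q j → aeval σ (F j) = 0)
    (hσX : ∀ x ∈ X, SameOrbit D x (fun i => eval (fun k : {i // p i} => x k.1) (σ i))) :
    PreModel D' (φ θ) (fun j : {j // q j} => φ (β j.1)) (fun j : {j // q j} => aeval σ (F j.1))
      (restr p X) ∧
    (∀ a, (∃ u, IsSection D X (a - ι (φ a)) u ∧ ∀ x ∈ X, u x ≠ 0) → IsNef D X a →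
      IsNef D' (restr p X) (φ a)) ∧
    (∀ b, IsSemiample D' (restr p X) b → IsSemiample D X (ι b)) := by
  classical
  -- the map `σ` sends `restr p X` to `X`
  have hσX' : ∀ z ∈ restr p X, (fun i => eval z (σ i)) ∈ X := by
    rintro z ⟨x, hx, rfl⟩
    exact hm.sameOrbit_mem hx (hσX x hx)
  have hιφ : ∀ i : {i // p i}, φ (D i.1) = D' i := fun i => by rw [← hD', hφι]
  -- the restriction as a homogeneous polynomial map
  have hρ : ∀ i : {i // p i}, IsWeightedHomogeneous D (MvPolynomial.X i.1 : MvPolynomial I ℂ)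
      (ι (D' i)) := fun i => by
    rw [hD']; exact isWeightedHomogeneous_X _ _ _
  have hρX : ∀ x ∈ X, (fun i : {i // p i} =>
      eval x (MvPolynomial.X i.1 : MvPolynomial I ℂ)) ∈ restr p X := by
    intro x hx
    refine ⟨x, hx, ?_⟩
    funext i
    rw [eval_X]
  have hρe : ∀ x : I → ℂ, (fun i : {i // p i} =>
      eval x (MvPolynomial.X i.1 : MvPolynomial I ℂ)) = fun i => x i.1 := fun x => by
    funext i; rw [eval_X]
  -- pull back of sections
  have hpb : ∀ (b : M') (s : ({i // p i} → ℂ) → ℂ), IsSection D' (restr p X) b s →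
      IsSection D X (ι b) (fun x => s (fun i => x i.1)) := by
    intro b s hs
    exact (hs.comp hρ hρX).congr fun x _ => by rw [hρe]
  have hpf : ∀ (b : M) (s : (I → ℂ) → ℂ), IsSection D X b s →
      IsSection D' (restr p X) (φ b) (fun z => s (fun i => eval z (σ i))) := fun b s hs =>
    hs.comp hσh hσX'
  have hne : ∀ x ∈ X, ∀ k, x k ≠ 0 → eval (fun l : {i // p i} => x l.1) (σ k) ≠ 0 := by
    intro x hx k hk
    obtain ⟨g, hg⟩ := hσX x hx
    have h1 : eval (fun l : {i // p i} => x l.1) (σ k) =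
        ((g (Multiplicative.ofAdd (D k)) : ℂˣ) : ℂ) * x k := hg k
    rw [h1]
    exact mul_ne_zero (Units.ne_zero _) hk
  have hpull : ∀ Y, IsSub D' (restr p X) Y →
      IsSub D X {x | x ∈ X ∧ (fun i : {i // p i} => x i.1) ∈ Y} := by
    rintro Y ⟨S, hS, hCS⟩
    refine ⟨(fun P => aeval (fun i : {i // p i} => (MvPolynomial.X i.1 : MvPolynomial I ℂ)) P)
      '' S, ?_, ?_⟩
    · rintro _ ⟨P, hP, rfl⟩
      obtain ⟨b, hb⟩ := hS P hP
      exact ⟨ι b, comp_hom hρ hb⟩
    · ext x
      rw [hCS]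
      constructor
      · rintro ⟨hx, -, hx2⟩
        refine ⟨hx, ?_⟩
        rintro _ ⟨P, hP, rfl⟩
        beta_reduce
        rw [eval_comp, hρe]
        exact hx2 P hP
      · rintro ⟨hx, hx2⟩
        refine ⟨hx, ⟨x, hx, rfl⟩, fun P hP => ?_⟩
        have := hx2 _ ⟨P, hP, rfl⟩
        beta_reduce at this
        rw [eval_comp, hρe] at this
        exact this
  refine ⟨⟨?_, ?_, ?_, ?_, ?_, ?_, ?_, ?_⟩, ?_, ?_⟩
  · -- fg
    have := hm.fg
    exact Module.Finite.of_injective ι.toIntLinearMap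
      (Function.LeftInverse.injective (g := φ) hφι)
  · -- hom
    intro j
    exact comp_hom hσh (hm.hom j.1)
  · -- zero
    intro z hz j
    rw [eval_comp]
    exact hm.zero _ (hσX' z hz) j.1
  · -- inter
    rintro z ⟨x, hx, rfl⟩ i hi
    obtain ⟨N, hN, e, he, hei, hs⟩ := hm.inter x hx i.1 hi
    have hmon : ∀ k : I, ∃ ek : {i // p i} →₀ ℕ, e k ≠ 0 →
        (Finsupp.weight D' ek = φ (D k) ∧ (∀ l, ek l ≠ 0 → x l.1 ≠ 0) ∧
          (k = i.1 → ek i ≠ 0)) := by
      intro k
      by_cases hk : e k = 0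
      · exact ⟨0, fun h => absurd hk h⟩
      · have hxk := hs k hk
        have h1 : eval (fun l : {i // p i} => x l.1) (σ k) ≠ 0 := hne x hx k hxk
        obtain ⟨ek, hc, hw, hs'⟩ := exists_monomial (hσh k) h1
        refine ⟨ek, fun _ => ⟨hw, hs', ?_⟩⟩
        rintro rfl
        rw [hσ1, coeff_X] at hc
        by_contra hcon
        apply hc
        rw [if_neg]
        intro h2
        rw [← h2] at hcon
        simp at hcon
    choose ek hek using hmon
    refine ⟨N, hN, ∑ k ∈ e.support, e k • ek k, ?_, ?_, ?_⟩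
    · rw [weight_sum_nsmul, ← map_nsmul, ← he, Finsupp.weight_apply, Finsupp.sum, map_sum]
      refine Finset.sum_congr rfl fun k hk => ?_
      rw [(hek k (Finsupp.mem_support_iff.mp hk)).1, map_nsmul]
    · rw [Finsupp.finsetSum_apply]
      have h1 : e i.1 • ek i.1 i ≠ 0 := by
        have h2 := (hek i.1 hei).2.2 rfl
        simp [hei, h2]
      intro h0
      have h3 := (Finset.sum_eq_zero_iff.mp h0) i.1 (Finsupp.mem_support_iff.mpr hei)
      exact h1 h3
    · intro l hl
      rw [Finsupp.finsetSum_apply] at hl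
      obtain ⟨k, hk, hk0⟩ := Finset.exists_ne_zero_of_sum_ne_zero hl
      have h2 : ek k l ≠ 0 := by
        intro h; apply hk0; simp [h]
      exact (hek k (Finsupp.mem_support_iff.mp hk)).2.1 l h2
  · -- opn
    intro z hz
    obtain ⟨b, h, hh, hx0, hop⟩ := hm.opn _ (hσX' z hz)
    refine ⟨φ b, aeval σ h, comp_hom hσh hh, by rw [eval_comp]; exact hx0, ?_⟩
    intro y hy hyF
    refine ⟨fun i => eval y (σ i), ?_, ?_⟩
    · apply hop
      · rw [eval_comp] at hy; exact hy
      · intro j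
        rw [← eval_comp]
        by_cases hj : q j
        · exact hyF ⟨j, hj⟩
        · rw [hσ0 j hj, map_zero]
    · funext i
      change y i = eval y (σ i.1)
      rw [hσ1, eval_X]
  · -- gen
    rintro z ⟨x, hx, rfl⟩
    rw [eq_top_iff]
    intro m' _
    have h1 : ι m' ∈ AddSubgroup.closure (D '' {i | x i ≠ 0}) := by
      rw [hm.gen x hx]; exact AddSubgroup.mem_top _
    rw [← hφι m']
    have h2 : ∀ m ∈ AddSubgroup.closure (D '' {i | x i ≠ 0}), φ m ∈
        AddSubgroup.closure (D' '' {i | (fun k : {i // p i} => x k.1) i ≠ 0}) := by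
      intro m hmm
      induction hmm using AddSubgroup.closure_induction with
      | mem m hmem =>
        obtain ⟨k, hk, rfl⟩ := hmem
        have h3 : eval (fun l : {i // p i} => x l.1) (σ k) ≠ 0 := hne x hx k hk
        obtain ⟨ek, hc, hw, hs'⟩ := exists_monomial (hσh k) h3
        rw [← hw, Finsupp.weight_apply, Finsupp.sum]
        refine AddSubgroup.sum_mem _ fun l hl => AddSubgroup.nsmul_mem _ ?_ _
        exact AddSubgroup.subset_closure ⟨l, hs' l (Finsupp.mem_support_iff.mp hl), rfl⟩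
      | zero => rw [map_zero]; exact AddSubgroup.zero_mem _
      | add m m' _ _ h h' => rw [map_add]; exact AddSubgroup.add_mem _ h h'
      | neg m _ h => rw [map_neg]; exact AddSubgroup.neg_mem _ h
    exact h2 _ h1
  · -- conn
    intro Y Y' hY hY' hU hI
    have hYs : ∀ z ∈ Y, z ∈ restr p X := fun z hz => by rw [← hU]; exact Or.inl hz
    have hYs' : ∀ z ∈ Y', z ∈ restr p X := fun z hz => by rw [← hU]; exact Or.inr hz
    rcases hm.conn {x | x ∈ X ∧ (fun i : {i // p i} => x i.1) ∈ Y}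
      {x | x ∈ X ∧ (fun i : {i // p i} => x i.1) ∈ Y'} (hpull Y hY) (hpull Y' hY') (by
        ext x
        constructor
        · rintro (h | h) <;> exact h.1
        · intro hx
          have h1 : (fun i : {i // p i} => x i.1) ∈ Y ∪ Y' := by rw [hU]; exact ⟨x, hx, rfl⟩
          exact h1.imp (fun h => ⟨hx, h⟩) (fun h => ⟨hx, h⟩)) (by
        ext x
        simp only [Set.mem_inter_iff, Set.mem_empty_iff_false, iff_false]
        rintro ⟨h1, h2⟩
        have h3 : (fun i : {i // p i} => x i.1) ∈ Y ∩ Y' := ⟨h1.2, h2.2⟩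
        rw [hI] at h3
        exact h3) with h | h
    · left
      rw [Set.eq_empty_iff_forall_notMem] at h ⊢
      intro z hz
      obtain ⟨x, hx, rfl⟩ := hYs z hz
      exact h x ⟨hx, hz⟩
    · right
      rw [Set.eq_empty_iff_forall_notMem] at h ⊢
      intro z hz
      obtain ⟨x, hx, rfl⟩ := hYs' z hz
      exact h x ⟨hx, hz⟩
  · -- val
    rintro y hyF ⟨t₀, ht₀⟩
    obtain ⟨ν, hν, hcv⟩ := hm.val (fun i => aeval y (σ i)) (fun j => by
      rw [← aeval_comp]
      by_cases hj : q j
      · exact hyF ⟨j, hj⟩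
      · rw [hσ0 j hj, map_zero]) ⟨t₀, by rw [evl_comp]; exact hσX' _ ht₀⟩
    refine ⟨ν.comp ι, ?_, ?_⟩
    · intro i k hk
      have h1 := hν i.1 k (by
        rw [AddMonoidHom.comp_apply, hD'] at hk; exact hk)
      simp only [hσ1, aeval_X] at h1
      exact h1
    · refine ⟨_, hcv, ?_⟩
      funext i
      simp only [cv, AddMonoidHom.comp_apply, hD', hσ1, aeval_X]
  · -- nefness
    rintro a ⟨u, hu, hu0⟩ ha C' hC' ⟨m, hm1, s, hs, ⟨z₁, hz₁, hs₁⟩, ⟨z₂, hz₂, hs₂⟩⟩
    have hCX' : ∀ z ∈ C', z ∈ restr p X := by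
      obtain ⟨S, hS, rfl⟩ := hC'.sub
      exact fun z hz => hz.1
    set sg : ({i // p i} → ℂ) → (I → ℂ) := fun z i => eval z (σ i) with hsg
    have hsgX : ∀ z ∈ C', sg z ∈ X := fun z hz => hσX' z (hCX' z hz)
    have hsgr : ∀ z : {i // p i} → ℂ, (fun i : {i // p i} => sg z i.1) = z := by
      intro z; funext i
      simp only [hsg]
      rw [hσ1, eval_X]
    have hsgo : ∀ x ∈ X, SameOrbit D x (sg (fun i => x i.1)) := hσX
    have hinv : ∀ (C₁ : Set (I → ℂ)), IsSub D X C₁ → ∀ x ∈ X, ∀ y ∈ C₁, SameOrbit D x y →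
        x ∈ C₁ := by
      rintro C₁ ⟨S, hS, rfl⟩ x hx y hy hxy
      refine ⟨hx, fun P hP => ?_⟩
      obtain ⟨b, hb⟩ := hS P hP
      rw [sameOrbit_iff] at hxy
      obtain ⟨g, rfl⟩ := hxy
      have h1 := hy.2 P hP
      rw [eval_act hb] at h1
      exact (mul_eq_zero.mp h1).resolve_left (Units.ne_zero _)
    set C : Set (I → ℂ) := {x | x ∈ X ∧ (fun i : {i // p i} => x i.1) ∈ C'} with hC
    have hsub : IsSub D X C := hpull C' hC'.sub
    have hsgC : ∀ z ∈ C', sg z ∈ C := fun z hz => ⟨hsgX z hz, by rw [hsgr]; exact hz⟩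
    have hcurve : IsCurve D X C := by
      refine ⟨hsub, ?_, ?_⟩
      · rintro ⟨E, hEf, hE⟩
        apply hC'.infinite
        refine ⟨(fun (x : I → ℂ) (i : {i // p i}) => x i.1) '' E, hEf.image _, ?_⟩
        intro z hz
        obtain ⟨w, hw, g, hg⟩ := hE _ (hsgC z hz)
        refine ⟨_, ⟨w, hw, rfl⟩, g.comp (AddMonoidHom.toMultiplicative ι), fun i => ?_⟩
        have h1 : sg z i.1 = ((g (Multiplicative.ofAdd (D i.1)) : ℂˣ) : ℂ) * w i.1 := hg i.1
        have h2 : sg z i.1 = z i := congrFun (hsgr z) i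
        rw [h2] at h1
        rw [h1]
        simp [hD']
      · intro C₁ hC₁ hle hne'
        have hsub' : IsSub D' (restr p X) {z | z ∈ restr p X ∧ sg z ∈ C₁} := by
          obtain ⟨S, hS, hCS⟩ := hC₁
          refine ⟨(fun P => aeval σ P) '' S, ?_, ?_⟩
          · rintro _ ⟨P, hP, rfl⟩
            obtain ⟨b, hb⟩ := hS P hP
            exact ⟨φ b, comp_hom hσh hb⟩
          · ext z
            rw [hCS]
            constructor
            · rintro ⟨hz, -, hz2⟩
              refine ⟨hz, ?_⟩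
              rintro _ ⟨P, hP, rfl⟩
              beta_reduce
              rw [eval_comp]
              exact hz2 P hP
            · rintro ⟨hz, hz2⟩
              refine ⟨hz, hσX' z hz, fun P hP => ?_⟩
              have := hz2 _ ⟨P, hP, rfl⟩
              beta_reduce at this
              rw [eval_comp] at this
              exact this
        obtain ⟨E, hEf, hE⟩ := hC'.minimal _ hsub' (by
          rintro z ⟨hz, hz2⟩
          have := (hle hz2).2
          rwa [hsgr] at this) (by
          intro heq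
          apply hne'
          refine Set.Subset.antisymm hle fun x hx => ?_
          have h1 : (fun i : {i // p i} => x i.1) ∈ {z | z ∈ restr p X ∧ sg z ∈ C₁} := by
            rw [heq]; exact hx.2
          exact hinv C₁ hC₁ x hx.1 _ h1.2 (hsgo x hx.1))
        refine ⟨sg '' E, hEf.image _, ?_⟩
        intro x hx
        have hxX : x ∈ X := (hle hx).1
        have h1 : sg (fun i => x i.1) ∈ C₁ :=
          hinv C₁ hC₁ _ (hσX' _ ⟨x, hxX, rfl⟩) x hx (hsgo x hxX).symm
        obtain ⟨w, hw, g, hg⟩ := hE _ ⟨⟨x, hxX, rfl⟩, h1⟩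
        refine ⟨_, ⟨w, hw, rfl⟩, SameOrbit.trans ?_ (hsgo x hxX).symm⟩
        refine ⟨g.comp (AddMonoidHom.toMultiplicative φ), fun i => ?_⟩
        have h2 : (fun i : {i // p i} => x i.1) = act D' g w := funext hg
        change eval (fun i : {i // p i} => x i.1) (σ i) = _
        rw [h2, eval_act (hσh i)]
        rfl
    refine ha C hcurve ⟨m, hm1, fun x => s (fun i => x i.1) * (u x)⁻¹ ^ m, ?_, ?_, ?_⟩
    · have h1 : IsSection D C (ι (-(m • φ a))) (fun x => s (fun i => x i.1)) := by
        refine (hs.comp hρ (X' := C) (fun x hx => ?_)).congr fun x _ => by rw [hρe]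
        rw [hρe]; exact hx.2
      have h2 : IsSection D C (-(a - ι (φ a))) (fun x => (u x)⁻¹) :=
        (hu.inv hu0).mono fun x hx => hx.1
      have h3 := h1.mul (h2.pow m)
      have e : ι (-(m • φ a)) + m • -(a - ι (φ a)) = -(m • a) := by
        rw [map_neg, map_nsmul, smul_neg, smul_sub]
        abel
      rw [e] at h3
      exact h3
    · refine ⟨sg z₁, hsgC z₁ hz₁, ?_⟩
      beta_reduce
      rw [hsgr]
      exact mul_ne_zero hs₁ (pow_ne_zero _ (inv_ne_zero (hu0 _ (hsgX z₁ hz₁))))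
    · refine ⟨sg z₂, hsgC z₂ hz₂, ?_⟩
      beta_reduce
      rw [hsgr, hs₂, zero_mul]
  · -- semiampleness
    intro b hb x hx
    obtain ⟨m, hm1, s, hs, hs0⟩ := hb _ ⟨x, hx, rfl⟩
    refine ⟨m, hm1, fun x => s (fun i => x i.1), ?_, hs0⟩
    have := hpb _ _ hs
    simpa only [map_nsmul] using this

end Pool.Agent.H6.Ab
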